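import Mathlib

/-!
# Task A2: the inequality

If `n'^j r ≤ (c ∑_{t<j} d^t + 1) r p^{v_p(d^j)}` for all `j ≥ 1` (`r, d ≥ 1`), then
`n' ≤ d p^{v_p d}`. Proof: `v_p(d^j) = j v_p(d)`; let `P = p^{v_p d}`, `∑_{t<j} d^t ≤ j d^j`
(as `d ≥ 1`). So `n'^j ≤ (c j d^j + 1) P^j ≤ (c j + 1) (d P)^j`. If `n' ≥ d P + 1` then
`(1 + 1/(dP))^j ≤ c j + 1` for all `j`, contradiction for large `j`
(e.g. `(1+x)^j ≥ C(j,2) x^2`, or: `(dP+1)^j` grows faster; Bernoulli twice; or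
`tendsto_pow_const_mul_const_pow_of_abs_lt_one`).
-/

namespace Pool.Agent.W_MP_b723a0_ag.P

theorem amp_arith_grow (D c : ℕ) (hD : 1 ≤ D) : ∃ j : ℕ, 1 ≤ j ∧ (c * j + 1) * D ^ j < (D + 1) ^ j := by
  have h1 : Filter.Tendsto (fun n : ℕ => (n : ℝ) ^ 1 * ((D : ℝ) / (D + 1)) ^ n)
      Filter.atTop (nhds 0) := by
    apply tendsto_pow_const_mul_const_pow_of_abs_lt_one
    rw [abs_of_nonneg (by positivity), div_lt_one (by positivity)]
    linarith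
  have h2 : Filter.Tendsto (fun n : ℕ => (n : ℝ) ^ 0 * ((D : ℝ) / (D + 1)) ^ n)
      Filter.atTop (nhds 0) := by
    apply tendsto_pow_const_mul_const_pow_of_abs_lt_one
    rw [abs_of_nonneg (by positivity), div_lt_one (by positivity)]
    linarith
  have h3 : Filter.Tendsto (fun n : ℕ => (c : ℝ) * ((n : ℝ) ^ 1 * ((D : ℝ) / (D + 1)) ^ n) +
      (n : ℝ) ^ 0 * ((D : ℝ) / (D + 1)) ^ n) Filter.atTop (nhds 0) := by
    simpa using (h1.const_mul (c : ℝ)).add h2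
  have h4 := (h3.eventually (gt_mem_nhds (zero_lt_one' ℝ))).and (Filter.eventually_ge_atTop 1)
  obtain ⟨j, hj, hj1⟩ := h4.exists
  refine ⟨j, hj1, ?_⟩
  have hpos : (0 : ℝ) < ((D : ℝ) + 1) ^ j := by positivity
  have h5 : ((c : ℝ) * j + 1) * (D : ℝ) ^ j < ((D : ℝ) + 1) ^ j := by
    rw [div_pow] at hj
    have h6 : ((c : ℝ) * j + 1) * ((D : ℝ) ^ j / ((D : ℝ) + 1) ^ j) < 1 := by
      calc _ = _ := by ring
        _ < 1 := hj
    rw [← mul_div_assoc, div_lt_one hpos] at h6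
    exact h6
  exact_mod_cast h5

theorem amp_arith (p n' r d c : ℕ) [Fact p.Prime] (hr : 1 ≤ r) (hd : 1 ≤ d)
    (h : ∀ j : ℕ, 1 ≤ j →
      n' ^ j * r ≤ (c * (∑ t ∈ Finset.range j, d ^ t) + 1) * r * p ^ padicValNat p (d ^ j)) :
    n' ≤ d * p ^ padicValNat p d := by
  have hp : 1 ≤ p := (Fact.out : p.Prime).one_lt.le
  by_contra hcon
  push Not at hcon
  set P := p ^ padicValNat p d with hP
  have hP1 : 1 ≤ P := Nat.one_le_pow _ _ hp
  have hD : 1 ≤ d * P := Nat.mul_pos hd hP1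
  obtain ⟨j, hj, hlt⟩ := amp_arith_grow (d * P) c hD
  have h1 := h j hj
  rw [padicValNat.pow, mul_comm j, pow_mul, ← hP] at h1
  have h2 : ∑ t ∈ Finset.range j, d ^ t ≤ j * d ^ j := by
    calc ∑ t ∈ Finset.range j, d ^ t ≤ ∑ _t ∈ Finset.range j, d ^ j :=
          Finset.sum_le_sum fun t ht => Nat.pow_le_pow_right hd (Finset.mem_range.1 ht).le
      _ = j * d ^ j := by simp
  have h3 : (c * (∑ t ∈ Finset.range j, d ^ t) + 1) * P ^ j ≤ (c * j + 1) * (d * P) ^ j := by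
    rw [mul_pow, ← mul_assoc]
    apply Nat.mul_le_mul_right
    have h4 : 1 ≤ d ^ j := Nat.one_le_pow _ _ hd
    nlinarith [Nat.mul_le_mul_left c h2]
  have h5 : (d * P + 1) ^ j ≤ n' ^ j := Nat.pow_le_pow_left hcon j
  have h6 : n' ^ j * r ≤ ((c * j + 1) * (d * P) ^ j) * r := by
    calc n' ^ j * r ≤ _ := h1
      _ = ((c * (∑ t ∈ Finset.range j, d ^ t) + 1) * P ^ j) * r := by ring
      _ ≤ _ := Nat.mul_le_mul_right _ h3
  have h7 : n' ^ j ≤ (c * j + 1) * (d * P) ^ j := Nat.le_of_mul_le_mul_right h6 (by omega)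
  omega

end Pool.Agent.W_MP_b723a0_ag.P
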