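import Mathlib
import Pool.Agent.W_MP_b723a0_ag.Defs

namespace Pool.Agent.W_MP_b723a0_ag.P

/-! ### Fields: Artin-Schreier form, p-bases, holomorphy ring -/

/-- The homogenised Artin-Schreier polynomial `u^p - u v^(p-1) - v^p`. -/
def asf (p : ℕ) {R : Type*} [CommRing R] (u v : R) : R := u ^ p - u * v ^ (p - 1) - v ^ p

/-- The Artin-Schreier form is anisotropic over `K`, i.e. `X^p - X - 1` has no root in `K`. -/
def ASFree (p : ℕ) (K : Type*) [Field K] : Prop := ∀ u v : K, asf p u v = 0 → u = 0 ∧ v = 0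

/-- `v_1, ..., v_n` is a p-basis of the field `K` of characteristic `p`. -/
def PBasis (p : ℕ) {K : Type*} [Field K] {n : ℕ} (v : Fin n → K) : Prop :=
  ∀ a : K, ∃! c : (Fin n → Fin p) → K, a = ∑ I, c I ^ p * ∏ l, v l ^ (I l : ℕ)

/-- `x` lies in the localisation of `A` at the ideal `m`. -/
def InLoc {K : Type*} [Field K] (A : Subring K) (m : Ideal A) (x : K) : Prop :=
  ∃ a s : A, s ∉ m ∧ x * (s : K) = (a : K)

/-- All localisations of `A` at maximal ideals are valuation rings of `K`. -/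
def LocVal {K : Type*} [Field K] (A : Subring K) : Prop :=
  ∀ m : Ideal A, m.IsMaximal → ∀ x : K, InLoc A m x ∨ InLoc A m x⁻¹

/-- The holomorphy ring of `K` over `κ`. -/
def hol (p : ℕ) (κ K : Type*) [Field κ] [Field K] [Algebra κ K] : Subalgebra κ K :=
  Algebra.adjoin κ {x : K | ∃ (b : K) (j : ℕ), j ≤ p ∧ x = b ^ j / (b ^ p - b - 1)}

/-- Iterated norm form, of degree `p ^ n` in `n + 1` variables. -/
def nf (p : ℕ) {R : Type*} [CommRing R] : (n : ℕ) → (Fin (n + 1) → R) → R
  | 0, z => z 0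
  | n + 1, z => asf p (nf p n (fun j => z j.castSucc)) (z (Fin.last (n + 1)) ^ p ^ n)

/-- Bound for the transcendence degree. -/
def TrLe (κ K : Type) [Field κ] [Field K] [Algebra κ K] (δ : ℕ) : Prop :=
  ∀ (n : ℕ) (x : Fin n → K), AlgebraicIndependent κ x → n ≤ δ

/-! ### Witt vectors -/

/-- Evaluation at `υ` of a polynomial with coefficients in `W(K)` after applying `F^m` to the
coefficients. -/
noncomputable def evF (p : ℕ) [Fact p.Prime] (K k : Type) [Field K] [CharP K p] [Field k]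
    [CharP k p] [Algebra K k] (m : ℕ) {σ : Type*} (υ : σ → WittVector p k)
    (G : MvPolynomial σ (WittVector p K)) : WittVector p k :=
  MvPolynomial.eval₂ (WittVector.map ((algebraMap K k).comp (iterateFrobenius K p m))) υ G

/-- `t` is a lift of `a` to Witt vectors. -/
def IsLift (p : ℕ) [Fact p.Prime] {k σ : Type*} [CommRing k] (a : σ → k)
    (t : σ → WittVector p k) : Prop := ∀ j, (t j).coeff 0 = a j

/-- Value of the form `f` at `X(t) z`. -/
noncomputable def fval (p : ℕ) [Fact p.Prime] {k : Type} [Field k] [CharP k p] {N M : ℕ}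
    (f : MvPolynomial (Fin (N + 1)) ℤ_[p]) (X : Fin (N + 1) → Fin (N + 1) → MvPolynomial (Fin M) ℤ)
    (t : Fin M → WittVector p k) (z : Fin (N + 1) → WittVector p k) : WittVector p k :=
  MvPolynomial.eval₂ (zpToWitt p k) (fun a => ∑ b, MvPolynomial.aeval t (X a b) * z b) f

/-! ### Multigraded polynomial ring -/

/-- Variables: `N + 1` homogeneous coordinates `z`, and `q` pairs of coordinates of `P^1`. -/
abbrev Vr (N q : ℕ) : Type := Fin (N + 1) ⊕ Fin q × Bool

/-- The multigraded polynomial ring. -/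
abbrev Sr (κ : Type) [Field κ] (N q : ℕ) : Type := MvPolynomial (Vr N q) κ

/-- The index of the grading of a variable. -/
def gidx {N q : ℕ} : Vr N q → Fin (q + 1)
  | Sum.inl _ => 0
  | Sum.inr kb => kb.1.succ

/-- The weights. -/
def wt (N q : ℕ) : Vr N q → (Fin (q + 1) → ℕ) := fun x => Pi.single (gidx x) 1

/-- Homogeneous elements of degree `m`. -/
noncomputable abbrev Sm (κ : Type) [Field κ] (N q : ℕ) (m : Fin (q + 1) → ℕ) :
    Submodule κ (Sr κ N q) :=
  MvPolynomial.weightedHomogeneousSubmodule κ (wt N q) m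

/-- Multihomogeneous ideals. -/
def HomI {κ : Type} [Field κ] {N q : ℕ} (I : Ideal (Sr κ N q)) : Prop :=
  ∀ g ∈ I, ∀ m, MvPolynomial.weightedHomogeneousComponent (wt N q) m g ∈ I

/-- The ideal `(I : a)`. -/
def colonI {κ : Type} [Field κ] {N q : ℕ} (I : Ideal (Sr κ N q)) (a : Sr κ N q) :
    Ideal (Sr κ N q) where
  carrier := {x | a * x ∈ I}
  add_mem' := fun {x y} hx hy => by
    simp only [Set.mem_ofPred_eq] at *
    rw [mul_add]
    exact I.add_mem hx hy
  zero_mem' := by simp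
  smul_mem' := fun c x hx => by
    simp only [Set.mem_ofPred_eq, smul_eq_mul] at *
    rw [mul_left_comm]
    exact I.mul_mem_left c hx

/-- Hilbert function of `S / I`. -/
noncomputable def hil {κ : Type} [Field κ] {N q : ℕ} (I : Ideal (Sr κ N q))
    (m : Fin (q + 1) → ℕ) : ℤ :=
  (Module.finrank κ (Sm κ N q m) : ℤ) -
    Module.finrank κ ↥(Sm κ N q m ⊓ I.restrictScalars κ)

/-- The degree `e_0` (degree one in the `z`-variables). -/
def e0 (q : ℕ) : Fin (q + 1) → ℕ := Pi.single 0 1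

/-- Forward difference in the `z`-direction. -/
def fwd {A : Type*} [AddCommGroup A] {q : ℕ} (f : (Fin (q + 1) → ℕ) → A)
    (m : Fin (q + 1) → ℕ) : A := f (m + e0 q) - f m

/-- The `r`-th difference (in the `z`-direction) of the Hilbert function of `S / I` is divisible
by `p` in all large degrees. -/
def Kill (p : ℕ) {κ : Type} [Field κ] {N q : ℕ} (r : ℕ) (I : Ideal (Sr κ N q)) : Prop :=
  ∃ B : ℕ, ∀ m : Fin (q + 1) → ℕ, (∀ k, B ≤ m k) →
    (fwd^[r] (fun m => ((hil I m : ℤ) : ZMod p))) m = 0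

/-- The form `Q = n(z) ∏ (u_k^p - u_k v_k^(p-1) - v_k^p)`. -/
noncomputable def Qf (p : ℕ) (κ : Type) [Field κ] (N q : ℕ) : Sr κ N q :=
  nf p N (fun j => MvPolynomial.X (Sum.inl j)) *
    ∏ k : Fin q, asf p (MvPolynomial.X (Sum.inr (k, false))) (MvPolynomial.X (Sum.inr (k, true)))

/-- The degree of `Q`. -/
def degQ (p N q : ℕ) : Fin (q + 1) → ℕ := Fin.cons (p ^ N) (fun _ => p)

/-! ### Points of `P^N × (P^1)^q` -/

/-- A point of `P^N × (P^1)^q` with values in `K`. -/
structure Pt (N q : ℕ) (K : Type) [Field K] where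
  z : Fin (N + 1) → K
  u : Fin q → K
  v : Fin q → K
  hz : ∃ j, z j ≠ 0
  huv : ∀ k, u k ≠ 0 ∨ v k ≠ 0

/-- Coordinates of a point. -/
def Pt.val {N q : ℕ} {K : Type} [Field K] (pt : Pt N q K) : Vr N q → K
  | Sum.inl j => pt.z j
  | Sum.inr kb => if kb.2 then pt.v kb.1 else pt.u kb.1

/-- Evaluation at a point. -/
noncomputable def Pt.ev {N q : ℕ} (κ : Type) [Field κ] {K : Type} [Field K] [Algebra κ K]
    (pt : Pt N q K) : Sr κ N q →ₐ[κ] K := MvPolynomial.aeval pt.val

/-- The multigraded evaluation. -/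
noncomputable def Pt.big {N q : ℕ} (κ : Type) [Field κ] {K : Type} [Field K] [Algebra κ K]
    (pt : Pt N q K) : Sr κ N q →ₐ[κ] MvPolynomial (Fin (q + 1)) K :=
  MvPolynomial.aeval (fun x => MvPolynomial.C (pt.val x) * MvPolynomial.X (gidx x))

/-- The multihomogeneous prime ideal of a point. -/
noncomputable def Pt.P {N q : ℕ} (κ : Type) [Field κ] {K : Type} [Field K] [Algebra κ K]
    (pt : Pt N q K) : Ideal (Sr κ N q) := RingHom.ker (pt.big κ)

/-- `K` consists of the quotients of homogeneous forms of the same degree at the point. -/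
def Pt.Gen {N q : ℕ} (κ : Type) [Field κ] {K : Type} [Field K] [Algebra κ K]
    (pt : Pt N q K) : Prop :=
  ∀ x : K, ∃ (m : Fin (q + 1) → ℕ) (g h : Sr κ N q), g ∈ Sm κ N q m ∧ h ∈ Sm κ N q m ∧
    pt.ev κ h ≠ 0 ∧ x * pt.ev κ h = pt.ev κ g

/-- Add the coordinate `(b : 1)`. -/
def Pt.snoc {N q : ℕ} {K : Type} [Field K] (pt : Pt N q K) (b : K) : Pt N (q + 1) K where
  z := pt.z
  u := Fin.snoc pt.u b
  v := Fin.snoc pt.v 1
  hz := pt.hz
  huv := by
    intro k
    refine Fin.lastCases ?_ (fun k => ?_) k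
    · right; simp
    · simpa using pt.huv k

/-- The inclusion of polynomial rings. -/
noncomputable def emb (κ : Type) [Field κ] (N q : ℕ) : Sr κ N q →ₐ[κ] Sr κ N (q + 1) :=
  MvPolynomial.rename (Sum.map id (Prod.map Fin.castSucc id))

/-- Extensions of a point by adding coordinates. -/
inductive Ext {N : ℕ} {K : Type} [Field K] : {q q' : ℕ} → Pt N q K → Pt N q' K → Prop
  | refl {q : ℕ} (pt : Pt N q K) : Ext pt pt
  | snoc {q q' : ℕ} {pt : Pt N q K} {pt' : Pt N q' K} (h : Ext pt pt') (b : K) :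
      Ext pt (pt'.snoc b)

/-! ### The level of a prime ideal -/

/-- Level `i` data on an ideal: over the locus `Q ≠ 0` of `V(I)` there are parameters
`t_j = a_j / Q^c` and a matrix `X(t)` with `X(t) z = z`, such that for all Witt vector lifts of
`t` and `z` the values `f_s(X(t) z)` are divisible by `p^i`. -/
def Level (p : ℕ) [Fact p.Prime] {κ : Type} [Field κ] {N q r : ℕ}
    (f : Fin r → MvPolynomial (Fin (N + 1)) ℤ_[p]) (i : ℕ) (I : Ideal (Sr κ N q)) : Prop :=
  ∃ (M c : ℕ) (a : Fin M → Sr κ N q)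
    (X : Fin (N + 1) → Fin (N + 1) → MvPolynomial (Fin M) ℤ),
    (∀ j, a j ∈ Sm κ N q (c • degQ p N q)) ∧
    ∀ (k : Type) [Field k] [CharP k p] [PerfectRing k p] (φ : Sr κ N q →+* k),
      (∀ x ∈ I, φ x = 0) → φ (Qf p κ N q) ≠ 0 →
      ∀ t₀ : Fin M → k, (∀ j, t₀ j * φ (Qf p κ N q) ^ c = φ (a j)) →
        (∀ j, ∑ b, MvPolynomial.aeval t₀ (X j b) * φ (MvPolynomial.X (Sum.inl b)) =
          φ (MvPolynomial.X (Sum.inl j))) ∧
        ∀ (t : Fin M → WittVector p k) (z : Fin (N + 1) → WittVector p k),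
          IsLift p t₀ t → IsLift p (fun b => φ (MvPolynomial.X (Sum.inl b))) z →
          ∀ s, (p : WittVector p k) ^ i ∣ fval p (f s) X t z

/-- Forward difference in the direction `k` (`fwd = dif 0`). -/
def dif {A : Type*} [AddCommGroup A] {q : ℕ} (k : Fin (q + 1)) (f : (Fin (q + 1) → ℕ) → A)
    (m : Fin (q + 1) → ℕ) : A := f (m + Pi.single k 1) - f m

/-- `K` is generated, as a ring, by finitely many elements over the subfield of `p`-th powers. -/
def FGp (p : ℕ) [Fact p.Prime] (K : Type) [Field K] [CharP K p] : Prop :=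
  ∃ (n : ℕ) (x : Fin n → K), ∀ a : K, ∃ G : MvPolynomial (Fin n) K,
    a = MvPolynomial.eval₂ (frobenius K p) x G

/-- The subring of `W(K)` generated by `F(W(K))` and the Teichmüller representatives `[v_l]`. -/
noncomputable def Rv (p : ℕ) [Fact p.Prime] {K : Type} [Field K] {n : ℕ} (v : Fin n → K) :
    Subring (WittVector p K) :=
  Subring.closure (Set.range (WittVector.frobenius (p := p) (R := K)) ∪
    Set.range (fun l => WittVector.teichmuller p (v l)))

/-- A chart: a p-basis `v`, a weight `δ`, an index `l`, and expansions. -/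
structure Chart (p : ℕ) (K : Type) (M N : ℕ) where
  n : ℕ
  v : Fin n → K
  δ : K
  l : Fin (N + 1)
  e : Fin M → (Fin n → Fin p) → K
  c : Fin (N + 1) → (Fin n → Fin p) → K

/-- The chart expands `δ^p t_j` and `δ^p z_b / z_l`. -/
structure Chart.OK {p : ℕ} {K : Type} [Field K] {M N : ℕ} (C : Chart p K M N) (t : Fin M → K)
    (z : Fin (N + 1) → K) : Prop where
  pb : PBasis p C.v
  hl : z C.l ≠ 0
  he : ∀ j, ∑ I, C.e j I ^ p * ∏ x, C.v x ^ (I x : ℕ) = C.δ ^ p * t j
  hc : ∀ b, z C.l * ∑ I, C.c b I ^ p * ∏ x, C.v x ^ (I x : ℕ) = C.δ ^ p * z b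

/-- A lift of the coefficients of a chart to Witt vectors over `k`. -/
structure Chart.Lift {p : ℕ} [Fact p.Prime] {K : Type} [Field K] {M N : ℕ} (C : Chart p K M N)
    (k : Type) [Field k] [Algebra K k] where
  v : Fin C.n → WittVector p k
  e : Fin M → (Fin C.n → Fin p) → WittVector p k
  c : Fin (N + 1) → (Fin C.n → Fin p) → WittVector p k
  hv : ∀ x, (v x).coeff 0 = algebraMap K k (C.v x)
  he : ∀ j I, (e j I).coeff 0 = algebraMap K k (C.e j I)
  hc : ∀ b I, (c b I).coeff 0 = algebraMap K k (C.c b I)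

/-- The value `∑ e^p v^I` of the lifted chart. -/
noncomputable def Chart.Lift.tval {p : ℕ} [Fact p.Prime] {K : Type} [Field K] {M N : ℕ}
    {C : Chart p K M N} {k : Type} [Field k] [Algebra K k] (Λ : C.Lift k) (j : Fin M) :
    WittVector p k :=
  ∑ I, Λ.e j I ^ p * ∏ x, Λ.v x ^ (I x : ℕ)

/-- The value `z_l ∑ c^p v^I` of the lifted chart. -/
noncomputable def Chart.Lift.zval {p : ℕ} [Fact p.Prime] {K : Type} [Field K] {M N : ℕ}
    {C : Chart p K M N} {k : Type} [Field k] [Algebra K k] (Λ : C.Lift k)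
    (zh : Fin (N + 1) → WittVector p k) (b : Fin (N + 1)) : WittVector p k :=
  zh C.l * ∑ I, Λ.c b I ^ p * ∏ x, Λ.v x ^ (I x : ℕ)

/-- Elements of `K` which are of the form `a(pt) / Q(pt)^c`. -/
def Reg (p : ℕ) {N q : ℕ} (κ : Type) [Field κ] {K : Type} [Field K] [Algebra κ K]
    (pt : Pt N q K) (x : K) : Prop :=
  ∃ (c : ℕ) (a : Sr κ N q), a ∈ Sm κ N q (c • degQ p N q) ∧
    x * pt.ev κ (Qf p κ N q) ^ c = pt.ev κ a

end Pool.Agent.W_MP_b723a0_ag.P
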