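import Mathlib
import Pool.Agent.W_MP_b723a0_ag.Defs
import Pool.Agent.W_MP_b723a0_ag.Newton
import Pool.Agent.W_MP_b723a0_ag.P.Defs

/-!
# Task A1: amplification by composition

`f = (f_1, ..., f_r)`: forms of degree `d ≥ 1` over `ℤ_p` in the variables `Fin n' × Fin r`, such
that no `x ∈ W(κ)^{n' × r}` with a coordinate not divisible by `p` satisfies `p^{c+1} ∣ f_s(x)` for all
`s`. Define `f^{(1)} = f` and `f^{(j+1)}(x_1, ..., x_{n'}) = f(f^{(j)}(x_1), ..., f^{(j)}(x_{n'}))` where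
the `x_l` are disjoint sets of variables (`x_l ∈ W^{σ_j}`, and `(f^{(j)}(x_l))_{l,s}` is a point of
`W^{n' × r}`); so `f^{(j)}` consists of `r` forms of degree `d^j` in `n'^j r` variables. With
`c_j = c (1 + d + ... + d^{j-1})` there is no primitive `x` with `p^{c_j + 1} ∣ f^{(j)}_s(x)` for all
`s`: let `x = (x_l)` be primitive for `f^{(j+1)}`; some `x_l` is primitive, so the vector
`y = (f^{(j)}_s(x_l))_{l,s}` is not divisible by `p^{c_j+1}`; `y = p^u y'` with `u ≤ c_j` and `y'`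
primitive; `f(y) = p^{du} f(y')` and `p^{c+1}` does not divide all `f_s(y')`, so `p^{d c_j + c + 1}`
does not divide all `f_s(y)` (`W(κ)` is a domain, `κ` perfect).

The variables are reindexed by `Fin (n'^j * r)` in the statement (`Fintype.equivFin`). The case
`j = 0` is not needed; induct from `j = 1`.
-/

namespace Pool.Agent.W_MP_b723a0_ag.P

theorem amp_eval₂_mul {A B σ : Type*} [CommRing A] [CommRing B]
    (φ : A →+* B) (d : ℕ) (f : MvPolynomial σ A) (hf : f.IsHomogeneous d) (c : B) (x : σ → B) :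
    MvPolynomial.eval₂ φ (fun i => c * x i) f = c ^ d * MvPolynomial.eval₂ φ x f := by
  rw [MvPolynomial.eval₂_eq, MvPolynomial.eval₂_eq, Finset.mul_sum]
  refine Finset.sum_congr rfl fun m hm => ?_
  have hm' : m.degree = d := by
    by_contra hne
    exact (MvPolynomial.mem_support_iff.1 hm) (hf.coeff_eq_zero hne)
  have h1 : ∏ i ∈ m.support, (c * x i) ^ m i = c ^ d * ∏ i ∈ m.support, x i ^ m i := by
    rw [← hm', Finsupp.degree_apply]
    simp_rw [mul_pow]
    rw [Finset.prod_mul_distrib, Finset.prod_pow_eq_pow_sum]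
  rw [h1]
  ring

/-- Dividing a vector by the largest power of `q` which divides all its entries. -/
theorem amp_exists_primitive {B σ : Type*} [CommRing B] (q : B) (k : ℕ) (y : σ → B)
    (hy : ¬ ∀ a, q ^ (k + 1) ∣ y a) :
    ∃ (u : ℕ) (y' : σ → B), u ≤ k ∧ (∀ a, y a = q ^ u * y' a) ∧ ∃ a, ¬ q ∣ y' a := by
  classical
  have hex : ∃ m, ¬ ∀ a, q ^ m ∣ y a := ⟨k + 1, hy⟩
  have h0 : Nat.find hex ≠ 0 := by
    intro h
    have h1 := Nat.find_spec hex
    rw [h] at h1
    exact h1 (fun a => by simp)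
  obtain ⟨u, hu⟩ := Nat.exists_eq_succ_of_ne_zero h0
  have h2 : ∀ a, q ^ u ∣ y a := by
    have h3 := Nat.find_min hex (m := u) (by omega)
    exact not_not.1 h3
  choose y' hy' using h2
  refine ⟨u, y', ?_, hy', ?_⟩
  · have := Nat.find_min' hex hy
    omega
  · by_contra hcon
    push Not at hcon
    have h4 := Nat.find_spec hex
    rw [hu] at h4
    apply h4
    intro a
    obtain ⟨z, hz⟩ := hcon a
    refine ⟨z, ?_⟩
    rw [hy' a, hz, pow_succ]
    ring

theorem amp_step {A B : Type*} [CommRing A] [CommRing B] [IsDomain B] (φ : A →+* B) (q : B)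
    (hq : q ≠ 0) {τ σ : Type*} {r d D c k : ℕ} (f : Fin r → MvPolynomial (τ × Fin r) A)
    (hf : ∀ s, (f s).IsHomogeneous d)
    (hno : ∀ x : τ × Fin r → B, (∃ a, ¬ q ∣ x a) →
      ¬ ∀ s, q ^ (c + 1) ∣ MvPolynomial.eval₂ φ x (f s))
    (F : Fin r → MvPolynomial σ A) (hF : ∀ s, (F s).IsHomogeneous D)
    (hno' : ∀ x : σ → B, (∃ a, ¬ q ∣ x a) →
      ¬ ∀ s, q ^ (k + 1) ∣ MvPolynomial.eval₂ φ x (F s)) :
    ∃ G : Fin r → MvPolynomial (τ × σ) A, (∀ s, (G s).IsHomogeneous (D * d)) ∧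
      ∀ x : τ × σ → B, (∃ a, ¬ q ∣ x a) →
        ¬ ∀ s, q ^ (d * k + c + 1) ∣ MvPolynomial.eval₂ φ x (G s) := by
  let g : τ × Fin r → MvPolynomial (τ × σ) A := fun ls =>
    MvPolynomial.rename (fun a => (ls.1, a)) (F ls.2)
  refine ⟨fun s => MvPolynomial.bind₁ g (f s), fun s => ?_, ?_⟩
  · exact (hf s).aeval g (fun i => (hF i.2).rename_isHomogeneous)
  · rintro x ⟨⟨l₀, a₀⟩, hx⟩ hcon
    let y : τ × Fin r → B := fun ls => MvPolynomial.eval₂ φ (fun a => x (ls.1, a)) (F ls.2)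
    have hev : ∀ s, MvPolynomial.eval₂ φ x (MvPolynomial.bind₁ g (f s)) =
        MvPolynomial.eval₂ φ y (f s) := by
      intro s
      have h1 := MvPolynomial.eval₂Hom_bind₁ φ x g (f s)
      simp only [MvPolynomial.coe_eval₂Hom] at h1
      rw [h1]
      congr 1
      funext ls
      show MvPolynomial.eval₂ φ x (MvPolynomial.rename (fun a => (ls.1, a)) (F ls.2)) = _
      rw [MvPolynomial.eval₂_rename]
      rfl
    have hy : ¬ ∀ a, q ^ (k + 1) ∣ y a := by
      intro h
      exact hno' (fun a => x (l₀, a)) ⟨a₀, hx⟩ (fun s => h (l₀, s))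
    obtain ⟨u, y', hu, hyy, hprim⟩ := amp_exists_primitive q k y hy
    apply hno y' hprim
    intro s
    have h2 := hcon s
    rw [hev s] at h2
    have h3 : y = fun a => q ^ u * y' a := funext hyy
    rw [h3, amp_eval₂_mul φ d (f s) (hf s), ← pow_mul] at h2
    have h4 : q ^ (u * d) * q ^ (c + 1) ∣ q ^ (u * d) * MvPolynomial.eval₂ φ y' (f s) := by
      refine dvd_trans ?_ h2
      rw [← pow_add]
      refine pow_dvd_pow q ?_
      have : u * d ≤ d * k := by
        rw [mul_comm]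
        exact Nat.mul_le_mul_left d hu
      omega
    exact (mul_dvd_mul_iff_left (pow_ne_zero _ hq)).1 h4

theorem amplify {p : ℕ} [Fact p.Prime] {κ : Type} [Field κ] [CharP κ p] [PerfectRing κ p]
    (n' r d c : ℕ) (hd : 1 ≤ d) (f : Fin r → MvPolynomial (Fin n' × Fin r) ℤ_[p])
    (hf : ∀ s, (f s).IsHomogeneous d)
    (hno : ∀ x : Fin n' × Fin r → WittVector p κ, (∃ a, ¬ (p : WittVector p κ) ∣ x a) →
      ¬ ∀ s, (p : WittVector p κ) ^ (c + 1) ∣ MvPolynomial.eval₂ (zpToWitt p κ) x (f s))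
    (j : ℕ) (hj : 1 ≤ j) :
    ∃ F : Fin r → MvPolynomial (Fin (n' ^ j * r)) ℤ_[p], (∀ s, (F s).IsHomogeneous (d ^ j)) ∧
      ∀ x : Fin (n' ^ j * r) → WittVector p κ, (∃ a, ¬ (p : WittVector p κ) ∣ x a) →
        ¬ ∀ s, (p : WittVector p κ) ^ (c * (∑ t ∈ Finset.range j, d ^ t) + 1) ∣
          MvPolynomial.eval₂ (zpToWitt p κ) x (F s) := by
  have hq : (p : WittVector p κ) ≠ 0 := (WittVector.irreducible p).ne_zero
  clear hj
  induction j with
  | zero =>
    have e : Fin r ≃ Fin (n' ^ 0 * r) := finCongr (by simp)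
    refine ⟨fun s => MvPolynomial.X (e s), fun s => ?_, ?_⟩
    · have h1 := MvPolynomial.isHomogeneous_X ℤ_[p] (e s)
      have h2 : ∀ D : ℕ, D = 1 → (MvPolynomial.X (e s) :
          MvPolynomial (Fin (n' ^ 0 * r)) ℤ_[p]).IsHomogeneous D := by
        rintro _ rfl
        exact h1
      exact h2 _ (pow_zero d)
    · rintro x ⟨a, ha⟩ hcon
      apply ha
      have h1 := hcon (e.symm a)
      rw [MvPolynomial.eval₂_X, e.apply_symm_apply] at h1
      simpa using h1
  | succ j ih =>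
    obtain ⟨F, hF, hF'⟩ := ih
    obtain ⟨G, hG, hG'⟩ := amp_step (zpToWitt p κ) (p : WittVector p κ) hq f hf hno F hF hF'
    have e : Fin n' × Fin (n' ^ j * r) ≃ Fin (n' ^ (j + 1) * r) :=
      finProdFinEquiv.trans (finCongr (by rw [pow_succ]; ring))
    refine ⟨fun s => MvPolynomial.rename e (G s), fun s => ?_, ?_⟩
    · have h1 := (hG s).rename_isHomogeneous (f := e)
      have h2 : d ^ (j + 1) = d ^ j * d := pow_succ d j
      exact h2.symm ▸ h1
    · rintro x ⟨a, ha⟩ hcon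
      apply hG' (fun i => x (e i)) ⟨e.symm a, by simpa using ha⟩
      intro s
      have h1 := hcon s
      rw [MvPolynomial.eval₂_rename] at h1
      refine dvd_trans (pow_dvd_pow _ ?_) h1
      rw [geom_sum_succ]
      apply le_of_eq
      ring

end Pool.Agent.W_MP_b723a0_ag.P
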