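import Mathlib
import Pool.Agent.W_MP_b723a0_ag.Defs
import Pool.Agent.W_MP_b723a0_ag.Kap
import Pool.Agent.W_MP_b723a0_ag.P.Defs

/-!
# Task AS: the Artin-Schreier polynomial

`irreducible_as`: `X^p - X - 1` is irreducible over `F_p`. Proof: let `α` be a root in an
extension (e.g. `AdjoinRoot` of an irreducible factor, or a splitting field). The roots are
`α + i`, `i ∈ F_p`. If a monic factor over `F_p` has degree `0 < m < p` then the sum of its
roots `m α + c` (`c ∈ F_p`) is in `F_p`, so `α ∈ F_p`, but `x^p - x - 1 = -1 ≠ 0` for `x ∈ F_p`.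
(Alternatively: if `p ∤ [F_p(α) : F_p]`... or: Frobenius acts as `α ↦ α + 1`, so it has order `p`
on `α`, hence `F_p(α)` has degree `p`.)

`irreducible_as_kap`: `IsKap.irreducible_map` (in `Kap.lean`) with `ℓ = p`, `b = 1`.

`asFree_iff`: `asf p u v = 0` with `v ≠ 0` gives the root `u / v`; with `v = 0`, `u = 0`.
`hroot_of_asFree`: the hypothesis of `pac_lite` for `μ = X^p - X - 1`.
-/

namespace Pool.Agent.W_MP_b723a0_ag.P

theorem natDegree_as (p : ℕ) [Fact p.Prime] (R : Type*) [CommRing R] [Nontrivial R] :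
    (Polynomial.X ^ p - Polynomial.X - 1 : Polynomial R).natDegree = p := by
  have hp : 1 < p := (Fact.out : p.Prime).one_lt
  have h1 : (Polynomial.X ^ p - Polynomial.X : Polynomial R).natDegree = p := by
    rw [Polynomial.natDegree_sub_eq_left_of_natDegree_lt, Polynomial.natDegree_X_pow]
    rw [Polynomial.natDegree_X_pow, Polynomial.natDegree_X]
    exact hp
  have h2 : (Polynomial.X ^ p - Polynomial.X - 1 : Polynomial R) =
      (Polynomial.X ^ p - Polynomial.X) - Polynomial.C 1 := by rw [Polynomial.C_1]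
  rw [h2, Polynomial.natDegree_sub_C, h1]

theorem irreducible_as (p : ℕ) [Fact p.Prime] :
    Irreducible (Polynomial.X ^ p - Polynomial.X - 1 : Polynomial (ZMod p)) := by
  have hp : p.Prime := Fact.out
  set f : Polynomial (ZMod p) := Polynomial.X ^ p - Polynomial.X - 1 with hf
  have hdeg : f.natDegree = p := natDegree_as p (ZMod p)
  have hf0 : f ≠ 0 := by
    intro h
    rw [h, Polynomial.natDegree_zero] at hdeg
    exact hp.ne_zero hdeg.symm
  have hfu : ¬ IsUnit f := by
    intro h
    have := Polynomial.natDegree_eq_zero_of_isUnit h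
    rw [hdeg] at this
    exact hp.ne_zero this
  obtain ⟨g, hg, hgf⟩ := WfDvdMonoid.exists_irreducible_factor hfu hf0
  have : Fact (Irreducible g) := ⟨hg⟩
  have hCh : CharP (AdjoinRoot g) p := charP_of_injective_algebraMap' (ZMod p) p
  set α : AdjoinRoot g := AdjoinRoot.root g with hα
  have hgα : Polynomial.aeval α g = 0 := by
    rw [AdjoinRoot.aeval_eq, AdjoinRoot.mk_self]
  have hfα : α ^ p = α + 1 := by
    have h1 : Polynomial.aeval α f = 0 := by
      obtain ⟨h, hh⟩ := hgf
      rw [hh, map_mul, hgα, zero_mul]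
    rw [hf] at h1
    simp only [map_sub, map_pow, Polynomial.aeval_X, map_one] at h1
    linear_combination h1
  have hiter : ∀ i : ℕ, α ^ p ^ i = α + i := by
    intro i
    induction i with
    | zero => simp
    | succ i ih =>
      rw [pow_succ, pow_mul, ih, add_pow_char, hfα]
      have : ((i : AdjoinRoot g)) ^ p = (i : AdjoinRoot g) := by
        rw [← map_natCast (algebraMap (ZMod p) (AdjoinRoot g)) i, ← map_pow, ZMod.pow_card]
      rw [this]
      push_cast
      ring
  have h2 : g ∣ Polynomial.X ^ p ^ g.natDegree - Polynomial.X := by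
    have := hg.natDegree_dvd_iff_dvd_X_pow_card_pow_sub_X.1 (dvd_refl g.natDegree)
    rwa [Nat.card_zmod] at this
  have h3 : α ^ p ^ g.natDegree = α := by
    have := Polynomial.aeval_eq_zero_of_dvd_aeval_eq_zero h2 hgα
    simpa [sub_eq_zero] using this
  rw [hiter] at h3
  have h4 : ((g.natDegree : ℕ) : AdjoinRoot g) = 0 := by
    linear_combination h3
  have h5 : p ∣ g.natDegree := (CharP.cast_eq_zero_iff (AdjoinRoot g) p _).1 h4
  have h6 : p ≤ g.natDegree := Nat.le_of_dvd hg.natDegree_pos h5
  exact (Polynomial.associated_of_dvd_of_natDegree_le hgf hf0 (by rw [hdeg]; exact h6)).irreducible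
    hg

theorem irreducible_as_kap {p : ℕ} [Fact p.Prime] {κ : Type} [Field κ] [CharP κ p]
    (hκ : IsKap p p κ) : Irreducible (Polynomial.X ^ p - Polynomial.X - 1 : Polynomial κ) := by
  have hp : p.Prime := Fact.out
  have h := hκ.irreducible_map hp 1 _ (irreducible_as p)
    (by rw [natDegree_as, pow_one])
  simpa using h

theorem asFree_iff (p : ℕ) [Fact p.Prime] (K : Type*) [Field K] :
    ASFree p K ↔ ∀ x : K, x ^ p - x - 1 ≠ 0 := by
  have hp : p.Prime := Fact.out
  constructor
  · intro h x hx
    have := (h x 1 (by unfold asf; rw [one_pow, one_pow, mul_one]; exact hx)).2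
    exact one_ne_zero this
  · intro h u v huv
    unfold asf at huv
    by_cases hv : v = 0
    · refine ⟨?_, hv⟩
      rw [hv, zero_pow hp.ne_zero, zero_pow (Nat.sub_ne_zero_of_lt hp.one_lt), mul_zero, sub_zero,
        sub_zero] at huv
      exact pow_eq_zero_iff hp.ne_zero |>.1 huv
    · exfalso
      apply h (u / v)
      have h1 : v ^ p ≠ 0 := pow_ne_zero _ hv
      have h2 : v ^ p = v ^ (p - 1) * v := by
        rw [← pow_succ, Nat.sub_add_cancel hp.one_le]
      rw [div_pow]
      have h3 : u / v = u * v ^ (p - 1) / v ^ p := by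
        rw [h2, div_eq_div_iff hv (by rw [← h2]; exact h1)]
        ring
      rw [h3, ← sub_div, sub_eq_zero, div_eq_one_iff_eq h1]
      linear_combination huv

theorem asFree_of_ringHom {p : ℕ} [Fact p.Prime] {K L : Type*} [Field K] [Field L] (φ : K →+* L)
    (h : ASFree p L) : ASFree p K := by
  rw [asFree_iff] at h ⊢
  intro x hx
  apply h (φ x)
  rw [← map_pow, ← map_sub, ← map_one φ, ← map_sub, hx, map_zero]

theorem asFree_kap {p : ℕ} [Fact p.Prime] {κ : Type} [Field κ] [CharP κ p]
    (hκ : IsKap p p κ) : ASFree p κ := by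
  have hp : p.Prime := Fact.out
  rw [asFree_iff]
  intro x hx
  have hirr := irreducible_as_kap hκ
  have hroot : Polynomial.IsRoot (Polynomial.X ^ p - Polynomial.X - 1 : Polynomial κ) x := by
    rw [Polynomial.IsRoot.def]
    simpa using hx
  have h1 := Polynomial.degree_eq_one_of_irreducible_of_root hirr hroot
  have h2 := Polynomial.natDegree_eq_of_degree_eq_some h1
  rw [natDegree_as] at h2
  exact hp.one_lt.ne' h2

theorem hroot_of_asFree {p : ℕ} [Fact p.Prime] {κ : Type} [Field κ] [CharP κ p] {F : Type}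
    [Field F] [Algebra κ F] (h : ASFree p F) (α : F) :
    (Polynomial.X ^ p - Polynomial.X - 1 : Polynomial (ZMod p)).eval₂
      ((algebraMap κ F).comp (ZMod.castHom (dvd_refl p) κ)) α ≠ 0 := by
  rw [asFree_iff] at h
  have h1 := h α
  simpa using h1

end Pool.Agent.W_MP_b723a0_ag.P
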