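import Mathlib
import Pool.Agent.W_MP_b723a0_ag.P.Defs

/-!
# Task E0: basic facts on multigraded Hilbert functions

`Sr κ N q = κ[z_0..z_N, u_k, v_k (k < q)]`, graded by `Fin (q+1) → ℕ` (`z` has index 0, `u_k, v_k`
have index `k+1`); `Sm κ N q m` is the degree `m` part, `hil I m = dim (S/I)_m`.

All statements are elementary: `Sm κ N q m` is spanned by the finitely many monomials of degree
`m`; `HomI I` says that `I` contains the homogeneous components of its elements (equivalently
`I.IsHomogeneous` for `MvPolynomial.weightedGradedAlgebra`/`weightedDecomposition`; see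
`hstable_isHom_iff`, `hstable_comp_mul`, `hstable_sup_hom` in `HStable.lean` for the `ℕ`-graded
analogue); if all variables of index `k` are in `I` then every monomial of degree `m` with
`1 ≤ m k` is in `I`, so `hil I m = 0`. `Kill.mono`: differences of a function vanishing in all
large degrees vanish in all large degrees.
-/

namespace Pool.Agent.W_MP_b723a0_ag.P

/-- The `k`-th coordinate of the weight of a monomial. -/
theorem hb_weight_apply {N q : ℕ} (d : Vr N q →₀ ℕ) (k : Fin (q + 1)) :
    Finsupp.weight (wt N q) d k = ∑ x ∈ d.support, if gidx x = k then d x else 0 := by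
  rw [Finsupp.weight_apply, Finsupp.sum, Finset.sum_apply]
  refine Finset.sum_congr rfl fun x _ => ?_
  rw [Pi.smul_apply, smul_eq_mul]
  unfold wt
  by_cases h : gidx x = k
  · rw [if_pos h, h, Pi.single_eq_same, mul_one]
  · rw [if_neg h, Pi.single_eq_of_ne (Ne.symm h), mul_zero]

theorem hb_sum_weight {N q : ℕ} (d : Vr N q →₀ ℕ) :
    ∑ k, Finsupp.weight (wt N q) d k = Finsupp.degree d := by
  simp_rw [hb_weight_apply]
  rw [Finset.sum_comm]
  simp only [Finset.sum_ite_eq, Finset.mem_univ, if_true]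
  rfl

theorem hb_finite {N q : ℕ} (m : Fin (q + 1) → ℕ) :
    ({d : Vr N q →₀ ℕ | Finsupp.weight (wt N q) d = m}).Finite := by
  refine Set.Finite.subset (Finsupp.finite_of_degree_le (σ := Vr N q) (∑ k, m k)) ?_
  intro d hd
  have hd' : Finsupp.weight (wt N q) d = m := hd
  have h := hb_sum_weight d
  rw [hd'] at h
  exact h.symm.le

theorem finite_Sm (κ : Type) [Field κ] (N q : ℕ) (m : Fin (q + 1) → ℕ) :
    Module.Finite κ (Sm κ N q m) := by
  have hfin := (hb_finite (N := N) (q := q) m).to_subtype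
  show Module.Finite κ ↥(MvPolynomial.weightedHomogeneousSubmodule κ (wt N q) m)
  rw [MvPolynomial.weightedHomogeneousSubmodule_eq_finsupp_supported]
  exact Module.Finite.of_basis
    (MvPolynomial.basisRestrictSupport κ {d | Finsupp.weight (wt N q) d = m})

theorem hil_nonneg {κ : Type} [Field κ] {N q : ℕ} (I : Ideal (Sr κ N q)) (m : Fin (q + 1) → ℕ) :
    0 ≤ hil I m := by
  haveI := finite_Sm κ N q m
  unfold hil
  have h : Module.finrank κ ↥(Sm κ N q m ⊓ I.restrictScalars κ) ≤ Module.finrank κ (Sm κ N q m) :=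
    Submodule.finrank_mono inf_le_left
  omega

theorem hil_mono {κ : Type} [Field κ] {N q : ℕ} {I J : Ideal (Sr κ N q)} (h : I ≤ J)
    (m : Fin (q + 1) → ℕ) : hil J m ≤ hil I m := by
  haveI := finite_Sm κ N q m
  haveI : Module.Finite κ ↥(Sm κ N q m ⊓ J.restrictScalars κ) :=
    Submodule.finiteDimensional_of_le (inf_le_left : Sm κ N q m ⊓ J.restrictScalars κ ≤ Sm κ N q m)
  unfold hil
  have h1 : Module.finrank κ ↥(Sm κ N q m ⊓ I.restrictScalars κ) ≤
      Module.finrank κ ↥(Sm κ N q m ⊓ J.restrictScalars κ) :=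
    Submodule.finrank_mono (inf_le_inf_left _ fun x hx => h hx)
  omega

theorem hil_top {κ : Type} [Field κ] {N q : ℕ} (m : Fin (q + 1) → ℕ) :
    hil (⊤ : Ideal (Sr κ N q)) m = 0 := by
  unfold hil
  have h : Sm κ N q m ⊓ (⊤ : Ideal (Sr κ N q)).restrictScalars κ = Sm κ N q m := by
    rw [Submodule.restrictScalars_top, inf_top_eq]
  rw [h]
  omega

theorem hil_eq_zero_of_vars {κ : Type} [Field κ] {N q : ℕ} (I : Ideal (Sr κ N q))
    (k : Fin (q + 1)) (h : ∀ x : Vr N q, gidx x = k → MvPolynomial.X x ∈ I)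
    (m : Fin (q + 1) → ℕ) (hm : 1 ≤ m k) : hil I m = 0 := by
  classical
  have hle : Sm κ N q m ≤ I.restrictScalars κ := by
    intro f hf
    show f ∈ I
    rw [f.as_sum]
    refine I.sum_mem fun d hd => ?_
    have hw : Finsupp.weight (wt N q) d = m := hf (MvPolynomial.mem_support_iff.1 hd)
    have h1 : Finsupp.weight (wt N q) d k = m k := by rw [hw]
    rw [hb_weight_apply] at h1
    obtain ⟨x, hx, hx0⟩ := Finset.exists_ne_zero_of_sum_ne_zero
      (s := d.support) (f := fun x => if gidx x = k then d x else 0) (by rw [h1]; omega)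
    have hxk : gidx x = k := by
      by_contra hne
      simp only [if_neg hne] at hx0
      exact hx0 rfl
    have hdx : d x ≠ 0 := Finsupp.mem_support_iff.1 hx
    have h2 : MvPolynomial.monomial d (MvPolynomial.coeff d f) =
        MvPolynomial.monomial (d - Finsupp.single x 1) (MvPolynomial.coeff d f) *
          MvPolynomial.X x := by
      rw [MvPolynomial.X, MvPolynomial.monomial_mul, mul_one]
      congr 2
      ext y
      by_cases hy : y = x
      · subst hy
        simp only [Finsupp.add_apply, Finsupp.tsub_apply, Finsupp.single_eq_same]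
        omega
      · simp only [Finsupp.add_apply, Finsupp.tsub_apply, Finsupp.single_eq_of_ne hy]
        omega
    rw [h2]
    exact I.mul_mem_left _ (h x hxk)
  unfold hil
  rw [inf_eq_left.2 hle]
  omega

theorem homI_bot {κ : Type} [Field κ] {N q : ℕ} : HomI (⊥ : Ideal (Sr κ N q)) := by
  intro g hg m
  rw [Ideal.mem_bot] at hg
  rw [hg, map_zero]
  exact Submodule.zero_mem _

theorem homI_top {κ : Type} [Field κ] {N q : ℕ} : HomI (⊤ : Ideal (Sr κ N q)) :=
  fun _ _ _ => Submodule.mem_top

section HbAux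

attribute [local instance] MvPolynomial.weightedGradedAlgebra

theorem hb_homI_iff {κ : Type} [Field κ] {N q : ℕ} (I : Ideal (Sr κ N q)) :
    HomI I ↔ I.IsHomogeneous (MvPolynomial.weightedHomogeneousSubmodule κ (wt N q)) := by
  constructor
  · intro h m g hg
    have := h g hg m
    rw [← MvPolynomial.weightedDecomposition.decompose'_apply] at this
    exact this
  · intro h g hg m
    exact MvPolynomial.weightedHomogeneousComponent_mem_of_mem κ (wt N q) h hg m

theorem hb_comp_mul {κ : Type} [Field κ] {N q : ℕ} {e : Fin (q + 1) → ℕ} {a : Sr κ N q}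
    (ha : a ∈ Sm κ N q e) (b : Sr κ N q) (m : Fin (q + 1) → ℕ) :
    MvPolynomial.weightedHomogeneousComponent (wt N q) (e + m) (a * b) =
      a * MvPolynomial.weightedHomogeneousComponent (wt N q) m b := by
  have h1 := DirectSum.coe_decompose_mul_add_of_left_mem
    (MvPolynomial.weightedHomogeneousSubmodule κ (wt N q)) (i := e) (j := m) (a := a) (b := b) ha
  have h2 : ∀ (φ : Sr κ N q) (i : Fin (q + 1) → ℕ),
      (DirectSum.decompose (MvPolynomial.weightedHomogeneousSubmodule κ (wt N q)) φ i : Sr κ N q) =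
        MvPolynomial.weightedHomogeneousComponent (wt N q) i φ :=
    fun φ i => MvPolynomial.weightedDecomposition.decompose'_apply κ (wt N q) φ i
  rw [h2, h2] at h1
  exact h1

theorem homI_span {κ : Type} [Field κ] {N q : ℕ} (T : Set (Sr κ N q))
    (hT : ∀ x ∈ T, ∃ m, x ∈ Sm κ N q m) : HomI (Ideal.span T) := by
  rw [hb_homI_iff]
  refine Ideal.homogeneous_span _ _ ?_
  intro x hx
  obtain ⟨m, hm⟩ := hT x hx
  exact ⟨m, hm⟩

theorem homI_sup {κ : Type} [Field κ] {N q : ℕ} {I J : Ideal (Sr κ N q)} (hI : HomI I)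
    (hJ : HomI J) : HomI (I ⊔ J) := by
  rw [hb_homI_iff] at hI hJ ⊢
  exact Ideal.IsHomogeneous.sup hI hJ

end HbAux

theorem homI_colon {κ : Type} [Field κ] {N q : ℕ} {I : Ideal (Sr κ N q)} (hI : HomI I)
    {e : Fin (q + 1) → ℕ} {a : Sr κ N q} (ha : a ∈ Sm κ N q e) : HomI (colonI I a) := by
  intro g hg m
  have hg' : a * g ∈ I := hg
  show a * MvPolynomial.weightedHomogeneousComponent (wt N q) m g ∈ I
  rw [← hb_comp_mul ha]
  exact hI _ hg' _

/-- The homogeneous components of `a * b` for `a` homogeneous of degree `e`. -/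
theorem comp_mul {κ : Type} [Field κ] {N q : ℕ} {e : Fin (q + 1) → ℕ} {a : Sr κ N q}
    (ha : a ∈ Sm κ N q e) (b : Sr κ N q) (m : Fin (q + 1) → ℕ) :
    MvPolynomial.weightedHomogeneousComponent (wt N q) (m + e) (a * b) =
      a * MvPolynomial.weightedHomogeneousComponent (wt N q) m b := by
  rw [add_comm m e]
  exact hb_comp_mul ha b m

theorem kill_mono {p : ℕ} {κ : Type} [Field κ] {N q r r' : ℕ} {I : Ideal (Sr κ N q)}
    (h : Kill p r I) (hr : r ≤ r') : Kill p r' I := by
  induction r', hr using Nat.le_induction with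
  | base => exact h
  | succ n _ ih =>
    obtain ⟨B, hB⟩ := ih
    refine ⟨B, fun m hm => ?_⟩
    rw [Function.iterate_succ_apply']
    show fwd^[n] (fun m => ((hil I m : ℤ) : ZMod p)) (m + e0 q) -
      fwd^[n] (fun m => ((hil I m : ℤ) : ZMod p)) m = 0
    rw [hB m hm, hB (m + e0 q) (fun k => (hm k).trans (Nat.le_add_right _ _)), sub_zero]

end Pool.Agent.W_MP_b723a0_ag.P
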