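import Mathlib
import Pool.Agent.W_MP_b723a0_ag.P.Defs
import Pool.Agent.W_MP_b723a0_ag.P.HilBasics

/-!
# Task E1: the exact sequence for multigraded Hilbert functions

`0 → (S/(I:a))(-e) → S/I (multiplication by a) → S/(I+(a)) → 0` for `a` homogeneous of degree `e`.

Proof (compare `finrank_idealDeg_step` in `HStep.lean`, same statement for the `ℕ`-grading).
Let `A = Sm m`, `B = Sm (m+e)`, `φ : A → S`, `x ↦ a x`. `φ⁻¹(I) = A ⊓ (I:a)`, and
`(I+(a)) ⊓ B = a A + (I ⊓ B)` (take homogeneous components, `comp_mul`).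
So `dim A - dim (A ⊓ (I:a)) = dim (B ⊓ (I+(a))) - dim (B ⊓ I)`, which is the statement.
-/

namespace Pool.Agent.W_MP_b723a0_ag.P

/-- Rank–nullity for the restriction of a linear map to a submodule. -/
theorem hst_finrank_map_add {K V W : Type*} [Field K] [AddCommGroup V] [Module K V]
    [AddCommGroup W] [Module K W] (f : V →ₗ[K] W) (p : Submodule K V) [FiniteDimensional K p] :
    Module.finrank K (p.map f) + Module.finrank K (p ⊓ LinearMap.ker f : Submodule K V) =
      Module.finrank K p := by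
  have h := LinearMap.finrank_range_add_finrank_ker (f.domRestrict p)
  rw [LinearMap.range_domRestrict] at h
  have h2 : Module.finrank K (LinearMap.ker (f.domRestrict p)) =
      Module.finrank K (p ⊓ LinearMap.ker f : Submodule K V) := by
    have h3 : (LinearMap.ker (f.domRestrict p)).map p.subtype = p ⊓ LinearMap.ker f := by
      ext x
      simp [LinearMap.mem_ker]
      constructor
      · rintro ⟨h1, h2⟩
        exact ⟨h2, h1⟩
      · rintro ⟨h1, h2⟩
        exact ⟨h2, h1⟩
    rw [← h3, Submodule.finrank_map_subtype_eq]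
  rw [← h2]
  exact h

theorem hil_step {κ : Type} [Field κ] {N q : ℕ} {I : Ideal (Sr κ N q)} (hI : HomI I)
    {e : Fin (q + 1) → ℕ} {a : Sr κ N q} (ha : a ∈ Sm κ N q e) (m : Fin (q + 1) → ℕ) :
    hil I (m + e) = hil (colonI I a) m + hil (I ⊔ Ideal.span {a}) (m + e) := by
  have hfin := finite_Sm κ N q
  have hfinS : Module.Finite κ (Sm κ N q m) := hfin m
  have hfinI : ∀ (I' : Ideal (Sr κ N q)) (m' : Fin (q + 1) → ℕ),
      Module.Finite κ ↥(Sm κ N q m' ⊓ I'.restrictScalars κ) := by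
    intro I' m'
    have := hfin m'
    exact Submodule.finiteDimensional_of_le
      (inf_le_left : Sm κ N q m' ⊓ I'.restrictScalars κ ≤ Sm κ N q m')
  have hfinJ := hfinI (colonI I a) m
  have hfinN := hfinI I (m + e)
  let f : Sr κ N q →ₗ[κ] Sr κ N q := LinearMap.mulLeft κ a
  have hf : ∀ x, f x = a * x := fun x => rfl
  have hmul : ∀ y ∈ Sm κ N q m, a * y ∈ Sm κ N q (m + e) := by
    intro y hy
    have h1 : MvPolynomial.IsWeightedHomogeneous (wt N q) (a * y) (e + m) :=
      MvPolynomial.IsWeightedHomogeneous.mul ha hy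
    rw [add_comm m e]
    exact h1
  set S := Sm κ N q m with hS
  set N' := Sm κ N q (m + e) ⊓ I.restrictScalars κ with hN
  have hsup : Sm κ N q (m + e) ⊓ (I ⊔ Ideal.span {a}).restrictScalars κ = N' ⊔ S.map f := by
    apply le_antisymm
    · rintro g ⟨hg1, hg2⟩
      have hg2' : g ∈ I ⊔ Ideal.span {a} := hg2
      rw [Submodule.mem_sup] at hg2'
      obtain ⟨i, hi, z, hz, hiz⟩ := hg2'
      obtain ⟨y, rfl⟩ := Ideal.mem_span_singleton'.1 hz
      have hg3 : MvPolynomial.weightedHomogeneousComponent (wt N q) (m + e) g = g :=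
        MvPolynomial.weightedHomogeneousComponent_eq_self hg1
      have h1 : g = MvPolynomial.weightedHomogeneousComponent (wt N q) (m + e) i +
          a * MvPolynomial.weightedHomogeneousComponent (wt N q) m y := by
        rw [← comp_mul ha, ← map_add, mul_comm a y, hiz, hg3]
      rw [h1]
      refine Submodule.add_mem_sup ?_ ?_
      · exact ⟨MvPolynomial.weightedHomogeneousComponent_mem _ _ _, hI i hi (m + e)⟩
      · exact ⟨_, MvPolynomial.weightedHomogeneousComponent_mem _ _ _, rfl⟩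
    · refine sup_le ?_ ?_
      · rintro g ⟨hg1, hg2⟩
        exact ⟨hg1, Ideal.mem_sup_left (show g ∈ I from hg2)⟩
      · rintro _ ⟨y, hy, rfl⟩
        refine ⟨hmul y hy, ?_⟩
        exact Ideal.mem_sup_right (Ideal.mul_mem_right _ _ (Ideal.mem_span_singleton_self a))
  have hinf : N' ⊓ S.map f = (S ⊓ (colonI I a).restrictScalars κ).map f := by
    apply le_antisymm
    · rintro _ ⟨⟨_, hg2⟩, ⟨y, hy, rfl⟩⟩
      exact ⟨y, ⟨hy, hg2⟩, rfl⟩
    · rintro _ ⟨y, ⟨hy1, hy2⟩, rfl⟩
      exact ⟨⟨hmul y hy1, hy2⟩, ⟨y, hy1, rfl⟩⟩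
  have hker : S ⊓ LinearMap.ker f = (S ⊓ (colonI I a).restrictScalars κ) ⊓ LinearMap.ker f := by
    apply le_antisymm
    · rintro y ⟨hy1, hy2⟩
      refine ⟨⟨hy1, ?_⟩, hy2⟩
      have h0 : a * y = 0 := hy2
      show a * y ∈ I
      rw [h0]
      exact I.zero_mem
    · rintro y ⟨⟨hy1, _⟩, hy2⟩
      exact ⟨hy1, hy2⟩
  have h1 := Submodule.finrank_sup_add_finrank_inf_eq N' (S.map f)
  have h2 := hst_finrank_map_add f S
  have h3 := hst_finrank_map_add f (S ⊓ (colonI I a).restrictScalars κ)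
  rw [hinf] at h1
  rw [hker] at h2
  unfold hil
  rw [hsup, ← hN, ← hS]
  omega

end Pool.Agent.W_MP_b723a0_ag.P
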