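import Mathlib
import Pool.Agent.W_MP_b723a0_ag.P.Defs
import Pool.Agent.W_MP_b723a0_ag.P.HilBasics

/-!
# Task E1c: multihomogeneous ideals that are not prime

A multihomogeneous ideal `I ≠ ⊤` which is not prime contains a product `a b` of homogeneous
elements `a, b ∉ I`.

Proof. Mathlib has `Ideal.IsHomogeneous.isPrime_of_homogeneous_mem_or_mem` for a grading by a
linearly ordered cancellative monoid. Our index monoid `Fin (q+1) → ℕ` is only partially ordered;
either transport the grading to `Lex (Fin (q+1) → ℕ)`, or argue directly: suppose that `a b ∈ I`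
implies `a ∈ I` or `b ∈ I` for homogeneous `a, b`. Let `f, g ∉ I`; remove from `f` and `g` the
homogeneous components lying in `I`, so that all remaining components are not in `I`. Let `m`,
`n` be the lexicographically largest degrees of nonzero components of `f`, `g`. The component of
`f g` of degree `m + n` is `f_m g_n` (lex order is compatible with addition), not in `I`, so
`f g ∉ I`.
-/

namespace Pool.Agent.W_MP_b723a0_ag.P

section HpAux

attribute [local instance] MvPolynomial.weightedGradedAlgebra

/-- The general statement, for weights in a linearly ordered monoid. -/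
theorem hp_generic {σ κ M : Type*} [Field κ] [AddCommMonoid M] [LinearOrder M]
    [IsOrderedCancelAddMonoid M] (w : σ → M) {I : Ideal (MvPolynomial σ κ)}
    (hI : ∀ g ∈ I, ∀ m, MvPolynomial.weightedHomogeneousComponent w m g ∈ I) (htop : I ≠ ⊤)
    (h : ∀ (m n : M) (a b : MvPolynomial σ κ),
      a ∈ MvPolynomial.weightedHomogeneousSubmodule κ w m →
      b ∈ MvPolynomial.weightedHomogeneousSubmodule κ w n → a * b ∈ I → a ∈ I ∨ b ∈ I) :
    I.IsPrime := by
  refine Ideal.IsHomogeneous.isPrime_of_homogeneous_mem_or_mem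
    (𝒜 := MvPolynomial.weightedHomogeneousSubmodule κ w) ?_ htop ?_
  · intro m g hg
    have h1 := hI g hg m
    rw [← MvPolynomial.weightedDecomposition.decompose'_apply] at h1
    exact h1
  · rintro x y ⟨i, hx⟩ ⟨j, hy⟩ hxy
    exact h i j x y hx hy hxy

end HpAux

/-- The weights, in the lexicographically ordered monoid. -/
def hpWt (N q : ℕ) : Vr N q → Lex (Fin (q + 1) → ℕ) := fun x => toLex (wt N q x)

theorem hp_weight {N q : ℕ} (d : Vr N q →₀ ℕ) :
    Finsupp.weight (hpWt N q) d = toLex (Finsupp.weight (wt N q) d) := by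
  rw [Finsupp.weight_apply, Finsupp.weight_apply]
  rfl

theorem hp_mem {κ : Type} [Field κ] {N q : ℕ} (m : Lex (Fin (q + 1) → ℕ)) (f : Sr κ N q) :
    f ∈ MvPolynomial.weightedHomogeneousSubmodule κ (hpWt N q) m ↔ f ∈ Sm κ N q (ofLex m) := by
  rw [MvPolynomial.mem_weightedHomogeneousSubmodule, MvPolynomial.mem_weightedHomogeneousSubmodule]
  constructor
  · intro h d hd
    have h1 := h hd
    rw [hp_weight] at h1
    rw [← h1]
    rfl
  · intro h d hd
    rw [hp_weight, h hd]
    rfl

theorem hp_comp {κ : Type} [Field κ] {N q : ℕ} (m : Lex (Fin (q + 1) → ℕ)) (f : Sr κ N q) :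
    MvPolynomial.weightedHomogeneousComponent (hpWt N q) m f =
      MvPolynomial.weightedHomogeneousComponent (wt N q) (ofLex m) f := by
  classical
  ext d
  rw [MvPolynomial.coeff_weightedHomogeneousComponent,
    MvPolynomial.coeff_weightedHomogeneousComponent]
  by_cases h : Finsupp.weight (wt N q) d = ofLex m
  · rw [if_pos h, if_pos]
    rw [hp_weight, h]
    rfl
  · rw [if_neg h, if_neg]
    intro h1
    apply h
    rw [← h1, hp_weight]
    rfl

theorem exists_hom_of_not_prime {κ : Type} [Field κ] {N q : ℕ} {I : Ideal (Sr κ N q)}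
    (hI : HomI I) (htop : I ≠ ⊤) (hnp : ¬ I.IsPrime) :
    ∃ (m n : Fin (q + 1) → ℕ) (a b : Sr κ N q), a ∈ Sm κ N q m ∧ b ∈ Sm κ N q n ∧
      a ∉ I ∧ b ∉ I ∧ a * b ∈ I := by
  by_contra hcon
  push Not at hcon
  apply hnp
  refine hp_generic (hpWt N q) (fun g hg m => ?_) htop ?_
  · rw [hp_comp]
    exact hI g hg (ofLex m)
  · intro m n a b ha hb hab
    by_contra hc
    rw [not_or] at hc
    exact hcon _ _ a b ((hp_mem m a).1 ha) ((hp_mem n b).1 hb) hc.1 hc.2 hab

end Pool.Agent.W_MP_b723a0_ag.P
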