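import Mathlib
import Pool.Agent.W_MP_b723a0_ag.P.Defs
import Pool.Agent.W_MP_b723a0_ag.P.HilBasics
import Pool.Agent.W_MP_b723a0_ag.P.HilStep
import Pool.Agent.W_MP_b723a0_ag.P.HomPrime

/-!
# Task E1b: devissage

If `Kill p r 𝔮` holds for all multihomogeneous primes `𝔮 ⊇ I`, then `Kill p r I`.

Proof. `Sr κ N q` is Noetherian. Induct (Noetherian induction, `WellFoundedGT (Ideal _)`) on the
homogeneous ideal `I`. If `I = ⊤`, `hil ⊤ = 0`. If `I` is prime, use the hypothesis. Otherwise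
`exists_hom_of_not_prime` gives homogeneous `a, b ∉ I`, `a b ∈ I`, `a ∈ Sm e`. Then
`colonI I a ∋ b` and `I ⊔ (a)` are homogeneous and strictly larger than `I`, so both are killed,
and `hil I (m + e) = hil (colonI I a) m + hil (I ⊔ (a)) (m + e)` (`hil_step`). The operator
`fwd^[r]` is additive and commutes with the translation by `e`; if `B` works for both then
`B + max_k e_k` works for `I` (write `m = (m - e) + e`).
-/

namespace Pool.Agent.W_MP_b723a0_ag.P

theorem dv_fwd_add {A : Type*} [AddCommGroup A] {q : ℕ} (r : ℕ)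
    (f g : (Fin (q + 1) → ℕ) → A) :
    ∀ m, fwd^[r] (fun m => f m + g m) m = fwd^[r] f m + fwd^[r] g m := by
  induction r with
  | zero => intro m; rfl
  | succ n ih =>
    intro m
    rw [Function.iterate_succ_apply', Function.iterate_succ_apply', Function.iterate_succ_apply']
    show fwd^[n] (fun m => f m + g m) (m + e0 q) - fwd^[n] (fun m => f m + g m) m =
      (fwd^[n] f (m + e0 q) - fwd^[n] f m) + (fwd^[n] g (m + e0 q) - fwd^[n] g m)
    rw [ih, ih]
    abel

theorem dv_fwd_shift {A : Type*} [AddCommGroup A] {q : ℕ} (r : ℕ)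
    (f : (Fin (q + 1) → ℕ) → A) (e : Fin (q + 1) → ℕ) :
    ∀ m, fwd^[r] (fun m => f (m + e)) m = fwd^[r] f (m + e) := by
  induction r with
  | zero => intro m; rfl
  | succ n ih =>
    intro m
    rw [Function.iterate_succ_apply', Function.iterate_succ_apply']
    show fwd^[n] (fun m => f (m + e)) (m + e0 q) - fwd^[n] (fun m => f (m + e)) m =
      fwd^[n] f (m + e + e0 q) - fwd^[n] f (m + e)
    rw [ih, ih, add_right_comm m e (e0 q)]

theorem dv_fwd_zero {A : Type*} [AddCommGroup A] {q : ℕ} (r : ℕ) :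
    ∀ m, fwd^[r] (fun _ : Fin (q + 1) → ℕ => (0 : A)) m = 0 := by
  induction r with
  | zero => intro m; rfl
  | succ n ih =>
    intro m
    rw [Function.iterate_succ_apply']
    show fwd^[n] (fun _ => (0 : A)) (m + e0 q) - fwd^[n] (fun _ => (0 : A)) m = 0
    rw [ih, ih, sub_zero]

theorem dv_kill_step {p : ℕ} {κ : Type} [Field κ] {N q : ℕ} (r : ℕ) {I : Ideal (Sr κ N q)}
    (hI : HomI I) {e : Fin (q + 1) → ℕ} {a : Sr κ N q} (ha : a ∈ Sm κ N q e)
    (h1 : Kill p r (colonI I a)) (h2 : Kill p r (I ⊔ Ideal.span {a})) : Kill p r I := by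
  obtain ⟨B1, hB1⟩ := h1
  obtain ⟨B2, hB2⟩ := h2
  refine ⟨B1 + B2 + ∑ k, e k, fun m hm => ?_⟩
  have hek : ∀ k, e k ≤ ∑ k, e k := fun k =>
    Finset.single_le_sum (f := e) (fun _ _ => Nat.zero_le _) (Finset.mem_univ k)
  have hme : m = (m - e) + e := by
    funext k
    have := hm k
    have := hek k
    simp only [Pi.add_apply, Pi.sub_apply]
    omega
  have hf : (fun m' : Fin (q + 1) → ℕ => ((hil I (m' + e) : ℤ) : ZMod p)) =
      fun m' => ((hil (colonI I a) m' : ℤ) : ZMod p) +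
        ((hil (I ⊔ Ideal.span {a}) (m' + e) : ℤ) : ZMod p) := by
    funext m'
    rw [hil_step hI ha m', Int.cast_add]
  have e1 := dv_fwd_shift r (fun m => ((hil I m : ℤ) : ZMod p)) e (m - e)
  rw [← hme] at e1
  rw [← e1]
  show fwd^[r] (fun m' : Fin (q + 1) → ℕ => ((hil I (m' + e) : ℤ) : ZMod p)) (m - e) = 0
  rw [hf, dv_fwd_add r (fun m' => ((hil (colonI I a) m' : ℤ) : ZMod p))
    (fun m' => ((hil (I ⊔ Ideal.span {a}) (m' + e) : ℤ) : ZMod p)) (m - e)]
  have e2 := dv_fwd_shift r (fun m => ((hil (I ⊔ Ideal.span {a}) m : ℤ) : ZMod p)) e (m - e)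
  rw [← hme] at e2
  have e3 := hB1 (m - e) (fun k => by
    have := hm k
    have := hek k
    simp only [Pi.sub_apply]
    omega)
  have e4 := hB2 m (fun k => by
    have := hm k
    omega)
  rw [e3, zero_add]
  exact e2.trans e4

theorem devissage {p : ℕ} {κ : Type} [Field κ] {N q : ℕ} (r : ℕ) {I : Ideal (Sr κ N q)}
    (hI : HomI I)
    (h : ∀ 𝔮 : Ideal (Sr κ N q), 𝔮.IsPrime → HomI 𝔮 → I ≤ 𝔮 → Kill p r 𝔮) : Kill p r I := by
  revert hI h
  induction I using WellFoundedGT.induction with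
  | ind I ih =>
    intro hI h
    by_cases htop : I = ⊤
    · subst htop
      refine ⟨0, fun m _ => ?_⟩
      have h0 : (fun m : Fin (q + 1) → ℕ => ((hil (⊤ : Ideal (Sr κ N q)) m : ℤ) : ZMod p)) =
          fun _ => 0 := by
        funext m
        rw [hil_top, Int.cast_zero]
      rw [h0]
      exact dv_fwd_zero r m
    by_cases hpr : I.IsPrime
    · exact h I hpr hI le_rfl
    obtain ⟨e, n, a, b, ha, hb, haI, hbI, hab⟩ := exists_hom_of_not_prime hI htop hpr
    have hle1 : I ≤ colonI I a := fun x hx => I.mul_mem_left a hx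
    have hlt1 : colonI I a > I := by
      refine lt_of_le_of_ne hle1 (fun heq => hbI ?_)
      rw [heq]
      exact hab
    have hle2 : I ≤ I ⊔ Ideal.span {a} := le_sup_left
    have hlt2 : I ⊔ Ideal.span {a} > I := by
      refine lt_of_le_of_ne hle2 (fun heq => haI ?_)
      rw [heq]
      exact (le_sup_right : Ideal.span {a} ≤ I ⊔ Ideal.span {a}) (Ideal.mem_span_singleton_self a)
    refine dv_kill_step r hI ha ?_ ?_
    · exact ih _ hlt1 (homI_colon hI ha) (fun 𝔮 h1 h2 h3 => h 𝔮 h1 h2 (hle1.trans h3))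
    · refine ih _ hlt2 (homI_sup hI (homI_span _ ?_)) (fun 𝔮 h1 h2 h3 => h 𝔮 h1 h2 (hle2.trans h3))
      intro x hx
      rw [Set.mem_singleton_iff.1 hx]
      exact ⟨e, ha⟩

end Pool.Agent.W_MP_b723a0_ag.P
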