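import Mathlib
import Pool.Agent.W_MP_b723a0_ag.P.Defs
import Pool.Agent.W_MP_b723a0_ag.P.HilBasics

/-!
# Task PB: basic facts on points

* `pt_mem_iff`: for `g ∈ Sm m`, `pt.big κ g = C (pt.ev κ g) * ∏ X_k^{m k}`, so `g ∈ pt.P κ` iff
  `pt.ev κ g = 0`.
* `pt_prime`: `MvPolynomial _ K` is a domain, the kernel of a ring homomorphism to a domain is
  prime.
* `pt_hom`: if `g ∈ pt.P`, `g = ∑ g_m`, then `0 = big g = ∑_m C (ev g_m) X^m`, so `ev g_m = 0`.
* `Qf_mem`: degree of `Qf`; `nf p n` is homogeneous of degree `p^n` (induction), `asf p u v` is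
  homogeneous of degree `p • e_k`.
* `ev_Qf`: `pt.ev κ (Qf) = nf p N pt.z * ∏ k, asf p (pt.u k) (pt.v k)`.
* `nf_eq_zero`: over a field with `ASFree`, `nf p n z = 0` implies `z = 0` (induction: `asf` is
  anisotropic).
* `ev_snoc_emb`: `emb` renames variables, the coordinates of `pt.snoc b` at renamed variables are
  those of `pt`. `emb_mem`: `emb` maps `Sm m` into `Sm (Fin.snoc m 0)`.
* `gen_snoc`: use `emb g, emb h`. `ext_gen`: induction on `Ext`.
* `emb_Qf_mul`: `Qf (q+1) = emb (Qf q) * asf u_last v_last`.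
* `emb_mem_P`: `emb κ N q` maps `pt.P κ` into `(pt.snoc b).P κ`: for homogeneous elements by
  `ev_snoc_emb`, in general by homogeneous components (`pt_hom`).
* `ev_scale`: for `a ∈ Sm m` and scalars `lam`, evaluating `a` at the rescaled coordinates
  `lam (gidx x) * pt.val x` gives `(∏ k, lam k ^ m k) * pt.ev κ a`.
-/

namespace Pool.Agent.W_MP_b723a0_ag.P

variable {κ : Type} [Field κ] {K : Type} [Field K] [Algebra κ K] {N q : ℕ}

/-- The product of the `lam (gidx x) ^ d x` is the product of the `lam k` to the weight of `d`. -/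
theorem pb_prod_weight {R : Type} [CommRing R] (lam : Fin (q + 1) → R) (d : Vr N q →₀ ℕ) :
    ∏ x, lam (gidx x) ^ d x = ∏ k, lam k ^ (Finsupp.weight (wt N q) d k) := by
  classical
  have h1 : ∀ k : Fin (q + 1), Finsupp.weight (wt N q) d k =
      ∑ x, if gidx x = k then d x else 0 := by
    intro k
    rw [hb_weight_apply]
    refine Finset.sum_subset (Finset.subset_univ _) fun x _ hx => ?_
    rw [Finsupp.notMem_support_iff] at hx
    simp [hx]
  simp only [h1]
  simp only [← Finset.prod_pow_eq_pow_sum]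
  rw [Finset.prod_comm]
  refine Finset.prod_congr rfl fun x _ => ?_
  rw [Finset.prod_eq_single (gidx x)]
  · simp
  · intro k _ hk
    rw [if_neg (Ne.symm hk), pow_zero]
  · intro h
    exact absurd (Finset.mem_univ _) h

/-- Rescaling the variables of index `k` by `lam k` multiplies a homogeneous element of degree `m`
by the product of the `lam k ^ m k`. -/
theorem pb_scale {R : Type} [CommRing R] [Algebra κ R] (val : Vr N q → R) (lam : Fin (q + 1) → R)
    {m : Fin (q + 1) → ℕ} {a : Sr κ N q} (ha : a ∈ Sm κ N q m) :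
    MvPolynomial.aeval (fun x => lam (gidx x) * val x) a =
      (∏ k, lam k ^ m k) * MvPolynomial.aeval val a := by
  classical
  rw [MvPolynomial.aeval_def, MvPolynomial.aeval_def, MvPolynomial.eval₂_eq',
    MvPolynomial.eval₂_eq', Finset.mul_sum]
  refine Finset.sum_congr rfl fun d hd => ?_
  have hw : Finsupp.weight (wt N q) d = m := ha (MvPolynomial.mem_support_iff.1 hd)
  have h1 : ∏ x, (lam (gidx x) * val x) ^ d x = (∏ k, lam k ^ m k) * ∏ x, val x ^ d x := by
    simp only [mul_pow]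
    rw [Finset.prod_mul_distrib, pb_prod_weight, hw]
  rw [h1]
  ring

theorem pb_big (pt : Pt N q K) {m : Fin (q + 1) → ℕ} {g : Sr κ N q} (hg : g ∈ Sm κ N q m) :
    pt.big κ g = (∏ k, (MvPolynomial.X k : MvPolynomial (Fin (q + 1)) K) ^ m k) *
      MvPolynomial.C (pt.ev κ g) := by
  have h1 := pb_scale (κ := κ) (R := MvPolynomial (Fin (q + 1)) K)
    (fun x => MvPolynomial.C (pt.val x)) (fun k => MvPolynomial.X k) hg
  have h2 : MvPolynomial.aeval (fun x => (MvPolynomial.C (pt.val x) :
      MvPolynomial (Fin (q + 1)) K)) g = MvPolynomial.C (pt.ev κ g) := by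
    have := MvPolynomial.aeval_algebraMap_apply (MvPolynomial (Fin (q + 1)) K) pt.val g
    exact this
  rw [h2] at h1
  rw [← h1]
  unfold Pt.big
  congr 2
  funext x
  exact mul_comm _ _

theorem pt_mem_iff (pt : Pt N q K) {m : Fin (q + 1) → ℕ} {g : Sr κ N q} (hg : g ∈ Sm κ N q m) :
    g ∈ pt.P κ ↔ pt.ev κ g = 0 := by
  unfold Pt.P
  rw [RingHom.mem_ker, pb_big pt hg]
  constructor
  · intro h
    rcases mul_eq_zero.1 h with h | h
    · exfalso
      rw [Finset.prod_eq_zero_iff] at h
      obtain ⟨k, _, hk⟩ := h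
      exact MvPolynomial.X_ne_zero k (eq_zero_of_pow_eq_zero hk)
    · exact (MvPolynomial.C_eq_zero).1 h
  · intro h
    rw [h, map_zero, mul_zero]

theorem pt_prime (pt : Pt N q K) : (pt.P κ).IsPrime := RingHom.ker_isPrime _

/-- The coefficients of the multigraded evaluation. -/
theorem pb_coeff_big (pt : Pt N q K) (g : Sr κ N q) (m : Fin (q + 1) → ℕ) :
    MvPolynomial.coeff (Finsupp.equivFunOnFinite.symm m) (pt.big κ g) =
      pt.ev κ (MvPolynomial.weightedHomogeneousComponent (wt N q) m g) := by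
  classical
  induction g using MvPolynomial.induction_on' with
  | monomial d c =>
    have h0 : MvPolynomial.monomial d c ∈ Sm κ N q (Finsupp.weight (wt N q) d) :=
      MvPolynomial.isWeightedHomogeneous_monomial _ _ _ rfl
    rw [pb_big pt h0, MvPolynomial.weightedHomogeneousComponent_of_mem h0]
    have h1 : (∏ k, (MvPolynomial.X k : MvPolynomial (Fin (q + 1)) K) ^
        (Finsupp.weight (wt N q) d k)) =
        MvPolynomial.monomial (Finsupp.equivFunOnFinite.symm (Finsupp.weight (wt N q) d)) 1 := by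
      rw [MvPolynomial.monomial_eq, Finsupp.prod_fintype]
      · simp
      · intro i
        simp
    rw [h1, mul_comm, MvPolynomial.coeff_C_mul, MvPolynomial.coeff_monomial]
    by_cases h : m = Finsupp.weight (wt N q) d
    · subst h
      simp
    · rw [if_neg, if_neg, map_zero, mul_zero]
      · exact fun h' => h h'
      · intro h'
        exact h (Finsupp.equivFunOnFinite.symm.injective h').symm
  | add p q hp hq => rw [map_add, map_add, map_add, MvPolynomial.coeff_add, hp, hq]

theorem pt_hom (pt : Pt N q K) : HomI (pt.P κ) := by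
  intro g hg m
  rw [pt_mem_iff pt (MvPolynomial.weightedHomogeneousComponent_mem (wt N q) g m),
    ← pb_coeff_big]
  have : pt.big κ g = 0 := hg
  rw [this, MvPolynomial.coeff_zero]

theorem ev_scale (pt : Pt N q K) {m : Fin (q + 1) → ℕ} {a : Sr κ N q} (ha : a ∈ Sm κ N q m)
    (lam : Fin (q + 1) → K) :
    MvPolynomial.aeval (fun x => lam (gidx x) * pt.val x) a = (∏ k, lam k ^ m k) * pt.ev κ a :=
  pb_scale pt.val lam ha

theorem pb_asf_mem {p : ℕ} (hp : 1 ≤ p) {e : Fin (q + 1) → ℕ} {A B : Sr κ N q}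
    (hA : A ∈ Sm κ N q e) (hB : B ∈ Sm κ N q e) : asf p A B ∈ Sm κ N q (p • e) := by
  have hA' : MvPolynomial.IsWeightedHomogeneous (wt N q) A e := hA
  have hB' : MvPolynomial.IsWeightedHomogeneous (wt N q) B e := hB
  have h1 : A * B ^ (p - 1) ∈ Sm κ N q (p • e) := by
    have := hA'.mul (hB'.pow (p - 1))
    have h2 : e + (p - 1) • e = p • e := by
      rw [← succ_nsmul', Nat.sub_add_cancel hp]
    rw [h2] at this
    exact this
  unfold asf
  exact Submodule.sub_mem _ (Submodule.sub_mem _ (hA'.pow p) h1) (hB'.pow p)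

theorem pb_nf_mem {p : ℕ} (hp : 1 ≤ p) (e : Fin (q + 1) → ℕ) (n : ℕ) (z : Fin (n + 1) → Sr κ N q)
    (hz : ∀ j, z j ∈ Sm κ N q e) : nf p n z ∈ Sm κ N q (p ^ n • e) := by
  induction n with
  | zero =>
    rw [pow_zero, one_smul]
    exact hz 0
  | succ n ih =>
    have h1 := ih (fun j => z j.castSucc) (fun j => hz _)
    have h2 : z (Fin.last (n + 1)) ^ p ^ n ∈ Sm κ N q (p ^ n • e) :=
      MvPolynomial.IsWeightedHomogeneous.pow (hz _) _
    have h3 := pb_asf_mem hp h1 h2
    rw [smul_smul, ← pow_succ'] at h3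
    exact h3

theorem nf_mem (p : ℕ) (hp : 1 ≤ p) :
    nf p N (fun j => MvPolynomial.X (Sum.inl j)) ∈ Sm κ N q (p ^ N • e0 q) := by
  refine pb_nf_mem hp (e0 q) N _ fun j => ?_
  exact MvPolynomial.isWeightedHomogeneous_X κ (wt N q) (Sum.inl j)

theorem Qf_mem (p : ℕ) (hp : 1 ≤ p) : Qf p κ N q ∈ Sm κ N q (degQ p N q) := by
  have h1 : (∏ k : Fin q, asf p (MvPolynomial.X (Sum.inr (k, false)))
      (MvPolynomial.X (Sum.inr (k, true)))) ∈
      Sm κ N q (∑ k : Fin q, p • (Pi.single k.succ 1 : Fin (q + 1) → ℕ)) := by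
    refine MvPolynomial.IsWeightedHomogeneous.prod Finset.univ _ _ fun k _ => ?_
    exact pb_asf_mem hp (MvPolynomial.isWeightedHomogeneous_X κ (wt N q) (Sum.inr (k, false)))
      (MvPolynomial.isWeightedHomogeneous_X κ (wt N q) (Sum.inr (k, true)))
  have h2 := MvPolynomial.IsWeightedHomogeneous.mul (nf_mem (κ := κ) (N := N) (q := q) p hp) h1
  have h3 : p ^ N • e0 q + ∑ k : Fin q, p • (Pi.single k.succ 1 : Fin (q + 1) → ℕ) =
      degQ p N q := by
    funext j
    refine Fin.cases ?_ (fun i => ?_) j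
    · simp [e0, degQ, Finset.sum_apply]
    · simp [e0, degQ, Finset.sum_apply, Pi.single_apply, Fin.succ_inj, Fin.succ_ne_zero]
  rw [h3] at h2
  exact h2

theorem pb_map_asf (p : ℕ) {R R' : Type*} [CommRing R] [CommRing R'] (φ : R →+* R') (u v : R) :
    φ (asf p u v) = asf p (φ u) (φ v) := by
  unfold asf
  simp only [map_sub, map_pow, map_mul]

theorem map_nf (p : ℕ) {R R' : Type*} [CommRing R] [CommRing R'] (φ : R →+* R') (n : ℕ)
    (z : Fin (n + 1) → R) : φ (nf p n z) = nf p n (fun j => φ (z j)) := by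
  induction n with
  | zero => rfl
  | succ n ih =>
    show φ (asf p _ _) = asf p _ _
    rw [pb_map_asf, ih, map_pow]

theorem pb_asf_scale {p : ℕ} (hp : 1 ≤ p) {R : Type*} [CommRing R] (c u v : R) :
    asf p (c * u) (c * v) = c ^ p * asf p u v := by
  unfold asf
  obtain ⟨m, rfl⟩ := Nat.exists_eq_add_of_le hp
  rw [Nat.add_sub_cancel_left]
  ring

theorem nf_scale (p : ℕ) (hp : 1 ≤ p) {R : Type*} [CommRing R] (n : ℕ) (lam : R)
    (z : Fin (n + 1) → R) : nf p n (fun j => lam * z j) = lam ^ p ^ n * nf p n z := by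
  induction n with
  | zero =>
    rw [pow_zero, pow_one]
    rfl
  | succ n ih =>
    show asf p (nf p n (fun j => lam * z j.castSucc)) ((lam * z (Fin.last (n + 1))) ^ p ^ n) =
      lam ^ p ^ (n + 1) * asf p _ _
    rw [ih, mul_pow, pb_asf_scale hp, ← pow_mul, ← pow_succ]

theorem ev_Qf (p : ℕ) (pt : Pt N q K) :
    pt.ev κ (Qf p κ N q) = nf p N pt.z * ∏ k, asf p (pt.u k) (pt.v k) := by
  unfold Qf
  rw [map_mul, map_prod]
  have h1 : pt.ev κ (nf p N fun j => MvPolynomial.X (Sum.inl j)) = nf p N pt.z := by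
    have := map_nf p (pt.ev κ : Sr κ N q →+* K) N (fun j => MvPolynomial.X (Sum.inl j))
    rw [show pt.ev κ (nf p N fun j => MvPolynomial.X (Sum.inl j)) =
      (pt.ev κ : Sr κ N q →+* K) (nf p N fun j => MvPolynomial.X (Sum.inl j)) from rfl, this]
    congr 1
    funext j
    show MvPolynomial.aeval pt.val (MvPolynomial.X (Sum.inl j)) = _
    rw [MvPolynomial.aeval_X]
    rfl
  rw [h1]
  congr 1
  refine Finset.prod_congr rfl fun k _ => ?_
  have := pb_map_asf p (pt.ev κ : Sr κ N q →+* K) (MvPolynomial.X (Sum.inr (k, false)))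
    (MvPolynomial.X (Sum.inr (k, true)))
  refine this.trans ?_
  have e1 : (pt.ev κ : Sr κ N q →+* K) (MvPolynomial.X (Sum.inr (k, false))) = pt.u k := by
    show MvPolynomial.aeval pt.val (MvPolynomial.X (Sum.inr (k, false))) = _
    rw [MvPolynomial.aeval_X]
    rfl
  have e2 : (pt.ev κ : Sr κ N q →+* K) (MvPolynomial.X (Sum.inr (k, true))) = pt.v k := by
    show MvPolynomial.aeval pt.val (MvPolynomial.X (Sum.inr (k, true))) = _
    rw [MvPolynomial.aeval_X]
    rfl
  rw [e1, e2]

theorem nf_eq_zero {p : ℕ} (hp : 1 ≤ p) (hAS : ASFree p K) (n : ℕ) (z : Fin (n + 1) → K)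
    (h : nf p n z = 0) : z = 0 := by
  induction n with
  | zero =>
    funext j
    have : j = 0 := Fin.ext (by omega)
    rw [this]
    exact h
  | succ n ih =>
    have h1 := hAS _ _ h
    have h2 := ih _ h1.1
    have h3 : z (Fin.last (n + 1)) = 0 :=
      pow_eq_zero_iff (pow_ne_zero n (by omega)) |>.1 h1.2
    funext j
    refine Fin.lastCases ?_ (fun i => ?_) j
    · exact h3
    · exact congrFun h2 i

theorem ev_Qf_ne_zero {p : ℕ} (hp : 1 ≤ p) (hAS : ASFree p K) (pt : Pt N q K) :
    pt.ev κ (Qf p κ N q) ≠ 0 := by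
  rw [ev_Qf]
  refine mul_ne_zero ?_ ?_
  · intro h
    have := nf_eq_zero hp hAS N pt.z h
    obtain ⟨j, hj⟩ := pt.hz
    exact hj (congrFun this j)
  · rw [Finset.prod_ne_zero_iff]
    intro k _ h
    have := hAS _ _ h
    rcases pt.huv k with h1 | h1
    · exact h1 this.1
    · exact h1 this.2

theorem pb_val_snoc (pt : Pt N q K) (b : K) (x : Vr N q) :
    (pt.snoc b).val (Sum.map id (Prod.map Fin.castSucc id) x) = pt.val x := by
  rcases x with j | ⟨k, b'⟩
  · rfl
  · show (if b' then (Fin.snoc pt.v 1 : Fin (q + 1) → K) k.castSucc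
      else (Fin.snoc pt.u b : Fin (q + 1) → K) k.castSucc) = if b' then pt.v k else pt.u k
    rw [Fin.snoc_castSucc, Fin.snoc_castSucc]

theorem pb_gidx_emb (x : Vr N q) :
    gidx (Sum.map id (Prod.map Fin.castSucc id) x : Vr N (q + 1)) = (gidx x).castSucc := by
  rcases x with j | ⟨k, b'⟩
  · rfl
  · rfl

theorem ev_snoc_emb (pt : Pt N q K) (b : K) (x : Sr κ N q) :
    (pt.snoc b).ev κ (emb κ N q x) = pt.ev κ x := by
  unfold Pt.ev emb
  rw [MvPolynomial.aeval_rename]
  congr 2
  funext y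
  exact pb_val_snoc pt b y

theorem emb_mem {m : Fin (q + 1) → ℕ} {g : Sr κ N q} (hg : g ∈ Sm κ N q m) :
    emb κ N q g ∈ Sm κ N (q + 1) (Fin.snoc m 0) := by
  classical
  intro d hd
  obtain ⟨u, hu, hu0⟩ := MvPolynomial.coeff_rename_ne_zero _ _ _ hd
  have hw : Finsupp.weight (wt N q) u = m := hg hu0
  rw [← hu]
  have h1 : Finsupp.weight (wt N (q + 1))
      (Finsupp.mapDomain (Sum.map id (Prod.map Fin.castSucc id)) u) =
      u.sum fun x c => c • wt N (q + 1) (Sum.map id (Prod.map Fin.castSucc id) x) := by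
    rw [Finsupp.weight_apply, Finsupp.sum_mapDomain_index]
    · intro x; simp
    · intro x a b; rw [add_smul]
  rw [h1]
  funext k
  rw [Finsupp.sum, Finset.sum_apply]
  refine Fin.lastCases ?_ (fun i => ?_) k
  · rw [Fin.snoc_last]
    refine Finset.sum_eq_zero fun x _ => ?_
    rw [Pi.smul_apply]
    unfold wt
    rw [pb_gidx_emb, Pi.single_eq_of_ne (Fin.castSucc_lt_last _).ne', smul_zero]
  · rw [Fin.snoc_castSucc, ← hw, hb_weight_apply]
    refine Finset.sum_congr rfl fun x _ => ?_
    rw [Pi.smul_apply, smul_eq_mul]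
    unfold wt
    rw [pb_gidx_emb]
    by_cases h : gidx x = i
    · rw [if_pos h, h, Pi.single_eq_same, mul_one]
    · rw [if_neg h, Pi.single_eq_of_ne, mul_zero]
      intro h'
      exact h (Fin.castSucc_injective _ h').symm

theorem emb_mem_P (pt : Pt N q K) (b : K) {x : Sr κ N q} (hx : x ∈ pt.P κ) :
    emb κ N q x ∈ (pt.snoc b).P κ := by
  have h0 : pt.big κ x = 0 := hx
  show (pt.snoc b).big κ (emb κ N q x) = 0
  have h1 : (pt.snoc b).big κ (emb κ N q x) =
      MvPolynomial.rename Fin.castSucc (pt.big κ x) := by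
    unfold Pt.big emb
    rw [MvPolynomial.aeval_rename]
    have h2 : (MvPolynomial.rename (R := K) (Fin.castSucc : Fin (q + 1) → Fin (q + 1 + 1)))
        (MvPolynomial.aeval (fun x => MvPolynomial.C (pt.val x) *
          (MvPolynomial.X (gidx x) : MvPolynomial (Fin (q + 1)) K)) x) =
        (((MvPolynomial.rename (R := K)
          (Fin.castSucc : Fin (q + 1) → Fin (q + 1 + 1))).restrictScalars κ).comp
          (MvPolynomial.aeval (fun x => MvPolynomial.C (pt.val x) *
          (MvPolynomial.X (gidx x) : MvPolynomial (Fin (q + 1)) K)))) x := rfl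
    rw [h2]
    congr 1
    apply MvPolynomial.algHom_ext
    intro y
    rw [MvPolynomial.aeval_X]
    simp only [Function.comp, AlgHom.comp_apply, MvPolynomial.aeval_X,
      AlgHom.restrictScalars_apply, map_mul, MvPolynomial.rename_C, MvPolynomial.rename_X,
      pb_val_snoc, pb_gidx_emb]
  rw [h1, h0, map_zero]

theorem gen_snoc {pt : Pt N q K} (h : pt.Gen κ) (b : K) : (pt.snoc b).Gen κ := by
  intro x
  obtain ⟨m, g, h', hg, hh, h0, h1⟩ := h x
  refine ⟨Fin.snoc m 0, emb κ N q g, emb κ N q h', emb_mem hg, emb_mem hh, ?_, ?_⟩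
  · rw [ev_snoc_emb]
    exact h0
  · rw [ev_snoc_emb, ev_snoc_emb]
    exact h1

theorem ext_gen {q' : ℕ} {pt : Pt N q K} {pt' : Pt N q' K} (h : Ext pt pt') (hG : pt.Gen κ) :
    pt'.Gen κ := by
  induction h with
  | refl => exact hG
  | snoc h b ih => exact gen_snoc (ih hG) b

theorem ext_trans {q' q'' : ℕ} {pt : Pt N q K} {pt' : Pt N q' K} {pt'' : Pt N q'' K}
    (h : Ext pt pt') (h' : Ext pt' pt'') : Ext pt pt'' := by
  induction h' with
  | refl => exact h
  | snoc h' b ih => exact Ext.snoc (ih h) b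

theorem ext_z {q' : ℕ} {pt : Pt N q K} {pt' : Pt N q' K} (h : Ext pt pt') : pt'.z = pt.z := by
  induction h with
  | refl => rfl
  | snoc h b ih => exact ih

theorem emb_Qf_mul (p : ℕ) :
    emb κ N q (Qf p κ N q) * asf p (MvPolynomial.X (Sum.inr (Fin.last q, false)))
      (MvPolynomial.X (Sum.inr (Fin.last q, true))) = Qf p κ N (q + 1) := by
  have h1 : emb κ N q (nf p N fun j => MvPolynomial.X (Sum.inl j)) =
      nf p N fun j => MvPolynomial.X (Sum.inl j) := by
    have := map_nf p (emb κ N q : Sr κ N q →+* Sr κ N (q + 1)) N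
      (fun j => MvPolynomial.X (Sum.inl j))
    refine this.trans ?_
    congr 1
    funext j
    show MvPolynomial.rename _ (MvPolynomial.X (Sum.inl j)) = _
    rw [MvPolynomial.rename_X]
    rfl
  have h2 : ∀ k : Fin q, emb κ N q (asf p (MvPolynomial.X (Sum.inr (k, false)))
      (MvPolynomial.X (Sum.inr (k, true)))) =
      asf p (MvPolynomial.X (Sum.inr (k.castSucc, false)))
        (MvPolynomial.X (Sum.inr (k.castSucc, true))) := by
    intro k
    have := pb_map_asf p (emb κ N q : Sr κ N q →+* Sr κ N (q + 1))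
      (MvPolynomial.X (Sum.inr (k, false))) (MvPolynomial.X (Sum.inr (k, true)))
    refine this.trans ?_
    have e : ∀ c : Bool, (emb κ N q : Sr κ N q →+* Sr κ N (q + 1))
        (MvPolynomial.X (Sum.inr (k, c))) = MvPolynomial.X (Sum.inr (k.castSucc, c)) := by
      intro c
      show MvPolynomial.rename _ (MvPolynomial.X (Sum.inr (k, c))) = _
      rw [MvPolynomial.rename_X]
      rfl
    rw [e, e]
  unfold Qf
  rw [map_mul, map_prod, h1, Fin.prod_univ_castSucc, mul_assoc]
  simp only [h2]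

end Pool.Agent.W_MP_b723a0_ag.P
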