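import Mathlib
import Pool.Agent.W_MP_b723a0_ag.P.Defs
import Pool.Agent.W_MP_b723a0_ag.P.HilBasics
import Pool.Agent.W_MP_b723a0_ag.P.PtBasics

/-!
# Task E7: multihomogeneous primes come from points

Let `𝔔` be a multihomogeneous prime with `Qf ∉ 𝔔`. Then not all `z_j` are in `𝔔` (otherwise
`nf(z) ∈ 𝔔`, since `nf` of the zero vector is `0`), and for each `k` not both `u_k, v_k` are in
`𝔔`. Choose `z_{j0} ∉ 𝔔` and `w_k ∈ {u_k, v_k}`, `w_k ∉ 𝔔`. In `L = Frac (S/𝔔)` let `K` be the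
subset of quotients `ḡ / h̄` with `g, h ∈ Sm m` for some `m`, `h ∉ 𝔔`; it is a subfield (and a
`κ`-subalgebra) of `L`. The point: `z_j = z̄_j / z̄_{j0}`, `u_k = ū_k / w̄_k`, `v_k = v̄_k / w̄_k`.
For `g ∈ Sm m`, `pt.ev g = ḡ / (z̄_{j0}^{m 0} ∏ w̄_k^{m (k+1)})`, so `pt.ev g = 0 ↔ g ∈ 𝔔`, and
`ḡ / h̄ = pt.ev g / pt.ev h`, which gives `Gen`. `pt.P κ = 𝔔` as both are multihomogeneous
(`pt_hom`, `pt_mem_iff`).
-/

namespace Pool.Agent.W_MP_b723a0_ag.P

section expt

open MvPolynomial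

variable {κ : Type} [Field κ] {N q : ℕ}

theorem expt_weight (d : Vr N q →₀ ℕ) (k : Fin (q + 1)) :
    Finsupp.weight (wt N q) d k = ∑ x ∈ Finset.univ.filter (fun x => gidx x = k), d x := by
  rw [Finsupp.weight_apply, Finsupp.sum_fintype _ _ (by simp), Finset.sum_apply,
    Finset.sum_filter]
  refine Finset.sum_congr rfl fun x _ => ?_
  simp only [wt, Pi.smul_apply, smul_eq_mul, Pi.single_apply]
  by_cases h : gidx x = k
  · simp [h]
  · have h' : ¬ k = gidx x := fun h' => h h'.symm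
    simp [h, h']

/-- Rescaling of the coordinates. -/
theorem expt_scale {R : Type*} [CommRing R] [Algebra κ R] (y : Vr N q → R)
    (lam : Fin (q + 1) → R) {m : Fin (q + 1) → ℕ} {a : Sr κ N q} (ha : a ∈ Sm κ N q m) :
    aeval (fun x => lam (gidx x) * y x) a = (∏ k, lam k ^ m k) * aeval y a := by
  rw [aeval_def, aeval_def, eval₂_eq', eval₂_eq', Finset.mul_sum]
  refine Finset.sum_congr rfl fun d hd => ?_
  have hw : Finsupp.weight (wt N q) d = m := by
    have ha' := (mem_weightedHomogeneousSubmodule κ (wt N q) m a).1 ha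
    exact ha' (mem_support_iff.1 hd)
  have h1 : ∏ x, (lam (gidx x) * y x) ^ d x = (∏ k, lam k ^ m k) * ∏ x, y x ^ d x := by
    simp only [mul_pow, Finset.prod_mul_distrib]
    congr 1
    rw [← Finset.prod_fiberwise Finset.univ (gidx : Vr N q → Fin (q + 1))]
    refine Finset.prod_congr rfl fun k _ => ?_
    rw [← hw, expt_weight, ← Finset.prod_pow_eq_pow_sum]
    refine Finset.prod_congr rfl fun x hx => ?_
    rw [(Finset.mem_filter.1 hx).2]
  rw [h1]
  ring

theorem expt_X_mem (x : Vr N q) : (X x : Sr κ N q) ∈ Sm κ N q (Pi.single (gidx x) 1) := by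
  rw [mem_weightedHomogeneousSubmodule]
  exact isWeightedHomogeneous_X κ (wt N q) x

theorem expt_mul_mem {m m' : Fin (q + 1) → ℕ} {g g' : Sr κ N q} (hg : g ∈ Sm κ N q m)
    (hg' : g' ∈ Sm κ N q m') : g * g' ∈ Sm κ N q (m + m') := by
  rw [mem_weightedHomogeneousSubmodule] at *
  exact hg.mul hg'

theorem expt_C_mem (c : κ) : (C c : Sr κ N q) ∈ Sm κ N q 0 := by
  rw [mem_weightedHomogeneousSubmodule]
  exact isWeightedHomogeneous_C (wt N q) c

/-- A multihomogeneous ideal is determined by its homogeneous elements. -/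
theorem expt_mem_iff {I : Ideal (Sr κ N q)} (hI : HomI I) (g : Sr κ N q) :
    g ∈ I ↔ ∀ m, weightedHomogeneousComponent (wt N q) m g ∈ I := by
  refine ⟨fun h m => hI g h m, fun h => ?_⟩
  rw [← sum_weightedHomogeneousComponent (wt N q) g]
  exact finsum_induction (fun x => x ∈ I) (I.zero_mem) (fun x y hx hy => I.add_mem hx hy) h

theorem expt_ext {I J : Ideal (Sr κ N q)} (hI : HomI I) (hJ : HomI J)
    (h : ∀ m, ∀ g ∈ Sm κ N q m, g ∈ I ↔ g ∈ J) : I = J := by
  ext g
  rw [expt_mem_iff hI, expt_mem_iff hJ]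
  refine forall_congr' fun m => h m _ ?_
  rw [mem_weightedHomogeneousSubmodule]
  exact weightedHomogeneousComponent_isWeightedHomogeneous _ _

theorem expt_nf_mem {p : ℕ} (hp : 1 ≤ p) {𝔔 : Ideal (Sr κ N q)}
    (h : ∀ j : Fin (N + 1), (X (Sum.inl j) : Sr κ N q) ∈ 𝔔) :
    nf p N (fun j => (X (Sum.inl j) : Sr κ N q)) ∈ 𝔔 := by
  rw [← Ideal.Quotient.eq_zero_iff_mem, map_nf]
  have h1 : (fun j : Fin (N + 1) => (Ideal.Quotient.mk 𝔔) (X (Sum.inl j) : Sr κ N q)) =
      fun _ => (0 : Sr κ N q ⧸ 𝔔) * 0 := by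
    funext j
    rw [mul_zero, Ideal.Quotient.eq_zero_iff_mem]
    exact h j
  rw [h1, nf_scale p hp N (0 : Sr κ N q ⧸ 𝔔) (fun _ => 0), zero_pow, zero_mul]
  exact pow_ne_zero _ (by omega)

theorem expt_vars {p : ℕ} (hp : 1 ≤ p) {𝔔 : Ideal (Sr κ N q)} (hQ : Qf p κ N q ∉ 𝔔)
    (i : Fin (q + 1)) : ∃ x : Vr N q, gidx x = i ∧ (X x : Sr κ N q) ∉ 𝔔 := by
  by_contra hcon
  push Not at hcon
  apply hQ
  unfold Qf
  refine Fin.cases (fun hcon => ?_) (fun k hcon => ?_) i hcon
  · exact Ideal.mul_mem_right _ _ (expt_nf_mem hp fun j => hcon (Sum.inl j) rfl)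
  · refine Ideal.mul_mem_left _ _ ?_
    refine Ideal.mem_of_dvd _ (Finset.dvd_prod_of_mem _ (Finset.mem_univ k)) ?_
    have hu : (X (Sum.inr (k, false)) : Sr κ N q) ∈ 𝔔 := hcon _ rfl
    have hv : (X (Sum.inr (k, true)) : Sr κ N q) ∈ 𝔔 := hcon _ rfl
    have hp' : 0 < p := hp
    unfold asf
    exact Ideal.sub_mem _ (Ideal.sub_mem _ (Ideal.pow_mem_of_mem _ hu _ hp')
      (Ideal.mul_mem_right _ _ hu)) (Ideal.pow_mem_of_mem _ hv _ hp')

/-- The field of quotients of forms of the same degree. -/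
noncomputable def exptField {L : Type} [Field L] [Algebra κ L] (π : Sr κ N q →ₐ[κ] L) :
    IntermediateField κ L where
  carrier := {x | ∃ (m : Fin (q + 1) → ℕ) (g h : Sr κ N q), g ∈ Sm κ N q m ∧ h ∈ Sm κ N q m ∧
    π h ≠ 0 ∧ x * π h = π g}
  mul_mem' := by
    rintro x y ⟨m, g, h, hg, hh, h0, e⟩ ⟨m', g', h', hg', hh', h0', e'⟩
    refine ⟨m + m', g * g', h * h', expt_mul_mem hg hg', expt_mul_mem hh hh', ?_, ?_⟩
    · rw [map_mul]
      exact mul_ne_zero h0 h0'
    · rw [map_mul, map_mul, ← e, ← e']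
      ring
  add_mem' := by
    rintro x y ⟨m, g, h, hg, hh, h0, e⟩ ⟨m', g', h', hg', hh', h0', e'⟩
    refine ⟨m + m', g * h' + h * g', h * h',
      Submodule.add_mem _ (expt_mul_mem hg hh') (expt_mul_mem hh hg'), expt_mul_mem hh hh', ?_, ?_⟩
    · rw [map_mul]
      exact mul_ne_zero h0 h0'
    · rw [map_mul, map_add, map_mul, map_mul, ← e, ← e']
      ring
  algebraMap_mem' := by
    intro c
    refine ⟨0, C c, C 1, expt_C_mem c, expt_C_mem 1, ?_, ?_⟩
    · rw [C_1, map_one]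
      exact one_ne_zero
    · rw [C_1, map_one, mul_one]
      exact (π.commutes c).symm
  inv_mem' := by
    rintro x ⟨m, g, h, hg, hh, h0, e⟩
    by_cases hx : x = 0
    · refine ⟨0, C 0, C 1, expt_C_mem 0, expt_C_mem 1, ?_, ?_⟩
      · rw [C_1, map_one]
        exact one_ne_zero
      · rw [hx, inv_zero, zero_mul, C_0, map_zero]
    · refine ⟨m, h, g, hh, hg, ?_, ?_⟩
      · rw [← e]
        exact mul_ne_zero hx h0
      · rw [← e, ← mul_assoc, inv_mul_cancel₀ hx, one_mul]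

theorem expt_mem_field {L : Type} [Field L] [Algebra κ L] (π : Sr κ N q →ₐ[κ] L) (x : L) :
    x ∈ exptField π ↔ ∃ (m : Fin (q + 1) → ℕ) (g h : Sr κ N q), g ∈ Sm κ N q m ∧
      h ∈ Sm κ N q m ∧ π h ≠ 0 ∧ x * π h = π g := Iff.rfl

/-- The point. -/
theorem expt_main {L : Type} [Field L] [Algebra κ L] (π : Sr κ N q →ₐ[κ] L)
    (hs : ∀ i : Fin (q + 1), ∃ x : Vr N q, gidx x = i ∧ π (X x) ≠ 0) :
    ∃ (pt : Pt N q (exptField π)), pt.Gen κ ∧
      ∀ m, ∀ g ∈ Sm κ N q m, pt.ev κ g = 0 ↔ π g = 0 := by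
  choose s hs1 hs2 using hs
  have hval : ∀ x : Vr N q, π (X x) / π (X (s (gidx x))) ∈ exptField π := by
    intro x
    rw [expt_mem_field]
    refine ⟨Pi.single (gidx x) 1, X x, X (s (gidx x)), expt_X_mem x, ?_, hs2 _, ?_⟩
    · have := expt_X_mem (κ := κ) (s (gidx x))
      rw [hs1] at this
      exact this
    · exact div_mul_cancel₀ _ (hs2 _)
  have hone : ∀ i, π (X (s i)) / π (X (s (gidx (s i)))) ≠ 0 := by
    intro i
    rw [hs1]
    exact div_ne_zero (hs2 i) (hs2 i)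
  let V : Vr N q → exptField π := fun x => ⟨π (X x) / π (X (s (gidx x))), hval x⟩
  have hV0 : ∀ i, V (s i) ≠ 0 := fun i h => hone i (congrArg Subtype.val h)
  let pt : Pt N q (exptField π) :=
    { z := fun j => V (Sum.inl j)
      u := fun k => V (Sum.inr (k, false))
      v := fun k => V (Sum.inr (k, true))
      hz := by
        have h1 := hV0 0
        have h2 := hs1 0
        rcases hx : s 0 with j | ⟨k, b⟩
        · rw [hx] at h1
          exact ⟨j, h1⟩
        · rw [hx] at h2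
          exact absurd h2 (Fin.succ_ne_zero k)
      huv := by
        intro k
        have h1 := hV0 k.succ
        have h2 := hs1 k.succ
        rcases hx : s k.succ with j | ⟨k', b⟩
        · rw [hx] at h2
          exact absurd h2.symm (Fin.succ_ne_zero k)
        · rw [hx] at h1 h2
          have hk : k' = k := Fin.succ_injective _ h2
          subst hk
          cases b
          · exact Or.inl h1
          · exact Or.inr h1 }
  have hptv : ∀ x, pt.val x = V x := by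
    rintro (j | ⟨k, b⟩)
    · rfl
    · cases b <;> rfl
  have key : ∀ m, ∀ g ∈ Sm κ N q m, π g = (∏ k, π (X (s k)) ^ m k) * (pt.ev κ g : exptField π) := by
    intro m g hg
    have h1 : ((pt.ev κ g : exptField π) : L) =
        aeval (fun x => π (X x) / π (X (s (gidx x)))) g := by
      have h2 : ((exptField π).val.comp (pt.ev κ)) =
          aeval (fun x => π (X x) / π (X (s (gidx x)))) := by
        refine MvPolynomial.algHom_ext fun x => ?_
        rw [AlgHom.comp_apply, aeval_X]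
        unfold Pt.ev
        rw [aeval_X, hptv]
        rfl
      exact congrArg (fun φ : Sr κ N q →ₐ[κ] L => φ g) h2
    rw [h1, ← expt_scale _ (fun k => π (X (s k))) hg]
    have h3 : (fun x : Vr N q => π (X (s (gidx x))) * (π (X x) / π (X (s (gidx x))))) =
        fun x => π (X x) := by
      funext x
      exact mul_div_cancel₀ _ (hs2 _)
    rw [h3]
    have h4 : π = aeval (fun x => π (X x)) := by
      refine MvPolynomial.algHom_ext fun x => ?_
      rw [aeval_X]
    exact congrArg (fun φ : Sr κ N q →ₐ[κ] L => φ g) h4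
  have hD : ∀ m : Fin (q + 1) → ℕ, (∏ k, π (X (s k)) ^ m k) ≠ 0 := fun m =>
    Finset.prod_ne_zero_iff.2 fun k _ => pow_ne_zero _ (hs2 k)
  have hz : ∀ m, ∀ g ∈ Sm κ N q m, pt.ev κ g = 0 ↔ π g = 0 := by
    intro m g hg
    rw [key m g hg]
    constructor
    · intro h
      rw [h]
      simp
    · intro h
      have := (mul_eq_zero.1 h).resolve_left (hD m)
      exact Subtype.ext this
  refine ⟨pt, ?_, hz⟩
  intro x
  obtain ⟨m, g, h, hg, hh, h0, e⟩ := (expt_mem_field π x.1).1 x.2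
  refine ⟨m, g, h, hg, hh, fun h' => h0 ((hz m h hh).1 h'), ?_⟩
  apply Subtype.ext
  apply mul_left_cancel₀ (hD m)
  rw [key m g hg, key m h hh] at e
  rw [← e]
  show (∏ k, π (X (s k)) ^ m k) * ((x : L) * ((pt.ev κ h : exptField π) : L)) = _
  ring

end expt

theorem exists_pt {p : ℕ} (hp : 1 ≤ p) {κ : Type} [Field κ] {N q : ℕ} {𝔔 : Ideal (Sr κ N q)}
    (h𝔔 : 𝔔.IsPrime) (hom : HomI 𝔔) (hQ : Qf p κ N q ∉ 𝔔) :
    ∃ (K : Type) (_ : Field K) (_ : Algebra κ K) (pt : Pt N q K), pt.Gen κ ∧ pt.P κ = 𝔔 := by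
  let A := Sr κ N q ⧸ 𝔔
  let L := FractionRing A
  let π : Sr κ N q →ₐ[κ] L := (IsScalarTower.toAlgHom κ A L).comp (Ideal.Quotient.mkₐ κ 𝔔)
  have hπ : ∀ g, π g = 0 ↔ g ∈ 𝔔 := by
    intro g
    rw [← Ideal.Quotient.eq_zero_iff_mem]
    constructor
    · intro h
      exact (IsFractionRing.injective A L) (h.trans (map_zero (algebraMap A L)).symm)
    · intro h
      show algebraMap A L (Ideal.Quotient.mk 𝔔 g) = 0
      rw [h, map_zero]
  obtain ⟨pt, hG, hz⟩ := expt_main π (fun i => by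
    obtain ⟨x, hx, hx'⟩ := expt_vars hp hQ i
    exact ⟨x, hx, fun h => hx' ((hπ _).1 h)⟩)
  refine ⟨exptField π, inferInstance, inferInstance, pt, hG, ?_⟩
  refine expt_ext (pt_hom pt) hom fun m g hg => ?_
  rw [pt_mem_iff pt hg, hz m g hg, hπ]

end Pool.Agent.W_MP_b723a0_ag.P
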