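import Mathlib
import Pool.Agent.W_MP_b723a0_ag.P.Defs

/-!
# Task W5: derivations with prescribed values on a p-basis

Let `v` be a p-basis of `K` and `k` a field extension of `K`. For every `w ∈ k^n` there is a
derivation `D : K → k` with `D v_l = w_l`.

Proof. Define `D(a) = ∑_I c_I^p ∑_l I_l v^{I - e_l} w_l` for `a = ∑_I c_I^p v^I`. Additivity: the
coefficients `c_I` are additive in `a` (uniqueness and `(c+c')^p = c^p + c'^p`). Leibniz rule: it
is enough (bi-additivity) to check it on `a = c^p v^I`, `a' = c'^p v^{I'}`; note first that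
for arbitrary exponents `J ∈ ℕ^n`, `D(c^p v^J) = c^p ∑_l J_l v^{J - e_l} w_l`: write
`J = p Q + I`, `v^J = (v^Q)^p v^I`, and `J_l = I_l` in `k`. Then
`D(c^p c'^p v^{I+I'}) = (cc')^p ∑_l (I_l + I'_l) v^{I+I'-e_l} w_l`, as wanted.

Alternative: `K = K^p[X_1..X_n]/(X_l^p - v_l^p)`, and the `K^p`-derivation `X_l ↦ w_l` of the
polynomial ring kills `X_l^p - v_l^p`.
-/

namespace Pool.Agent.W_MP_b723a0_ag.P

/-- The monomial `v^J`. -/
def pbMon {K : Type} [Field K] {n : ℕ} (v : Fin n → K) (J : Fin n → ℕ) : K := ∏ l, v l ^ J l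

/-- The derivative of the monomial `v^J` in the direction `w`. -/
noncomputable def pbDer {K k : Type} [Field K] [Field k] [Algebra K k] {n : ℕ} (v : Fin n → K)
    (w : Fin n → k) (J : Fin n → ℕ) : k :=
  ∑ l, (J l : k) * (algebraMap K k (v l ^ (J l - 1) * ∏ l' ∈ Finset.univ.erase l, v l' ^ J l') *
    w l)

section
variable {K k : Type} [Field K] [Field k] [Algebra K k] {n : ℕ} (v : Fin n → K) (w : Fin n → k)

theorem pbMon_add (J J' : Fin n → ℕ) :
    pbMon v (fun l => J l + J' l) = pbMon v J * pbMon v J' := by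
  unfold pbMon
  rw [← Finset.prod_mul_distrib]
  exact Finset.prod_congr rfl fun l _ => pow_add _ _ _

theorem pbMon_mul (p : ℕ) (J : Fin n → ℕ) : pbMon v (fun l => p * J l) = pbMon v J ^ p := by
  unfold pbMon
  rw [← Finset.prod_pow]
  refine Finset.prod_congr rfl fun l _ => ?_
  rw [← pow_mul, mul_comm]

theorem pb_aux (x : K) (a b : ℕ) : ((a + b : ℕ) : k) * algebraMap K k (x ^ (a + b - 1)) =
    (b : k) * algebraMap K k (x ^ a * x ^ (b - 1)) +
      (a : k) * algebraMap K k (x ^ b * x ^ (a - 1)) := by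
  cases a with
  | zero => simp
  | succ a =>
    cases b with
    | zero => simp
    | succ b =>
      have h1 : a + 1 + (b + 1) - 1 = a + b + 1 := by omega
      have h2 : a + 1 - 1 = a := rfl
      have h3 : b + 1 - 1 = b := rfl
      rw [h1, h2, h3]
      simp only [map_pow, map_mul, Nat.cast_add, Nat.cast_one]
      ring

theorem pbDer_add (J J' : Fin n → ℕ) : pbDer v w (fun l => J l + J' l) =
    algebraMap K k (pbMon v J) * pbDer v w J' + algebraMap K k (pbMon v J') * pbDer v w J := by
  unfold pbDer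
  rw [Finset.mul_sum, Finset.mul_sum, ← Finset.sum_add_distrib]
  refine Finset.sum_congr rfl fun l _ => ?_
  have h1 : ∀ I : Fin n → ℕ,
      pbMon v I = v l ^ I l * ∏ l' ∈ Finset.univ.erase l, v l' ^ I l' := fun I =>
    (Finset.mul_prod_erase _ _ (Finset.mem_univ l)).symm
  have h2 : ∏ l' ∈ Finset.univ.erase l, v l' ^ (J l' + J' l') =
      (∏ l' ∈ Finset.univ.erase l, v l' ^ J l') * ∏ l' ∈ Finset.univ.erase l, v l' ^ J' l' := by
    rw [← Finset.prod_mul_distrib]
    exact Finset.prod_congr rfl fun l _ => pow_add _ _ _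
  have h3 := pb_aux (k := k) (v l) (J l) (J' l)
  rw [h1 J, h1 J', h2]
  simp only [map_mul] at h3 ⊢
  linear_combination (algebraMap K k (∏ l' ∈ Finset.univ.erase l, v l' ^ J l') *
    algebraMap K k (∏ l' ∈ Finset.univ.erase l, v l' ^ J' l') * w l) * h3

theorem pbDer_period (p : ℕ) [CharP k p] (Q I : Fin n → ℕ) :
    pbDer v w (fun l => p * Q l + I l) = algebraMap K k (pbMon v Q ^ p) * pbDer v w I := by
  rw [pbDer_add v w (fun l => p * Q l) I, pbMon_mul]
  have h1 : pbDer v w (fun l => p * Q l) = 0 := by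
    unfold pbDer
    refine Finset.sum_eq_zero fun l _ => ?_
    have : ((p * Q l : ℕ) : k) = 0 := by
      push_cast
      rw [CharP.cast_eq_zero k p, zero_mul]
    rw [this, zero_mul]
  rw [h1, mul_zero, add_zero]

theorem pbMon_single (l : Fin n) : pbMon v (Pi.single l 1) = v l := by
  unfold pbMon
  rw [Finset.prod_eq_single l]
  · simp
  · intro b _ hb
    simp [Pi.single_eq_of_ne hb]
  · intro h
    exact (h (Finset.mem_univ l)).elim

theorem pbDer_single (l : Fin n) : pbDer v w (Pi.single l 1) = w l := by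
  unfold pbDer
  rw [Finset.sum_eq_single l]
  · have h1 : ∏ l' ∈ Finset.univ.erase l, v l' ^ (Pi.single l 1 : Fin n → ℕ) l' = 1 := by
      refine Finset.prod_eq_one fun l' hl' => ?_
      rw [Pi.single_eq_of_ne (Finset.ne_of_mem_erase hl'), pow_zero]
    rw [h1]
    simp
  · intro b _ hb
    simp [Pi.single_eq_of_ne hb]
  · intro h
    exact (h (Finset.mem_univ l)).elim

end

theorem exists_derivation {p : ℕ} [Fact p.Prime] {K : Type} [Field K] [CharP K p] {n : ℕ}
    {v : Fin n → K} (hv : PBasis p v) (k : Type) [Field k] [Algebra K k] (w : Fin n → k) :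
    ∃ D : Derivation ℤ K k, ∀ l, D (v l) = w l := by
  classical
  have hk : CharP k p := charP_of_injective_algebraMap (algebraMap K k).injective p
  have hp0 : 0 < p := (Fact.out : p.Prime).pos
  have hex : ∀ a : K, ∃ c : (Fin n → Fin p) → K,
      a = ∑ I, c I ^ p * pbMon v (fun l => (I l : ℕ)) ∧
      ∀ d : (Fin n → Fin p) → K, a = ∑ I, d I ^ p * pbMon v (fun l => (I l : ℕ)) → d = c := by
    intro a
    obtain ⟨c, hc, hu⟩ := hv a
    exact ⟨c, hc, hu⟩
  choose co hco hcu using hex
  let D0 : K → k := fun a => ∑ I, algebraMap K k (co a I ^ p) * pbDer v w (fun l => (I l : ℕ))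
  have hadd : ∀ a b, D0 (a + b) = D0 a + D0 b := by
    intro a b
    have h1 : (fun I => co a I + co b I) = co (a + b) := by
      refine hcu (a + b) _ ?_
      conv_lhs => rw [hco a, hco b]
      rw [← Finset.sum_add_distrib]
      refine Finset.sum_congr rfl fun I _ => ?_
      rw [add_pow_char, add_mul]
    change ∑ I, algebraMap K k (co (a + b) I ^ p) * pbDer v w (fun l => (I l : ℕ)) =
      ∑ I, algebraMap K k (co a I ^ p) * pbDer v w (fun l => (I l : ℕ)) +
        ∑ I, algebraMap K k (co b I ^ p) * pbDer v w (fun l => (I l : ℕ))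
    rw [← h1, ← Finset.sum_add_distrib]
    refine Finset.sum_congr rfl fun I _ => ?_
    rw [add_pow_char, map_add, add_mul]
  have hmon : ∀ (c : K) (J : Fin n → ℕ),
      D0 (c ^ p * pbMon v J) = algebraMap K k (c ^ p) * pbDer v w J := by
    intro c J
    let Q : Fin n → ℕ := fun l => J l / p
    let I : Fin n → Fin p := fun l => ⟨J l % p, Nat.mod_lt _ hp0⟩
    have hJ : J = fun l => p * Q l + (I l : ℕ) := by
      funext l
      exact (Nat.div_add_mod (J l) p).symm
    have h1 : (Pi.single I (c * pbMon v Q) : (Fin n → Fin p) → K) = co (c ^ p * pbMon v J) := by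
      refine hcu _ _ ?_
      rw [Finset.sum_eq_single I]
      · rw [Pi.single_eq_same, hJ, pbMon_add v (fun l => p * Q l) (fun l => (I l : ℕ)), pbMon_mul]
        ring
      · intro I' _ hI'
        rw [Pi.single_eq_of_ne hI', zero_pow hp0.ne', zero_mul]
      · intro h
        exact (h (Finset.mem_univ I)).elim
    change ∑ I', algebraMap K k (co (c ^ p * pbMon v J) I' ^ p) *
      pbDer v w (fun l => (I' l : ℕ)) = _
    rw [← h1, Finset.sum_eq_single I]
    · rw [Pi.single_eq_same]
      conv_rhs => rw [hJ]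
      rw [pbDer_period v w p Q (fun l => (I l : ℕ)), mul_pow, map_mul]
      ring
    · intro I' _ hI'
      rw [Pi.single_eq_of_ne hI', zero_pow hp0.ne', map_zero, zero_mul]
    · intro h
      exact (h (Finset.mem_univ I)).elim
  let D1 : K →+ k := AddMonoidHom.mk' D0 hadd
  have hmon1 : ∀ (c : K) (J : Fin n → ℕ),
      D1 (c ^ p * pbMon v J) = algebraMap K k (c ^ p) * pbDer v w J := hmon
  have hgen : ∀ b : K, ∃ x : (Fin n → Fin p) → K, b = ∑ I, x I ∧
      ∀ I, ∃ (c : K) (J : Fin n → ℕ), x I = c ^ p * pbMon v J := fun b =>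
    ⟨fun I => co b I ^ p * pbMon v (fun l => (I l : ℕ)), hco b, fun I => ⟨_, _, rfl⟩⟩
  have key : ∀ (c : K) (J : Fin n → ℕ) (c' : K) (J' : Fin n → ℕ),
      D1 ((c ^ p * pbMon v J) * (c' ^ p * pbMon v J')) =
        (c ^ p * pbMon v J) • D1 (c' ^ p * pbMon v J') +
          (c' ^ p * pbMon v J') • D1 (c ^ p * pbMon v J) := by
    intro c J c' J'
    have h1 : (c ^ p * pbMon v J) * (c' ^ p * pbMon v J') =
        (c * c') ^ p * pbMon v (fun l => J l + J' l) := by
      rw [pbMon_add]
      ring
    rw [h1, hmon1, hmon1, hmon1, pbDer_add, Algebra.smul_def, Algebra.smul_def]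
    simp only [map_mul, map_pow]
    ring
  have step1 : ∀ (c : K) (J : Fin n → ℕ) (b : K), D1 ((c ^ p * pbMon v J) * b) =
      (c ^ p * pbMon v J) • D1 b + b • D1 (c ^ p * pbMon v J) := by
    intro c J b
    obtain ⟨x, rfl, hx⟩ := hgen b
    rw [Finset.mul_sum, map_sum, map_sum, Finset.smul_sum, Finset.sum_smul,
      ← Finset.sum_add_distrib]
    refine Finset.sum_congr rfl fun I _ => ?_
    obtain ⟨c', J', h⟩ := hx I
    rw [h]
    exact key c J c' J'
  have step2 : ∀ a b : K, D1 (a * b) = a • D1 b + b • D1 a := by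
    intro a b
    obtain ⟨x, rfl, hx⟩ := hgen a
    rw [Finset.sum_mul, map_sum, map_sum, Finset.smul_sum, Finset.sum_smul,
      ← Finset.sum_add_distrib]
    refine Finset.sum_congr rfl fun I _ => ?_
    obtain ⟨c', J', h⟩ := hx I
    rw [h]
    exact step1 c' J' b
  refine ⟨Derivation.mk' D1.toIntLinearMap step2, fun l => ?_⟩
  change D1 (v l) = w l
  have h1 := hmon1 1 (Pi.single l 1)
  rw [pbMon_single, pbDer_single, one_pow, one_mul, map_one, one_mul] at h1
  exact h1

/-- The product rule. -/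
theorem pb_leibniz_prod {K k : Type} [Field K] [Field k] [Algebra K k] (D : Derivation ℤ K k)
    {n : ℕ} (s : Finset (Fin n)) (f : Fin n → K) :
    D (∏ i ∈ s, f i) = ∑ i ∈ s, (∏ j ∈ s.erase i, f j) • D (f i) := by
  classical
  induction s using Finset.induction_on with
  | empty => simp
  | insert a s ha ih =>
    rw [Finset.prod_insert ha, Derivation.leibniz, ih, Finset.sum_insert ha,
      Finset.erase_insert ha, Finset.smul_sum, add_comm]
    congr 1
    refine Finset.sum_congr rfl fun i hi => ?_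
    have hne : a ≠ i := by
      rintro rfl
      exact ha hi
    rw [Finset.erase_insert_of_ne hne, Finset.prod_insert (fun h => ha (Finset.mem_of_mem_erase h)),
      mul_smul]

/-- A derivation kills `p`-th powers, and acts on monomials as usual. -/
theorem derivation_expansion {p : ℕ} [Fact p.Prime] {K : Type} [Field K] [CharP K p] {n : ℕ}
    (v : Fin n → K) (k : Type) [Field k] [Algebra K k] (D : Derivation ℤ K k) {ι : Type}
    [Fintype ι] (c : ι → K) (J : ι → Fin n → ℕ) :
    D (∑ i, c i ^ p * ∏ l, v l ^ J i l) =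
      ∑ i, algebraMap K k (c i ^ p) * ∑ l, (J i l : k) *
        (algebraMap K k (v l ^ (J i l - 1) * ∏ l' ∈ Finset.univ.erase l, v l' ^ J i l') *
          D (v l)) := by
  have hk : CharP k p := charP_of_injective_algebraMap (algebraMap K k).injective p
  rw [map_sum]
  refine Finset.sum_congr rfl fun i _ => ?_
  have h0 : D (c i ^ p) = 0 := by
    rw [Derivation.leibniz_pow, nsmul_eq_mul, CharP.cast_eq_zero k p, zero_mul]
  rw [Derivation.leibniz, h0, smul_zero, add_zero, Algebra.smul_def, pb_leibniz_prod]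
  congr 1
  refine Finset.sum_congr rfl fun l _ => ?_
  rw [Derivation.leibniz_pow, nsmul_eq_mul, Algebra.smul_def, Algebra.smul_def]
  simp only [map_mul]
  ring

end Pool.Agent.W_MP_b723a0_ag.P
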