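import Mathlib
import Pool.Agent.W_MP_b723a0_ag.Defs
import Pool.Agent.W_MP_b723a0_ag.Digits
import Pool.Agent.W_MP_b723a0_ag.P.Defs

/-!
# Task W7: the subring `Rv v` of `W(K)`

`rv_form`: every element of `Rv p v` (`v` arbitrary) is `∑_I F(C_I) [v]^I`, `I : Fin n → Fin p`,
`C_I ∈ W(K)`. Proof: these elements form a subring containing the generators:
`[v_l]^p = F([v_l])` (`frobenius_teichmuller` in `Digits.lean`), so products of two monomials are
again of this form (`[v]^{I+I'} = F([v]^Q) [v]^{I''}`).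

`rv_dvd`: if `x ∈ Rv p v` and `x.coeff 0 = 0` then `x = p y` with `y ∈ W(K)`. Proof: write
`x = ∑_I F(C_I) [v]^I`; the `0`-th component is `∑_I (C_I)_0^p v^I = 0`, so all `(C_I)_0 = 0` by
uniqueness in `PBasis`; `C_I = V(C'_I)` (`WittVector.eq_iterate_verschiebung` or
`WittVector.verschiebung_shift`), `F(V(C'_I)) = p C'_I`, `x = p ∑_I C'_I [v]^I`.

`mul_p_mem_rv`: `p c = F(V c) ∈ Rv p v` for every `c ∈ W(K)`.

`frob_mem_rv`, `teich_mem_rv`, `teich_pow_mem_rv`: `F c`, `[v_l]`, `[c]^p = F [c]` are in `Rv p v`.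
-/

namespace Pool.Agent.W_MP_b723a0_ag.P

/-- The elements `∑_I F(C_I) [v]^I`. -/
def RvForm (p : ℕ) [Fact p.Prime] {K : Type} [Field K] [CharP K p] {n : ℕ} (v : Fin n → K)
    (x : WittVector p K) : Prop :=
  ∃ C : (Fin n → Fin p) → WittVector p K,
    x = ∑ I, WittVector.frobenius (C I) * ∏ l, WittVector.teichmuller p (v l) ^ (I l : ℕ)

section form
variable {p : ℕ} [Fact p.Prime] {K : Type} [Field K] [CharP K p] {n : ℕ} (v : Fin n → K)

theorem rvForm_zero : RvForm p v 0 := ⟨0, by simp⟩

theorem rvForm_add {x y : WittVector p K} (hx : RvForm p v x) (hy : RvForm p v y) :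
    RvForm p v (x + y) := by
  obtain ⟨C, rfl⟩ := hx
  obtain ⟨C', rfl⟩ := hy
  refine ⟨C + C', ?_⟩
  rw [← Finset.sum_add_distrib]
  refine Finset.sum_congr rfl fun I _ => ?_
  rw [Pi.add_apply, map_add, add_mul]

theorem rvForm_neg {x : WittVector p K} (hx : RvForm p v x) : RvForm p v (-x) := by
  obtain ⟨C, rfl⟩ := hx
  refine ⟨-C, ?_⟩
  rw [← Finset.sum_neg_distrib]
  refine Finset.sum_congr rfl fun I _ => ?_
  rw [Pi.neg_apply, map_neg, neg_mul]

theorem rvForm_sum {ι : Type*} (s : Finset ι) (f : ι → WittVector p K)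
    (h : ∀ i ∈ s, RvForm p v (f i)) : RvForm p v (∑ i ∈ s, f i) := by
  classical
  induction s using Finset.induction_on with
  | empty => simpa using rvForm_zero v
  | insert a s ha ih =>
    rw [Finset.sum_insert ha]
    exact rvForm_add v (h a (Finset.mem_insert_self a s))
      (ih fun i hi => h i (Finset.mem_insert_of_mem hi))

theorem rvForm_mono (C : WittVector p K) (J : Fin n → ℕ) :
    RvForm p v (WittVector.frobenius C * ∏ l, WittVector.teichmuller p (v l) ^ J l) := by
  classical
  have hp : 0 < p := (Fact.out : p.Prime).pos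
  set I₀ : Fin n → Fin p := fun l => ⟨J l % p, Nat.mod_lt _ hp⟩ with hI₀
  refine ⟨fun I => if I = I₀ then C * ∏ l, WittVector.teichmuller p (v l) ^ (J l / p) else 0, ?_⟩
  rw [Finset.sum_eq_single I₀]
  · beta_reduce
    rw [if_pos rfl, map_mul, map_prod, mul_assoc, ← Finset.prod_mul_distrib]
    congr 1
    refine Finset.prod_congr rfl fun l _ => ?_
    rw [map_pow, frobenius_teichmuller, map_pow, ← pow_mul, ← pow_add, hI₀]
    congr 1
    exact (Nat.div_add_mod (J l) p).symm
  · intro I _ hI
    beta_reduce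
    rw [if_neg hI, map_zero, zero_mul]
  · intro h
    exact absurd (Finset.mem_univ I₀) h

theorem rvForm_mul {x y : WittVector p K} (hx : RvForm p v x) (hy : RvForm p v y) :
    RvForm p v (x * y) := by
  obtain ⟨C, rfl⟩ := hx
  obtain ⟨C', rfl⟩ := hy
  rw [Finset.sum_mul_sum]
  refine rvForm_sum v _ _ fun I _ => rvForm_sum v _ _ fun I' _ => ?_
  have h := rvForm_mono v (C I * C' I') (fun l => (I l : ℕ) + (I' l : ℕ))
  have h2 : WittVector.frobenius (C I * C' I') *
      ∏ l, WittVector.teichmuller p (v l) ^ ((I l : ℕ) + (I' l : ℕ)) =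
      WittVector.frobenius (C I) * (∏ l, WittVector.teichmuller p (v l) ^ (I l : ℕ)) *
        (WittVector.frobenius (C' I') * ∏ l, WittVector.teichmuller p (v l) ^ (I' l : ℕ)) := by
    simp only [pow_add, Finset.prod_mul_distrib, map_mul]
    ring
  rwa [h2] at h

theorem rvForm_frob (C : WittVector p K) : RvForm p v (WittVector.frobenius C) := by
  have h := rvForm_mono v C (fun _ => 0)
  simpa using h

end form

theorem rv_form {p : ℕ} [Fact p.Prime] {K : Type} [Field K] [CharP K p] {n : ℕ} (v : Fin n → K)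
    {x : WittVector p K} (hx : x ∈ Rv p v) :
    ∃ C : (Fin n → Fin p) → WittVector p K,
      x = ∑ I, WittVector.frobenius (C I) * ∏ l, WittVector.teichmuller p (v l) ^ (I l : ℕ) := by
  classical
  change RvForm p v x
  unfold Rv at hx
  induction hx using Subring.closure_induction with
  | mem x hx =>
    rcases hx with ⟨C, rfl⟩ | ⟨l, rfl⟩
    · exact rvForm_frob v C
    · have h := rvForm_mono v (1 : WittVector p K) (Pi.single l 1)
      have h2 : WittVector.frobenius (1 : WittVector p K) *
          ∏ l', WittVector.teichmuller p (v l') ^ (Pi.single l 1 : Fin n → ℕ) l' =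
          WittVector.teichmuller p (v l) := by
        rw [map_one, one_mul, Finset.prod_eq_single l]
        · simp
        · intro l' _ hl'
          rw [Pi.single_eq_of_ne hl', pow_zero]
        · intro h
          exact absurd (Finset.mem_univ l) h
      rwa [h2] at h
  | zero => exact rvForm_zero v
  | one => simpa using rvForm_frob v (1 : WittVector p K)
  | add x y _ _ hx hy => exact rvForm_add v hx hy
  | neg x _ hx => exact rvForm_neg v hx
  | mul x y _ _ hx hy => exact rvForm_mul v hx hy

/-- A Witt vector with residue zero is a Verschiebung. -/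
theorem eq_verschiebung_of_coeff_zero {p : ℕ} [Fact p.Prime] {A : Type*} [CommRing A]
    (x : WittVector p A) (h : x.coeff 0 = 0) :
    x = WittVector.verschiebung (WittVector.mk p fun n => x.coeff (n + 1)) := by
  conv_lhs => rw [witt_eq_teichmuller_add_verschiebung p x]
  rw [h, WittVector.teichmuller_zero, zero_add]

theorem rv_dvd {p : ℕ} [Fact p.Prime] {K : Type} [Field K] [CharP K p] {n : ℕ} {v : Fin n → K}
    (hv : PBasis p v) {x : WittVector p K} (hx : x ∈ Rv p v) (h0 : x.coeff 0 = 0) :
    ∃ y : WittVector p K, x = p * y := by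
  obtain ⟨C, hC⟩ := rv_form v hx
  have hp : p ≠ 0 := (Fact.out : p.Prime).ne_zero
  have hcc : ∀ x : WittVector p K, x.coeff 0 = WittVector.constantCoeff x := fun _ => rfl
  have h1 : (0 : K) = ∑ I, (C I).coeff 0 ^ p * ∏ l, v l ^ (I l : ℕ) := by
    rw [← h0, hC, hcc, map_sum]
    refine Finset.sum_congr rfl fun I _ => ?_
    rw [map_mul, map_prod, ← hcc, WittVector.coeff_frobenius_charP]
    congr 1
    refine Finset.prod_congr rfl fun l _ => ?_
    rw [map_pow, ← hcc, WittVector.teichmuller_coeff_zero]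
  have h2 : (0 : K) = ∑ I : Fin n → Fin p, (0 : K) ^ p * ∏ l, v l ^ (I l : ℕ) := by
    simp [zero_pow hp]
  have h3 : (fun I => (C I).coeff 0) = fun _ => (0 : K) := (hv 0).unique h1 h2
  refine ⟨∑ I, (WittVector.mk p fun n => (C I).coeff (n + 1)) *
    ∏ l, WittVector.teichmuller p (v l) ^ (I l : ℕ), ?_⟩
  rw [hC, Finset.mul_sum]
  refine Finset.sum_congr rfl fun I _ => ?_
  have h4 := eq_verschiebung_of_coeff_zero (C I) (congrFun h3 I)
  conv_lhs => rw [h4, WittVector.frobenius_verschiebung]
  ring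

theorem frob_mem_rv {p : ℕ} [Fact p.Prime] {K : Type} [Field K] [CharP K p] {n : ℕ}
    (v : Fin n → K) (c : WittVector p K) : WittVector.frobenius c ∈ Rv p v :=
  Subring.subset_closure (Or.inl ⟨c, rfl⟩)

theorem mul_p_mem_rv {p : ℕ} [Fact p.Prime] {K : Type} [Field K] [CharP K p] {n : ℕ}
    (v : Fin n → K) (c : WittVector p K) : (p : WittVector p K) * c ∈ Rv p v := by
  have h := frob_mem_rv v (WittVector.verschiebung c)
  rwa [WittVector.frobenius_verschiebung, mul_comm] at h

theorem teich_mem_rv {p : ℕ} [Fact p.Prime] {K : Type} [Field K] [CharP K p] {n : ℕ}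
    (v : Fin n → K) (l : Fin n) : WittVector.teichmuller p (v l) ∈ Rv p v :=
  Subring.subset_closure (Or.inr ⟨l, rfl⟩)

theorem teich_pow_mem_rv {p : ℕ} [Fact p.Prime] {K : Type} [Field K] [CharP K p] {n : ℕ}
    (v : Fin n → K) (c : K) : WittVector.teichmuller p c ^ p ∈ Rv p v := by
  have h := frob_mem_rv v (WittVector.teichmuller p c)
  rwa [frobenius_teichmuller, map_pow] at h

/-- For each `a ∈ K` there is an element of `Rv p v` with residue `a` (`v` a p-basis). -/
theorem exists_rv {p : ℕ} [Fact p.Prime] {K : Type} [Field K] [CharP K p] {n : ℕ}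
    {v : Fin n → K} (hv : PBasis p v) (a : K) : ∃ x ∈ Rv p v, x.coeff 0 = a := by
  obtain ⟨c, hc, -⟩ := hv a
  have hcc : ∀ x : WittVector p K, x.coeff 0 = WittVector.constantCoeff x := fun _ => rfl
  refine ⟨∑ I, WittVector.teichmuller p (c I) ^ p *
    ∏ l, WittVector.teichmuller p (v l) ^ (I l : ℕ), ?_, ?_⟩
  · exact Subring.sum_mem _ fun I _ => Subring.mul_mem _ (teich_pow_mem_rv v (c I))
      (Subring.prod_mem _ fun l _ => Subring.pow_mem _ (teich_mem_rv v l) _)
  · rw [hcc, map_sum]
    conv_rhs => rw [hc]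
    refine Finset.sum_congr rfl fun I _ => ?_
    rw [map_mul, map_prod, map_pow, ← hcc, WittVector.teichmuller_coeff_zero]
    congr 1
    refine Finset.prod_congr rfl fun l _ => ?_
    rw [map_pow, ← hcc, WittVector.teichmuller_coeff_zero]

/-- Over a perfect field a Witt vector is congruent mod `p` to the Teichmüller representative of
its residue. -/
theorem dvd_sub_teichmuller {p : ℕ} [Fact p.Prime] {k : Type} [Field k] [CharP k p]
    [PerfectRing k p] (x : WittVector p k) (a : k) (h : x.coeff 0 = a) :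
    (p : WittVector p k) ∣ x - WittVector.teichmuller p a := by
  have h1 := witt_eq_teichmuller_add_verschiebung p x
  obtain ⟨z, hz⟩ := (WittVector.frobenius_bijective p k).2
    (WittVector.mk p fun n => x.coeff (n + 1))
  refine ⟨z, ?_⟩
  conv_lhs => rw [h1, h, ← hz, WittVector.verschiebung_frobenius]
  ring

end Pool.Agent.W_MP_b723a0_ag.P
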