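import Mathlib
import Pool.Agent.W_MP_b723a0_ag.Defs
import Pool.Agent.W_MP_b723a0_ag.P.Defs
import Pool.Agent.W_MP_b723a0_ag.P.PBDer
import Pool.Agent.W_MP_b723a0_ag.P.RvBasics

/-!
# Task W8: comparing a chart with the reference lifts

Let `v'` (`n'` elements) be a p-basis of `K`, `ρ_l ∈ W(K)` with residue `v'_l` (the reference
lifts), `k ⊃ K` perfect, `v̂_l ∈ W(k)` arbitrary lifts of `v'_l`. Then there is a derivation
`D : K → k` such that for ALL coefficient families `e : (Fin n' → Fin p) → K` and all lifts `ê`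
of `e` to `W(k)`:
`∑_I ê_I^p v̂^I ≡ (∑_I [e_I]^p ρ^I) + p [D(∑_I e_I^p v'^I)] mod p^2`.

Proof. `ê_I ≡ [e_I] mod p` (perfectness, `dvd_sub_teichmuller`), so `ê_I^p ≡ [e_I]^p mod p^2`.
`v̂_l = ρ_l + p w_l` for some `w_l ∈ W(k)` (same residue, `k` perfect). Let `D` be the derivation
with `D v'_l = (w_l)_0` (`exists_derivation`). `v̂^I ≡ ρ^I + p ∑_l I_l ρ^{I-e_l} w_l mod p^2`. So the
left side is `≡ ∑_I [e_I]^p ρ^I + p x` with `x` of residue
`∑_I e_I^p ∑_l I_l v'^{I - e_l} (w_l)_0 = D(∑_I e_I^p v'^I)` (`derivation_expansion`), and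
`p x ≡ p [x_0] mod p^2`.
-/

namespace Pool.Agent.W_MP_b723a0_ag.P

theorem chcmp_pow {R : Type*} [CommRing R] (ε a b : R) (n : ℕ) :
    ε ^ 2 ∣ (a + ε * b) ^ n - (a ^ n + ε * ((n : R) * (a ^ (n - 1) * b))) := by
  obtain ⟨c, hc⟩ := Polynomial.powAddExpansion a (ε * b) n
  refine ⟨c * b ^ 2, ?_⟩
  rw [hc]
  ring

theorem chcmp_prod {R : Type*} [CommRing R] (ε : R) {ι : Type*} [DecidableEq ι] (s : Finset ι)
    (a b : ι → R) (n : ι → ℕ) :
    ε ^ 2 ∣ ∏ l ∈ s, (a l + ε * b l) ^ n l - (∏ l ∈ s, a l ^ n l +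
      ε * ∑ l ∈ s, (n l : R) * ((a l ^ (n l - 1) * ∏ l' ∈ s.erase l, a l' ^ n l') * b l)) := by
  induction s using Finset.induction_on with
  | empty => simp
  | insert i s hi ih =>
    obtain ⟨c, hc⟩ := ih
    obtain ⟨d, hd⟩ := chcmp_pow ε (a i) (b i) (n i)
    have h1 : ∑ l ∈ s, (n l : R) * ((a l ^ (n l - 1) *
        ∏ l' ∈ (insert i s).erase l, a l' ^ n l') * b l) =
        a i ^ n i * ∑ l ∈ s, (n l : R) * ((a l ^ (n l - 1) *
          ∏ l' ∈ s.erase l, a l' ^ n l') * b l) := by
      rw [Finset.mul_sum]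
      refine Finset.sum_congr rfl fun l hl => ?_
      have hne : i ≠ l := fun h => hi (h ▸ hl)
      rw [Finset.erase_insert_of_ne hne, Finset.prod_insert]
      · ring
      · intro h
        exact hi (Finset.mem_of_mem_erase h)
    rw [Finset.prod_insert hi, Finset.prod_insert hi, Finset.sum_insert hi,
      Finset.erase_insert hi, h1]
    generalize (∑ l ∈ s, (n l : R) * ((a l ^ (n l - 1) *
          ∏ l' ∈ s.erase l, a l' ^ n l') * b l)) = S at *
    generalize (∏ l ∈ s, (a l + ε * b l) ^ n l) = P1 at *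
    generalize (∏ l ∈ s, a l ^ n l) = P0 at *
    have e1 : P1 = P0 + ε * S + ε ^ 2 * c := by linear_combination hc
    have e2 : (a i + ε * b i) ^ n i = a i ^ n i + ε * ((n i : R) * (a i ^ (n i - 1) * b i)) +
      ε ^ 2 * d := by linear_combination hd
    refine ⟨(n i : R) * (a i ^ (n i - 1) * b i) * S + d * P1 +
      (a i ^ n i + ε * ((n i : R) * (a i ^ (n i - 1) * b i))) * c, ?_⟩
    rw [e2, e1]
    ring

theorem chart_compare {p : ℕ} [Fact p.Prime] {K : Type} [Field K] [CharP K p] {n : ℕ}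
    {v : Fin n → K} (hv : PBasis p v) (ρ : Fin n → WittVector p K)
    (hρ : ∀ l, (ρ l).coeff 0 = v l) (k : Type) [Field k] [CharP k p] [PerfectRing k p]
    [Algebra K k] (vh : Fin n → WittVector p k)
    (hvh : ∀ l, (vh l).coeff 0 = algebraMap K k (v l)) :
    ∃ D : Derivation ℤ K k, ∀ (e : (Fin n → Fin p) → K)
      (eh : (Fin n → Fin p) → WittVector p k), (∀ I, (eh I).coeff 0 = algebraMap K k (e I)) →
      (p : WittVector p k) ^ 2 ∣ (∑ I, eh I ^ p * ∏ l, vh l ^ (I l : ℕ)) -
        (WittVector.map (algebraMap K k)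
          (∑ I, WittVector.teichmuller p (e I) ^ p * ∏ l, ρ l ^ (I l : ℕ)) +
          p * WittVector.teichmuller p (D (∑ I, e I ^ p * ∏ l, v l ^ (I l : ℕ)))) := by
  classical
  have h1 : ∀ l, ∃ w : WittVector p k,
      vh l = WittVector.map (algebraMap K k) (ρ l) + (p : WittVector p k) * w := by
    intro l
    have ha := dvd_sub_teichmuller (vh l) _ (hvh l)
    have hb := dvd_sub_teichmuller (WittVector.map (algebraMap K k) (ρ l))
      (algebraMap K k (v l)) (by rw [WittVector.map_coeff, hρ])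
    obtain ⟨w, hw⟩ := dvd_sub ha hb
    refine ⟨w, ?_⟩
    linear_combination hw
  choose w hw using h1
  obtain ⟨D, hD⟩ := exists_derivation hv k (fun l => (w l).coeff 0)
  refine ⟨D, fun e eh heh => ?_⟩
  have h2 : ∀ I, (p : WittVector p k) ^ 2 ∣
      eh I ^ p - WittVector.teichmuller p (algebraMap K k (e I)) ^ p := by
    intro I
    have := dvd_sub_pow_of_dvd_sub (dvd_sub_teichmuller (eh I) _ (heh I)) 1
    simpa only [pow_one, one_add_one_eq_two] using this
  have h3 : ∀ I : Fin n → Fin p, (p : WittVector p k) ^ 2 ∣ ∏ l, vh l ^ (I l : ℕ) -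
      (∏ l, WittVector.map (algebraMap K k) (ρ l) ^ (I l : ℕ) + (p : WittVector p k) *
        ∑ l, ((I l : ℕ) : WittVector p k) *
          ((WittVector.map (algebraMap K k) (ρ l) ^ ((I l : ℕ) - 1) *
            ∏ l' ∈ Finset.univ.erase l, WittVector.map (algebraMap K k) (ρ l') ^ (I l' : ℕ)) *
              w l)) := by
    intro I
    have := chcmp_prod (p : WittVector p k) Finset.univ
      (fun l => WittVector.map (algebraMap K k) (ρ l)) w (fun l => (I l : ℕ))
    simpa only [← hw] using this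
  choose A hA using h2
  choose B hB using h3
  set x : WittVector p k := ∑ I : Fin n → Fin p,
    WittVector.teichmuller p (algebraMap K k (e I)) ^ p * ∑ l, ((I l : ℕ) : WittVector p k) *
          ((WittVector.map (algebraMap K k) (ρ l) ^ ((I l : ℕ) - 1) *
            ∏ l' ∈ Finset.univ.erase l, WittVector.map (algebraMap K k) (ρ l') ^ (I l' : ℕ)) *
              w l) with hxdef
  have hx0 : x.coeff 0 = D (∑ I, e I ^ p * ∏ l, v l ^ (I l : ℕ)) := by
    rw [derivation_expansion v k D e (fun I l => (I l : ℕ))]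
    have hc : ∀ y : WittVector p k, y.coeff 0 = WittVector.constantCoeff y := fun y => rfl
    rw [hc, hxdef, map_sum]
    refine Finset.sum_congr rfl fun I _ => ?_
    rw [map_mul, map_pow, map_sum]
    have ht : WittVector.constantCoeff (WittVector.teichmuller p (algebraMap K k (e I))) =
        algebraMap K k (e I) := WittVector.teichmuller_coeff_zero p _
    rw [ht, map_pow]
    congr 1
    refine Finset.sum_congr rfl fun l _ => ?_
    have hr : ∀ l, WittVector.constantCoeff (WittVector.map (algebraMap K k) (ρ l)) =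
        algebraMap K k (v l) := fun l => by
      rw [← hc, WittVector.map_coeff, hρ]
    simp only [map_mul, map_natCast, map_pow, map_prod, hr, hD, hc]
  obtain ⟨y, hy⟩ := dvd_sub_teichmuller x _ hx0
  refine ⟨∑ I, (A I * ∏ l, vh l ^ (I l : ℕ) +
    WittVector.teichmuller p (algebraMap K k (e I)) ^ p * B I) + y, ?_⟩
  have hterm : ∀ I : Fin n → Fin p, eh I ^ p * ∏ l, vh l ^ (I l : ℕ) =
      WittVector.teichmuller p (algebraMap K k (e I)) ^ p *
        ∏ l, WittVector.map (algebraMap K k) (ρ l) ^ (I l : ℕ) +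
      (p : WittVector p k) * (WittVector.teichmuller p (algebraMap K k (e I)) ^ p *
        ∑ l, ((I l : ℕ) : WittVector p k) *
          ((WittVector.map (algebraMap K k) (ρ l) ^ ((I l : ℕ) - 1) *
            ∏ l' ∈ Finset.univ.erase l, WittVector.map (algebraMap K k) (ρ l') ^ (I l' : ℕ)) *
              w l)) +
      (p : WittVector p k) ^ 2 * (A I * ∏ l, vh l ^ (I l : ℕ) +
        WittVector.teichmuller p (algebraMap K k (e I)) ^ p * B I) := by
    intro I
    linear_combination (∏ l, vh l ^ (I l : ℕ)) * hA I +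
      WittVector.teichmuller p (algebraMap K k (e I)) ^ p * hB I
  have hM : WittVector.map (algebraMap K k)
      (∑ I, WittVector.teichmuller p (e I) ^ p * ∏ l, ρ l ^ (I l : ℕ)) =
      ∑ I, WittVector.teichmuller p (algebraMap K k (e I)) ^ p *
        ∏ l, WittVector.map (algebraMap K k) (ρ l) ^ (I l : ℕ) := by
    simp only [map_sum, map_mul, map_pow, map_prod, WittVector.map_teichmuller]
  rw [hM, Finset.sum_congr rfl fun I _ => hterm I, Finset.sum_add_distrib,
    Finset.sum_add_distrib, ← Finset.mul_sum, ← Finset.mul_sum, ← hxdef]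
  linear_combination (p : WittVector p k) * hy

end Pool.Agent.W_MP_b723a0_ag.P
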