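import Mathlib
import Pool.Agent.W_MP_b723a0_ag.Defs
import Pool.Agent.W_MP_b723a0_ag.P.Defs

/-!
# Task W4: dependence modulo `p^2`

Let `k` be perfect and infinite and let `F` be a polynomial over `ℤ_p` such that `p^i ∣ F(ŷ)` for
all lifts `ŷ ∈ W(k)^σ` of `y ∈ k^σ`. Then `F(ŷ) mod p^{i+1}` depends only on `ŷ mod p^2`.

Proof. Fix a lift `ŷ` and let `Φ(X) = F(ŷ + p X) ∈ W(k)[X_s : s ∈ σ]`. For all `x ∈ W(k)^σ`,
`p^i ∣ Φ(x)`. Claim: all coefficients of `Φ` are divisible by `p^i`. Otherwise let `j < i` be the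
largest with `Φ = p^j Φ'`, `Φ'` not divisible by `p`; then `Φ' mod p ∈ k[X]` is nonzero, so (`k`
infinite, `MvPolynomial.funext`) it is nonzero at some `x₀ ∈ k^σ`; for `x = [x₀]`,
`p ∤ Φ'(x)`, so `p^{j+1} ∤ Φ(x)`: contradiction. So `Φ = p^i Φ'` and
`Φ(p h) - Φ(0) = p^i (Φ'(p h) - Φ'(0))` is divisible by `p^{i+1}`. If `ŷ' = ŷ + p^2 h` then
`F(ŷ') - F(ŷ) = Φ(p h) - Φ(0)`.
(`W(k)` is a domain with `W(k)/p = k`: `pVal_witt`, `WittVector.constantCoeff`; divisibility by
`p^i` is vanishing of the first `i` components: `WittVector.mem_span_p_pow_iff_le_coeff_eq_zero`.)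
-/

namespace Pool.Agent.W_MP_b723a0_ag.P

theorem modP2_dvd_iff {p : ℕ} [Fact p.Prime] (k : Type) [Field k] [CharP k p] [PerfectRing k p]
    (x : WittVector p k) :
    (p : WittVector p k) ∣ x ↔ (WittVector.constantCoeff : WittVector p k →+* k) x = 0 := by
  rw [← Ideal.mem_span_singleton]
  exact WittVector.mem_span_p_iff_coeff_zero_eq_zero x

theorem modP2_eval_const {p : ℕ} [Fact p.Prime] (k : Type) [Field k] [CharP k p]
    [PerfectRing k p] {σ : Type} (Φ : MvPolynomial σ (WittVector p k)) (x : σ → WittVector p k) :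
    (WittVector.constantCoeff : WittVector p k →+* k) (MvPolynomial.eval x Φ) =
      MvPolynomial.eval (fun s => (WittVector.constantCoeff : WittVector p k →+* k) (x s))
        (MvPolynomial.map (WittVector.constantCoeff : WittVector p k →+* k) Φ) := by
  rw [MvPolynomial.eval_map]
  exact MvPolynomial.hom_eval₂ Φ (RingHom.id _) WittVector.constantCoeff x

theorem modP2_const_p {p : ℕ} [Fact p.Prime] (k : Type) [Field k] [CharP k p]
    [PerfectRing k p] :
    (WittVector.constantCoeff : WittVector p k →+* k) (p : WittVector p k) = 0 := by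
  rw [map_natCast]
  exact CharP.cast_eq_zero k p

/-- a polynomial all of whose values are divisible by `p^i` is divisible by `p^i` -/
theorem modP2_coeff_dvd {p : ℕ} [Fact p.Prime] (k : Type) [Field k] [CharP k p]
    [PerfectRing k p] [Infinite k] {σ : Type} (Φ : MvPolynomial σ (WittVector p k)) (i : ℕ)
    (h : ∀ x : σ → WittVector p k, (p : WittVector p k) ^ i ∣ MvPolynomial.eval x Φ) (j : ℕ)
    (hj : j ≤ i) : ∃ Ψ, Φ = MvPolynomial.C ((p : WittVector p k) ^ j) * Ψ := by
  induction j with
  | zero => exact ⟨Φ, by simp⟩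
  | succ j ih =>
    obtain ⟨Ψ, hΨ⟩ := ih (by omega)
    have hp0 : (p : WittVector p k) ≠ 0 := (WittVector.irreducible p).ne_zero
    have h1 : ∀ x : σ → WittVector p k, (p : WittVector p k) ∣ MvPolynomial.eval x Ψ := by
      intro x
      have h2 := h x
      rw [hΨ, map_mul, MvPolynomial.eval_C] at h2
      have h3 : (p : WittVector p k) ^ (j + 1) ∣ (p : WittVector p k) ^ j *
          MvPolynomial.eval x Ψ := (pow_dvd_pow _ hj).trans h2
      rw [pow_succ] at h3
      exact (mul_dvd_mul_iff_left (pow_ne_zero j hp0)).1 h3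
    have h4 : MvPolynomial.map (WittVector.constantCoeff : WittVector p k →+* k) Ψ = 0 := by
      apply MvPolynomial.funext
      intro a
      rw [map_zero]
      have h5 := (modP2_dvd_iff k _).1 (h1 (fun s => WittVector.teichmuller p (a s)))
      rw [modP2_eval_const] at h5
      have h6 : (fun s => (WittVector.constantCoeff : WittVector p k →+* k)
          (WittVector.teichmuller p (a s))) = a := by
        funext s
        exact WittVector.teichmuller_coeff_zero p (a s)
      rw [h6] at h5
      exact h5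
    have h7 : MvPolynomial.C (p : WittVector p k) ∣ Ψ := by
      rw [MvPolynomial.C_dvd_iff_dvd_coeff]
      intro m
      rw [modP2_dvd_iff, ← MvPolynomial.coeff_map, h4, MvPolynomial.coeff_zero]
    obtain ⟨Θ, hΘ⟩ := h7
    refine ⟨Θ, ?_⟩
    rw [hΨ, hΘ, pow_succ, map_mul, mul_assoc]

theorem modP2 {p : ℕ} [Fact p.Prime] (k : Type) [Field k] [CharP k p] [PerfectRing k p]
    [Infinite k] {σ : Type} (F : MvPolynomial σ ℤ_[p]) (i : ℕ) (y : σ → k)
    (h : ∀ ŷ : σ → WittVector p k, IsLift p y ŷ →
      (p : WittVector p k) ^ i ∣ MvPolynomial.eval₂ (zpToWitt p k) ŷ F)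
    (ŷ ŷ' : σ → WittVector p k) (hŷ : IsLift p y ŷ)
    (hd : ∀ s, (p : WittVector p k) ^ 2 ∣ ŷ' s - ŷ s) :
    (p : WittVector p k) ^ (i + 1) ∣ MvPolynomial.eval₂ (zpToWitt p k) ŷ' F -
      MvPolynomial.eval₂ (zpToWitt p k) ŷ F := by
  choose g hg using hd
  set G : MvPolynomial σ (WittVector p k) := MvPolynomial.map (zpToWitt p k) F with hG
  have hGe : ∀ x : σ → WittVector p k, MvPolynomial.eval₂ (zpToWitt p k) x F =
      MvPolynomial.eval x G := fun x => (MvPolynomial.eval_map _ _ _).symm
  set Φ : MvPolynomial σ (WittVector p k) := MvPolynomial.bind₁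
    (fun s => MvPolynomial.C (ŷ s) + MvPolynomial.C (p : WittVector p k) * MvPolynomial.X s) G
    with hΦ
  have hΦe : ∀ x : σ → WittVector p k, MvPolynomial.eval x Φ =
      MvPolynomial.eval (fun s => ŷ s + (p : WittVector p k) * x s) G := by
    intro x
    rw [hΦ, MvPolynomial.bind₁, MvPolynomial.aeval_def]
    rw [MvPolynomial.eval₂_comp_left (MvPolynomial.eval x)]
    have e1 : (MvPolynomial.eval x).comp
        (algebraMap (WittVector p k) (MvPolynomial σ (WittVector p k))) =
        RingHom.id (WittVector p k) := by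
      ext1 a
      simp [MvPolynomial.algebraMap_eq]
    rw [e1]
    have e2 : (⇑(MvPolynomial.eval x) ∘ fun s => MvPolynomial.C (ŷ s) +
        MvPolynomial.C (p : WittVector p k) * MvPolynomial.X s) =
        fun s => ŷ s + (p : WittVector p k) * x s := by
      funext s
      simp
    rw [e2]
    rfl
  have hdiv : ∀ x : σ → WittVector p k, (p : WittVector p k) ^ i ∣ MvPolynomial.eval x Φ := by
    intro x
    rw [hΦe, ← hGe]
    apply h
    intro s
    have h1 : (WittVector.constantCoeff : WittVector p k →+* k)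
        (ŷ s + (p : WittVector p k) * x s) = y s := by
      rw [map_add, map_mul, modP2_const_p, zero_mul, add_zero]
      exact hŷ s
    exact h1
  obtain ⟨Ψ, hΨ⟩ := modP2_coeff_dvd k Φ i hdiv i le_rfl
  have e' : MvPolynomial.eval₂ (zpToWitt p k) ŷ' F =
      MvPolynomial.eval (fun s => (p : WittVector p k) * g s) Φ := by
    rw [hGe, hΦe]
    congr 1
    have : ŷ' = fun s => ŷ s + (p : WittVector p k) * ((p : WittVector p k) * g s) := by
      funext s
      have := hg s
      linear_combination this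
    rw [this]
  have e : MvPolynomial.eval₂ (zpToWitt p k) ŷ F = MvPolynomial.eval (fun _ => 0) Φ := by
    rw [hGe, hΦe]
    simp
  rw [e', e, hΨ, map_mul, map_mul, MvPolynomial.eval_C, MvPolynomial.eval_C, ← mul_sub, pow_succ]
  apply mul_dvd_mul_left
  rw [modP2_dvd_iff, map_sub, modP2_eval_const, modP2_eval_const]
  have : (fun s => (WittVector.constantCoeff : WittVector p k →+* k)
      ((p : WittVector p k) * g s)) = fun _ : σ =>
      (WittVector.constantCoeff : WittVector p k →+* k) 0 := by
    funext s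
    rw [map_mul, modP2_const_p, zero_mul, map_zero]
  rw [this, sub_self]

end Pool.Agent.W_MP_b723a0_ag.P
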