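import Mathlib
import Pool.Agent.W_MP_b723a0_ag.P.Defs

/-!
# Task W2: `p^m`-expansions with respect to a p-basis

Induction on `m`. `m = 0`: `Fin (p^0)` is a singleton, `a = c_0`. Step `m → m+1`: expand
`a = ∑_I c_I^p v^I` (`I : Fin n → Fin p`) and each `c_I = ∑_J d_{I,J}^{p^m} v^J`
(`J : Fin n → Fin (p^m)`); `c_I^p = ∑_J d_{I,J}^{p^{m+1}} v^{p J}` (characteristic `p`), so
`a = ∑_{I,J} d_{I,J}^{p^{m+1}} v^{I + p J}`, and `(I, J) ↦ I + p J` is a bijection onto
`Fin n → Fin (p^{m+1})`. Uniqueness is obtained in the same way: from a `p^{m+1}`-expansion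
collect `c_I^p = (∑_J d_{I,J}^{p^m} v^J)^p`; by uniqueness of the `c_I^p` (from `PBasis`) and
injectivity of the Frobenius the `c_I` are determined, hence the `d_{I,J}`.
-/

namespace Pool.Agent.W_MP_b723a0_ag.P

/-- The bijection `(J, I) ↦ I + p J`. -/
def ppowE (p m : ℕ) : Fin (p ^ m) × Fin p ≃ Fin (p ^ (m + 1)) :=
  finProdFinEquiv.trans (finCongr (pow_succ p m).symm)

theorem ppowE_val (p m : ℕ) (J : Fin (p ^ m)) (I : Fin p) :
    (ppowE p m (J, I) : ℕ) = I + p * J := by
  simp [ppowE, finProdFinEquiv]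

/-- The bijection `(I, J) ↦ I + p J` on multi-indices. -/
def ppowPhi (p m n : ℕ) :
    (Fin n → Fin p) × (Fin n → Fin (p ^ m)) ≃ (Fin n → Fin (p ^ (m + 1))) where
  toFun x := fun l => ppowE p m (x.2 l, x.1 l)
  invFun y := (fun l => ((ppowE p m).symm (y l)).2, fun l => ((ppowE p m).symm (y l)).1)
  left_inv x := by simp
  right_inv y := by simp

theorem ppow_expand {p : ℕ} [Fact p.Prime] {K : Type} [Field K] [CharP K p] {n : ℕ}
    (v : Fin n → K) (m : ℕ) (c : (Fin n → Fin (p ^ (m + 1))) → K) :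
    ∑ y, c y ^ p ^ (m + 1) * ∏ l, v l ^ (y l : ℕ) =
      ∑ I : Fin n → Fin p, (∑ J : Fin n → Fin (p ^ m),
        c (ppowPhi p m n (I, J)) ^ p ^ m * ∏ l, v l ^ (J l : ℕ)) ^ p * ∏ l, v l ^ (I l : ℕ) := by
  rw [← Equiv.sum_comp (ppowPhi p m n), Fintype.sum_prod_type]
  refine Finset.sum_congr rfl fun I _ => ?_
  rw [sum_pow_char p, Finset.sum_mul]
  refine Finset.sum_congr rfl fun J _ => ?_
  rw [mul_pow, ← pow_mul, ← pow_succ, mul_assoc]
  congr 1
  rw [← Finset.prod_pow, ← Finset.prod_mul_distrib]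
  refine Finset.prod_congr rfl fun l _ => ?_
  rw [← pow_mul, ← pow_add]
  congr 1
  have h : (ppowPhi p m n (I, J)) l = ppowE p m (J l, I l) := rfl
  rw [h, ppowE_val]
  ring

theorem pbasis_pow {p : ℕ} [Fact p.Prime] {K : Type} [Field K] [CharP K p] {n : ℕ}
    {v : Fin n → K} (hv : PBasis p v) (m : ℕ) (a : K) :
    ∃! c : (Fin n → Fin (p ^ m)) → K, a = ∑ I, c I ^ p ^ m * ∏ l, v l ^ (I l : ℕ) := by
  induction m generalizing a with
  | zero =>
    have hz : ∀ (I : Fin n → Fin (p ^ 0)) (l : Fin n), (I l : ℕ) = 0 := by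
      intro I l
      have h := (I l).isLt
      simp only [pow_zero] at h
      omega
    have hu : ∀ I J : Fin n → Fin (p ^ 0), I = J := by
      intro I J
      funext l
      exact Fin.ext (by rw [hz I l, hz J l])
    let I0 : Fin n → Fin (p ^ 0) := fun _ => ⟨0, by simp⟩
    have hs : ∀ c : (Fin n → Fin (p ^ 0)) → K,
        ∑ I, c I ^ p ^ 0 * ∏ l, v l ^ (I l : ℕ) = c I0 := by
      intro c
      rw [Finset.sum_eq_single I0]
      · simp [I0]
      · intro b _ hb
        exact absurd (hu b I0) hb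
      · intro h
        exact absurd (Finset.mem_univ _) h
    refine ⟨fun _ => a, ?_, ?_⟩
    · show a = _
      rw [hs]
    · intro c hc
      funext I
      rw [hu I I0, hc, hs]
  | succ m ih =>
    obtain ⟨c, hc, huc⟩ := hv a
    choose d hd hud using fun I => ih (c I)
    refine ⟨fun y => d ((ppowPhi p m n).symm y).1 ((ppowPhi p m n).symm y).2, ?_, ?_⟩
    · show a = _
      rw [ppow_expand]
      simp only [Equiv.symm_apply_apply]
      rw [hc]
      refine Finset.sum_congr rfl fun I _ => ?_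
      rw [← hd I]
    · intro c' hc'
      have hc1 : a = ∑ y, c' y ^ p ^ (m + 1) * ∏ l, v l ^ (y l : ℕ) := hc'
      rw [ppow_expand] at hc1
      have h1 := huc _ hc1
      funext y
      obtain ⟨⟨I, J⟩, rfl⟩ := (ppowPhi p m n).surjective y
      rw [Equiv.symm_apply_apply]
      have h2 := hud I (fun J => c' (ppowPhi p m n (I, J))) (congrFun h1 I).symm
      exact congrFun h2 J

end Pool.Agent.W_MP_b723a0_ag.P
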