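import Mathlib
import Pool.Agent.W_MP_b723a0_ag.Defs
import Pool.Agent.W_MP_b723a0_ag.Digits
import Pool.Agent.W_MP_b723a0_ag.P.Defs
import Pool.Agent.W_MP_b723a0_ag.P.PPow

/-!
# Task W3: Lemma F

`evF p K k m υ G` evaluates `G ∈ W(K)[Υ_1..Υ_n]` at `υ ∈ W(k)^n` after applying `F^m` to the
coefficients (`WittVector.map (iterateFrobenius K p m)` is `F^m` on `W(K)`, see
`WittVector.frobenius_eq_map_frobenius`).

Statement: if the first `i ≤ m` Witt components of `G^{F^m}([v]) ∈ W(K)` vanish, then there is
`P ∈ K` such that for all perfect `k ⊃ K` and all `w ∈ W(k)^n`: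
`G^{F^m}([v] + p w) ≡ p^i [P] mod p^{i+1}`.

Proof by induction on `i` (all `m`, `G`).
Reduction of exponents: for `γ = p^m q + γ'` (componentwise, `0 ≤ γ'_l < p^m`) and every `w`:
`([v_l] + p w_l)^{p^m q} ≡ [v_l]^{p^m q} mod p^{m+1}` (`a ≡ b mod p` implies
`a^{p^m} ≡ b^{p^m} mod p^{m+1}`), and `[v_l]^{p^m q} = F^m([v_l]^q)`. So, with
`g'_{γ'} = ∑_{q} g_{p^m q + γ'} ∏_l [v_l]^{q_l} ∈ W(K)`,
`G^{F^m}([v] + p w) ≡ ∑_{γ' ∈ [0,p^m)^n} F^m(g'_{γ'}) ([v] + p w)^{γ'} mod p^{m+1}`, and this is an
equality for `w = 0`. As `i + 1 ≤ m + 1` we may replace `G` by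
`G' = ∑_{γ' ∈ [0,p^m)^n} g'_{γ'} Υ^{γ'}`.
`i = 0`: `P = ∑_γ (g_γ)_0^{p^m} v^γ`, the residue of the value (`W(k)/p = k`, `k` perfect; two
Witt vectors over a perfect ring with the same `0`-th component are congruent mod `p`).
`i ≥ 1` (so `m ≥ 1`): the residue of `G'^{F^m}([v])` vanishes: `∑_γ (g'_γ)_0^{p^m} v^γ = 0`, so by
uniqueness in `pbasis_pow` all `(g'_γ)_0 = 0`, i.e. `g'_γ = V(h_γ)`, and
`F^m(g'_γ) = F^{m-1} F V h_γ = p F^{m-1}(h_γ)` (`WittVector.frobenius_verschiebung`). Hence with
`H = ∑ h_γ Υ^γ`, `G'^{F^m}(υ) = p H^{F^{m-1}}(υ)` for all `υ`. In `W(K)`, `p x = V F x`, i.e.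
`(p x)_{j+1} = x_j^p`; so the first `i - 1` components of `H^{F^{m-1}}([v])` vanish, and the
induction hypothesis for `(i-1, m-1, H)` gives `P` with `H^{F^{m-1}}([v]+pw) ≡ p^{i-1}[P]` mod
`p^i`; multiply by `p`.
-/

namespace Pool.Agent.W_MP_b723a0_ag.P

/-- The map on coefficients used in `evF`. -/
noncomputable abbrev lfMap (p : ℕ) [Fact p.Prime] (K k : Type) [Field K] [CharP K p] [Field k]
    [CharP k p] [Algebra K k] (m : ℕ) : WittVector p K →+* WittVector p k :=
  WittVector.map ((algebraMap K k).comp (iterateFrobenius K p m))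

/-- Reduction of exponents. -/
theorem lf_reduce {p : ℕ} [Fact p.Prime] {K : Type} [Field K] [CharP K p] {n : ℕ}
    (v : Fin n → K) (m : ℕ) (G : MvPolynomial (Fin n) (WittVector p K)) :
    ∃ g : (Fin n → Fin (p ^ m)) → WittVector p K, ∀ (k : Type) [Field k] [CharP k p]
      [Algebra K k] (S : Type) [CommRing S] (ρ : WittVector p k →+* S)
      (υ : Fin n → WittVector p k),
      (∀ l, ρ (υ l) ^ p ^ m =
        ρ (WittVector.teichmuller p (algebraMap K k (v l))) ^ p ^ m) →
      ρ (evF p K k m υ G) =
        ∑ I, ρ (lfMap p K k m (g I)) * ∏ l, ρ (υ l) ^ (I l : ℕ) := by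
  have hpm : 0 < p ^ m := pow_pos (Nat.Prime.pos Fact.out) m
  induction G using MvPolynomial.induction_on' with
  | monomial γ a =>
    set I0 : Fin n → Fin (p ^ m) := fun l => ⟨γ l % p ^ m, Nat.mod_lt _ hpm⟩ with hI0
    refine ⟨fun I => if I = I0 then
      a * ∏ l, WittVector.teichmuller p (v l) ^ (γ l / p ^ m) else 0, ?_⟩
    intro k _ _ _ S _ ρ υ hυ
    rw [Finset.sum_eq_single I0]
    · simp only [if_true, evF, MvPolynomial.eval₂_monomial, map_mul, map_prod, map_pow]
      rw [Finsupp.prod_fintype _ _ (fun i => by simp), map_prod, mul_assoc,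
        ← Finset.prod_mul_distrib]
      congr 1
      refine Finset.prod_congr rfl fun l _ => ?_
      have h1 : lfMap p K k m (WittVector.teichmuller p (v l)) =
          WittVector.teichmuller p (algebraMap K k (v l)) ^ p ^ m := by
        rw [lfMap, WittVector.map_teichmuller, ← map_pow, RingHom.comp_apply,
          iterateFrobenius_def, map_pow]
      rw [h1, map_pow, map_pow, ← hυ l, ← pow_mul, ← pow_add, hI0]
      simp only
      rw [Nat.div_add_mod]
    · intro I _ hI
      simp [hI]
    · intro h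
      exact absurd (Finset.mem_univ _) h
  | add G₁ G₂ h₁ h₂ =>
    obtain ⟨g₁, h₁⟩ := h₁
    obtain ⟨g₂, h₂⟩ := h₂
    refine ⟨fun I => g₁ I + g₂ I, ?_⟩
    intro k _ _ _ S _ ρ υ hυ
    have e : evF p K k m υ (G₁ + G₂) = evF p K k m υ G₁ + evF p K k m υ G₂ := by
      simp [evF, MvPolynomial.eval₂_add]
    rw [e, map_add, h₁ k S ρ υ hυ, h₂ k S ρ υ hυ, ← Finset.sum_add_distrib]
    refine Finset.sum_congr rfl fun I _ => ?_
    rw [map_add, map_add, add_mul]

theorem lf_coeff_zero {p : ℕ} [Fact p.Prime] {K k : Type} [Field K] [CharP K p] [Field k]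
    [CharP k p] [Algebra K k] (m : ℕ) {n : ℕ} (υ : Fin n → WittVector p k)
    (G : MvPolynomial (Fin n) (WittVector p K)) :
    (evF p K k m υ G).coeff 0 =
      MvPolynomial.eval₂ ((algebraMap K k).comp ((iterateFrobenius K p m).comp
        WittVector.constantCoeff)) (fun l => (υ l).coeff 0) G := by
  have h : (evF p K k m υ G).coeff 0 = WittVector.constantCoeff (evF p K k m υ G) := rfl
  rw [h, evF, MvPolynomial.hom_eval₂]
  congr 1

theorem lf_eq_verschiebung {p : ℕ} [Fact p.Prime] {A : Type*} [CommRing A]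
    (x : WittVector p A) (h : x.coeff 0 = 0) :
    x = WittVector.verschiebung (WittVector.mk p fun n => x.coeff (n + 1)) := by
  have h1 := witt_eq_teichmuller_add_verschiebung p x
  rw [h, WittVector.teichmuller_zero, zero_add] at h1
  exact h1

theorem lf_p_dvd {p : ℕ} [Fact p.Prime] {k : Type*} [Field k] [CharP k p] [PerfectRing k p]
    (x : WittVector p k) (h : x.coeff 0 = 0) : (p : WittVector p k) ∣ x := by
  have h1 := lf_eq_verschiebung x h
  obtain ⟨y, hy⟩ := (WittVector.frobenius_bijective p k).2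
    (WittVector.mk p fun n => x.coeff (n + 1))
  rw [← hy, WittVector.verschiebung_frobenius] at h1
  exact ⟨y, by rw [h1, mul_comm]⟩

theorem lf_map_verschiebung {p : ℕ} [Fact p.Prime] {K k : Type} [Field K] [CharP K p] [Field k]
    [CharP k p] [Algebra K k] (m : ℕ) (h : WittVector p K) :
    lfMap p K k (m + 1) (WittVector.verschiebung h) = p * lfMap p K k m h := by
  have e1 : (algebraMap K k).comp (iterateFrobenius K p (m + 1)) =
      ((algebraMap K k).comp (iterateFrobenius K p m)).comp (frobenius K p) := by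
    ext x
    simp only [RingHom.comp_apply, iterateFrobenius_def, frobenius_def]
    rw [← pow_mul, pow_succ']
  have e2 : lfMap p K k (m + 1) (WittVector.verschiebung h) =
      lfMap p K k m (WittVector.frobenius (WittVector.verschiebung h)) := by
    rw [WittVector.frobenius_eq_map_frobenius]
    ext n
    simp only [lfMap, WittVector.map_coeff, e1, RingHom.comp_apply]
  rw [e2, WittVector.frobenius_verschiebung, map_mul, map_natCast, mul_comm]

theorem lemmaF {p : ℕ} [Fact p.Prime] {K : Type} [Field K] [CharP K p] {n : ℕ}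
    {v : Fin n → K} (hv : PBasis p v) (m i : ℕ) (hi : i ≤ m)
    (G : MvPolynomial (Fin n) (WittVector p K))
    (hG : ∀ j < i, (evF p K K m (fun l => WittVector.teichmuller p (v l)) G).coeff j = 0) :
    ∃ P : K, ∀ (k : Type) [Field k] [CharP k p] [PerfectRing k p] [Algebra K k]
      (w : Fin n → WittVector p k), (p : WittVector p k) ^ (i + 1) ∣
        evF p K k m (fun l => WittVector.teichmuller p (algebraMap K k (v l)) + p * w l) G -
          p ^ i * WittVector.teichmuller p (algebraMap K k P) := by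
  induction i generalizing m G with
  | zero =>
    refine ⟨(evF p K K m (fun l => WittVector.teichmuller p (v l)) G).coeff 0, ?_⟩
    intro k _ _ _ _ w
    rw [zero_add, pow_one, pow_zero, one_mul]
    refine lf_p_dvd _ ?_
    have hp0 : ∀ y : WittVector p k, ((p : WittVector p k) * y).coeff 0 = 0 := by
      intro y
      rw [WittVector.mul_coeff_zero]
      have : (p : WittVector p k).coeff 0 = 0 := by
        have : (p : WittVector p k).coeff 0 = WittVector.constantCoeff (p : WittVector p k) := rfl
        rw [this, map_natCast, CharP.cast_eq_zero]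
      rw [this, zero_mul]
    have hsub : ∀ x y : WittVector p k, (x - y).coeff 0 = x.coeff 0 - y.coeff 0 :=
      fun x y => map_sub WittVector.constantCoeff x y
    rw [hsub, WittVector.teichmuller_coeff_zero, lf_coeff_zero, lf_coeff_zero, sub_eq_zero]
    rw [MvPolynomial.hom_eval₂]
    have : (fun l => (WittVector.teichmuller p ((algebraMap K k) (v l)) + ↑p * w l).coeff 0) =
        (algebraMap K k) ∘ fun l => (WittVector.teichmuller p (v l)).coeff 0 := by
      funext l
      simp only [Function.comp]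
      rw [WittVector.add_coeff_zero, hp0, WittVector.teichmuller_coeff_zero,
        WittVector.teichmuller_coeff_zero, add_zero]
    rw [this]
    rfl
  | succ i ih =>
    obtain ⟨m, rfl⟩ : ∃ m', m = m' + 1 := ⟨m - 1, by omega⟩
    obtain ⟨g, hg⟩ := lf_reduce v (m + 1) G
    -- the value at the Teichmüller point
    have hval := hg K (WittVector p K) (RingHom.id _)
      (fun l => WittVector.teichmuller p (v l)) (fun l => by simp)
    simp only [RingHom.id_apply] at hval
    -- all `(g I)_0` vanish
    have hg0 : ∀ I, (g I).coeff 0 = 0 := by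
      have h0 := hG 0 (Nat.succ_pos i)
      rw [hval] at h0
      have h1 : (0 : K) = ∑ I, ((g I).coeff 0) ^ p ^ (m + 1) * ∏ l, v l ^ (I l : ℕ) := by
        have h2 := h0
        change WittVector.constantCoeff _ = 0 at h2
        rw [map_sum] at h2
        rw [← h2]
        refine Finset.sum_congr rfl fun I _ => ?_
        rw [map_mul, map_prod]
        congr 1
        refine Finset.prod_congr rfl fun l _ => ?_
        rw [map_pow]
        congr 1
      obtain ⟨c, -, hc⟩ := pbasis_pow hv (m + 1) (0 : K)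
      have h3 := hc (fun I => (g I).coeff 0) h1
      have h4 := hc (fun _ => 0) (by
        simp [zero_pow (pow_pos (Nat.Prime.pos (Fact.out : p.Prime)) (m + 1)).ne'])
      intro I
      exact congrFun (h3.trans h4.symm) I
    -- the polynomial `H`
    set h : (Fin n → Fin (p ^ (m + 1))) → WittVector p K :=
      fun I => WittVector.mk p fun n => (g I).coeff (n + 1) with hh
    set H : MvPolynomial (Fin n) (WittVector p K) :=
      ∑ I, MvPolynomial.C (h I) * ∏ l, MvPolynomial.X l ^ (I l : ℕ) with hH
    have hsum : ∀ (k : Type) [Field k] [CharP k p] [Algebra K k] (S : Type) [CommRing S]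
        (ρ : WittVector p k →+* S) (υ : Fin n → WittVector p k),
        ∑ I, ρ (lfMap p K k (m + 1) (g I)) * ∏ l, ρ (υ l) ^ (I l : ℕ) =
          ρ (p * evF p K k m υ H) := by
      intro k _ _ _ S _ ρ υ
      have e : evF p K k m υ H = ∑ I, lfMap p K k m (h I) * ∏ l, υ l ^ (I l : ℕ) := by
        simp [evF, hH, MvPolynomial.eval₂_sum, MvPolynomial.eval₂_mul, MvPolynomial.eval₂_prod,
          MvPolynomial.eval₂_pow, lfMap]
      rw [e, Finset.mul_sum, map_sum]
      refine Finset.sum_congr rfl fun I _ => ?_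
      have hgI : g I = WittVector.verschiebung (h I) := lf_eq_verschiebung _ (hg0 I)
      rw [hgI, lf_map_verschiebung]
      simp only [map_mul, map_prod, map_pow, mul_assoc]
    have hH0 : ∀ j < i, (evF p K K m (fun l => WittVector.teichmuller p (v l)) H).coeff j = 0 := by
      intro j hj
      have h1 := hG (j + 1) (by omega)
      rw [hval] at h1
      have h2 := hsum K (WittVector p K) (RingHom.id _) (fun l => WittVector.teichmuller p (v l))
      simp only [RingHom.id_apply] at h2
      rw [h2, mul_comm, WittVector.mul_charP_coeff_succ] at h1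
      exact pow_eq_zero_iff (Nat.Prime.ne_zero Fact.out) |>.1 h1
    obtain ⟨P, hP⟩ := ih m (by omega) H hH0
    refine ⟨P, ?_⟩
    intro k _ _ _ _ w
    set υ : Fin n → WittVector p k :=
      fun l => WittVector.teichmuller p (algebraMap K k (v l)) + p * w l with hυ
    have hcong : (p : WittVector p k) ^ (m + 1 + 1) ∣
        evF p K k (m + 1) υ G - p * evF p K k m υ H := by
      rw [← Ideal.mem_span_singleton, ← Ideal.Quotient.eq]
      rw [hg k _ (Ideal.Quotient.mk _) υ ?_, hsum]
      intro l
      rw [← map_pow, ← map_pow, Ideal.Quotient.eq, Ideal.mem_span_singleton]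
      refine dvd_sub_pow_of_dvd_sub ?_ (m + 1)
      exact ⟨w l, by rw [hυ]; ring⟩
    have h1 := hP k w
    have h2 : evF p K k (m + 1) υ G - p ^ (i + 1) * WittVector.teichmuller p (algebraMap K k P) =
        (evF p K k (m + 1) υ G - p * evF p K k m υ H) +
          p * (evF p K k m υ H - p ^ i * WittVector.teichmuller p (algebraMap K k P)) := by
      ring
    rw [h2]
    refine dvd_add ((pow_dvd_pow _ (by omega)).trans hcong) ?_
    rw [pow_succ' _ (i + 1)]
    exact mul_dvd_mul_left _ h1

end Pool.Agent.W_MP_b723a0_ag.P
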