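import Mathlib
import Pool.Agent.W_MP_b723a0_ag.Defs
import Pool.Agent.W_MP_b723a0_ag.Digits
import Pool.Agent.W_MP_b723a0_ag.P.Defs
import Pool.Agent.W_MP_b723a0_ag.P.PPow
import Pool.Agent.W_MP_b723a0_ag.P.PBDer
import Pool.Agent.W_MP_b723a0_ag.P.RvBasics

/-!
# Task W6: the section `ℓ` and its Taylor expansion

Let `v` be a p-basis, `m ≥ 1`, `y ∈ K`, `y = ∑_γ y_γ^{p^m} v^γ` (`pbasis_pow`), and
`ℓ = ∑_γ [y_γ] Υ^γ ∈ W(K)[Υ]`. Then
(1) `evF p K K m [v] ℓ = ∑_γ [y_γ]^{p^m} [v]^γ ∈ Rv p v` with residue `y`;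
(2) for every perfect `k ⊃ K`, derivation `D : K → k` and `w ∈ W(k)^n` with residues
`(w_l)_0 = D(v_l)`:
`ℓ^{F^m}([v] + p w) ≡ ℓ^{F^m}([v]) + p [D y] mod p^2`.
Proof of (2): `([v] + p w)^γ ≡ [v]^γ + p ∑_l γ_l [v]^{γ - e_l} w_l mod p^2`; multiply by
`[y_γ]^{p^m}` and sum: the coefficient of `p` has residue
`∑_γ y_γ^{p^m} ∑_l γ_l v^{γ-e_l} D(v_l) = D(y)` (`derivation_expansion`, with
`c = y_γ^{p^{m-1}}`, as `m ≥ 1`), and `p x ≡ p [x_0] mod p^2`.
(3) `evF p K k m [v] ℓ` over `k` is the image of the element of `W(K)` in (1) (functoriality).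
-/

namespace Pool.Agent.W_MP_b723a0_ag.P

/-- First order expansion of a monomial. -/
theorem prod_taylor {R : Type*} [CommRing R] {ι : Type*} [DecidableEq ι] (s : Finset ι)
    (x w : ι → R) (q : R) (J : ι → ℕ) :
    q ^ 2 ∣ ∏ l ∈ s, (x l + q * w l) ^ J l -
      (∏ l ∈ s, x l ^ J l + q * ∑ l ∈ s, (J l : R) *
        (x l ^ (J l - 1) * ∏ l' ∈ s.erase l, x l' ^ J l') * w l) := by
  induction s using Finset.induction_on with
  | empty => simp
  | insert a s ha ih =>
    obtain ⟨c, hc⟩ := ih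
    obtain ⟨k, hk⟩ := Polynomial.powAddExpansion (x a) (q * w a) (J a)
    have h1 : ∑ l ∈ insert a s, (J l : R) *
        (x l ^ (J l - 1) * ∏ l' ∈ (insert a s).erase l, x l' ^ J l') * w l =
        (J a : R) * (x a ^ (J a - 1) * ∏ l' ∈ s, x l' ^ J l') * w a +
          x a ^ J a * ∑ l ∈ s, (J l : R) *
            (x l ^ (J l - 1) * ∏ l' ∈ s.erase l, x l' ^ J l') * w l := by
      rw [Finset.sum_insert ha, Finset.erase_insert ha, Finset.mul_sum]
      congr 1
      refine Finset.sum_congr rfl fun l hl => ?_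
      have hla : a ≠ l := fun h => ha (h ▸ hl)
      rw [Finset.erase_insert_of_ne hla, Finset.prod_insert (fun h => ha (Finset.mem_of_mem_erase h))]
      ring
    rw [h1, Finset.prod_insert ha, Finset.prod_insert ha, hk, sub_eq_iff_eq_add.mp hc]
    refine ⟨x a ^ J a * c + (J a : R) * x a ^ (J a - 1) * w a * (∑ l ∈ s, (J l : R) *
      (x l ^ (J l - 1) * ∏ l' ∈ s.erase l, x l' ^ J l') * w l) +
      q * ((J a : R) * x a ^ (J a - 1) * w a) * c + k * w a ^ 2 *
      (q ^ 2 * c + (∏ l ∈ s, x l ^ J l + q * ∑ l ∈ s, (J l : R) *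
        (x l ^ (J l - 1) * ∏ l' ∈ s.erase l, x l' ^ J l') * w l)), ?_⟩
    ring

/-- The value of `evF` on a sum of monomials with Teichmüller coefficients. -/
theorem evF_sum {p : ℕ} [Fact p.Prime] {K k : Type} [Field K] [CharP K p] [Field k] [CharP k p]
    [Algebra K k] (m : ℕ) {n : ℕ} {ι : Type} [Fintype ι] (c : ι → K) (J : ι → Fin n → ℕ)
    (υ : Fin n → WittVector p k) :
    evF p K k m υ (∑ γ, MvPolynomial.C (WittVector.teichmuller p (c γ)) *
      ∏ l, MvPolynomial.X l ^ J γ l) =
      ∑ γ, WittVector.teichmuller p (algebraMap K k (c γ ^ p ^ m)) * ∏ l, υ l ^ J γ l := by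
  rw [evF, ← MvPolynomial.coe_eval₂Hom, map_sum]
  refine Finset.sum_congr rfl fun γ _ => ?_
  rw [map_mul, map_prod, MvPolynomial.coe_eval₂Hom, MvPolynomial.eval₂_C, WittVector.map_teichmuller]
  congr 1
  refine Finset.prod_congr rfl fun l _ => ?_
  rw [MvPolynomial.eval₂_pow, MvPolynomial.eval₂_X]

theorem exists_ell {p : ℕ} [Fact p.Prime] {K : Type} [Field K] [CharP K p] {n : ℕ}
    {v : Fin n → K} (hv : PBasis p v) (m : ℕ) (hm : 1 ≤ m) (y : K) :
    ∃ G : MvPolynomial (Fin n) (WittVector p K),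
      evF p K K m (fun l => WittVector.teichmuller p (v l)) G ∈ Rv p v ∧
      (evF p K K m (fun l => WittVector.teichmuller p (v l)) G).coeff 0 = y ∧
      ∀ (k : Type) [Field k] [CharP k p] [PerfectRing k p] [Algebra K k]
        (D : Derivation ℤ K k) (w : Fin n → WittVector p k),
        (∀ l, (w l).coeff 0 = D (v l)) → (p : WittVector p k) ^ 2 ∣
          evF p K k m (fun l => WittVector.teichmuller p (algebraMap K k (v l)) + p * w l) G -
            (WittVector.map (algebraMap K k)
              (evF p K K m (fun l => WittVector.teichmuller p (v l)) G) +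
              p * WittVector.teichmuller p (D y)) := by
  obtain ⟨c, hc, -⟩ := pbasis_pow hv m y
  refine ⟨∑ γ, MvPolynomial.C (WittVector.teichmuller p (c γ)) *
      ∏ l, MvPolynomial.X l ^ (γ l : ℕ), ?_, ?_, ?_⟩
  · rw [evF_sum m c (fun γ l => (γ l : ℕ))]
    refine Subring.sum_mem _ fun γ _ => Subring.mul_mem _ ?_
      (Subring.prod_mem _ fun l _ => Subring.pow_mem _ (teich_mem_rv v l) _)
    have h := teich_pow_mem_rv (p := p) v (c γ ^ p ^ (m - 1))
    have h2 : algebraMap K K (c γ ^ p ^ m) = (c γ ^ p ^ (m - 1)) ^ p := by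
      rw [← pow_mul, ← pow_succ, Nat.sub_add_cancel hm]
      rfl
    rw [h2, map_pow]
    exact h
  · rw [evF_sum m c (fun γ l => (γ l : ℕ))]
    have h : ∀ x : WittVector p K, x.coeff 0 = WittVector.constantCoeff x := fun _ => rfl
    rw [h, map_sum]
    conv_rhs => rw [hc]
    refine Finset.sum_congr rfl fun γ _ => ?_
    rw [map_mul, map_prod]
    congr 1
    refine Finset.prod_congr rfl fun l _ => ?_
    rw [map_pow, ← h, WittVector.teichmuller_coeff_zero]
  · intro k _ _ _ _ D w hw
    rw [evF_sum m c (fun γ l => (γ l : ℕ)), evF_sum m c (fun γ l => (γ l : ℕ))]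
    have h0 : ∀ x : WittVector p k, x.coeff 0 = WittVector.constantCoeff x := fun _ => rfl
    -- the coefficient of `p`
    set T : WittVector p k := ∑ γ, WittVector.teichmuller p (algebraMap K k (c γ ^ p ^ m)) *
      ∑ l, (((γ l : ℕ) : ℕ) : WittVector p k) *
        (WittVector.teichmuller p (algebraMap K k (v l)) ^ ((γ l : ℕ) - 1) *
          ∏ l' ∈ Finset.univ.erase l, WittVector.teichmuller p (algebraMap K k (v l')) ^ (γ l' : ℕ)) *
        w l with hT
    have hT0 : T.coeff 0 = D y := by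
      have hexp := derivation_expansion (p := p) v k D
        (fun γ : Fin n → Fin (p ^ m) => c γ ^ p ^ (m - 1)) (fun γ l => (γ l : ℕ))
      have hy : y = ∑ γ, (c γ ^ p ^ (m - 1)) ^ p * ∏ l, v l ^ (γ l : ℕ) := by
        conv_lhs => rw [hc]
        refine Finset.sum_congr rfl fun γ _ => ?_
        rw [← pow_mul, ← pow_succ, Nat.sub_add_cancel hm]
      rw [← hy] at hexp
      rw [hexp, hT, h0, map_sum]
      refine Finset.sum_congr rfl fun γ _ => ?_
      rw [map_mul, ← h0, WittVector.teichmuller_coeff_zero, ← pow_mul, ← pow_succ,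
        Nat.sub_add_cancel hm, map_sum]
      congr 1
      refine Finset.sum_congr rfl fun l _ => ?_
      rw [map_mul, map_mul, map_mul, map_natCast, map_prod, map_pow, ← h0 (w l), hw l, ← h0,
        WittVector.teichmuller_coeff_zero, map_mul, map_prod, map_pow, mul_assoc]
      congr 3
      refine Finset.prod_congr rfl fun l' _ => ?_
      rw [map_pow, map_pow, ← h0, WittVector.teichmuller_coeff_zero]
    have h1 : (p : WittVector p k) ^ 2 ∣
        ∑ γ : Fin n → Fin (p ^ m), WittVector.teichmuller p (algebraMap K k (c γ ^ p ^ m)) *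
          ∏ l, (WittVector.teichmuller p (algebraMap K k (v l)) + p * w l) ^ (γ l : ℕ) -
        (∑ γ, WittVector.teichmuller p (algebraMap K k (c γ ^ p ^ m)) *
          ∏ l, WittVector.teichmuller p (algebraMap K k (v l)) ^ (γ l : ℕ) + p * T) := by
      rw [hT, Finset.mul_sum, ← Finset.sum_add_distrib, ← Finset.sum_sub_distrib]
      refine Finset.dvd_sum fun γ _ => ?_
      have := prod_taylor Finset.univ
        (fun l => WittVector.teichmuller p (algebraMap K k (v l))) w (p : WittVector p k)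
        (fun l => (γ l : ℕ))
      obtain ⟨d, hd⟩ := this
      refine ⟨WittVector.teichmuller p (algebraMap K k (c γ ^ p ^ m)) * d, ?_⟩
      rw [sub_eq_iff_eq_add.mp hd]
      ring
    have h2 : (p : WittVector p k) ^ 2 ∣ p * T - p * WittVector.teichmuller p (D y) := by
      obtain ⟨d, hd⟩ := dvd_sub_teichmuller T (D y) hT0
      exact ⟨d, by rw [← mul_sub, hd]; ring⟩
    have h3 : WittVector.map (algebraMap K k)
        (∑ γ, WittVector.teichmuller p (algebraMap K K (c γ ^ p ^ m)) *
          ∏ l, WittVector.teichmuller p (v l) ^ (γ l : ℕ)) =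
        ∑ γ, WittVector.teichmuller p (algebraMap K k (c γ ^ p ^ m)) *
          ∏ l, WittVector.teichmuller p (algebraMap K k (v l)) ^ (γ l : ℕ) := by
      rw [map_sum]
      refine Finset.sum_congr rfl fun γ _ => ?_
      rw [map_mul, map_prod, WittVector.map_teichmuller]
      congr 1
      refine Finset.prod_congr rfl fun l _ => ?_
      rw [map_pow, WittVector.map_teichmuller]
    rw [h3]
    have := dvd_add h1 h2
    refine this.trans (dvd_of_eq ?_)
    ring

theorem evF_map {p : ℕ} [Fact p.Prime] {K k : Type} [Field K] [CharP K p] [Field k] [CharP k p]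
    [Algebra K k] (m : ℕ) {σ : Type} (υ : σ → WittVector p K)
    (G : MvPolynomial σ (WittVector p K)) :
    evF p K k m (fun l => WittVector.map (algebraMap K k) (υ l)) G =
      WittVector.map (algebraMap K k) (evF p K K m υ G) := by
  rw [evF, evF, MvPolynomial.eval₂_comp_left]
  congr 1

end Pool.Agent.W_MP_b723a0_ag.P
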