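import Mathlib
import Pool.Agent.W_MP_b723a0_ag.Defs
import Pool.Agent.W_MP_b723a0_ag.Digits
import Pool.Agent.W_MP_b723a0_ag.P.Defs
import Pool.Agent.W_MP_b723a0_ag.P.LemmaF
import Pool.Agent.W_MP_b723a0_ag.P.ModP2
import Pool.Agent.W_MP_b723a0_ag.P.RvBasics
import Pool.Agent.W_MP_b723a0_ag.P.Taylor

/-!
# Task W9: the value at `ρ + p [D y]`

Data: a p-basis `v` of `K`, `y ∈ K^σ`, `ρ ∈ Rv(v)^σ` with residues `y`, `F ∈ ℤ_p[Y_s : s ∈ σ]` such
that for all perfect infinite `k ⊃ K` and all lifts `ŷ ∈ W(k)^σ` of `y`, `p^i ∣ F(ŷ)`. Then there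
is `P ∈ K` such that for all perfect infinite `k ⊃ K`, all derivations `D : K → k` and all
`ŷ ≡ ρ + p [D y] mod p^2`: `F(ŷ) ≡ p^i [P] mod p^{i+1}`.

Proof. Let `m = i + 1`. For each `s` let `ℓ_s ∈ W(K)[Υ]` be the polynomial of `exists_ell` for
`y_s`, and `a_s = evF p K K m [v] ℓ_s ∈ Rv p v`, of residue `y_s`. By `rv_dvd` for `ρ_s - a_s`,
`ρ_s = a_s + p β_s` with `β_s ∈ W(K)`. Let `b_s = (β_s)_0 ∈ K` and let `ℓ'_s` be the polynomial of
`exists_ell` for `b_s`. Put `𝒢_s = ℓ_s + p ℓ'_s ∈ W(K)[Υ]` and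
`G = F(𝒢) = eval₂ (C ∘ zpToWitt) 𝒢 F ∈ W(K)[Υ]`. As `F^m` is the identity on the image of `ℤ_p`
(`map_comp_zpToWitt` in `Digits.lean`), `evF m υ G = F(evF m υ 𝒢)` for all `υ`. At `υ = [v]` over
`K`: `evF p K K m [v] 𝒢_s` has residue `y_s`; so its image in `W(k₁)`, `k₁` an algebraic closure
of `K` (perfect and infinite), is a lift of `y_s` and `p^i ∣ evF m [v] G` in `W(k₁)`, i.e. the
first `i` components of `evF p K K m [v] G` vanish (in `k₁`, hence in `K`). `lemmaF` gives `P ∈ K`
with `evF p K k m ([v] + p w) G ≡ p^i [P] mod p^{i+1}` for all perfect `k ⊃ K` and `w`.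
Given `k` and `D`, let `w_l = [D v_l]`. By `exists_ell`:
`evF m ([v] + p w) 𝒢_s ≡ a_s + p [D y_s] + p (residue b_s) ≡ a_s + p β_s + p [D y_s] =
ρ_s + p [D y_s] mod p^2`. By `modP2` (applied to the lift `ŷ` of `y`),
`F(ŷ) ≡ F(evF m ([v] + p w) 𝒢) = evF m ([v] + p w) G ≡ p^i [P] mod p^{i+1}`.
-/

namespace Pool.Agent.W_MP_b723a0_ag.P

theorem vd_evF_add {p : ℕ} [Fact p.Prime] {K k : Type} [Field K] [CharP K p] [Field k] [CharP k p]
    [Algebra K k] (m : ℕ) {σ : Type} (υ : σ → WittVector p k)
    (G H : MvPolynomial σ (WittVector p K)) :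
    evF p K k m υ (G + H) = evF p K k m υ G + evF p K k m υ H :=
  MvPolynomial.eval₂_add _ _

theorem vd_evF_natCast_mul {p : ℕ} [Fact p.Prime] {K k : Type} [Field K] [CharP K p] [Field k]
    [CharP k p] [Algebra K k] (m : ℕ) {σ : Type} (υ : σ → WittVector p k) (a : ℕ)
    (G : MvPolynomial σ (WittVector p K)) :
    evF p K k m υ ((a : MvPolynomial σ (WittVector p K)) * G) = a * evF p K k m υ G := by
  unfold evF
  rw [MvPolynomial.eval₂_mul, ← MvPolynomial.coe_eval₂Hom, map_natCast]

theorem vd_evF_eval₂ {p : ℕ} [Fact p.Prime] {K k : Type} [Field K] [CharP K p] [Field k]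
    [CharP k p] [Algebra K k] (m : ℕ) {τ σ : Type} (υ : τ → WittVector p k)
    (𝒢 : σ → MvPolynomial τ (WittVector p K)) (F : MvPolynomial σ ℤ_[p]) :
    evF p K k m υ (MvPolynomial.eval₂ (MvPolynomial.C.comp (zpToWitt p K)) 𝒢 F) =
      MvPolynomial.eval₂ (zpToWitt p k) (fun s => evF p K k m υ (𝒢 s)) F := by
  have h1 : (MvPolynomial.eval₂Hom (WittVector.map ((algebraMap K k).comp
      (iterateFrobenius K p m))) υ).comp (MvPolynomial.C.comp (zpToWitt p K)) =
      zpToWitt p k := by
    rw [← RingHom.comp_assoc]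
    have h2 : (MvPolynomial.eval₂Hom (WittVector.map ((algebraMap K k).comp
      (iterateFrobenius K p m))) υ).comp (MvPolynomial.C : WittVector p K →+* _) =
      WittVector.map ((algebraMap K k).comp (iterateFrobenius K p m)) := by
      ext1 x
      simp
    rw [h2, map_comp_zpToWitt]
  unfold evF
  rw [← MvPolynomial.coe_eval₂Hom (WittVector.map ((algebraMap K k).comp
      (iterateFrobenius K p m))), MvPolynomial.eval₂_comp_left, h1]
  rfl

theorem vd_coeff_zero_natCast_p {p : ℕ} [Fact p.Prime] {k : Type} [Field k] [CharP k p] :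
    ((p : WittVector p k)).coeff 0 = 0 := by
  have h1 : WittVector.constantCoeff (p : WittVector p k) = (p : k) := map_natCast _ _
  exact h1.trans (CharP.cast_eq_zero k p)

theorem vd_coeff_zero_eq_of_dvd {p : ℕ} [Fact p.Prime] {k : Type} [Field k] [CharP k p]
    {x y : WittVector p k} (h : (p : WittVector p k) ∣ x - y) : x.coeff 0 = y.coeff 0 := by
  obtain ⟨z, hz⟩ := h
  have h1 := congrArg (WittVector.constantCoeff (p := p) (R := k)) hz
  rw [map_sub, map_mul, map_natCast, CharP.cast_eq_zero, zero_mul] at h1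
  exact sub_eq_zero.mp h1

theorem vd_coeff_zero_add' {p : ℕ} [Fact p.Prime] {k : Type} [Field k]
    (x y : WittVector p k) : (x + y).coeff 0 = x.coeff 0 + y.coeff 0 :=
  map_add (WittVector.constantCoeff (p := p) (R := k)) x y

theorem vd_coeff_zero_sub' {p : ℕ} [Fact p.Prime] {k : Type} [Field k]
    (x y : WittVector p k) : (x - y).coeff 0 = x.coeff 0 - y.coeff 0 :=
  map_sub (WittVector.constantCoeff (p := p) (R := k)) x y

theorem vd_coeff_zero_p_mul {p : ℕ} [Fact p.Prime] {k : Type} [Field k] [CharP k p]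
    (x : WittVector p k) : ((p : WittVector p k) * x).coeff 0 = 0 := by
  rw [WittVector.mul_coeff_zero, vd_coeff_zero_natCast_p, zero_mul]

theorem vd_coeff_eq_zero_of_pow_dvd {p : ℕ} [Fact p.Prime] {k : Type} [Field k] [CharP k p]
    {x : WittVector p k} {i : ℕ} (h : (p : WittVector p k) ^ i ∣ x) :
    ∀ j < i, x.coeff j = 0 := by
  induction i generalizing x with
  | zero => intro j hj; omega
  | succ i ih =>
    intro j hj
    obtain ⟨z, hz⟩ := h
    have h2 : x = (p : WittVector p k) * ((p : WittVector p k) ^ i * z) := by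
      rw [hz, pow_succ']
      ring
    have h3 : x = WittVector.frobenius (WittVector.verschiebung
        ((p : WittVector p k) ^ i * z)) := by
      rw [WittVector.frobenius_verschiebung, h2, mul_comm]
    rw [h3, WittVector.coeff_frobenius_charP]
    cases j with
    | zero =>
      rw [WittVector.verschiebung_coeff_zero, zero_pow (Nat.Prime.ne_zero Fact.out)]
    | succ j =>
      rw [WittVector.verschiebung_coeff_add_one, ih (dvd_mul_right _ _) j (by omega),
        zero_pow (Nat.Prime.ne_zero Fact.out)]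

theorem value_der {p : ℕ} [Fact p.Prime] {K : Type} [Field K] [CharP K p] {n : ℕ}
    {v : Fin n → K} (hv : PBasis p v) {σ : Type} (y : σ → K) (ρ : σ → WittVector p K)
    (hρ : ∀ s, ρ s ∈ Rv p v) (hρ0 : ∀ s, (ρ s).coeff 0 = y s) (F : MvPolynomial σ ℤ_[p]) (i : ℕ)
    (hF : ∀ (k : Type) [Field k] [CharP k p] [PerfectRing k p] [Infinite k] [Algebra K k]
      (ŷ : σ → WittVector p k), IsLift p (fun s => algebraMap K k (y s)) ŷ →
        (p : WittVector p k) ^ i ∣ MvPolynomial.eval₂ (zpToWitt p k) ŷ F) :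
    ∃ P : K, ∀ (k : Type) [Field k] [CharP k p] [PerfectRing k p] [Infinite k] [Algebra K k]
      (D : Derivation ℤ K k) (ŷ : σ → WittVector p k),
      (∀ s, (p : WittVector p k) ^ 2 ∣ ŷ s - (WittVector.map (algebraMap K k) (ρ s) +
        p * WittVector.teichmuller p (D (y s)))) →
      (p : WittVector p k) ^ (i + 1) ∣ MvPolynomial.eval₂ (zpToWitt p k) ŷ F -
        p ^ i * WittVector.teichmuller p (algebraMap K k P) := by
  classical
  choose G1 h1a h1b h1c using fun s => exists_ell (p := p) hv (i + 1) (by omega) (y s)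
  have hβ : ∀ s, ∃ β : WittVector p K, ρ s - evF p K K (i + 1)
      (fun l => WittVector.teichmuller p (v l)) (G1 s) = p * β := by
    intro s
    apply rv_dvd hv (Subring.sub_mem _ (hρ s) (h1a s))
    rw [vd_coeff_zero_sub', hρ0, h1b, sub_self]
  choose β hβ using hβ
  choose G2 h2a h2b h2c using fun s => exists_ell (p := p) hv (i + 1) (by omega)
    ((β s).coeff 0)
  let 𝒢 : σ → MvPolynomial (Fin n) (WittVector p K) :=
    fun s => G1 s + (p : MvPolynomial (Fin n) (WittVector p K)) * G2 s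
  let G : MvPolynomial (Fin n) (WittVector p K) :=
    MvPolynomial.eval₂ (MvPolynomial.C.comp (zpToWitt p K)) 𝒢 F
  have h𝒢 : ∀ (k : Type) [Field k] [CharP k p] [Algebra K k] (υ : Fin n → WittVector p k) (s : σ),
      evF p K k (i + 1) υ (𝒢 s) =
        evF p K k (i + 1) υ (G1 s) + p * evF p K k (i + 1) υ (G2 s) := by
    intro k _ _ _ υ s
    rw [vd_evF_add, vd_evF_natCast_mul]
  have hG : ∀ j < i, (evF p K K (i + 1) (fun l => WittVector.teichmuller p (v l)) G).coeff j
      = 0 := by
    have hchar : CharP (AlgebraicClosure K) p :=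
      charP_of_injective_algebraMap (algebraMap K (AlgebraicClosure K)).injective p
    have hinf : Infinite (AlgebraicClosure K) := IsAlgClosed.instInfinite
    have h4 := hF (AlgebraicClosure K) (fun s => evF p K (AlgebraicClosure K) (i + 1)
      (fun l => WittVector.map (algebraMap K (AlgebraicClosure K))
        (WittVector.teichmuller p (v l))) (𝒢 s)) (by
      intro s
      show (evF p K (AlgebraicClosure K) (i + 1) _ (𝒢 s)).coeff 0 = _
      rw [evF_map, WittVector.map_coeff, h𝒢, vd_coeff_zero_add', vd_coeff_zero_p_mul, h1b, add_zero])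
    rw [← vd_evF_eval₂, evF_map] at h4
    intro j hj
    have h5 := vd_coeff_eq_zero_of_pow_dvd h4 j hj
    rw [WittVector.map_coeff] at h5
    exact (map_eq_zero (algebraMap K (AlgebraicClosure K))).mp h5
  obtain ⟨P, hP⟩ := lemmaF hv (i + 1) i (by omega) G hG
  refine ⟨P, ?_⟩
  intro k _ _ _ _ _ D ŷ hŷ
  have hLF := hP k (fun l => WittVector.teichmuller p (D (v l)))
  rw [vd_evF_eval₂] at hLF
  set w : Fin n → WittVector p k := fun l => WittVector.teichmuller p (D (v l)) with hw
  set υ : Fin n → WittVector p k := fun l => WittVector.teichmuller p (algebraMap K k (v l)) +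
    p * w l with hυ
  have hlift : IsLift p (fun s => algebraMap K k (y s)) ŷ := by
    intro s
    have h6 : (p : WittVector p k) ∣ ŷ s - (WittVector.map (algebraMap K k) (ρ s) +
        p * WittVector.teichmuller p (D (y s))) :=
      dvd_trans (dvd_pow_self _ (by omega)) (hŷ s)
    rw [vd_coeff_zero_eq_of_dvd h6, vd_coeff_zero_add', vd_coeff_zero_p_mul, add_zero,
      WittVector.map_coeff, hρ0]
  have hd : ∀ s, (p : WittVector p k) ^ 2 ∣ evF p K k (i + 1) υ (𝒢 s) - ŷ s := by
    intro s
    have e1 := h1c s k D w (fun l => by rw [hw]; exact WittVector.teichmuller_coeff_zero _ _)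
    have e2 := h2c s k D w (fun l => by rw [hw]; exact WittVector.teichmuller_coeff_zero _ _)
    have e3 : (p : WittVector p k) ∣ WittVector.map (algebraMap K k)
        (evF p K K (i + 1) (fun l => WittVector.teichmuller p (v l)) (G2 s)) -
          WittVector.map (algebraMap K k) (β s) := by
      have e4 := dvd_sub_teichmuller (p := p) (WittVector.map (algebraMap K k)
        (evF p K K (i + 1) (fun l => WittVector.teichmuller p (v l)) (G2 s)))
        (algebraMap K k ((β s).coeff 0)) (by rw [WittVector.map_coeff, h2b])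
      have e5 := dvd_sub_teichmuller (p := p) (WittVector.map (algebraMap K k) (β s))
        (algebraMap K k ((β s).coeff 0)) (by rw [WittVector.map_coeff])
      have e6 := dvd_sub e4 e5
      rwa [sub_sub_sub_cancel_right] at e6
    have e7 := congrArg (WittVector.map (algebraMap K k)) (hβ s)
    rw [map_sub, map_mul, map_natCast] at e7
    rw [h𝒢]
    obtain ⟨x1, hx1⟩ := e1
    obtain ⟨x2, hx2⟩ := e2
    obtain ⟨x3, hx3⟩ := e3
    obtain ⟨x4, hx4⟩ := hŷ s
    refine ⟨x1 + p * x2 + x3 + WittVector.teichmuller p (D ((β s).coeff 0)) - x4, ?_⟩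
    linear_combination hx1 + (p : WittVector p k) * hx2 + (p : WittVector p k) * hx3 - hx4 - e7
  have hM := modP2 k F i (fun s => algebraMap K k (y s)) (hF k) ŷ
    (fun s => evF p K k (i + 1) υ (𝒢 s)) hlift hd
  have h7 := dvd_sub hLF hM
  have h8 : MvPolynomial.eval₂ (zpToWitt p k) (fun s => evF p K k (i + 1) υ (𝒢 s)) F -
      (p : WittVector p k) ^ i * WittVector.teichmuller p (algebraMap K k P) -
      (MvPolynomial.eval₂ (zpToWitt p k) (fun s => evF p K k (i + 1) υ (𝒢 s)) F -
        MvPolynomial.eval₂ (zpToWitt p k) ŷ F) =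
      MvPolynomial.eval₂ (zpToWitt p k) ŷ F -
        p ^ i * WittVector.teichmuller p (algebraMap K k P) := by ring
  rw [h8] at h7
  exact h7

end Pool.Agent.W_MP_b723a0_ag.P
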