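import Mathlib
import Pool.Agent.W_MP_b723a0_ag.Defs
import Pool.Agent.W_MP_b723a0_ag.P.Defs
import Pool.Agent.W_MP_b723a0_ag.P.RvBasics
import Pool.Agent.W_MP_b723a0_ag.P.ChartCompare
import Pool.Agent.W_MP_b723a0_ag.P.ValueDer
import Pool.Agent.W_MP_b723a0_ag.P.ModP2

/-!
# Task W10: combining the charts

Data: charts `C_α` for `(t, z)` with `∑ δ_α = 1`, `F ∈ ℤ_p[T, Z]` homogeneous of degree `d` in `Z`,
`p^i ∣ F(t̂, ẑ)` for all lifts over all perfect infinite `k ⊃ K`. Conclusion: there is `P ∈ K` with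
`F((∑_α tval_α j)_j, (∑_α zval_α b)_b) ≡ p^i [P] mod p^{i+1}` for all lifts of the charts and of
`z`.

Proof. Let `v` be a reference p-basis (`exists_pbasis`, given as `hv`). By `exists_rv` choose
`ρ^α_x ∈ Rv p v` with residue `(C_α).v x`, and `ζ_b ∈ Rv p v` with residue `z_b`. Define the
reference values (elements of `Rv p v ⊂ W(K)`):
`ρ_j = ∑_α ∑_I [e^α_{jI}]^p (ρ^α)^I`, with residue `∑_α δ_α^p t_j = t_j` (`∑ δ_α^p = (∑ δ_α)^p = 1`),
`ρ'_b = ∑_α ζ_{l_α} ∑_I [c^α_{bI}]^p (ρ^α)^I`, with residue `∑_α δ_α^p z_b = z_b`.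
Let `P ∈ K` be given by `value_der` for `σ = Fin M ⊕ Fin (N+1)`, `y = (t, z)`, `ρ = (ρ, ρ')`.
Let `k`, lifts `Λ_α` of the charts and a lift `ẑ` of `z` be given. `chart_compare` gives `D_α` with
`∑_I ê^p v̂^I ≡ (∑_I [e_I]^p (ρ^α)^I) + p [D_α(∑_I e_I^p v_α^I)] mod p^2`. Let `D = ∑_α δ_α^p D_α`
(a derivation `K → k`). For `t`: `∑_I (e^α_{jI})^p v_α^I = δ_α^p t_j` and
`D_α(δ_α^p t_j) = δ_α^p D_α(t_j)`, so (using `[a] + [b] ≡ [a+b] mod p`)
`∑_α tval_α j ≡ ρ_j + p [D t_j] mod p^2`.
For `z`: `ẑ_b = ζ_b + p ω_b` for some `ω_b ∈ W(k)`. Modulo `p^2`,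
`zval_α b = ẑ_{l} (∑_I ĉ^p v̂^I) ≡ ζ_l ∑_I [c_I]^p (ρ^α)^I + p x_α`, where `x_α` has residue
`(ω_l)_0 δ_α^p z_b/z_l + z_l δ_α^p D_α(z_b/z_l)`, `l = l_α`, and
`z_l D_α(z_b/z_l) = D_α(z_b) - z_b D_α(z_l)/z_l`. Summing over `α`:
`∑_α zval_α b ≡ ρ'_b + p [D z_b + λ z_b] mod p^2`, with
`λ = ∑_α δ_α^p ((ω_{l_α})_0 - D_α(z_{l_α}))/z_{l_α} ∈ k`.
Let `u = 1 + p [λ]`, a unit of `W(k)` (its residue is `1`). Put `ζ̂'_b = u⁻¹ ∑_α zval_α b`. Then
`ζ̂'_b ≡ ρ'_b + p [D z_b] mod p^2` (because `u (ρ'_b + p [D z_b]) ≡ ρ'_b + p [D z_b] + p [λ z_b]`).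
By the choice of `P`, `F(t̂', ζ̂') ≡ p^i [P] mod p^{i+1}`, `t̂'_j = ∑_α tval_α j`. By homogeneity
`F(t̂', ∑ zval) = u^d F(t̂', ζ̂')`, and `p^i ∣ F(t̂', ζ̂')`, `u^d ≡ 1 mod p`, so
`F(t̂', ∑ zval) ≡ F(t̂', ζ̂') mod p^{i+1}`.
-/

namespace Pool.Agent.W_MP_b723a0_ag.P

theorem cf_dvd_of_coeff {p : ℕ} [Fact p.Prime] {k : Type} [Field k] [CharP k p] [PerfectRing k p]
    (x y : WittVector p k) (h : x.coeff 0 = y.coeff 0) : (p : WittVector p k) ∣ x - y := by
  have h1 := dvd_sub_teichmuller x (y.coeff 0) h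
  have h2 := dvd_sub_teichmuller y (y.coeff 0) rfl
  have h3 := dvd_sub h1 h2
  rwa [sub_sub_sub_cancel_right] at h3

theorem cf_sq_dvd {p : ℕ} [Fact p.Prime] {k : Type} [Field k] [CharP k p] [PerfectRing k p]
    (x y : WittVector p k) (h : WittVector.constantCoeff x = WittVector.constantCoeff y) :
    (p : WittVector p k) ^ 2 ∣ p * x - p * y := by
  obtain ⟨c, hc⟩ := cf_dvd_of_coeff x y h
  exact ⟨c, by rw [← mul_sub, hc]; ring⟩

theorem cf_cc_teich {p : ℕ} [Fact p.Prime] {k : Type} [CommRing k] (a : k) :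
    WittVector.constantCoeff (WittVector.teichmuller p a) = a :=
  WittVector.teichmuller_coeff_zero p a

theorem cf_cc_map {p : ℕ} [Fact p.Prime] {K k : Type} [CommRing K] [CommRing k] (f : K →+* k)
    (x : WittVector p K) :
    WittVector.constantCoeff (WittVector.map f x) = f (WittVector.constantCoeff x) := rfl

theorem cf_eval_hom {p : ℕ} [Fact p.Prime] {A : Type} [CommRing A] {M N : ℕ} (g : ℤ_[p] →+* A)
    (d : ℕ) (F : MvPolynomial (Fin M ⊕ Fin (N + 1)) ℤ_[p])
    (hhom : F.IsWeightedHomogeneous (Sum.elim (fun _ => 0) (fun _ => 1) :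
      Fin M ⊕ Fin (N + 1) → ℕ) d) (T : Fin M → A) (Z : Fin (N + 1) → A) (u : A) :
    MvPolynomial.eval₂ g (Sum.elim T (fun b => u * Z b)) F =
      u ^ d * MvPolynomial.eval₂ g (Sum.elim T Z) F := by
  rw [MvPolynomial.eval₂_eq', MvPolynomial.eval₂_eq', Finset.mul_sum]
  refine Finset.sum_congr rfl fun m hm => ?_
  have hw := hhom (MvPolynomial.mem_support_iff.1 hm)
  rw [Finsupp.weight_apply, Finsupp.sum_fintype _ _ (by simp)] at hw
  have hd : ∑ b : Fin (N + 1), m (Sum.inr b) = d := by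
    simpa [Fintype.sum_sum_type] using hw
  simp only [Fintype.prod_sum_type, Sum.elim_inl, Sum.elim_inr, mul_pow, Finset.prod_mul_distrib]
  rw [Finset.prod_pow_eq_pow_sum, hd]
  ring

theorem cf_der_pow {p : ℕ} {K k : Type} [Field K] [Field k] [CharP k p] [Algebra K k]
    (D : Derivation ℤ K k) (a b : K) : D (a ^ p * b) = algebraMap K k (a ^ p) * D b := by
  rw [Derivation.leibniz, Derivation.leibniz_pow, Algebra.smul_def, ← Nat.cast_smul_eq_nsmul k,
    CharP.cast_eq_zero, zero_smul, smul_zero, add_zero]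

theorem combField {p : ℕ} [Fact p.Prime] {K : Type} [Field K] [CharP K p] {n : ℕ}
    {v : Fin n → K} (hv : PBasis p v) {M N A : ℕ} (t : Fin M → K) (z : Fin (N + 1) → K)
    (C : Fin A → Chart p K M N) (hC : ∀ α, (C α).OK t z) (hδ : ∑ α, (C α).δ = 1) (d i : ℕ)
    (F : MvPolynomial (Fin M ⊕ Fin (N + 1)) ℤ_[p])
    (hhom : F.IsWeightedHomogeneous (Sum.elim (fun _ => 0) (fun _ => 1) :
      Fin M ⊕ Fin (N + 1) → ℕ) d)
    (hF : ∀ (k : Type) [Field k] [CharP k p] [PerfectRing k p] [Infinite k] [Algebra K k]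
      (th : Fin M → WittVector p k) (zh : Fin (N + 1) → WittVector p k),
        IsLift p (fun j => algebraMap K k (t j)) th →
        IsLift p (fun b => algebraMap K k (z b)) zh →
        (p : WittVector p k) ^ i ∣ MvPolynomial.eval₂ (zpToWitt p k) (Sum.elim th zh) F) :
    ∃ P : K, ∀ (k : Type) [Field k] [CharP k p] [PerfectRing k p] [Infinite k] [Algebra K k]
      (Λ : ∀ α, (C α).Lift k) (zh : Fin (N + 1) → WittVector p k),
      IsLift p (fun b => algebraMap K k (z b)) zh →
      (p : WittVector p k) ^ (i + 1) ∣ MvPolynomial.eval₂ (zpToWitt p k)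
        (Sum.elim (fun j => ∑ α, (Λ α).tval j) (fun b => ∑ α, (Λ α).zval zh b)) F -
        p ^ i * WittVector.teichmuller p (algebraMap K k P) := by
  classical
  choose ρ hρ hρ0 using fun (α : Fin A) (x : Fin (C α).n) => exists_rv hv ((C α).v x)
  choose ζ hζ hζ0 using fun b : Fin (N + 1) => exists_rv hv (z b)
  set S : ∀ α : Fin A, ((Fin (C α).n → Fin p) → K) → WittVector p K := fun α e =>
    ∑ I, WittVector.teichmuller p (e I) ^ p * ∏ x, ρ α x ^ (I x : ℕ) with hS
  have hSmem : ∀ α e, S α e ∈ Rv p v := fun α e =>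
    Subring.sum_mem _ fun I _ => Subring.mul_mem _ (teich_pow_mem_rv v _)
      (Subring.prod_mem _ fun x _ => Subring.pow_mem _ (hρ α x) _)
  have hS0 : ∀ α e, WittVector.constantCoeff (S α e) =
      ∑ I, e I ^ p * ∏ x, (C α).v x ^ (I x : ℕ) := by
    intro α e
    simp only [hS, map_sum, map_mul, map_pow, map_prod, cf_cc_teich]
    refine Finset.sum_congr rfl fun I _ => ?_
    congr 1
    refine Finset.prod_congr rfl fun x _ => ?_
    congr 1
    exact hρ0 α x
  have hδp : ∑ α, (C α).δ ^ p = 1 := by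
    rw [← sum_pow_char p, hδ, one_pow]
  set ρt : Fin M → WittVector p K := fun j => ∑ α, S α ((C α).e j) with hρt
  set ρz : Fin (N + 1) → WittVector p K := fun b => ∑ α, ζ (C α).l * S α ((C α).c b) with hρz
  have hρt0 : ∀ j, WittVector.constantCoeff (ρt j) = t j := by
    intro j
    simp only [hρt, map_sum, hS0, (hC _).he]
    rw [← Finset.sum_mul, hδp, one_mul]
  have hρz0 : ∀ b, WittVector.constantCoeff (ρz b) = z b := by
    intro b
    simp only [hρz, map_sum, map_mul, hS0]
    have : ∀ α, WittVector.constantCoeff (ζ (C α).l) *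
        ∑ I, (C α).c b I ^ p * ∏ x, (C α).v x ^ (I x : ℕ) = (C α).δ ^ p * z b := fun α => by
      rw [← (hC α).hc b]
      congr 1
      exact hζ0 _
    rw [Finset.sum_congr rfl fun α _ => this α, ← Finset.sum_mul, hδp, one_mul]
  obtain ⟨P, hP⟩ := value_der hv (Sum.elim t z) (Sum.elim ρt ρz)
    (by
      rintro (j | b)
      · exact Subring.sum_mem _ fun α _ => hSmem _ _
      · exact Subring.sum_mem _ fun α _ => Subring.mul_mem _ (hζ _) (hSmem _ _))
    (by
      rintro (j | b)
      · exact hρt0 j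
      · exact hρz0 b) F i
    (by
      intro k _ _ _ _ _ ŷ hŷ
      have := hF k (ŷ ∘ Sum.inl) (ŷ ∘ Sum.inr) (fun j => hŷ (Sum.inl j)) (fun b => hŷ (Sum.inr b))
      rwa [Sum.elim_comp_inl_inr] at this)
  refine ⟨P, ?_⟩
  intro k _ _ _ _ _ Λ zh hzh
  choose D hD using fun α => chart_compare (hC α).pb (ρ α) (hρ0 α) k (Λ α).v (Λ α).hv
  set Dt : Derivation ℤ K k := ∑ α, (C α).δ ^ p • D α with hDt
  have hDta : ∀ a, Dt a = ∑ α, algebraMap K k ((C α).δ ^ p) * D α a := by
    intro a
    have h1 : (Derivation.coeFnAddMonoidHom : Derivation ℤ K k →+ (K → k)) Dt =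
        ∑ α, (Derivation.coeFnAddMonoidHom : Derivation ℤ K k →+ (K → k))
          ((C α).δ ^ p • D α) := map_sum _ _ _
    have h2 : Dt a = (Derivation.coeFnAddMonoidHom : Derivation ℤ K k →+ (K → k)) Dt a := rfl
    rw [h2, h1, Finset.sum_apply]
    refine Finset.sum_congr rfl fun α _ => ?_
    rw [Derivation.coeFnAddMonoidHom_apply, Derivation.smul_apply, Algebra.smul_def]
  -- the t-values
  have ht : ∀ j, (p : WittVector p k) ^ 2 ∣ (∑ α, (Λ α).tval j) -
      (WittVector.map (algebraMap K k) (ρt j) + p * WittVector.teichmuller p (Dt (t j))) := by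
    intro j
    have h1 : ∀ α, (p : WittVector p k) ^ 2 ∣ (Λ α).tval j -
        (WittVector.map (algebraMap K k) (S α ((C α).e j)) +
          p * WittVector.teichmuller p (D α ((C α).δ ^ p * t j))) := by
      intro α
      have := hD α ((C α).e j) ((Λ α).e j) ((Λ α).he j)
      rwa [(hC α).he j] at this
    have h2 := Finset.dvd_sum (s := Finset.univ) fun α _ => h1 α
    have h3 : (p : WittVector p k) ^ 2 ∣
        p * (∑ α, WittVector.teichmuller p (D α ((C α).δ ^ p * t j))) -
          p * WittVector.teichmuller p (Dt (t j)) := by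
      apply cf_sq_dvd
      rw [map_sum, cf_cc_teich, hDta]
      refine Finset.sum_congr rfl fun α _ => ?_
      rw [cf_cc_teich, cf_der_pow]
    have h4 := dvd_add h2 h3
    convert h4 using 1
    simp only [hρt, map_sum, Finset.sum_sub_distrib, Finset.sum_add_distrib, Finset.mul_sum]
    ring
  -- the z-values
  have hω : ∀ b, ∃ w : WittVector p k, zh b = WittVector.map (algebraMap K k) (ζ b) + p * w := by
    intro b
    obtain ⟨w, hw⟩ := cf_dvd_of_coeff (zh b) (WittVector.map (algebraMap K k) (ζ b)) (by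
      rw [hzh b, WittVector.map_coeff, hζ0])
    exact ⟨w, by rw [← hw]; ring⟩
  choose w hw using hω
  set s : ∀ α : Fin A, Fin (N + 1) → K := fun α b =>
    ∑ I, (C α).c b I ^ p * ∏ x, (C α).v x ^ (I x : ℕ) with hs
  have hsz : ∀ α b, z (C α).l * s α b = (C α).δ ^ p * z b := fun α b => (hC α).hc b
  set lam : k := ∑ α, algebraMap K k ((C α).δ ^ p / z (C α).l) *
    (WittVector.constantCoeff (w (C α).l) - D α (z (C α).l)) with hlam
  have hz : ∀ b, (p : WittVector p k) ^ 2 ∣ (∑ α, (Λ α).zval zh b) -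
      (1 + p * WittVector.teichmuller p lam) *
      (WittVector.map (algebraMap K k) (ρz b) + p * WittVector.teichmuller p (Dt (z b))) := by
    intro b
    have h1 : ∀ α, (p : WittVector p k) ^ 2 ∣ (Λ α).zval zh b -
        (WittVector.map (algebraMap K k) (ζ (C α).l * S α ((C α).c b)) +
          p * (w (C α).l * WittVector.map (algebraMap K k) (S α ((C α).c b)) +
            WittVector.map (algebraMap K k) (ζ (C α).l) *
              WittVector.teichmuller p (D α (s α b)))) := by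
      intro α
      obtain ⟨c, hc⟩ := hD α ((C α).c b) ((Λ α).c b) ((Λ α).hc b)
      refine ⟨zh (C α).l * c + w (C α).l * WittVector.teichmuller p (D α (s α b)), ?_⟩
      have hc' : (∑ I, (Λ α).c b I ^ p * ∏ l, (Λ α).v l ^ (I l : ℕ)) =
          WittVector.map (algebraMap K k) (S α ((C α).c b)) +
            p * WittVector.teichmuller p (D α (s α b)) + (p : WittVector p k) ^ 2 * c := by
        rw [← hc]; ring
      rw [Chart.Lift.zval, hc', hw (C α).l, map_mul]
      ring
    have h2 := Finset.dvd_sum (s := Finset.univ) fun α _ => h1 α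
    rw [Finset.sum_sub_distrib, Finset.sum_add_distrib, ← Finset.mul_sum,
      ← map_sum (WittVector.map (algebraMap K k)) (fun α => ζ (C α).l * S α ((C α).c b))] at h2
    have h3 : (p : WittVector p k) ^ 2 ∣
        p * (∑ α, (w (C α).l * WittVector.map (algebraMap K k) (S α ((C α).c b)) +
            WittVector.map (algebraMap K k) (ζ (C α).l) *
              WittVector.teichmuller p (D α (s α b)))) -
          p * (WittVector.teichmuller p lam * WittVector.map (algebraMap K k) (ρz b) +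
            WittVector.teichmuller p (Dt (z b))) := by
      apply cf_sq_dvd
      rw [map_sum, map_add, map_mul, cf_cc_teich, cf_cc_teich, cf_cc_map, hρz0, hDta, hlam,
        Finset.sum_mul, ← Finset.sum_add_distrib]
      refine Finset.sum_congr rfl fun α _ => ?_
      have hl := (hC α).hl
      have e1 : WittVector.constantCoeff (ζ (C α).l) = z (C α).l := hζ0 _
      have e2 : s α b = (C α).δ ^ p * z b / z (C α).l := by
        rw [eq_div_iff hl, mul_comm, hsz]
      have e3 : algebraMap K k (z (C α).l) * D α (s α b) + algebraMap K k (s α b) *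
          D α (z (C α).l) = algebraMap K k ((C α).δ ^ p) * D α (z b) := by
        rw [← cf_der_pow, ← hsz, Derivation.leibniz, Algebra.smul_def, Algebra.smul_def]
      rw [map_add, map_mul, map_mul, cf_cc_map, cf_cc_map, cf_cc_teich, hS0, e1]
      change WittVector.constantCoeff (w (C α).l) * algebraMap K k (s α b) +
        algebraMap K k (z (C α).l) * D α (s α b) = _
      have e4 : algebraMap K k ((C α).δ ^ p / z (C α).l) * algebraMap K k (z b) =
          algebraMap K k (s α b) := by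
        rw [← map_mul, e2]
        congr 1
        ring
      linear_combination e3 - (WittVector.constantCoeff (w (C α).l) - D α (z (C α).l)) * e4
    have h4 := dvd_add h2 h3
    have h5 := dvd_sub h4 (Dvd.intro (WittVector.teichmuller p lam *
      WittVector.teichmuller p (Dt (z b))) rfl : (p : WittVector p k) ^ 2 ∣ _)
    convert h5 using 1
    ring
  set u : WittVector p k := 1 + p * WittVector.teichmuller p lam with hu
  have hunit : IsUnit u := by
    apply WittVector.isUnit_of_coeff_zero_ne_zero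
    change WittVector.constantCoeff u ≠ 0
    rw [hu, map_add, map_one, map_mul, map_natCast, CharP.cast_eq_zero, zero_mul, add_zero]
    exact one_ne_zero
  obtain ⟨ui, hui⟩ := hunit.exists_right_inv
  have key := hP k Dt (Sum.elim (fun j => ∑ α, (Λ α).tval j)
    (fun b => ui * ∑ α, (Λ α).zval zh b)) (by
      rintro (j | b)
      · exact ht j
      · simp only [Sum.elim_inr]
        have h1 := Dvd.dvd.mul_left (hz b) ui
        convert h1 using 1
        rw [mul_sub, ← mul_assoc ui u, mul_comm ui u, hui, one_mul])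
  have hev : MvPolynomial.eval₂ (zpToWitt p k)
      (Sum.elim (fun j => ∑ α, (Λ α).tval j) (fun b => ∑ α, (Λ α).zval zh b)) F =
      u ^ d * MvPolynomial.eval₂ (zpToWitt p k) (Sum.elim (fun j => ∑ α, (Λ α).tval j)
        (fun b => ui * ∑ α, (Λ α).zval zh b)) F := by
    rw [← cf_eval_hom (zpToWitt p k) d F hhom]
    congr 2
    funext b
    rw [← mul_assoc, hui, one_mul]
  rw [hev]
  set E := MvPolynomial.eval₂ (zpToWitt p k) (Sum.elim (fun j => ∑ α, (Λ α).tval j)
        (fun b => ui * ∑ α, (Λ α).zval zh b)) F with hE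
  have hEi : (p : WittVector p k) ^ i ∣ E := by
    have h1 : (p : WittVector p k) ^ i ∣ E - p ^ i * WittVector.teichmuller p (algebraMap K k P) :=
      dvd_trans (pow_dvd_pow _ (Nat.le_succ i)) key
    have h2 := dvd_add h1 (Dvd.intro (WittVector.teichmuller p (algebraMap K k P)) rfl :
      (p : WittVector p k) ^ i ∣ _)
    rwa [sub_add_cancel] at h2
  have hud : (p : WittVector p k) ∣ u ^ d - 1 := by
    have h1 : (p : WittVector p k) ∣ u - 1 := ⟨WittVector.teichmuller p lam, by rw [hu]; ring⟩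
    exact dvd_trans h1 (by simpa using sub_dvd_pow_sub_pow u 1 d)
  have h6 : (p : WittVector p k) ^ (i + 1) ∣ (u ^ d - 1) * E := by
    rw [pow_succ, mul_comm]
    exact mul_dvd_mul hud hEi
  have h7 := dvd_add key h6
  convert h7 using 1
  ring

end Pool.Agent.W_MP_b723a0_ag.P
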