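import Mathlib
import Pool.Agent.W_MP_b723a0_ag.P.Defs
import Pool.Agent.W_MP_b723a0_ag.P.ArtinSchreier

/-!
# Task V3: the holomorphy ring

`hol_locVal`. Let `m` be a maximal ideal of `𝔸 = hol p κ K`, `b ∈ K`, and
`a_j = b^j/(b^p - b - 1) ∈ 𝔸` for `0 ≤ j ≤ p` (the denominator is nonzero by `ASFree`). Since
`a_p - a_1 - a_0 = 1`, one of `a_p, a_1, a_0` is not in `m`. If `a_p ∉ m`,
`b⁻¹ = a_{p-1}/a_p` (`b ≠ 0` in this case). If `a_0 ∉ m`, `b = a_1/a_0`. If `a_1 ∉ m`,
`b = a_2/a_1`.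

`exists_locRing`: `{x | InLoc A m x}` is a subring of `K` (as `m` is prime), a valuation subring
by `LocVal`.

`mem_of_forall_inLoc`: the ideal `{s ∈ A : x s ∈ A}` is not contained in a maximal ideal, so it
contains `1`.

`asf_inv`: (values of the norm form) let `m` be maximal, `n` a natural number and
`ζ_0, ..., ζ_n ∈ 𝔸_m` with `ζ_l = 1` for some `l`. Then `(nf p n ζ)⁻¹ ∈ 𝔸_m`. Proof: let `V = 𝔸_m`
(a valuation ring with maximal ideal `𝔫`). (i) If `x, y ∈ V` and `asf p x y ∈ 𝔫` then `x, y ∈ 𝔫`: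
if `y ∉ 𝔫`, then `b = x/y ∈ V` and `b^p - b - 1 = asf p x y / y^p ∈ 𝔫`, but
`1/(b^p - b - 1) ∈ 𝔸 ⊂ V`, contradiction. So `y ∈ 𝔫`, `x^p ∈ 𝔫`, `x ∈ 𝔫`. (ii) By induction on `n`,
`nf p n ζ ∈ 𝔫` implies that all `ζ_k ∈ 𝔫`. As `ζ_l = 1 ∉ 𝔫`, `nf p n ζ ∈ V ∖ 𝔫` is a unit of `V`.
`asf_inv` is the analogous statement for `asf p x y` with `x = 1` or `y = 1`.
-/

namespace Pool.Agent.W_MP_b723a0_ag.P

variable {p : ℕ} [Fact p.Prime] {κ K : Type} [Field κ] [Field K] [Algebra κ K]

theorem holLoc_mem (b : K) (j : ℕ) (hj : j ≤ p) :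
    b ^ j / (b ^ p - b - 1) ∈ (hol p κ K).toSubring := by
  show b ^ j / (b ^ p - b - 1) ∈ hol p κ K
  exact Algebra.subset_adjoin ⟨b, j, hj, rfl⟩

theorem hol_locVal (hAS : ASFree p K) : LocVal (hol p κ K).toSubring := by
  intro m hm b
  have hp : p.Prime := Fact.out
  have hD : b ^ p - b - 1 ≠ 0 := (asFree_iff p K).1 hAS b
  have h1 : (1 : (hol p κ K).toSubring) ∉ m := fun h => hm.ne_top ((Ideal.eq_top_iff_one m).2 h)
  let a0 : (hol p κ K).toSubring := ⟨_, holLoc_mem b 0 (Nat.zero_le p)⟩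
  let a1 : (hol p κ K).toSubring := ⟨_, holLoc_mem b 1 hp.one_lt.le⟩
  let a2 : (hol p κ K).toSubring := ⟨_, holLoc_mem b 2 hp.two_le⟩
  let aq : (hol p κ K).toSubring := ⟨_, holLoc_mem b (p - 1) (Nat.sub_le p 1)⟩
  let ap : (hol p κ K).toSubring := ⟨_, holLoc_mem b p le_rfl⟩
  have hsum : ap - a1 - a0 = 1 := by
    apply Subtype.ext
    show b ^ p / (b ^ p - b - 1) - b ^ 1 / (b ^ p - b - 1) - b ^ 0 / (b ^ p - b - 1) = 1
    rw [← sub_div, ← sub_div, pow_one, pow_zero, div_self hD]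
  by_cases h0 : a0 ∈ m
  · by_cases h1' : a1 ∈ m
    · have hpm : ap ∉ m := by
        intro hpm
        apply h1
        rw [← hsum]
        exact m.sub_mem (m.sub_mem hpm h1') h0
      right
      refine ⟨aq, ap, hpm, ?_⟩
      have hb : b ≠ 0 := by
        intro hb
        apply hpm
        have : ap = 0 := by
          apply Subtype.ext
          show b ^ p / (b ^ p - b - 1) = 0
          rw [hb, zero_pow hp.ne_zero, zero_div]
        rw [this]
        exact m.zero_mem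
      show b⁻¹ * (b ^ p / (b ^ p - b - 1)) = b ^ (p - 1) / (b ^ p - b - 1)
      have e : b ^ p = b * b ^ (p - 1) := by
        rw [← pow_succ', Nat.sub_add_cancel hp.one_lt.le]
      rw [← mul_div_assoc]
      congr 1
      rw [e, inv_mul_cancel_left₀ hb]
    · left
      refine ⟨a2, a1, h1', ?_⟩
      show b * (b ^ 1 / (b ^ p - b - 1)) = b ^ 2 / (b ^ p - b - 1)
      rw [← mul_div_assoc]
      congr 1
      ring
  · left
    refine ⟨a1, a0, h0, ?_⟩
    show b * (b ^ 0 / (b ^ p - b - 1)) = b ^ 1 / (b ^ p - b - 1)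
    rw [← mul_div_assoc]
    congr 1
    ring

theorem inLoc_of_mem (A : Subring K) (m : Ideal A) (hm : m.IsMaximal) (x : K) (hx : x ∈ A) :
    InLoc A m x := by
  refine ⟨⟨x, hx⟩, 1, fun h => hm.ne_top ((Ideal.eq_top_iff_one m).2 h), ?_⟩
  simp

theorem exists_locRing (A : Subring K) (h : LocVal A) (m : Ideal A) (hm : m.IsMaximal) :
    ∃ V : ValuationSubring K, ∀ x, x ∈ V ↔ InLoc A m x := by
  have hprime : ∀ s s' : A, s ∉ m → s' ∉ m → s * s' ∉ m := by
    intro s s' hs hs' h'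
    rcases hm.isPrime.mem_or_mem h' with h'' | h''
    · exact hs h''
    · exact hs' h''
  refine ⟨{ carrier := {x | InLoc A m x}
            mul_mem' := ?_
            one_mem' := inLoc_of_mem A m hm 1 A.one_mem
            add_mem' := ?_
            zero_mem' := inLoc_of_mem A m hm 0 A.zero_mem
            neg_mem' := ?_
            mem_or_inv_mem' := h m hm }, fun x => Iff.rfl⟩
  · rintro x y ⟨a, s, hs, hx⟩ ⟨a', s', hs', hy⟩
    refine ⟨a * a', s * s', hprime s s' hs hs', ?_⟩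
    push_cast
    rw [← hx, ← hy]
    ring
  · rintro x y ⟨a, s, hs, hx⟩ ⟨a', s', hs', hy⟩
    refine ⟨a * s' + a' * s, s * s', hprime s s' hs hs', ?_⟩
    push_cast
    rw [← hx, ← hy]
    ring
  · rintro x ⟨a, s, hs, hx⟩
    refine ⟨-a, s, hs, ?_⟩
    push_cast
    rw [← hx]
    ring

theorem mem_of_forall_inLoc (A : Subring K) (x : K)
    (h : ∀ m : Ideal A, m.IsMaximal → InLoc A m x) : x ∈ A := by
  let I : Ideal A :=
    { carrier := {s | x * (s : K) ∈ A}
      add_mem' := by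
        intro s s' hs hs'
        show x * ((s + s' : A) : K) ∈ A
        push_cast
        rw [mul_add]
        exact A.add_mem hs hs'
      zero_mem' := by
        show x * ((0 : A) : K) ∈ A
        simp
      smul_mem' := by
        intro c s hs
        show x * ((c • s : A) : K) ∈ A
        rw [smul_eq_mul]
        push_cast
        rw [mul_left_comm]
        exact A.mul_mem c.2 hs }
  have hI : I = ⊤ := by
    by_contra hne
    obtain ⟨m, hm, hIm⟩ := Ideal.exists_le_maximal I hne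
    obtain ⟨a, s, hs, hxs⟩ := h m hm
    apply hs
    apply hIm
    show x * (s : K) ∈ A
    rw [hxs]
    exact a.2
  have h1 : (1 : A) ∈ I := by rw [hI]; trivial
  have h2 : x * ((1 : A) : K) ∈ A := h1
  simpa using h2

/-- If the value of the Artin-Schreier form at integral elements is in the maximal ideal, both
elements are. -/
theorem holLoc_asf_lt (hAS : ASFree p K) (V : ValuationSubring K)
    (hV : ∀ b : K, (b ^ p - b - 1)⁻¹ ∈ V) (x y : K) (hx : x ∈ V) (hy : y ∈ V)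
    (h : V.valuation (asf p x y) < 1) : V.valuation x < 1 ∧ V.valuation y < 1 := by
  have hp : p.Prime := Fact.out
  have hx1 : V.valuation x ≤ 1 := (V.valuation_le_one_iff x).2 hx
  have hy1 : V.valuation y ≤ 1 := (V.valuation_le_one_iff y).2 hy
  have hy2 : V.valuation y < 1 := by
    by_contra hcon
    have hy3 : V.valuation y = 1 := le_antisymm hy1 (not_lt.1 hcon)
    have hy0 : y ≠ 0 := by
      intro h0
      rw [h0, map_zero] at hy3
      exact zero_ne_one hy3
    have hD := (asFree_iff p K).1 hAS (x / y)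
    have e : (x / y) ^ p - x / y - 1 = asf p x y / y ^ p := by
      unfold asf
      have e1 : y ^ p = y * y ^ (p - 1) := by
        rw [← pow_succ', Nat.sub_add_cancel hp.one_lt.le]
      have hyq : y ^ (p - 1) ≠ 0 := pow_ne_zero _ hy0
      rw [div_pow]
      rw [sub_div, sub_div, div_self (pow_ne_zero p hy0)]
      congr 2
      rw [e1]
      field_simp
    have h2 := (V.valuation_le_one_iff _).2 (hV (x / y))
    rw [map_inv₀] at h2
    have h3 : V.valuation ((x / y) ^ p - x / y - 1) < 1 := by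
      rw [e, map_div₀, map_pow, hy3, one_pow, div_one]
      exact h
    have h4 : V.valuation ((x / y) ^ p - x / y - 1) ≠ 0 := (V.valuation.ne_zero_iff).2 hD
    have h5 := (one_lt_inv₀ (zero_lt_iff.2 h4)).2 h3
    exact absurd h2 (not_le.2 h5)
  refine ⟨?_, hy2⟩
  have e : x ^ p = asf p x y + (x * y ^ (p - 1) + y ^ p) := by
    unfold asf
    ring
  have h1 : V.valuation (y ^ (p - 1)) < 1 := by
    rw [map_pow]
    exact pow_lt_one₀ zero_le hy2 (Nat.sub_ne_zero_of_lt hp.one_lt)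
  have h2 : V.valuation (x * y ^ (p - 1)) < 1 := by
    rw [map_mul]
    exact lt_of_le_of_lt (mul_le_of_le_one_left zero_le hx1) h1
  have h3 : V.valuation (y ^ p) < 1 := by
    rw [map_pow]
    exact pow_lt_one₀ zero_le hy2 hp.ne_zero
  have h4 : V.valuation (x ^ p) < 1 := by
    rw [e]
    exact V.valuation.map_add_lt h (V.valuation.map_add_lt h2 h3)
  by_contra hcon
  have h5 : V.valuation x = 1 := le_antisymm hx1 (not_lt.1 hcon)
  rw [map_pow, h5, one_pow] at h4
  exact lt_irrefl _ h4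

theorem holLoc_asf_mem (V : ValuationSubring K) (x y : K) (hx : x ∈ V) (hy : y ∈ V) :
    asf p x y ∈ V :=
  sub_mem (sub_mem (pow_mem hx p) (mul_mem hx (pow_mem hy (p - 1)))) (pow_mem hy p)

theorem holLoc_nf (hAS : ASFree p K) (V : ValuationSubring K)
    (hV : ∀ b : K, (b ^ p - b - 1)⁻¹ ∈ V) (n : ℕ) (ζ : Fin (n + 1) → K) (hζ : ∀ j, ζ j ∈ V) :
    nf p n ζ ∈ V ∧ (V.valuation (nf p n ζ) < 1 → ∀ j, V.valuation (ζ j) < 1) := by
  have hp : p.Prime := Fact.out
  induction n with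
  | zero =>
    refine ⟨hζ 0, fun h j => ?_⟩
    have : j = 0 := Fin.ext (by have := j.2; simp only [Fin.val_zero]; omega)
    rw [this]
    exact h
  | succ n ih =>
    obtain ⟨h1, h2⟩ := ih (fun j => ζ j.castSucc) (fun j => hζ _)
    have h3 : ζ (Fin.last (n + 1)) ^ p ^ n ∈ V := V.pow_mem (hζ _) _
    refine ⟨holLoc_asf_mem V _ _ h1 h3, fun h j => ?_⟩
    obtain ⟨h4, h5⟩ := holLoc_asf_lt hAS V hV _ _ h1 h3 h
    refine Fin.lastCases ?_ (fun j => h2 h4 j) j
    by_contra hcon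
    have h6 : V.valuation (ζ (Fin.last (n + 1))) = 1 :=
      le_antisymm ((V.valuation_le_one_iff _).2 (hζ _)) (not_lt.1 hcon)
    rw [map_pow, h6, one_pow] at h5
    exact lt_irrefl _ h5

theorem holLoc_inv (V : ValuationSubring K) (x : K) (hx : ¬ V.valuation x < 1) : x⁻¹ ∈ V := by
  rw [← V.valuation_le_one_iff, map_inv₀]
  exact inv_le_one_of_one_le₀ (not_lt.1 hx)

theorem holLoc_V (hAS : ASFree p K) (m : Ideal (hol p κ K).toSubring) (hm : m.IsMaximal) :
    ∃ V : ValuationSubring K, (∀ x, x ∈ V ↔ InLoc (hol p κ K).toSubring m x) ∧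
      ∀ b : K, (b ^ p - b - 1)⁻¹ ∈ V := by
  obtain ⟨V, hV⟩ := exists_locRing _ (hol_locVal (κ := κ) hAS) m hm
  refine ⟨V, hV, fun b => (hV _).2 (inLoc_of_mem _ m hm _ ?_)⟩
  have h := holLoc_mem (p := p) (κ := κ) b 0 (Nat.zero_le p)
  rw [pow_zero, one_div] at h
  exact h

theorem nf_inv (hAS : ASFree p K) (m : Ideal (hol p κ K).toSubring) (hm : m.IsMaximal) (n : ℕ)
    (ζ : Fin (n + 1) → K) (hζ : ∀ j, InLoc (hol p κ K).toSubring m (ζ j)) (l : Fin (n + 1))
    (hl : ζ l = 1) : InLoc (hol p κ K).toSubring m (nf p n ζ)⁻¹ := by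
  obtain ⟨V, hV, hV2⟩ := holLoc_V hAS m hm
  rw [← hV]
  apply holLoc_inv
  intro h
  have h2 := (holLoc_nf hAS V hV2 n ζ (fun j => (hV _).2 (hζ j))).2 h l
  rw [hl, map_one] at h2
  exact lt_irrefl _ h2

theorem asf_inv (hAS : ASFree p K) (m : Ideal (hol p κ K).toSubring) (hm : m.IsMaximal)
    (x y : K) (hx : InLoc (hol p κ K).toSubring m x) (hy : InLoc (hol p κ K).toSubring m y)
    (h1 : x = 1 ∨ y = 1) : InLoc (hol p κ K).toSubring m (asf p x y)⁻¹ := by
  obtain ⟨V, hV, hV2⟩ := holLoc_V hAS m hm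
  rw [← hV]
  apply holLoc_inv
  intro h
  obtain ⟨h2, h3⟩ := holLoc_asf_lt hAS V hV2 x y ((hV _).2 hx) ((hV _).2 hy) h
  rcases h1 with h1 | h1
  · rw [h1, map_one] at h2
    exact lt_irrefl _ h2
  · rw [h1, map_one] at h3
    exact lt_irrefl _ h3

/-- A nonzero vector has a coordinate which divides all others in the localisation. -/
theorem exists_min_coord (hAS : ASFree p K) (m : Ideal (hol p κ K).toSubring)
    (hm : m.IsMaximal) {n : ℕ} (z : Fin n → K) (hz : ∃ j, z j ≠ 0) :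
    ∃ l, z l ≠ 0 ∧ ∀ j, InLoc (hol p κ K).toSubring m (z j / z l) := by
  obtain ⟨V, hV, -⟩ := holLoc_V hAS m hm
  obtain ⟨j₀, hj₀⟩ := hz
  haveI : Nonempty (Fin n) := ⟨j₀⟩
  obtain ⟨l, hl⟩ := Finite.exists_max (fun j => V.valuation (z j))
  have hz0 : V.valuation (z j₀) ≠ 0 := (V.valuation.ne_zero_iff).2 hj₀
  have hl0 : V.valuation (z l) ≠ 0 := fun h => hz0 (le_antisymm (h ▸ hl j₀) zero_le)
  refine ⟨l, (V.valuation.ne_zero_iff).1 hl0, fun j => ?_⟩
  rw [← hV, ← V.valuation_le_one_iff, map_div₀]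
  exact div_le_one_of_le₀ (hl j) zero_le

end Pool.Agent.W_MP_b723a0_ag.P
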