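import Mathlib

/-!
# Task V1c0: eventual order of lines

Multiplicative notation: `Γ` is a linearly ordered commutative group with zero (values of a
multiplicative valuation), `D ⊂ Γ` a set of nonzero elements which has no minimum: for each
`δ ∈ D` there is a smaller `δ' ∈ D`. Eventually means: for all `δ ∈ D` with `δ ≤ δ₀`, for some
`δ₀ ∈ D`. Lines are functions `δ ↦ β δ^i` with `β ≠ 0`.

`lines_lt`: for `i < j` and `β, β' ≠ 0`: either eventually `β δ^i < β' δ^j`, or eventually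
`β' δ^j < β δ^i`. Proof: `β δ^i < β' δ^j ↔ β/β' < δ^{j-i}`, `δ ↦ δ^{j-i}` is strictly monotone. If
there is `δ₁ ∈ D` with `δ₁^{j-i} ≤ β/β'`, then all smaller `δ ∈ D` have `δ^{j-i} < β/β'`. Otherwise
`β/β' < δ^{j-i}` for all `δ ∈ D`.

`lines_const`: if `β δ^i = β' δ^j` eventually then `i = j`: from `lines_lt`.

`exists_max_line`: finitely many lines with pairwise distinct exponents `i ∈ T` (`T` a nonempty
finset of exponents, coefficients `β i ≠ 0`): there is `i₀ ∈ T` such that eventually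
`β i δ^i < β i₀ δ^{i₀}` for all `i ∈ T`, `i ≠ i₀`. Proof: induction on `T`, or: choose for the pairs
the eventual order given by `lines_lt`; take the largest one at one sufficiently small `δ`.
-/

namespace Pool.Agent.W_MP_b723a0_ag.P

variable {Γ : Type*} [LinearOrderedCommGroupWithZero Γ]

/-- The set `D` of nonzero values has no minimum. -/
def NoMin (D : Set Γ) : Prop := D.Nonempty ∧ (∀ δ ∈ D, δ ≠ 0) ∧ ∀ δ ∈ D, ∃ δ' ∈ D, δ' < δ

theorem lines_aux {β β' δ : Γ} (hδ : δ ≠ 0) {i j : ℕ} (hij : i < j) :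
    (β * δ ^ i < β' * δ ^ j ↔ β < β' * δ ^ (j - i)) ∧
      (β' * δ ^ j < β * δ ^ i ↔ β' * δ ^ (j - i) < β) := by
  have h1 : β' * δ ^ j = β' * δ ^ (j - i) * δ ^ i := by
    rw [mul_assoc, ← pow_add, Nat.sub_add_cancel hij.le]
  have h2 : (0 : Γ) < δ ^ i := zero_lt_iff.2 (pow_ne_zero i hδ)
  rw [h1]
  exact ⟨mul_lt_mul_iff_left₀ h2, mul_lt_mul_iff_left₀ h2⟩

theorem lines_lt {D : Set Γ} (hD : NoMin D) {β β' : Γ} (hβ : β ≠ 0) (hβ' : β' ≠ 0) {i j : ℕ}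
    (hij : i < j) :
    (∃ δ₀ ∈ D, ∀ δ ∈ D, δ ≤ δ₀ → β * δ ^ i < β' * δ ^ j) ∨
      (∃ δ₀ ∈ D, ∀ δ ∈ D, δ ≤ δ₀ → β' * δ ^ j < β * δ ^ i) := by
  obtain ⟨⟨d, hd⟩, hne, hmin⟩ := hD
  by_cases h : ∃ δ₁ ∈ D, β' * δ₁ ^ (j - i) ≤ β
  · right
    obtain ⟨δ₁, hδ₁, hle⟩ := h
    obtain ⟨δ₀, hδ₀, hlt⟩ := hmin δ₁ hδ₁
    refine ⟨δ₀, hδ₀, fun δ hδ hδδ => ?_⟩
    rw [(lines_aux (hne δ hδ) hij).2]
    refine lt_of_lt_of_le ?_ hle
    have h1 : δ ^ (j - i) < δ₁ ^ (j - i) :=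
      pow_lt_pow_left₀ (hδδ.trans_lt hlt) zero_le' (by omega)
    exact (mul_lt_mul_iff_right₀ (zero_lt_iff.2 hβ')).2 h1
  · left
    push Not at h
    refine ⟨d, hd, fun δ hδ _ => ?_⟩
    rw [(lines_aux (hne δ hδ) hij).1]
    exact h δ hδ

theorem lines_const {D : Set Γ} (hD : NoMin D) {β β' : Γ} (hβ : β ≠ 0) (hβ' : β' ≠ 0) {i j : ℕ}
    (h : ∃ δ₀ ∈ D, ∀ δ ∈ D, δ ≤ δ₀ → β * δ ^ i = β' * δ ^ j) : i = j := by
  obtain ⟨δ₀, hδ₀, h⟩ := h
  rcases lt_trichotomy i j with hij | hij | hij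
  · exfalso
    rcases lines_lt hD hβ hβ' hij with ⟨δ₁, hδ₁, h1⟩ | ⟨δ₁, hδ₁, h1⟩
    · have hm : min δ₀ δ₁ ∈ D := by rcases min_choice δ₀ δ₁ with h | h <;> rw [h] <;> assumption
      exact (h1 _ hm (min_le_right _ _)).ne (h _ hm (min_le_left _ _))
    · have hm : min δ₀ δ₁ ∈ D := by rcases min_choice δ₀ δ₁ with h | h <;> rw [h] <;> assumption
      exact (h1 _ hm (min_le_right _ _)).ne (h _ hm (min_le_left _ _)).symm
  · exact hij
  · exfalso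
    rcases lines_lt hD hβ' hβ hij with ⟨δ₁, hδ₁, h1⟩ | ⟨δ₁, hδ₁, h1⟩
    · have hm : min δ₀ δ₁ ∈ D := by rcases min_choice δ₀ δ₁ with h | h <;> rw [h] <;> assumption
      exact (h1 _ hm (min_le_right _ _)).ne (h _ hm (min_le_left _ _)).symm
    · have hm : min δ₀ δ₁ ∈ D := by rcases min_choice δ₀ δ₁ with h | h <;> rw [h] <;> assumption
      exact (h1 _ hm (min_le_right _ _)).ne (h _ hm (min_le_left _ _))

theorem lines_ne {D : Set Γ} (hD : NoMin D) {β β' : Γ} (hβ : β ≠ 0) (hβ' : β' ≠ 0) {i j : ℕ}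
    (hij : i ≠ j) :
    (∃ δ₀ ∈ D, ∀ δ ∈ D, δ ≤ δ₀ → β * δ ^ i < β' * δ ^ j) ∨
      (∃ δ₀ ∈ D, ∀ δ ∈ D, δ ≤ δ₀ → β' * δ ^ j < β * δ ^ i) := by
  rcases lt_or_gt_of_ne hij with h | h
  · exact lines_lt hD hβ hβ' h
  · exact (lines_lt hD hβ' hβ h).symm

theorem exists_max_line {D : Set Γ} (hD : NoMin D) (T : Finset ℕ) (hT : T.Nonempty) (β : ℕ → Γ)
    (hβ : ∀ i ∈ T, β i ≠ 0) :
    ∃ i₀ ∈ T, ∃ δ₀ ∈ D, ∀ δ ∈ D, δ ≤ δ₀ → ∀ i ∈ T, i ≠ i₀ → β i * δ ^ i < β i₀ * δ ^ i₀ := by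
  induction hT using Finset.Nonempty.cons_induction with
  | singleton a =>
    obtain ⟨⟨d, hd⟩, -, -⟩ := hD
    refine ⟨a, Finset.mem_singleton_self a, d, hd, fun δ _ _ i hi hia => ?_⟩
    exact absurd (Finset.mem_singleton.1 hi) hia
  | cons a s ha hs ih =>
    obtain ⟨i₀, hi₀, δ₀, hδ₀, h0⟩ := ih fun i hi => hβ i (Finset.mem_cons_of_mem hi)
    have hne : a ≠ i₀ := fun h => ha (h ▸ hi₀)
    rcases lines_ne hD (hβ a (Finset.mem_cons_self a s))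
      (hβ i₀ (Finset.mem_cons_of_mem hi₀)) hne with ⟨δ₁, hδ₁, h1⟩ | ⟨δ₁, hδ₁, h1⟩
    · have hm : min δ₀ δ₁ ∈ D := by rcases min_choice δ₀ δ₁ with h | h <;> rw [h] <;> assumption
      refine ⟨i₀, Finset.mem_cons_of_mem hi₀, min δ₀ δ₁, hm, fun δ hδ hle i hi hii => ?_⟩
      rcases Finset.mem_cons.1 hi with rfl | hi
      · exact h1 δ hδ (hle.trans (min_le_right _ _))
      · exact h0 δ hδ (hle.trans (min_le_left _ _)) i hi hii
    · have hm : min δ₀ δ₁ ∈ D := by rcases min_choice δ₀ δ₁ with h | h <;> rw [h] <;> assumption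
      refine ⟨a, Finset.mem_cons_self a s, min δ₀ δ₁, hm, fun δ hδ hle i hi hia => ?_⟩
      rcases Finset.mem_cons.1 hi with rfl | hi
      · exact absurd rfl hia
      · have h2 := h1 δ hδ (hle.trans (min_le_right _ _))
        by_cases hii : i = i₀
        · rw [hii]; exact h2
        · exact (h0 δ hδ (hle.trans (min_le_left _ _)) i hi hii).trans h2

end Pool.Agent.W_MP_b723a0_ag.P
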