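import Mathlib
import Pool.Agent.W_MP_b723a0_ag.P.Defs
import Pool.Agent.W_MP_b723a0_ag.P.Lines

/-!
# Task V1c1: polynomials of degree `< p` are stable (Kaplansky)

Setting: `v : Valuation K Γ` (multiplicative: small = close to `0`), `L₀` a subfield, `x ∉ L₀`,
`x^p ∈ L₀`, and `D = {v (x - c) : c ∈ L₀}` has no minimum (`NoMin D`). Eventually means: for all
`c ∈ L₀` with `v (x - c) ≤ δ₀`, for some `δ₀ ∈ D`. A polynomial `g` with coefficients in `L₀` is
*stable* if eventually `v (g(x) - g(c)) < v (g(x))` (then `v (g(c)) = v (g(x))` eventually).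
`stable`: every nonzero `g` over `L₀` of degree `< p` is stable.

Proof. `x` has degree `p` over `L₀` (`X^p - x^p` is irreducible over `L₀`: `x^p` is not a `p`-th
power in `L₀` since in characteristic `p` the only `p`-th root is `x ∉ L₀`); so `g(x) ≠ 0` for
nonzero `g` of degree `< p`. Suppose `g` is a non-stable nonzero polynomial of minimal degree `n`,
`n < p`. Constants are stable, so `n ≥ 1`. Let `g_j = hasseDeriv j g`; `g(x) - g(c)`: Taylor gives
`g(c) - g(x) = ∑_{j≥1} g_j(x) (c-x)^j`. For `1 ≤ j ≤ n`, `g_j(x) = 0` only if `g_j = 0`; `g_n` is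
a nonzero constant. Let `T = {j : 1 ≤ j ≤ n, g_j ≠ 0}`, `β_j = v(g_j(x))`. By `exists_max_line`
there is `j₀ ∈ T` with, eventually, `v(g(x) - g(c)) = β_{j₀} δ^{j₀}`, `δ = v(x-c)` (the valuation of
a sum with a unique largest term). It is eventually strictly decreasing with `δ`. As `g` is not
stable, there are arbitrarily small `δ = v(x-c)` with `v(g(x)) ≤ β_{j₀} δ^{j₀}`, hence
`v(g(x)) < β_{j₀} δ^{j₀}` for all eventual `δ` (compare with a smaller one), and then eventually
`v(g(c)) = v(g(x) - g(c)) = β_{j₀} δ^{j₀}` (`*`).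
Let `h = X^p - x^p ∈ L₀[X]`, `v(h(c)) = v((c - x)^p) = δ^p`. Expand in base `g`: `h = ∑_i h_i g^i`,
`deg h_i < n` (repeated division with remainder by `g`; `Polynomial` over the field `L₀`; the
sum has `i n ≤ p`). The nonzero `h_i` are stable by minimality of `n`, so `v(h_i(c)) = v(h_i(x))
=: η_i` eventually. So `v(h_i(c) g(c)^i) = η_i β^i δ^{i j₀}` eventually by `(*)`; lines with
different exponents `i j₀`; by `exists_max_line` one `i₀` dominates and
`δ^p = η_{i₀} β^{i₀} δ^{i₀ j₀}` eventually, so `p = i₀ j₀` (`lines_const`). As `1 ≤ j₀ ≤ n < p`,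
`j₀ = 1` and `i₀ = p`; since `i₀ n ≤ p`, `n = 1`. So `g = b (X - c₁)`, `b, c₁ ∈ L₀`, and
`v(g(x) - g(c)) = v(b) v(x-c) < v(b) v(x-c₁) = v(g(x))` eventually, since `D` has no minimum: `g` is
stable, contradiction.
-/

namespace Pool.Agent.W_MP_b723a0_ag.P

open Polynomial

section StableAux

variable {K : Type} [Field K] {Γ : Type} [LinearOrderedCommGroupWithZero Γ]

/-- The valuation of a finite sum with a unique largest term. -/
theorem st_val_sum (v : Valuation K Γ) {ι : Type} [DecidableEq ι] (S : Finset ι) (a : ι → K)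
    (i₀ : ι) (h0 : i₀ ∈ S) (hne : v (a i₀) ≠ 0)
    (h : ∀ i ∈ S, i ≠ i₀ → v (a i) < v (a i₀)) : v (∑ i ∈ S, a i) = v (a i₀) := by
  rw [← Finset.add_sum_erase S a h0]
  apply v.map_add_eq_of_lt_left
  apply Valuation.map_sum_lt v hne
  intro i hi
  exact h i (Finset.mem_of_mem_erase hi) (Finset.ne_of_mem_erase hi)

/-- The filter of the small values of `v (x - c)`. -/
def stF (v : Valuation K Γ) (L₀ : Subfield K) (x : K) : Filter L₀ :=
  ⨅ c₀ : L₀, Filter.principal {c : L₀ | v (x - c) ≤ v (x - c₀)}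

theorem stF_iff (v : Valuation K Γ) (L₀ : Subfield K) (x : K) (P : L₀ → Prop) :
    (∀ᶠ c : L₀ in stF v L₀ x, P c) ↔ ∃ c₀ : L₀, ∀ c : L₀, v (x - c) ≤ v (x - c₀) → P c := by
  have hdir : Directed (fun x1 x2 => x1 ≥ x2)
      (fun c₀ : L₀ => Filter.principal {c : L₀ | v (x - c) ≤ v (x - c₀)}) := by
    intro a b
    rcases le_total (v (x - a)) (v (x - b)) with h | h
    · refine ⟨a, le_rfl, ?_⟩
      simp only [ge_iff_le, Filter.le_principal_iff, Filter.mem_principal]
      intro c hc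
      exact le_trans hc h
    · refine ⟨b, ?_, le_rfl⟩
      simp only [ge_iff_le, Filter.le_principal_iff, Filter.mem_principal]
      intro c hc
      exact le_trans hc h
  change {c | P c} ∈ stF v L₀ x ↔ _
  unfold stF
  rw [Filter.mem_iInf_of_directed hdir]
  rfl

theorem stF_neBot (v : Valuation K Γ) (L₀ : Subfield K) (x : K) : (stF v L₀ x).NeBot := by
  constructor
  intro h
  have h1 : ∀ᶠ c : L₀ in stF v L₀ x, False := by rw [h]; exact Filter.eventually_bot
  rw [stF_iff] at h1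
  obtain ⟨c₀, hc⟩ := h1
  exact hc c₀ le_rfl

theorem stF_D (v : Valuation K Γ) (L₀ : Subfield K) (x : K) (P : Γ → Prop) :
    (∃ δ₀ ∈ {δ : Γ | ∃ c ∈ L₀, v (x - c) = δ}, ∀ δ ∈ {δ : Γ | ∃ c ∈ L₀, v (x - c) = δ},
      δ ≤ δ₀ → P δ) ↔ ∀ᶠ c : L₀ in stF v L₀ x, P (v (x - c)) := by
  rw [stF_iff]
  constructor
  · rintro ⟨δ₀, ⟨c₀, hc₀, rfl⟩, h⟩
    exact ⟨⟨c₀, hc₀⟩, fun c hc => h _ ⟨c, c.2, rfl⟩ hc⟩
  · rintro ⟨c₀, h⟩
    refine ⟨v (x - c₀), ⟨c₀, c₀.2, rfl⟩, ?_⟩
    rintro δ ⟨c, hc, rfl⟩ hle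
    exact h ⟨c, hc⟩ hle

/-- Expansion in base `g`. -/
theorem st_base {F : Type} [Field F] (g : F[X]) (hg : 0 < g.natDegree) :
    ∀ (N : ℕ) (h : F[X]), h.natDegree ≤ N → ∃ (m : ℕ) (a : ℕ → F[X]),
      h = ∑ i ∈ Finset.range m, a i * g ^ i ∧ (∀ i, a i ≠ 0 → (a i).natDegree < g.natDegree) ∧
      ∀ i, a i ≠ 0 → i * g.natDegree ≤ h.natDegree := by
  have hg0 : g ≠ 0 := by
    rintro rfl
    simp at hg
  have hsm : ∀ h : F[X], h.natDegree < g.natDegree → ∃ (m : ℕ) (a : ℕ → F[X]),
      h = ∑ i ∈ Finset.range m, a i * g ^ i ∧ (∀ i, a i ≠ 0 → (a i).natDegree < g.natDegree) ∧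
      ∀ i, a i ≠ 0 → i * g.natDegree ≤ h.natDegree := by
    intro h hlt
    refine ⟨1, fun i => if i = 0 then h else 0, by simp, ?_, ?_⟩
    · intro i hi
      by_cases h0 : i = 0
      · simp only [h0, if_true]
        exact hlt
      · simp only [h0, if_false] at hi
        exact absurd rfl hi
    · intro i hi
      by_cases h0 : i = 0
      · simp [h0]
      · simp only [h0, if_false] at hi
        exact absurd rfl hi
  intro N
  induction N with
  | zero =>
    intro h hh
    exact hsm h (by omega)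
  | succ N ih =>
    intro h hh
    by_cases hlt : h.natDegree < g.natDegree
    · exact hsm h hlt
    · push Not at hlt
      have hh0 : h ≠ 0 := by
        rintro rfl
        simp only [natDegree_zero] at hlt
        omega
      have hdeg : g.degree ≤ h.degree := by
        rw [degree_eq_natDegree hg0, degree_eq_natDegree hh0]
        exact_mod_cast hlt
      have hdiv := degree_add_div hg0 hdeg
      have hq0 : h / g ≠ 0 := by
        intro h0
        rw [h0, degree_zero] at hdiv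
        rw [degree_eq_natDegree hh0] at hdiv
        simp at hdiv
      have hdq : g.natDegree + (h / g).natDegree = h.natDegree := by
        rw [degree_eq_natDegree hg0, degree_eq_natDegree hh0, degree_eq_natDegree hq0] at hdiv
        exact_mod_cast hdiv
      obtain ⟨m, b, hb1, hb2, hb3⟩ := ih (h / g) (by omega)
      refine ⟨m + 1, fun i => if i = 0 then h % g else b (i - 1), ?_, ?_, ?_⟩
      · rw [Finset.sum_range_succ']
        simp only [Nat.add_eq_zero_iff, one_ne_zero, and_false, if_false, Nat.add_sub_cancel,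
          if_true, pow_zero, mul_one]
        have e1 : ∑ i ∈ Finset.range m, b i * g ^ (i + 1) = g * (h / g) := by
          conv_rhs => rw [hb1, Finset.mul_sum]
          refine Finset.sum_congr rfl fun i _ => ?_
          rw [pow_succ]
          ring
        rw [e1, add_comm]
        exact (EuclideanDomain.mod_add_div h g).symm
      · intro i hi
        by_cases h0 : i = 0
        · simp only [h0, if_true] at hi ⊢
          have := degree_mod_lt h hg0
          rw [degree_eq_natDegree hg0, degree_eq_natDegree hi] at this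
          exact_mod_cast this
        · simp only [h0, if_false] at hi ⊢
          exact hb2 _ hi
      · intro i hi
        by_cases h0 : i = 0
        · simp [h0]
        · simp only [h0, if_false] at hi
          have h1 := hb3 _ hi
          obtain ⟨j, rfl⟩ : ∃ j, i = j + 1 := ⟨i - 1, by omega⟩
          simp only [Nat.add_sub_cancel] at h1
          rw [add_mul, one_mul]
          omega

end StableAux

section StableMain

variable {p : ℕ} [hp : Fact p.Prime] {K : Type} [Field K] [CharP K p] {Γ : Type}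
  [LinearOrderedCommGroupWithZero Γ]

theorem st_ne (L₀ : Subfield K) (x : K) (hx : x ∉ L₀) (hxp : x ^ p ∈ L₀) (g : L₀[X])
    (hg0 : g ≠ 0) (hg : g.natDegree < p) : aeval x g ≠ 0 := by
  intro h0
  have hirr : Irreducible (X ^ p - C (⟨x ^ p, hxp⟩ : L₀)) := by
    apply X_pow_sub_C_irreducible_of_prime hp.out
    intro b hb
    apply hx
    have h1 : ((b : K) - x) ^ p = 0 := by
      rw [sub_pow_char]
      have h2 := congrArg (Subtype.val) hb
      simp only [SubmonoidClass.coe_pow] at h2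
      rw [h2, sub_self]
    have h2 : (b : K) - x = 0 := pow_eq_zero_iff hp.out.ne_zero |>.1 h1
    rw [← sub_eq_zero.1 h2]
    exact b.2
  have hmonic : (X ^ p - C (⟨x ^ p, hxp⟩ : L₀)).Monic := monic_X_pow_sub_C _ hp.out.ne_zero
  have hroot : aeval x (X ^ p - C (⟨x ^ p, hxp⟩ : L₀)) = 0 := by
    rw [map_sub, map_pow, aeval_X, aeval_C]
    exact sub_self _
  have hmin := minpoly.eq_of_irreducible_of_monic hirr hroot hmonic
  have hdvd := minpoly.dvd L₀ x h0
  rw [← hmin] at hdvd
  have := natDegree_le_of_dvd hdvd hg0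
  rw [natDegree_X_pow_sub_C] at this
  omega

theorem st_main (v : Valuation K Γ) (L₀ : Subfield K) (x : K)
    (hx : x ∉ L₀) (hxp : x ^ p ∈ L₀) (hD : NoMin {δ : Γ | ∃ c ∈ L₀, v (x - c) = δ}) :
    ∀ n, n < p → ∀ g : L₀[X], g ≠ 0 → g.natDegree = n → ∀ᶠ c : L₀ in stF v L₀ x,
      v (aeval x g - ((eval c g : L₀) : K)) < v (aeval x g) := by
  classical
  intro n
  induction n using Nat.strong_induction_on with
  | _ n ih =>
  intro hn g hg0 hgn
  have hgx : aeval x g ≠ 0 := st_ne L₀ x hx hxp g hg0 (by omega)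
  have hvgx : v (aeval x g) ≠ 0 := by rwa [Ne, v.zero_iff]
  by_cases hn0 : n = 0
  · -- constants
    obtain ⟨b, hb⟩ := natDegree_eq_zero.1 (hgn.trans hn0)
    refine Filter.Eventually.of_forall fun c => ?_
    rw [← hb]
    rw [← hb] at hvgx
    rw [aeval_C, eval_C]
    have h1 : (algebraMap L₀ K) b - (b : K) = 0 := sub_self _
    rw [h1, map_zero]
    rw [aeval_C] at hvgx
    exact zero_lt_iff.2 hvgx
  by_contra hns
  -- nonzero values
  have hvx : ∀ c : L₀, v (x - c) ≠ 0 := fun c => hD.2.1 _ ⟨c, c.2, rfl⟩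
  -- Taylor expansion
  set G : K[X] := g.map (algebraMap L₀ K) with hG
  set q : K[X] := taylor x G with hq
  have hGx : eval x G = aeval x g := by rw [hG, eval_map_algebraMap]
  have hGc : ∀ c : L₀, eval (c : K) G = ((eval c g : L₀) : K) := by
    intro c
    rw [hG]
    exact eval_map_apply (algebraMap L₀ K) c
  have hqdeg : q.natDegree = n := by
    rw [hq, natDegree_taylor, hG, natDegree_map, hgn]
  have hq0 : q ≠ 0 := by
    intro h0
    rw [h0, natDegree_zero] at hqdeg
    exact hn0 hqdeg.symm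
  have htay : ∀ c : L₀, ((eval c g : L₀) : K) - aeval x g =
      ∑ j ∈ Finset.range n, q.coeff (j + 1) * ((c : K) - x) ^ (j + 1) := by
    intro c
    have h1 : eval ((c : K) - x) q = ((eval c g : L₀) : K) := by
      rw [hq, taylor_eval, sub_add_cancel, hGc]
    rw [← h1, eval_eq_sum_range, hqdeg, Finset.sum_range_succ', pow_zero, mul_one]
    have h2 : q.coeff 0 = aeval x g := by rw [hq, taylor_coeff_zero, hGx]
    rw [h2, add_sub_cancel_right]
  set T : Finset ℕ := (Finset.Icc 1 n).filter (fun j => q.coeff j ≠ 0) with hT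
  have hTn : T.Nonempty := by
    refine ⟨n, ?_⟩
    rw [hT, Finset.mem_filter, Finset.mem_Icc]
    refine ⟨⟨by omega, le_rfl⟩, ?_⟩
    rw [← hqdeg]
    exact leadingCoeff_ne_zero.2 hq0
  have htay2 : ∀ c : L₀, ((eval c g : L₀) : K) - aeval x g =
      ∑ j ∈ T, q.coeff j * ((c : K) - x) ^ j := by
    intro c
    rw [htay c, hT, Finset.sum_filter]
    rw [Finset.range_eq_Ico, Finset.sum_Ico_add' (fun j => q.coeff j * ((c : K) - x) ^ j) 0 n 1]
    have h1 : Finset.Ico (0 + 1) (n + 1) = Finset.Icc 1 n := by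
      ext j
      simp only [Finset.mem_Ico, Finset.mem_Icc]
      omega
    rw [h1]
    refine Finset.sum_congr rfl fun j _ => ?_
    by_cases hj : q.coeff j = 0
    · rw [if_neg (by simpa using hj), hj, zero_mul]
    · rw [if_pos hj]
  obtain ⟨j₀, hj₀T, hj₀⟩ := exists_max_line hD T hTn (fun j => v (q.coeff j)) (by
    intro j hj
    rw [Ne, v.zero_iff]
    rw [hT, Finset.mem_filter] at hj
    exact hj.2)
  have hj₀' : ∀ᶠ c : L₀ in stF v L₀ x, ∀ i ∈ T, i ≠ j₀ →
      v (q.coeff i) * v (x - c) ^ i < v (q.coeff j₀) * v (x - c) ^ j₀ := by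
    rw [← stF_D v L₀ x (fun δ => ∀ i ∈ T, i ≠ j₀ →
      v (q.coeff i) * δ ^ i < v (q.coeff j₀) * δ ^ j₀)]
    exact hj₀
  have hjT : (1 ≤ j₀ ∧ j₀ ≤ n) ∧ q.coeff j₀ ≠ 0 := by
    have := hj₀T
    rw [hT, Finset.mem_filter, Finset.mem_Icc] at this
    exact this
  set β : Γ := v (q.coeff j₀) with hβ
  have hβ0 : β ≠ 0 := by rw [hβ, Ne, v.zero_iff]; exact hjT.2
  have hdiff : ∀ᶠ c : L₀ in stF v L₀ x, v (aeval x g - ((eval c g : L₀) : K)) = β * v (x - c) ^ j₀ := by
    filter_upwards [hj₀'] with c hc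
    rw [v.map_sub_swap, htay2 c]
    have hterm : ∀ j, v (q.coeff j * ((c : K) - x) ^ j) = v (q.coeff j) * v (x - c) ^ j := by
      intro j
      rw [map_mul, map_pow, v.map_sub_swap]
    rw [st_val_sum v T (fun j => q.coeff j * ((c : K) - x) ^ j) j₀ hj₀T]
    · exact hterm j₀
    · rw [hterm j₀]
      exact mul_ne_zero hβ0 (pow_ne_zero _ (hvx c))
    · intro i hi hne
      rw [hterm, hterm]
      exact hc i hi hne
  -- not stable: the values at x are smaller than the line
  have hsmall : ∀ᶠ c : L₀ in stF v L₀ x, v (aeval x g) < β * v (x - c) ^ j₀ := by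
    rw [stF_iff] at hdiff ⊢
    obtain ⟨c₁, hc₁⟩ := hdiff
    refine ⟨c₁, fun c hc => ?_⟩
    obtain ⟨δ', ⟨c', hc', rfl⟩, hlt⟩ := hD.2.2 (v (x - c)) ⟨c, c.2, rfl⟩
    rw [stF_iff] at hns
    push Not at hns
    obtain ⟨c'', hc''1, hc''2⟩ := hns ⟨c', hc'⟩
    have h1 : v (x - c'') < v (x - c) := lt_of_le_of_lt hc''1 hlt
    rw [hc₁ c'' (h1.le.trans hc)] at hc''2
    refine lt_of_le_of_lt hc''2 ?_
    have h2 : v (x - c'') ^ j₀ < v (x - c) ^ j₀ :=
      pow_lt_pow_left₀ h1 zero_le (by omega)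
    exact mul_lt_mul_of_pos_left h2 (zero_lt_iff.2 hβ0)
  have hval : ∀ᶠ c : L₀ in stF v L₀ x, v ((eval c g : L₀) : K) = β * v (x - c) ^ j₀ := by
    filter_upwards [hdiff, hsmall] with c h1 h2
    rw [← h1] at h2
    have h3 : ((eval c g : L₀) : K) = aeval x g - (aeval x g - ((eval c g : L₀) : K)) := by ring
    rw [h3, sub_eq_add_neg (aeval x g)]
    rw [v.map_add_eq_of_lt_right (by rwa [Valuation.map_neg]), Valuation.map_neg, h1]
  -- the polynomial h
  set h : L₀[X] := X ^ p - C (⟨x ^ p, hxp⟩ : L₀) with hh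
  have hhc : ∀ c : L₀, v ((eval c h : L₀) : K) = v (x - c) ^ p := by
    intro c
    rw [← map_pow, sub_pow_char, hh, eval_sub, eval_pow, eval_X, eval_C]
    have : (((c ^ p - (⟨x ^ p, hxp⟩ : L₀)) : L₀) : K) = (c : K) ^ p - x ^ p := rfl
    rw [this, v.map_sub_swap]
  have hhdeg : h.natDegree = p := by rw [hh, natDegree_X_pow_sub_C]
  obtain ⟨m, a, ha1, ha2, ha3⟩ := st_base g (by omega) p h hhdeg.le
  -- values of the coefficients
  have hav : ∀ i, a i ≠ 0 → ∀ᶠ c : L₀ in stF v L₀ x, v ((eval c (a i) : L₀) : K) = v (aeval x (a i)) := by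
    intro i hi
    have h1 := ha2 i hi
    have h2 := ih (a i).natDegree (by omega) (by omega) (a i) hi rfl
    filter_upwards [h2] with c hc
    have h3 : ((eval c (a i) : L₀) : K) =
        aeval x (a i) - (aeval x (a i) - ((eval c (a i) : L₀) : K)) := by ring
    rw [h3, sub_eq_add_neg (aeval x (a i))]
    rw [v.map_add_eq_of_lt_left (by rwa [Valuation.map_neg])]
  set T' : Finset ℕ := (Finset.range m).filter (fun i => a i ≠ 0) with hT'
  have hT'n : T'.Nonempty := by
    by_contra hne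
    rw [Finset.not_nonempty_iff_eq_empty] at hne
    have h0 : h = 0 := by
      rw [ha1]
      refine Finset.sum_eq_zero fun i hi => ?_
      by_contra hc
      have : i ∈ T' := by
        rw [hT', Finset.mem_filter]
        refine ⟨hi, fun h0 => hc ?_⟩
        rw [h0, zero_mul]
      rw [hne] at this
      exact absurd this (Finset.notMem_empty i)
    rw [h0, natDegree_zero] at hhdeg
    exact hp.out.ne_zero hhdeg.symm
  have hav' : ∀ᶠ c : L₀ in stF v L₀ x, ∀ i ∈ T', v ((eval c (a i) : L₀) : K) = v (aeval x (a i)) := by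
    rw [Filter.eventually_all_finset]
    intro i hi
    rw [hT', Finset.mem_filter] at hi
    exact hav i hi.2
  have hax : ∀ i ∈ T', v (aeval x (a i)) ≠ 0 := by
    intro i hi
    rw [hT', Finset.mem_filter] at hi
    rw [Ne, v.zero_iff]
    have := ha2 i hi.2
    exact st_ne L₀ x hx hxp (a i) hi.2 (by omega)
  -- lines for the expansion
  set T'' : Finset ℕ := T'.image (fun i => i * j₀) with hT''
  obtain ⟨e₀, he₀T, he₀⟩ := exists_max_line hD T'' (hT'n.image _)
    (fun e => v (aeval x (a (e / j₀))) * β ^ (e / j₀)) (by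
      intro e he
      rw [hT'', Finset.mem_image] at he
      obtain ⟨i, hi, rfl⟩ := he
      rw [Nat.mul_div_cancel _ (by omega : 0 < j₀)]
      exact mul_ne_zero (hax i hi) (pow_ne_zero _ hβ0))
  rw [hT'', Finset.mem_image] at he₀T
  obtain ⟨i₀, hi₀, rfl⟩ := he₀T
  have he₀' : ∀ᶠ c : L₀ in stF v L₀ x, ∀ e ∈ T'', e ≠ i₀ * j₀ →
      v (aeval x (a (e / j₀))) * β ^ (e / j₀) * v (x - c) ^ e <
        v (aeval x (a (i₀ * j₀ / j₀))) * β ^ (i₀ * j₀ / j₀) * v (x - c) ^ (i₀ * j₀) := by
    rw [← stF_D v L₀ x (fun δ => ∀ e ∈ T'', e ≠ i₀ * j₀ →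
      v (aeval x (a (e / j₀))) * β ^ (e / j₀) * δ ^ e <
        v (aeval x (a (i₀ * j₀ / j₀))) * β ^ (i₀ * j₀ / j₀) * δ ^ (i₀ * j₀))]
    exact he₀
  have hheq : ∀ᶠ c : L₀ in stF v L₀ x, v (x - c) ^ p =
      v (aeval x (a i₀)) * β ^ i₀ * v (x - c) ^ (i₀ * j₀) := by
    filter_upwards [he₀', hav', hval] with c hc1 hc2 hc3
    have hterm : ∀ i ∈ T', v (((eval c (a i) : L₀) : K) * ((eval c g : L₀) : K) ^ i) =
        v (aeval x (a i)) * β ^ i * v (x - c) ^ (i * j₀) := by
      intro i hi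
      rw [map_mul, map_pow, hc2 i hi, hc3, mul_pow, ← pow_mul, mul_comm j₀ i, mul_assoc]
    have hsum : ((eval c h : L₀) : K) =
        ∑ i ∈ T', ((eval c (a i) : L₀) : K) * ((eval c g : L₀) : K) ^ i := by
      rw [ha1, eval_finsetSum]
      rw [hT', Finset.sum_filter, AddSubmonoidClass.coe_finsetSum]
      refine Finset.sum_congr rfl fun i _ => ?_
      by_cases hi : a i = 0
      · rw [if_neg (by simpa using hi), hi, zero_mul, eval_zero]
        rfl
      · rw [if_pos hi, eval_mul, eval_pow]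
        rfl
    rw [← hhc c, hsum]
    rw [st_val_sum v T' _ i₀ hi₀]
    · exact hterm i₀ hi₀
    · rw [hterm i₀ hi₀]
      exact mul_ne_zero (mul_ne_zero (hax i₀ hi₀) (pow_ne_zero _ hβ0)) (pow_ne_zero _ (hvx c))
    · intro i hi hne
      rw [hterm i hi, hterm i₀ hi₀]
      have h1 := hc1 (i * j₀) (by rw [hT'']; exact Finset.mem_image_of_mem _ hi) (by
        intro h1
        exact hne (Nat.eq_of_mul_eq_mul_right (by omega : 0 < j₀) h1))
      rwa [Nat.mul_div_cancel _ (by omega : 0 < j₀), Nat.mul_div_cancel _ (by omega : 0 < j₀)] at h1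
  have hexp : p = i₀ * j₀ := by
    refine lines_const hD (β := 1) (β' := v (aeval x (a i₀)) * β ^ i₀) one_ne_zero
      (mul_ne_zero (hax i₀ hi₀) (pow_ne_zero _ hβ0)) ?_
    rw [stF_D v L₀ x (fun δ => 1 * δ ^ p = v (aeval x (a i₀)) * β ^ i₀ * δ ^ (i₀ * j₀))]
    filter_upwards [hheq] with c hc
    rw [one_mul]
    exact hc
  have hj1 : j₀ = 1 := by
    have hd : j₀ ∣ p := Dvd.intro_left i₀ hexp.symm
    rcases (Nat.dvd_prime hp.out).1 hd with h1 | h1
    · exact h1
    · omega
  have hn1 : n = 1 := by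
    have hi₀' := hi₀
    rw [hT', Finset.mem_filter] at hi₀'
    have h1 := ha3 i₀ hi₀'.2
    rw [hj1, mul_one] at hexp
    rw [hhdeg, hgn, ← hexp] at h1
    have h2 : 0 < p := hp.out.pos
    have h3 : n ≤ 1 := by
      by_contra hc
      push Not at hc
      have : p * 2 ≤ p * n := Nat.mul_le_mul_left p hc
      omega
    omega
  -- the linear case
  have hdeg1 : g.degree = 1 := by
    rw [degree_eq_natDegree hg0, hgn, hn1]
    rfl
  obtain ⟨c₁, hc₁⟩ := exists_root_of_degree_eq_one hdeg1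
  have hlin : v (aeval x g) = β * v (x - c₁) := by
    have h1 := htay c₁
    rw [IsRoot.def] at hc₁
    rw [hc₁, hn1] at h1
    simp only [Finset.sum_range_one, zero_add, pow_one] at h1
    have h2 : aeval x g = -(q.coeff 1 * ((c₁ : K) - x)) := by
      rw [← h1]
      simp
    rw [h2, Valuation.map_neg, map_mul, v.map_sub_swap, hβ, hj1]
  rw [stF_iff] at hsmall
  obtain ⟨c₂, hc₂⟩ := hsmall
  rcases le_total (v (x - c₁)) (v (x - c₂)) with hle | hle
  · have h1 := hc₂ c₁ hle
    rw [hlin, hj1, pow_one] at h1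
    exact lt_irrefl _ h1
  · have h1 := hc₂ c₂ le_rfl
    rw [hlin, hj1, pow_one] at h1
    have h2 : β * v (x - c₂) ≤ β * v (x - c₁) := mul_le_mul_right hle β
    exact absurd (lt_of_lt_of_le h1 h2) (lt_irrefl _)

end StableMain

theorem stable {p : ℕ} [Fact p.Prime] {K : Type} [Field K] [CharP K p] {Γ : Type}
    [LinearOrderedCommGroupWithZero Γ] (v : Valuation K Γ) (L₀ : Subfield K) (x : K)
    (hx : x ∉ L₀) (hxp : x ^ p ∈ L₀) (hD : NoMin {δ : Γ | ∃ c ∈ L₀, v (x - c) = δ})
    (g : Polynomial L₀) (hg0 : g ≠ 0) (hg : g.natDegree < p) :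
    ∃ c₀ ∈ L₀, ∀ c : L₀, v (x - c) ≤ v (x - c₀) →
      v (Polynomial.aeval x g - ((Polynomial.eval c g : L₀) : K)) < v (Polynomial.aeval x g) := by
  have h := st_main v L₀ x hx hxp hD g.natDegree hg g hg0 rfl
  rw [stF_iff] at h
  obtain ⟨c₀, hc₀⟩ := h
  exact ⟨c₀, c₀.2, hc₀⟩

end Pool.Agent.W_MP_b723a0_ag.P
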