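import Mathlib
import Pool.Agent.W_MP_b723a0_ag.P.Defs
import Pool.Agent.W_MP_b723a0_ag.P.Lines
import Pool.Agent.W_MP_b723a0_ag.P.Stable

/-!
# Task V1c2: the immediate case

Setting as in `Stable.lean` with `v = V.valuation`; `himm`: for every `c ∈ L₀` there is `c' ∈ L₀`
with `v(x - c') < v(x - c)` (so `NoMin D`; values are nonzero because `x ∉ L₀`).

Proof. For `c ∈ L₀` take `c'` with `v(x-c') < v(x-c)`; then `v(x-c) = v(c'-c)`, `e := c'-c ∈ L₀`,
`e ≠ 0`. Put `y = (x-c)/e`, `v(y) = 1`, `y ∈ V`, `y ∉ L₀`. Let `s = g(x) ∈ S`, `g` over `L₀` of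
degree `< p`. Taylor at `c`: `s = g(x) = ∑_j g_j(c) (x-c)^j = ∑_j (g_j(c) e^j) y^j`,
`g_j = hasseDeriv j g`, `j < p`. We must choose `c` such that `g_j(c) e^j ∈ V`, i.e.
`v(g_j(c)) δ^j ≤ 1`, `δ = v(x-c) = v(e)`, for all `j` and all `s ∈ S`. Eventually (i.e. for all
`c ∈ L₀` with `v(x-c)` small enough), by `stable` applied to the nonzero `g_j`:
`v(g_j(c)) = v(g_j(x)) =: β_j`; by `exists_max_line` for `T = {j ≥ 1 : g_j ≠ 0}` one `j₀ ∈ T`
dominates: `v(g(x) - g(c)) = β_{j₀} δ^{j₀}` (from the Taylor expansion `g(x) - g(c) =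
∑_{j ≥ 1} g_j(c) (x-c)^j`) and `β_j δ^j ≤ β_{j₀} δ^{j₀}` for `j ≥ 1`; by `stable` for `g`,
`v(g(x) - g(c)) < v(g(x)) ≤ 1` and `v(g(c)) = v(g(x)) ≤ 1`. So all `v(g_j(c) e^j) ≤ 1`. (If `T` is
empty `g` is constant: trivial. If `g = 0`, trivial.) Finitely many eventually conditions (all
`s ∈ S`, all `j`) can be satisfied simultaneously since `D` is linearly ordered.
-/

namespace Pool.Agent.W_MP_b723a0_ag.P

open Polynomial in
theorem imm_taylor {K : Type} [Field K] (L₀ : Subfield K) (x : K) (c : L₀) (g : Polynomial L₀)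
    {p : ℕ} (hg : g.natDegree < p) :
    Polynomial.aeval x g = ∑ j ∈ Finset.range p,
      (((Polynomial.hasseDeriv j g).eval c : L₀) : K) * (x - c) ^ j := by
  have h1 : Polynomial.aeval (x - (c : K)) (Polynomial.taylor c g) = Polynomial.aeval x g := by
    rw [Polynomial.taylor_apply, Polynomial.aeval_comp]
    congr 1
    simp only [map_add, Polynomial.aeval_X, Polynomial.aeval_C]
    have : (algebraMap L₀ K) c = (c : K) := rfl
    rw [this, sub_add_cancel]
  rw [← h1, Polynomial.aeval_eq_sum_range' (n := p) (by rw [Polynomial.natDegree_taylor]; exact hg)]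
  refine Finset.sum_congr rfl fun j _ => ?_
  rw [Polynomial.taylor_coeff]
  rfl

theorem imm_common {K Γ : Type} [Field K] [LinearOrderedCommGroupWithZero Γ] (v : Valuation K Γ)
    (L₀ : Subfield K) (x : K) {ι : Type*} (s : Finset ι) (c : ι → L₀) :
    ∃ c₀ : L₀, ∀ i ∈ s, v (x - c₀) ≤ v (x - c i) := by
  classical
  induction s using Finset.induction_on with
  | empty => exact ⟨0, fun i hi => absurd hi (Finset.notMem_empty i)⟩
  | insert a s ha ih =>
    obtain ⟨c₀, h₀⟩ := ih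
    rcases le_total (v (x - c₀)) (v (x - c a)) with h | h
    · refine ⟨c₀, fun i hi => ?_⟩
      rcases Finset.mem_insert.1 hi with rfl | hi
      · exact h
      · exact h₀ i hi
    · refine ⟨c a, fun i hi => ?_⟩
      rcases Finset.mem_insert.1 hi with rfl | hi
      · exact le_rfl
      · exact h.trans (h₀ i hi)

theorem imm_bound {p : ℕ} [Fact p.Prime] {K : Type} [Field K] [CharP K p] {Γ : Type}
    [LinearOrderedCommGroupWithZero Γ] (v : Valuation K Γ) (L₀ : Subfield K) (x : K)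
    (hx : x ∉ L₀) (hxp : x ^ p ∈ L₀) (hD : NoMin {δ : Γ | ∃ c ∈ L₀, v (x - c) = δ})
    (g : Polynomial L₀) (hg : g.natDegree < p) (hv : v (Polynomial.aeval x g) ≤ 1) :
    ∃ c₀ : L₀, ∀ c : L₀, v (x - c) ≤ v (x - c₀) → ∀ j : ℕ,
      v (((Polynomial.hasseDeriv j g).eval c : L₀) : K) * v (x - c) ^ j ≤ 1 := by
  classical
  by_cases hg0 : g = 0
  · subst hg0
    exact ⟨0, fun c _ j => by simp⟩
  -- stability of the Hasse derivatives
  have hst : ∀ j : ℕ, ∃ c₀ : L₀, Polynomial.hasseDeriv j g ≠ 0 → ∀ c : L₀,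
      v (x - c) ≤ v (x - c₀) →
      v (((Polynomial.hasseDeriv j g).eval c : L₀) : K) =
        v (Polynomial.aeval x (Polynomial.hasseDeriv j g)) ∧
      v (Polynomial.aeval x (Polynomial.hasseDeriv j g) -
        (((Polynomial.hasseDeriv j g).eval c : L₀) : K)) <
        v (Polynomial.aeval x (Polynomial.hasseDeriv j g)) := by
    intro j
    by_cases hj : Polynomial.hasseDeriv j g = 0
    · exact ⟨0, fun h => absurd hj h⟩
    · obtain ⟨c₀, hc₀, h⟩ := stable v L₀ x hx hxp hD (Polynomial.hasseDeriv j g) hj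
        (lt_of_le_of_lt (Polynomial.natDegree_hasseDeriv_le g j) (by omega))
      refine ⟨⟨c₀, hc₀⟩, fun _ c hc => ?_⟩
      have h1 := h c hc
      refine ⟨?_, h1⟩
      rw [Valuation.map_sub_swap] at h1
      exact Valuation.map_eq_of_sub_lt v h1
  choose cc hcc using hst
  obtain ⟨c₁, hc₁⟩ := imm_common v L₀ x (Finset.range p) cc
  have hzero : ∀ j, p ≤ j → Polynomial.hasseDeriv j g = 0 := fun j hj =>
    Polynomial.hasseDeriv_eq_zero_of_lt_natDegree g j (by omega)
  set T : Finset ℕ := (Finset.range p).filter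
    (fun j => 1 ≤ j ∧ Polynomial.hasseDeriv j g ≠ 0) with hT
  have hp0 : 0 < p := (Fact.out : p.Prime).pos
  have hH0 : Polynomial.hasseDeriv 0 g = g := by simp
  -- the bound for `j = 0`
  have hb0 : ∀ c : L₀, v (x - c) ≤ v (x - c₁) →
      v (((Polynomial.hasseDeriv 0 g).eval c : L₀) : K) * v (x - c) ^ 0 ≤ 1 := by
    intro c hc
    have h1 := (hcc 0 (by rw [hH0]; exact hg0) c
      (hc.trans (hc₁ 0 (Finset.mem_range.2 hp0)))).1
    rw [pow_zero, mul_one, h1, hH0]
    exact hv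
  by_cases hTe : T.Nonempty
  swap
  · refine ⟨c₁, fun c hc j => ?_⟩
    rcases Nat.eq_zero_or_pos j with rfl | hj
    · exact hb0 c hc
    · have : Polynomial.hasseDeriv j g = 0 := by
        by_contra h
        apply hTe
        refine ⟨j, Finset.mem_filter.2 ⟨Finset.mem_range.2 ?_, hj, h⟩⟩
        by_contra hjp
        exact h (hzero j (not_lt.1 hjp))
      rw [this]; simp
  · set β : ℕ → Γ := fun j => v (Polynomial.aeval x (Polynomial.hasseDeriv j g)) with hβ
    have hβ0 : ∀ i ∈ T, β i ≠ 0 := by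
      intro i hi
      obtain ⟨hi1, hi2, hi3⟩ := Finset.mem_filter.1 hi
      have h1 := (hcc i hi3 c₁ (hc₁ i hi1)).2
      exact (lt_of_le_of_lt zero_le h1).ne'
    obtain ⟨j₀, hj₀, δ₀, hδ₀, hmax⟩ := exists_max_line hD T hTe β hβ0
    obtain ⟨d, hd, rfl⟩ := hδ₀
    obtain ⟨c₂, hc₂⟩ := imm_common v L₀ x (Finset.univ : Finset (Fin 2)) ![c₁, ⟨d, hd⟩]
    have h21 : v (x - c₂) ≤ v (x - c₁) := by simpa using hc₂ 0 (Finset.mem_univ _)
    have h22 : v (x - c₂) ≤ v (x - d) := by simpa using hc₂ 1 (Finset.mem_univ _)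
    refine ⟨c₂, fun c hc => ?_⟩
    have hcd := hmax (v (x - c)) ⟨c, c.2, rfl⟩ (hc.trans h22)
    have hval : ∀ i ∈ T, v (((Polynomial.hasseDeriv i g).eval c : L₀) : K) = β i := by
      intro i hi
      obtain ⟨hi1, hi2, hi3⟩ := Finset.mem_filter.1 hi
      exact (hcc i hi3 c ((hc.trans h21).trans (hc₁ i hi1))).1
    have hx0 : v (x - c) ≠ 0 := hD.2.1 _ ⟨c, c.2, rfl⟩
    -- the sum over `T`
    have hsum : Polynomial.aeval x g - ((g.eval c : L₀) : K) = ∑ j ∈ T,
        (((Polynomial.hasseDeriv j g).eval c : L₀) : K) * (x - c) ^ j := by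
      have h0 : (((Polynomial.hasseDeriv 0 g).eval c : L₀) : K) * (x - c) ^ 0 =
          ((g.eval c : L₀) : K) := by rw [hH0]; simp
      rw [imm_taylor L₀ x c g hg, sub_eq_iff_eq_add, ← h0,
        ← Finset.sum_erase_add _ _ (Finset.mem_range.2 hp0)]
      congr 1
      symm
      apply Finset.sum_subset
      · intro i hi
        obtain ⟨hi1, hi2, hi3⟩ := Finset.mem_filter.1 hi
        exact Finset.mem_erase.2 ⟨by omega, hi1⟩
      · intro i hi hiT
        obtain ⟨hi1, hi2⟩ := Finset.mem_erase.1 hi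
        have : Polynomial.hasseDeriv i g = 0 := by
          by_contra h
          exact hiT (Finset.mem_filter.2 ⟨hi2, by omega, h⟩)
        rw [this]; simp
    have hvsum : v (Polynomial.aeval x g - ((g.eval c : L₀) : K)) = β j₀ * v (x - c) ^ j₀ := by
      rw [hsum, ← Finset.sum_erase_add _ _ hj₀, Valuation.map_add_eq_of_lt_right, map_mul, map_pow,
        hval j₀ hj₀]
      have hne : β j₀ * v (x - c) ^ j₀ ≠ 0 := mul_ne_zero (hβ0 j₀ hj₀) (pow_ne_zero _ hx0)
      rw [map_mul, map_pow, hval j₀ hj₀]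
      refine Valuation.map_sum_lt v hne fun i hi => ?_
      obtain ⟨hi1, hi2⟩ := Finset.mem_erase.1 hi
      rw [map_mul, map_pow, hval i hi2]
      exact hcd i hi2 hi1
    have hlt : β j₀ * v (x - c) ^ j₀ < v (Polynomial.aeval x g) := by
      rw [← hvsum]
      have h1 := (hcc 0 (by rw [hH0]; exact hg0) c
        ((hc.trans h21).trans (hc₁ 0 (Finset.mem_range.2 hp0)))).2
      rw [hH0] at h1
      exact h1
    intro j
    rcases Nat.eq_zero_or_pos j with rfl | hj
    · exact hb0 c (hc.trans h21)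
    · by_cases hjT : j ∈ T
      · rw [hval j hjT]
        refine le_trans ?_ (hlt.le.trans hv)
        by_cases hjj : j = j₀
        · rw [hjj]
        · exact (hcd j hjT hjj).le
      · have : Polynomial.hasseDeriv j g = 0 := by
          by_contra h
          apply hjT
          refine Finset.mem_filter.2 ⟨Finset.mem_range.2 ?_, hj, h⟩
          by_contra hjp
          exact h (hzero j (not_lt.1 hjp))
        rw [this]; simp

theorem imm_poly {p : ℕ} [Fact p.Prime] {K : Type} [Field K] (L₀ : Subfield K) (x : K)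
    (a : Fin p → K) (ha : ∀ i, a i ∈ L₀) :
    ∃ g : Polynomial L₀, g.natDegree < p ∧
      Polynomial.aeval x g = ∑ i, a i * x ^ (i : ℕ) := by
  refine ⟨∑ i : Fin p, Polynomial.monomial (i : ℕ) (⟨a i, ha i⟩ : L₀), ?_, ?_⟩
  · have hp0 : 0 < p := (Fact.out : p.Prime).pos
    rw [Nat.lt_iff_le_pred hp0]
    refine Polynomial.natDegree_sum_le_of_forall_le _ _ fun i _ => ?_
    refine (Polynomial.natDegree_monomial_le _).trans ?_
    have := i.2
    omega
  · rw [map_sum]
    refine Finset.sum_congr rfl fun i _ => ?_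
    rw [Polynomial.aeval_monomial]
    rfl

theorem imm_linear {p : ℕ} [Fact p.Prime] {K : Type} [Field K] (L₀ : Subfield K) (x c e : K)
    (hc : c ∈ L₀) (he : e ∈ L₀) :
    ∃ a : Fin p → K, (∀ i, a i ∈ L₀) ∧ (x - c) / e = ∑ i, a i * x ^ (i : ℕ) := by
  obtain ⟨q, rfl⟩ : ∃ q, p = q + 2 := ⟨p - 2, by
    have := (Fact.out : p.Prime).two_le
    omega⟩
  refine ⟨Fin.cons (-c / e) (Fin.cons (1 / e) (fun _ => 0)), ?_, ?_⟩
  · intro i
    refine Fin.cases ?_ (fun i => ?_) i
    · simpa using L₀.div_mem (L₀.neg_mem hc) he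
    · refine Fin.cases ?_ (fun i => ?_) i
      · simpa using L₀.inv_mem he
      · simp
  · rw [Fin.sum_univ_succ, Fin.sum_univ_succ]
    simp only [Fin.cons_zero, Fin.cons_succ, Fin.val_zero, pow_zero, mul_one, Fin.val_succ,
      zero_mul, Finset.sum_const_zero, add_zero, zero_add, pow_one]
    ring


theorem claimM_immediate {p : ℕ} [Fact p.Prime] {K : Type} [Field K] [CharP K p]
    (V : ValuationSubring K) (L₀ : Subfield K) (x : K) (hx : x ∉ L₀) (hxp : x ^ p ∈ L₀)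
    (himm : ∀ c ∈ L₀, ∃ c' ∈ L₀, V.valuation (x - c') < V.valuation (x - c))
    (S : Finset K) (hS : ∀ s ∈ S, s ∈ V ∧ ∃ a : Fin p → K, (∀ i, a i ∈ L₀) ∧
      s = ∑ i, a i * x ^ (i : ℕ)) :
    ∃ y : K, y ∈ V ∧ y ∉ L₀ ∧ (∃ a : Fin p → K, (∀ i, a i ∈ L₀) ∧ y = ∑ i, a i * x ^ (i : ℕ)) ∧
      ∀ s ∈ S, ∃ a : Fin p → K, (∀ i, a i ∈ L₀ ∧ a i ∈ V) ∧ s = ∑ i, a i * y ^ (i : ℕ) := by
  classical
  set v := V.valuation with hvdef
  have hne : ∀ c : K, c ∈ L₀ → v (x - c) ≠ 0 := by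
    intro c hc h
    apply hx
    rw [map_eq_zero, sub_eq_zero] at h
    rw [h]; exact hc
  have hD : NoMin {δ : V.ValueGroup | ∃ c ∈ L₀, v (x - c) = δ} := by
    refine ⟨⟨v (x - 0), 0, L₀.zero_mem, rfl⟩, ?_, ?_⟩
    · rintro δ ⟨c, hc, rfl⟩
      exact hne c hc
    · rintro δ ⟨c, hc, rfl⟩
      obtain ⟨c', hc', h⟩ := himm c hc
      exact ⟨v (x - c'), ⟨c', hc', rfl⟩, h⟩
  -- choose polynomials
  have h1 : ∀ s : K, ∃ g : Polynomial L₀, s ∈ S → g.natDegree < p ∧ Polynomial.aeval x g = s := by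
    intro s
    by_cases hs : s ∈ S
    · obtain ⟨-, a, ha, has⟩ := hS s hs
      obtain ⟨g, hg1, hg2⟩ := imm_poly L₀ x a ha
      exact ⟨g, fun _ => ⟨hg1, hg2.trans has.symm⟩⟩
    · exact ⟨0, fun h => absurd h hs⟩
  choose g hg using h1
  have h2 : ∀ s : K, ∃ c₀ : L₀, s ∈ S → ∀ c : L₀, v (x - c) ≤ v (x - c₀) → ∀ j : ℕ,
      v (((Polynomial.hasseDeriv j (g s)).eval c : L₀) : K) * v (x - c) ^ j ≤ 1 := by
    intro s
    by_cases hs : s ∈ S
    · obtain ⟨c₀, h⟩ := imm_bound v L₀ x hx hxp hD (g s) (hg s hs).1 (by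
        rw [(hg s hs).2]
        exact (V.valuation_le_one_iff s).2 (hS s hs).1)
      exact ⟨c₀, fun _ => h⟩
    · exact ⟨0, fun h => absurd h hs⟩
  choose cc hcc using h2
  obtain ⟨c, hc⟩ := imm_common v L₀ x S cc
  obtain ⟨c', hc', hlt⟩ := himm c c.2
  set e : K := c' - c with he
  have heL : e ∈ L₀ := L₀.sub_mem hc' c.2
  have hve : v e = v (x - c) := by
    have h3 : e = (x - c) - (x - c') := by rw [he]; ring
    rw [h3]
    exact Valuation.map_sub_eq_of_lt_left v hlt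
  have he0 : e ≠ 0 := by
    intro h
    apply hne c c.2
    rw [← hve, h, map_zero]
  refine ⟨(x - c) / e, ?_, ?_, imm_linear L₀ x c e c.2 heL, ?_⟩
  · rw [← V.valuation_le_one_iff, ← hvdef, map_div₀, hve, div_self (hne c c.2)]
  · intro h
    apply hx
    have h4 : x = (x - c) / e * e + c := by
      rw [div_mul_cancel₀ _ he0]; ring
    rw [h4]
    exact L₀.add_mem (L₀.mul_mem h heL) c.2
  · intro s hs
    refine ⟨fun j => (((Polynomial.hasseDeriv j (g s)).eval c : L₀) : K) * e ^ (j : ℕ), ?_, ?_⟩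
    · intro j
      refine ⟨L₀.mul_mem (Subtype.property _) (L₀.pow_mem heL _), ?_⟩
      rw [← V.valuation_le_one_iff, ← hvdef, map_mul, map_pow, hve]
      exact hcc s hs c (hc s hs) j
    · rw [Fin.sum_univ_eq_sum_range (fun j =>
        (((Polynomial.hasseDeriv j (g s)).eval c : L₀) : K) * e ^ j * ((x - c) / e) ^ j) p]
      refine ((hg s hs).2.symm.trans (imm_taylor L₀ x c (g s) (hg s hs).1)).trans ?_
      refine Finset.sum_congr rfl fun j _ => ?_
      rw [div_pow, mul_assoc, mul_div_cancel₀ _ (pow_ne_zero _ he0)]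

end Pool.Agent.W_MP_b723a0_ag.P
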