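import Mathlib
import Pool.Agent.W_MP_b723a0_ag.P.Defs

/-!
# Task V1a: the ramified case (monomials)

Setting: `V` a valuation subring of `K`, `L₀` a subfield, `x ∉ L₀`, `x^p ∈ L₀`. We write `v` for
the valuation of `V` (additively, `v(a) ≥ 0` iff `a ∈ V`), `V₀ = V ∩ L₀`. Hypothesis `hram`:
`v(x) ∉ v(L₀^×)`, i.e. for no nonzero `e ∈ L₀` is `x/e` a unit of `V`.

Step 1: for `b_i ∈ L₀` (`i < p`) with `∑ b_i x^i ∈ V` all `b_i x^i ∈ V`. Indeed `p v(x) ∈ v(L₀)`,
`v(x) ∉ v(L₀)`, so (`p` prime) `i v(x) ∉ v(L₀)` for `0 < i < p`, hence the values `v(b_i x^i)` of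
the nonzero terms are pairwise distinct and `v(∑) = min`.

Step 2: a *monomial* is a nonzero element `b x^i`, `b ∈ L₀`, `0 ≤ i < p`. As `x^p ∈ L₀`,
monomials form a group `𝓜 ⊃ L₀^×` with `𝓜 / L₀^× ≅ ℤ/p`. If `y ∈ 𝓜 ∖ L₀` then every monomial
`a` is `c y^j` with unique `0 ≤ j < p`, `c ∈ L₀`. Write `V₀[y] = {∑_{i<p} c_i y^i : c_i ∈ V₀}`,
for `y ∈ V` a ring (`y^p ∈ V₀`).

Step lemma: let `y ∈ 𝓜 ∩ V`, `y ∉ L₀`, and let `T` be a finite set of monomials in `V`. Then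
there is `y' ∈ 𝓜 ∩ V`, `y' ∉ L₀` with either (`V₀[y] ⊂ V₀[y']` and `T ⊂ V₀[y']`) or
`y/y'^2 ∈ V` (i.e. `2 v(y') ≤ v(y)`).
Proof by induction on `T`: let `a ∈ T`, `a = c y^j`. If `c ∈ V`, `a ∈ V₀[y]`; go on with the
other elements and the same `y`. Otherwise `a/y^j = c ∉ V`; let `u < j` be the largest with
`r := a/y^u ∈ V`; so `a/y^{u+1} ∉ V`, hence `y/r = y^{u+1}/a ∈ V`. `r ∉ L₀` (otherwise `r ∈ V₀` and
`a = r y^u`, so by uniqueness `j = u`, contradiction). Let `r' = y/r ∈ V`, a monomial, `r r' = y`.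
If `r' ∉ L₀`: let `y'` be the one of `r, r'` such that the other divided by it is in `V`; then
`y/y'^2 ∈ V`, done. If `r' ∈ L₀`: `y = r' r ∈ V₀[r]`, so `V₀[y] ⊂ V₀[r]`, and `a = r y^u ∈ V₀[r]`;
replace `y` by `r` and go on with the other elements of `T`; if later we get `y'` with
`r/y'^2 ∈ V` then also `y/y'^2 = r' r/y'^2 ∈ V`. (In the induction, quantify over `y`.)

Step 3: given finitely many monomials `T ⊂ V`. If all are in `L₀` take `y = x` or `y = x⁻¹`
(whichever is in `V`). Otherwise start with `y_0 ∈ T ∖ L₀` of minimal valuation among the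
elements of `T ∖ L₀` (so `a/y_0 ∈ V` for all `a ∈ T ∖ L₀`) and iterate the step lemma `k` times,
`2^k ≥ p`. Either at some point `T ⊂ V₀[y']`, or we get `y_k ∈ 𝓜 ∩ V`, `y_k ∉ L₀` with
`y_0/y_k^{2^k} ∈ V`, so that for `a ∈ T ∖ L₀`, `a = c y_k^j` with `j < p ≤ 2^k`:
`c = a/y_k^j = (a/y_0) (y_0/y_k^{2^k}) y_k^{2^k - j} ∈ V`. So `T ⊂ V₀[y_k]`.

Step 4: for the finite set `S` write `s = ∑ b_{s,i} x^i` and apply step 3 to the nonzero
monomials `b_{s,i} x^i ∈ V` (step 1); sums of elements of `V₀[y]` are in `V₀[y]`. `y = c x^i` with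
`0 < i < p`, which gives the third condition.
-/

namespace Pool.Agent.W_MP_b723a0_ag.P

namespace MonoCase

variable {p : ℕ} [Fact p.Prime] {K : Type} [Field K]

/-- monomials -/
def Mon (L₀ : Subfield K) (x a : K) : Prop := ∃ c ∈ L₀, c ≠ 0 ∧ ∃ i : ℕ, a = c * x ^ i

/-- `a = c y^j` with an integral coefficient -/
def Good (p : ℕ) (V : ValuationSubring K) (L₀ : Subfield K) (y a : K) : Prop :=
  ∃ c ∈ L₀, c ∈ V ∧ ∃ j < p, a = c * y ^ j

/-- elements of `V₀[y]` -/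
def Wy (p : ℕ) (V : ValuationSubring K) (L₀ : Subfield K) (y s : K) : Prop :=
  ∃ a : Fin p → K, (∀ i, a i ∈ L₀ ∧ a i ∈ V) ∧ s = ∑ i, a i * y ^ (i : ℕ)

theorem pow_mem_of_coprime {L₀ : Subfield K} {y : K} (hy : y ≠ 0) (hyp : y ^ p ∈ L₀) {n : ℕ}
    (hn : 0 < n) (hnp : n < p) (h : y ^ n ∈ L₀) : y ∈ L₀ := by
  have hp : p.Prime := Fact.out
  have hc : Nat.gcd n p = 1 := by
    have : Nat.Coprime p n := (Nat.Prime.coprime_iff_not_dvd hp).mpr (Nat.not_dvd_of_pos_of_lt hn hnp)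
    exact this.symm
  have h1 : ((Nat.gcd n p : ℕ) : ℤ) = n * Nat.gcdA n p + p * Nat.gcdB n p := Nat.gcd_eq_gcd_ab n p
  rw [hc] at h1
  have h2 : y = (y ^ n) ^ (Nat.gcdA n p) * (y ^ p) ^ (Nat.gcdB n p) := by
    rw [← zpow_natCast y n, ← zpow_natCast y p, ← zpow_mul, ← zpow_mul, ← zpow_add₀ hy, ← h1]
    simp
  rw [h2]
  exact L₀.mul_mem (L₀.zpow_mem h _) (L₀.zpow_mem hyp _)

theorem pow_div_mem {L₀ : Subfield K} {x : K} (hx : x ≠ 0) (hxp : x ^ p ∈ L₀) {k l : ℕ}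
    (h : k ≡ l [MOD p]) : x ^ k / x ^ l ∈ L₀ := by
  have h1 : ∀ m : ℕ, x ^ m = x ^ (m % p) * (x ^ p) ^ (m / p) := by
    intro m
    rw [← pow_mul, ← pow_add, Nat.mod_add_div]
  have h2 : k % p = l % p := h
  have hne : x ^ (l % p) ≠ 0 := pow_ne_zero _ hx
  rw [h1 k, h1 l, h2, mul_div_mul_left _ _ hne]
  exact L₀.div_mem (L₀.pow_mem hxp _) (L₀.pow_mem hxp _)

theorem Mon.ne_zero {L₀ : Subfield K} {x a : K} (hx : x ≠ 0) (h : Mon L₀ x a) : a ≠ 0 := by
  obtain ⟨c, _, hc0, i, rfl⟩ := h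
  exact mul_ne_zero hc0 (pow_ne_zero _ hx)

theorem Mon.mul {L₀ : Subfield K} {x a b : K} (ha : Mon L₀ x a) (hb : Mon L₀ x b) :
    Mon L₀ x (a * b) := by
  obtain ⟨c, hc, hc0, i, rfl⟩ := ha
  obtain ⟨d, hd, hd0, j, rfl⟩ := hb
  exact ⟨c * d, L₀.mul_mem hc hd, mul_ne_zero hc0 hd0, i + j, by ring⟩

theorem Mon.inv {L₀ : Subfield K} {x a : K} (hx : x ≠ 0) (hxp : x ^ p ∈ L₀) (ha : Mon L₀ x a) :
    Mon L₀ x a⁻¹ := by
  have hp : p.Prime := Fact.out
  obtain ⟨c, hc, hc0, i, rfl⟩ := ha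
  refine ⟨c⁻¹ * ((x ^ p) ^ i)⁻¹, L₀.mul_mem (L₀.inv_mem hc) (L₀.inv_mem (L₀.pow_mem hxp _)),
    mul_ne_zero (inv_ne_zero hc0) (inv_ne_zero (pow_ne_zero _ (pow_ne_zero _ hx))),
    (p - 1) * i, ?_⟩
  have h1 : (x ^ p) ^ i = x ^ ((p - 1) * i) * x ^ i := by
    rw [← pow_mul, ← pow_add]
    congr 1
    have : p = (p - 1) + 1 := (Nat.succ_pred_eq_of_pos hp.pos).symm
    conv_lhs => rw [this]
    ring
  rw [h1]
  have h2 : x ^ ((p - 1) * i) ≠ 0 := pow_ne_zero _ hx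
  have h3 : x ^ i ≠ 0 := pow_ne_zero _ hx
  field_simp

theorem Mon.one (L₀ : Subfield K) (x : K) : Mon L₀ x 1 :=
  ⟨1, L₀.one_mem, one_ne_zero, 0, by simp⟩

theorem Mon.pow {L₀ : Subfield K} {x a : K} (ha : Mon L₀ x a) (n : ℕ) : Mon L₀ x (a ^ n) := by
  induction n with
  | zero => simpa using Mon.one L₀ x
  | succ n ih => rw [pow_succ]; exact ih.mul ha

theorem Mon.div {L₀ : Subfield K} {x a b : K} (hx : x ≠ 0) (hxp : x ^ p ∈ L₀) (ha : Mon L₀ x a)
    (hb : Mon L₀ x b) : Mon L₀ x (a / b) := by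
  rw [div_eq_mul_inv]
  exact ha.mul (hb.inv hx hxp)

theorem Mon.self (L₀ : Subfield K) (x : K) : Mon L₀ x x :=
  ⟨1, L₀.one_mem, one_ne_zero, 1, by simp⟩

theorem Mon.pow_mem {L₀ : Subfield K} {x a : K} (hxp : x ^ p ∈ L₀) (ha : Mon L₀ x a) :
    a ^ p ∈ L₀ := by
  obtain ⟨c, hc, hc0, i, rfl⟩ := ha
  rw [mul_pow, ← pow_mul, mul_comm i p, pow_mul]
  exact L₀.mul_mem (L₀.pow_mem hc _) (L₀.pow_mem hxp _)

/-- every monomial which is not in `L₀` generates all the others -/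
theorem Mon.gen {L₀ : Subfield K} {x y a : K} (hx : x ≠ 0) (hxp : x ^ p ∈ L₀)
    (hy : Mon L₀ x y) (hyL : y ∉ L₀) (ha : Mon L₀ x a) :
    ∃ c ∈ L₀, c ≠ 0 ∧ ∃ j < p, a = c * y ^ j := by
  have hy0 := hy.ne_zero hx
  have ha0 := ha.ne_zero hx
  obtain ⟨c₀, hc₀, hc₀0, i, rfl⟩ := hy
  obtain ⟨d, hd, hd0, k, rfl⟩ := ha
  have hi : (i : ZMod p) ≠ 0 := by
    intro h0
    rw [ZMod.natCast_eq_zero_iff] at h0
    obtain ⟨m, rfl⟩ := h0
    apply hyL
    rw [pow_mul]
    exact L₀.mul_mem hc₀ (L₀.pow_mem hxp _)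
  set j : ℕ := ((k : ZMod p) / (i : ZMod p)).val with hj
  have hjp : j < p := ZMod.val_lt _
  have hmod : k ≡ i * j [MOD p] := by
    rw [← ZMod.natCast_eq_natCast_iff]
    push_cast
    rw [hj, ZMod.natCast_val, ZMod.cast_id]
    field_simp
  refine ⟨(d * x ^ k) / (c₀ * x ^ i) ^ j, ?_, div_ne_zero ha0 (pow_ne_zero _ hy0), j, hjp, ?_⟩
  · rw [mul_pow, ← pow_mul, mul_div_mul_comm]
    exact L₀.mul_mem (L₀.div_mem hd (L₀.pow_mem hc₀ _)) (pow_div_mem hx hxp hmod)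
  · rw [div_mul_cancel₀ _ (pow_ne_zero _ hy0)]

theorem inv_mem_of_not_mem {V : ValuationSubring K} {a : K} (h : a ∉ V) : a⁻¹ ∈ V :=
  (V.mem_or_inv_mem a).resolve_left h

theorem Good.zero_pow {V : ValuationSubring K} {L₀ : Subfield K} {y a : K} (ha : a ∈ L₀)
    (haV : a ∈ V) : Good p V L₀ y a := by
  have hp : p.Prime := Fact.out
  exact ⟨a, ha, haV, 0, hp.pos, by simp⟩

/-- the step lemma -/
theorem step (V : ValuationSubring K) (L₀ : Subfield K) {x : K} (hx : x ≠ 0)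
    (hxp : x ^ p ∈ L₀) (T : Finset K) :
    (∀ a ∈ T, Mon L₀ x a ∧ a ∈ V) → ∀ y, Mon L₀ x y → y ∈ V → y ∉ L₀ →
    ∃ y', Mon L₀ x y' ∧ y' ∈ V ∧ y' ∉ L₀ ∧
      (((∀ a, Good p V L₀ y a → Good p V L₀ y' a) ∧ ∀ a ∈ T, Good p V L₀ y' a) ∨
        y / y' ^ 2 ∈ V) := by
  classical
  induction T using Finset.induction_on with
  | empty =>
    intro _ y hy hyV hyL
    exact ⟨y, hy, hyV, hyL, Or.inl ⟨fun a h => h, fun a h => absurd h (Finset.notMem_empty a)⟩⟩
  | insert a T haT ih =>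
    intro hT y hy hyV hyL
    have hT' : ∀ b ∈ T, Mon L₀ x b ∧ b ∈ V := fun b hb => hT b (Finset.mem_insert_of_mem hb)
    obtain ⟨haM, haV⟩ := hT a (Finset.mem_insert_self a T)
    have hy0 := hy.ne_zero hx
    have ha0 := haM.ne_zero hx
    obtain ⟨c, hc, hc0, j, hjp, hac⟩ := Mon.gen hx hxp hy hyL haM
    by_cases hcV : c ∈ V
    · obtain ⟨y', h1, h2, h3, h4⟩ := ih hT' y hy hyV hyL
      refine ⟨y', h1, h2, h3, ?_⟩
      rcases h4 with ⟨h4, h5⟩ | h4
      · refine Or.inl ⟨h4, fun b hb => ?_⟩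
        rcases Finset.mem_insert.mp hb with rfl | hb
        · exact h4 _ ⟨c, hc, hcV, j, hjp, hac⟩
        · exact h5 b hb
      · exact Or.inr h4
    · -- the largest `u < j` with `a / y^u ∈ V`
      have hj0 : 0 < j := by
        rcases Nat.eq_zero_or_pos j with h0 | h0
        · exfalso
          rw [h0, pow_zero, mul_one] at hac
          rw [hac] at haV
          exact hcV haV
        · exact h0
      have hcj : c = a / y ^ j := by
        rw [hac, mul_div_assoc, div_self (pow_ne_zero _ hy0), mul_one]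
      have hex : ∃ u < j, a / y ^ u ∈ V ∧ a / y ^ (u + 1) ∉ V := by
        by_contra hcon
        push Not at hcon
        have : ∀ u ≤ j, a / y ^ u ∈ V := by
          intro u
          induction u with
          | zero => intro _; simpa using haV
          | succ u ihu =>
            intro hu
            exact hcon u (by omega) (ihu (by omega))
        exact hcV (by rw [hcj]; exact this j le_rfl)
      obtain ⟨u, huj, hr, hr1⟩ := hex
      set r := a / y ^ u with hrdef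
      have hrM : Mon L₀ x r := haM.div hx hxp (hy.pow u)
      have hr0 := hrM.ne_zero hx
      have har : a = r * y ^ u := by
        rw [hrdef, div_mul_cancel₀ _ (pow_ne_zero _ hy0)]
      have hyr : y / r ∈ V := by
        have h1 := inv_mem_of_not_mem hr1
        have h2 : (a / y ^ (u + 1))⁻¹ = y / r := by
          rw [hrdef, pow_succ]
          field_simp
        rwa [h2] at h1
      have hrL : r ∉ L₀ := by
        intro hrL
        apply hyL
        refine pow_mem_of_coprime (p := p) hy0 (hy.pow_mem hxp) (n := j - u) (by omega)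
          (by omega) ?_
        have h1 : y ^ j = y ^ (j - u) * y ^ u := by
          rw [← pow_add]
          congr 1
          omega
        have h2 : y ^ (j - u) = r / c := by
          rw [eq_div_iff hc0]
          have h3 : c * (y ^ (j - u) * y ^ u) = r * y ^ u := by rw [← h1, ← hac, har]
          have h4 : (y ^ (j - u) * c) * y ^ u = r * y ^ u := by rw [← h3]; ring
          exact mul_right_cancel₀ (pow_ne_zero _ hy0) h4
        rw [h2]
        exact L₀.div_mem hrL hc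
      have hr'M : Mon L₀ x (y / r) := hy.div hx hxp hrM
      have hr'0 := hr'M.ne_zero hx
      have hyrr : y = (y / r) * r := by rw [div_mul_cancel₀ _ hr0]
      by_cases hr'L : y / r ∈ L₀
      · obtain ⟨y', h1, h2, h3, h4⟩ := ih hT' r hrM hr hrL
        have hsub : ∀ b, Good p V L₀ y b → Good p V L₀ r b := by
          rintro b ⟨d, hd, hdV, i, hi, rfl⟩
          refine ⟨d * (y / r) ^ i, L₀.mul_mem hd (L₀.pow_mem hr'L _),
            V.mul_mem _ _ hdV (pow_mem hyr _), i, hi, ?_⟩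
          rw [mul_assoc, ← mul_pow, ← hyrr]
        refine ⟨y', h1, h2, h3, ?_⟩
        rcases h4 with ⟨h4, h5⟩ | h4
        · refine Or.inl ⟨fun b hb => h4 b (hsub b hb), fun b hb => ?_⟩
          rcases Finset.mem_insert.mp hb with rfl | hb
          · refine h4 _ ⟨(y / r) ^ u, L₀.pow_mem hr'L _, pow_mem hyr _, u + 1, by omega, ?_⟩
            rw [pow_succ, ← mul_assoc, ← mul_pow, ← hyrr, mul_comm]
            exact har
          · exact h5 b hb
        · refine Or.inr ?_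
          have : y / y' ^ 2 = (y / r) * (r / y' ^ 2) := by
            rw [← mul_div_assoc, ← hyrr]
          rw [this]
          exact V.mul_mem _ _ hyr h4
      · rcases V.mem_or_inv_mem ((y / r) / r) with h | h
        · refine ⟨r, hrM, hr, hrL, Or.inr ?_⟩
          have : y / r ^ 2 = (y / r) / r := by rw [pow_two, div_div]
          rwa [this]
        · refine ⟨y / r, hr'M, hyr, hr'L, Or.inr ?_⟩
          have : y / (y / r) ^ 2 = ((y / r) / r)⁻¹ := by
            field_simp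
          rwa [this]

/-- Step 3 -/
theorem exists_good (V : ValuationSubring K) (L₀ : Subfield K) {x : K} (hx : x ∉ L₀)
    (hxp : x ^ p ∈ L₀) (T : Finset K) (hT : ∀ a ∈ T, Mon L₀ x a ∧ a ∈ V) :
    ∃ y, Mon L₀ x y ∧ y ∈ V ∧ y ∉ L₀ ∧ ∀ a ∈ T, Good p V L₀ y a := by
  classical
  have hx0 : x ≠ 0 := fun h => hx (h ▸ L₀.zero_mem)
  by_cases hall : ∀ a ∈ T, a ∈ L₀
  · rcases V.mem_or_inv_mem x with h | h
    · exact ⟨x, Mon.self L₀ x, h, hx, fun a ha => Good.zero_pow (hall a ha) (hT a ha).2⟩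
    · refine ⟨x⁻¹, (Mon.self L₀ x).inv hx0 hxp, h, fun h' => hx ?_,
        fun a ha => Good.zero_pow (hall a ha) (hT a ha).2⟩
      have := L₀.inv_mem h'
      rwa [inv_inv] at this
  · push Not at hall
    obtain ⟨a₀, ha₀, ha₀L⟩ := hall
    obtain ⟨y₀, hy₀, hmax⟩ := Finset.exists_max_image (T.filter (fun a => a ∉ L₀))
      (fun a => V.valuation a) ⟨a₀, Finset.mem_filter.mpr ⟨ha₀, ha₀L⟩⟩
    obtain ⟨hy₀T, hy₀L⟩ := Finset.mem_filter.mp hy₀
    have hy₀M := (hT y₀ hy₀T).1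
    have hy₀0 := hy₀M.ne_zero hx0
    have hdiv : ∀ a ∈ T, a ∉ L₀ → a / y₀ ∈ V := by
      intro a ha haL
      rw [← V.valuation_le_one_iff, map_div₀]
      refine div_le_one_of_le₀ (hmax a (Finset.mem_filter.mpr ⟨ha, haL⟩)) zero_le
    have hiter : ∀ k : ℕ, ∃ y, Mon L₀ x y ∧ y ∈ V ∧ y ∉ L₀ ∧
        ((∀ a ∈ T, Good p V L₀ y a) ∨ y₀ / y ^ 2 ^ k ∈ V) := by
      intro k
      induction k with
      | zero =>
        refine ⟨y₀, hy₀M, (hT y₀ hy₀T).2, hy₀L, Or.inr ?_⟩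
        rw [pow_zero, pow_one, div_self hy₀0]
        exact V.one_mem
      | succ k ih =>
        obtain ⟨y, hyM, hyV, hyL, h | h⟩ := ih
        · exact ⟨y, hyM, hyV, hyL, Or.inl h⟩
        · obtain ⟨y', h1, h2, h3, h4⟩ := step V L₀ hx0 hxp T hT y hyM hyV hyL
          refine ⟨y', h1, h2, h3, ?_⟩
          rcases h4 with ⟨_, h5⟩ | h4
          · exact Or.inl h5
          · refine Or.inr ?_
            have hy0 := hyM.ne_zero hx0
            have hy'0 := h1.ne_zero hx0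
            have : y₀ / y' ^ 2 ^ (k + 1) = (y₀ / y ^ 2 ^ k) * (y / y' ^ 2) ^ 2 ^ k := by
              rw [div_pow, ← pow_mul, pow_succ, mul_comm (2 ^ k) 2]
              have h6 : y ^ 2 ^ k ≠ 0 := pow_ne_zero _ hy0
              have h7 : y' ^ (2 * 2 ^ k) ≠ 0 := pow_ne_zero _ hy'0
              field_simp
            rw [this]
            exact V.mul_mem _ _ h (pow_mem h4 _)
    obtain ⟨y, hyM, hyV, hyL, h | h⟩ := hiter p
    · exact ⟨y, hyM, hyV, hyL, h⟩
    · refine ⟨y, hyM, hyV, hyL, fun a ha => ?_⟩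
      by_cases haL : a ∈ L₀
      · exact Good.zero_pow haL (hT a ha).2
      · obtain ⟨c, hc, hc0, j, hj, hac⟩ := Mon.gen hx0 hxp hyM hyL (hT a ha).1
        refine ⟨c, hc, ?_, j, hj, hac⟩
        have hy0 := hyM.ne_zero hx0
        have hjle : j ≤ 2 ^ p := hj.le.trans (Nat.lt_two_pow_self).le
        have h1 : y ^ 2 ^ p = y ^ (2 ^ p - j) * y ^ j := by
          rw [← pow_add]
          congr 1
          omega
        have h2 : c = (a / y₀) * (y₀ / y ^ 2 ^ p) * y ^ (2 ^ p - j) := by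
          rw [h1, hac]
          have h3 : y ^ (2 ^ p - j) ≠ 0 := pow_ne_zero _ hy0
          have h4 : y ^ j ≠ 0 := pow_ne_zero _ hy0
          field_simp
        rw [h2]
        exact V.mul_mem _ _ (V.mul_mem _ _ (hdiv a ha haL) h) (pow_mem hyV _)

/-- Step 1 -/
theorem term_mem (V : ValuationSubring K) (L₀ : Subfield K) {x : K} (hx : x ∉ L₀)
    (hxp : x ^ p ∈ L₀) (hram : ∀ e ∈ L₀, e ≠ 0 → ¬ (x / e ∈ V ∧ e / x ∈ V))
    (a : Fin p → K) (ha : ∀ i, a i ∈ L₀) (hs : ∑ i, a i * x ^ (i : ℕ) ∈ V) (i : Fin p) :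
    a i * x ^ (i : ℕ) ∈ V := by
  classical
  have hx0 : x ≠ 0 := fun h => hx (h ▸ L₀.zero_mem)
  have hdist : ∀ i j : Fin p, i < j → a i ≠ 0 → a j ≠ 0 →
      V.valuation (a i * x ^ (i : ℕ)) ≠ V.valuation (a j * x ^ (j : ℕ)) := by
    intro i j hij hai haj heq
    have hi0 : a i * x ^ (i : ℕ) ≠ 0 := mul_ne_zero hai (pow_ne_zero _ hx0)
    have hj0 : a j * x ^ (j : ℕ) ≠ 0 := mul_ne_zero haj (pow_ne_zero _ hx0)
    set t := (a j * x ^ (j : ℕ)) / (a i * x ^ (i : ℕ)) with ht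
    have ht0 : t ≠ 0 := div_ne_zero hj0 hi0
    have htM : Mon L₀ x t :=
      Mon.div hx0 hxp ⟨a j, ha j, haj, _, rfl⟩ ⟨a i, ha i, hai, _, rfl⟩
    have htv : V.valuation t = 1 := by
      rw [ht, map_div₀, heq, div_self]
      rw [Ne, map_eq_zero]
      exact hj0
    have htV : t ∈ V := by rw [← V.valuation_le_one_iff, htv]
    have htV' : t⁻¹ ∈ V := by rw [← V.valuation_le_one_iff, map_inv₀, htv, inv_one]
    have htL : t ∉ L₀ := by
      intro htL
      apply hx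
      refine pow_mem_of_coprime (p := p) hx0 hxp (n := (j : ℕ) - i) (by omega)
        (by omega) ?_
      have h1 : x ^ (j : ℕ) = x ^ ((j : ℕ) - i) * x ^ (i : ℕ) := by
        rw [← pow_add]
        congr 1
        omega
      have h2 : x ^ ((j : ℕ) - i) = t * (a i / a j) := by
        rw [ht, h1]
        have h3 : x ^ (i : ℕ) ≠ 0 := pow_ne_zero _ hx0
        field_simp
      rw [h2]
      exact L₀.mul_mem htL (L₀.div_mem (ha i) (ha j))
    obtain ⟨c, hc, hc0, m, _, hxc⟩ := Mon.gen hx0 hxp htM htL (Mon.self L₀ x)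
    refine hram c hc hc0 ⟨?_, ?_⟩
    · have : x / c = t ^ m := by
        rw [hxc]
        field_simp
      rw [this]
      exact pow_mem htV _
    · have : c / x = t⁻¹ ^ m := by
        rw [hxc, inv_pow]
        have h3 : t ^ m ≠ 0 := pow_ne_zero _ ht0
        field_simp
      rw [this]
      exact pow_mem htV' _
  -- the term of maximal valuation
  obtain ⟨j, _, hj⟩ := Finset.exists_max_image (Finset.univ : Finset (Fin p))
    (fun i => V.valuation (a i * x ^ (i : ℕ))) ⟨i, Finset.mem_univ i⟩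
  by_contra hi
  have hi1 : 1 < V.valuation (a i * x ^ (i : ℕ)) := by
    rw [← not_le, V.valuation_le_one_iff]
    exact hi
  have hj1 : 1 < V.valuation (a j * x ^ (j : ℕ)) := hi1.trans_le (hj i (Finset.mem_univ i))
  have hpos : (0 : V.ValueGroup) < V.valuation (a j * x ^ (j : ℕ)) := zero_lt_one.trans hj1
  have haj : a j ≠ 0 := by
    intro h0
    rw [h0, zero_mul, map_zero] at hpos
    exact lt_irrefl _ hpos
  have hlt : ∀ k ∈ (Finset.univ : Finset (Fin p)).erase j,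
      V.valuation (a k * x ^ (k : ℕ)) < V.valuation (a j * x ^ (j : ℕ)) := by
    intro k hk
    have hkj : k ≠ j := Finset.ne_of_mem_erase hk
    rcases eq_or_ne (a k) 0 with h0 | h0
    · rw [h0, zero_mul, map_zero]
      exact hpos
    · refine lt_of_le_of_ne (hj k (Finset.mem_univ k)) ?_
      rcases lt_or_gt_of_ne hkj with h | h
      · exact hdist k j h h0 haj
      · exact (hdist j k h haj h0).symm
  have hsum : V.valuation (∑ k ∈ (Finset.univ : Finset (Fin p)).erase j, a k * x ^ (k : ℕ)) <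
      V.valuation (a j * x ^ (j : ℕ)) := by
    exact Valuation.map_sum_lt' _ hpos hlt
  have htot : V.valuation (∑ k, a k * x ^ (k : ℕ)) = V.valuation (a j * x ^ (j : ℕ)) := by
    rw [← Finset.add_sum_erase _ _ (Finset.mem_univ j)]
    exact Valuation.map_add_eq_of_lt_left _ hsum
  have := (V.valuation_le_one_iff _).mpr hs
  rw [htot] at this
  exact absurd this (not_le.mpr hj1)

theorem Wy.zero (V : ValuationSubring K) (L₀ : Subfield K) (y : K) : Wy p V L₀ y 0 :=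
  ⟨fun _ => 0, fun _ => ⟨L₀.zero_mem, V.zero_mem⟩, by simp⟩

theorem Wy.add {V : ValuationSubring K} {L₀ : Subfield K} {y s t : K} (hs : Wy p V L₀ y s)
    (ht : Wy p V L₀ y t) : Wy p V L₀ y (s + t) := by
  obtain ⟨a, ha, rfl⟩ := hs
  obtain ⟨b, hb, rfl⟩ := ht
  refine ⟨fun i => a i + b i, fun i => ⟨L₀.add_mem (ha i).1 (hb i).1,
    V.add_mem _ _ (ha i).2 (hb i).2⟩, ?_⟩
  rw [← Finset.sum_add_distrib]
  exact Finset.sum_congr rfl fun i _ => by ring

theorem Wy.of_good {V : ValuationSubring K} {L₀ : Subfield K} {y s : K}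
    (hs : Good p V L₀ y s) : Wy p V L₀ y s := by
  classical
  obtain ⟨c, hc, hcV, j, hj, rfl⟩ := hs
  refine ⟨fun i => if i = ⟨j, hj⟩ then c else 0, fun i => ?_, ?_⟩
  · dsimp only
    split
    · exact ⟨hc, hcV⟩
    · exact ⟨L₀.zero_mem, V.zero_mem⟩
  · rw [Finset.sum_eq_single ⟨j, hj⟩]
    · simp
    · intro b _ hb
      simp [hb]
    · intro h
      exact absurd (Finset.mem_univ _) h

theorem Wy.sum {V : ValuationSubring K} {L₀ : Subfield K} {y : K} {ι : Type*} (T : Finset ι)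
    (f : ι → K) (h : ∀ i ∈ T, Wy p V L₀ y (f i)) : Wy p V L₀ y (∑ i ∈ T, f i) := by
  classical
  induction T using Finset.induction_on with
  | empty => simpa using Wy.zero V L₀ y
  | insert a T ha ih =>
    rw [Finset.sum_insert ha]
    exact (h a (Finset.mem_insert_self a T)).add
      (ih fun i hi => h i (Finset.mem_insert_of_mem hi))

end MonoCase

open MonoCase in
theorem claimM_mono {p : ℕ} [Fact p.Prime] {K : Type} [Field K] [CharP K p]
    (V : ValuationSubring K) (L₀ : Subfield K) (x : K) (hx : x ∉ L₀) (hxp : x ^ p ∈ L₀)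
    (hram : ∀ e ∈ L₀, e ≠ 0 → ¬ (x / e ∈ V ∧ e / x ∈ V))
    (S : Finset K) (hS : ∀ s ∈ S, s ∈ V ∧ ∃ a : Fin p → K, (∀ i, a i ∈ L₀) ∧
      s = ∑ i, a i * x ^ (i : ℕ)) :
    ∃ y : K, y ∈ V ∧ y ∉ L₀ ∧ (∃ a : Fin p → K, (∀ i, a i ∈ L₀) ∧ y = ∑ i, a i * x ^ (i : ℕ)) ∧
      ∀ s ∈ S, ∃ a : Fin p → K, (∀ i, a i ∈ L₀ ∧ a i ∈ V) ∧ s = ∑ i, a i * y ^ (i : ℕ) := by
  classical
  have hp : p.Prime := Fact.out
  have hx0 : x ≠ 0 := fun h => hx (h ▸ L₀.zero_mem)
  have hS' : ∀ s : K, ∃ a : Fin p → K, s ∈ S → (∀ i, a i ∈ L₀) ∧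
      s = ∑ i, a i * x ^ (i : ℕ) := by
    intro s
    by_cases hs : s ∈ S
    · obtain ⟨a, ha⟩ := (hS s hs).2
      exact ⟨a, fun _ => ha⟩
    · exact ⟨fun _ => 0, fun h => absurd h hs⟩
  choose A hA using hS'
  have hterm : ∀ s ∈ S, ∀ i, A s i * x ^ (i : ℕ) ∈ V := by
    intro s hs i
    refine term_mem V L₀ hx hxp hram (A s) (hA s hs).1 ?_ i
    rw [← (hA s hs).2]
    exact (hS s hs).1
  set T : Finset K := ((S ×ˢ (Finset.univ : Finset (Fin p))).image
    (fun si => A si.1 si.2 * x ^ (si.2 : ℕ))).filter (fun a => a ≠ 0) with hTdef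
  obtain ⟨y, hyM, hyV, hyL, hyT⟩ := exists_good V L₀ hx hxp T (by
    intro a ha
    rw [hTdef, Finset.mem_filter, Finset.mem_image] at ha
    obtain ⟨⟨⟨s, i⟩, hsi, rfl⟩, ha0⟩ := ha
    have hs : s ∈ S := (Finset.mem_product.mp hsi).1
    refine ⟨⟨A s i, (hA s hs).1 i, ?_, i, rfl⟩, hterm s hs i⟩
    intro h0
    apply ha0
    simp only [h0, zero_mul])
  refine ⟨y, hyV, hyL, ?_, ?_⟩
  · obtain ⟨c, hc, _, j, hj, hyj⟩ := Mon.gen hx0 hxp (Mon.self L₀ x) hx hyM
    refine ⟨fun i => if i = ⟨j, hj⟩ then c else 0, fun i => ?_, ?_⟩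
    · dsimp only
      split
      · exact hc
      · exact L₀.zero_mem
    · rw [Finset.sum_eq_single ⟨j, hj⟩]
      · simpa using hyj
      · intro b _ hb
        simp [hb]
      · intro h
        exact absurd (Finset.mem_univ _) h
  · intro s hs
    have hW : Wy p V L₀ y (∑ i, A s i * x ^ (i : ℕ)) := by
      refine Wy.sum _ _ fun i _ => ?_
      by_cases h0 : A s i * x ^ (i : ℕ) = 0
      · rw [h0]
        exact Wy.zero V L₀ y
      · refine Wy.of_good (hyT _ ?_)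
        rw [hTdef, Finset.mem_filter, Finset.mem_image]
        exact ⟨⟨(s, i), Finset.mem_product.mpr ⟨hs, Finset.mem_univ i⟩, rfl⟩, h0⟩
    rw [← (hA s hs).2] at hW
    exact hW

end Pool.Agent.W_MP_b723a0_ag.P
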