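import Mathlib
import Pool.Agent.W_MP_b723a0_ag.P.Defs

/-!
# Task V1b: the residual case

Setting: `V` a valuation subring of `K` (valuation `v`, additively), `L₀` a subfield, `V₀ = V ∩ L₀`,
`y ∈ V` with `y^p ∈ L₀`, and for all `c ∈ V₀`, `y - c` is a unit of `V` (`hres`). Then
`∑ b_i y^i ∈ V` with `b_i ∈ L₀` (`i < p`) implies `b_i ∈ V` for all `i`.

Proof. Suppose not, choose `i₀` with `v(b_{i₀})` minimal, `v(b_{i₀}) < 0`, divide by `b_{i₀}`: we
get `c_i = b_i/b_{i₀} ∈ V₀`, `c_{i₀} = 1`, with `∑ c_i y^i` in the maximal ideal of `V`. Let `k₀` be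
the image of `V₀` in the residue field `k` of `V` (a subfield: if `c ∈ V₀` is a unit of `V` then
`c⁻¹ ∈ V₀`), and let `ȳ ∈ k` be the residue of `y`: `ȳ ∉ k₀` by `hres`, `ȳ^p ∈ k₀`. The
polynomial `X^p - ȳ^p` is irreducible over `k₀` (Mathlib: `X_pow_sub_C_irreducible_of_prime` or
similar: `ȳ^p` is not a `p`-th power in `k₀`, because `c^p = ȳ^p` implies `c = ȳ` in
characteristic `p`), so `1, ȳ, ..., ȳ^{p-1}` are linearly independent over `k₀`, contradicting
`∑ c̄_i ȳ^i = 0`, `c̄_{i₀} = 1`.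

`claimM_residue`: apply this to each `s ∈ S`, with `y = (x - c₀)/e`: `s = ∑ a_i x^i` is rewritten
as a polynomial of degree `< p` in `y` with coefficients in `L₀` (`x = e y + c₀`).
-/

namespace Pool.Agent.W_MP_b723a0_ag.P

open Polynomial

/-- The image of `V ∩ L₀` in the residue field of `V`. -/
def resSub {K : Type} [Field K] (V : ValuationSubring K) (L₀ : Subfield K) :
    Subfield (IsLocalRing.ResidueField V) where
  carrier := {z | ∃ c : V, (c : K) ∈ L₀ ∧ IsLocalRing.residue V c = z}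
  mul_mem' := by
    rintro _ _ ⟨c, hc, rfl⟩ ⟨d, hd, rfl⟩
    exact ⟨c * d, L₀.mul_mem hc hd, map_mul _ _ _⟩
  one_mem' := ⟨1, L₀.one_mem, map_one _⟩
  add_mem' := by
    rintro _ _ ⟨c, hc, rfl⟩ ⟨d, hd, rfl⟩
    exact ⟨c + d, L₀.add_mem hc hd, map_add _ _ _⟩
  zero_mem' := ⟨0, L₀.zero_mem, map_zero _⟩
  neg_mem' := by
    rintro _ ⟨c, hc, rfl⟩
    exact ⟨-c, L₀.neg_mem hc, map_neg _ _⟩
  inv_mem' := by
    rintro _ ⟨c, hc, rfl⟩
    by_cases h0 : IsLocalRing.residue V c = 0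
    · exact ⟨0, L₀.zero_mem, by rw [h0, map_zero, inv_zero]⟩
    · have hu : IsUnit c := by
        by_contra hcon
        exact h0 ((IsLocalRing.residue_eq_zero_iff c).mpr
          ((IsLocalRing.mem_maximalIdeal c).mpr hcon))
      obtain ⟨u, rfl⟩ := hu
      refine ⟨((u⁻¹ : Vˣ) : V), ?_, ?_⟩
      · have h1 : (((u⁻¹ : Vˣ) : V) : K) = ((u : V) : K)⁻¹ := by
          apply eq_inv_of_mul_eq_one_left
          have : (((u⁻¹ : Vˣ) : V) * (u : V) : V) = 1 := Units.inv_mul u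
          exact congrArg (fun z : V => (z : K)) this
        rw [h1]
        exact L₀.inv_mem hc
      · apply eq_inv_of_mul_eq_one_left
        rw [← map_mul, Units.inv_mul, map_one]

theorem mem_resSub {K : Type} [Field K] {V : ValuationSubring K} {L₀ : Subfield K}
    {z : IsLocalRing.ResidueField V} :
    z ∈ resSub V L₀ ↔ ∃ c : V, (c : K) ∈ L₀ ∧ IsLocalRing.residue V c = z := Iff.rfl

theorem mem_of_residue {p : ℕ} [Fact p.Prime] {K : Type} [Field K] [CharP K p]
    (V : ValuationSubring K) (L₀ : Subfield K) (y : K) (hy : y ∈ V) (hyp : y ^ p ∈ L₀)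
    (hres : ∀ c ∈ L₀, c ∈ V → (y - c)⁻¹ ∈ V ∧ y ≠ c) (b : Fin p → K) (hb : ∀ i, b i ∈ L₀)
    (hs : ∑ i, b i * y ^ (i : ℕ) ∈ V) : ∀ i, b i ∈ V := by
  classical
  have hp : p.Prime := Fact.out
  by_contra hcon
  push Not at hcon
  obtain ⟨i₁, hi₁⟩ := hcon
  obtain ⟨i₀, _, hmax⟩ := Finset.exists_max_image (Finset.univ : Finset (Fin p))
    (fun i => V.valuation (b i)) ⟨i₁, Finset.mem_univ i₁⟩
  have h1 : 1 < V.valuation (b i₀) := by
    refine lt_of_lt_of_le ?_ (hmax i₁ (Finset.mem_univ i₁))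
    rw [← not_le, V.valuation_le_one_iff]
    exact hi₁
  have hpos : (0 : V.ValueGroup) < V.valuation (b i₀) := zero_lt_one.trans h1
  have hb0 : b i₀ ≠ 0 := by
    intro h0
    rw [h0, map_zero] at hpos
    exact lt_irrefl _ hpos
  have hcV : ∀ i, b i / b i₀ ∈ V := by
    intro i
    rw [← V.valuation_le_one_iff, map_div₀]
    exact div_le_one_of_le₀ (hmax i (Finset.mem_univ i)) zero_le
  have hcL : ∀ i, b i / b i₀ ∈ L₀ := fun i => L₀.div_mem (hb i) (hb i₀)
  set k := IsLocalRing.ResidueField V with hk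
  let res : V →+* k := IsLocalRing.residue V
  let cV : Fin p → V := fun i => ⟨b i / b i₀, hcV i⟩
  let yV : V := ⟨y, hy⟩
  -- the characteristic of the residue field
  have : CharP k p := by
    rw [CharP.charP_iff_prime_eq_zero hp]
    have h2 : ((p : ℕ) : V) = 0 := by
      apply Subtype.ext
      push_cast
      exact CharP.cast_eq_zero K p
    have h3 : res ((p : ℕ) : V) = 0 := by rw [h2, map_zero]
    rwa [map_natCast] at h3
  have hsum : res (∑ i, cV i * yV ^ (i : ℕ)) = 0 := by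
    have h2 : ((∑ i, cV i * yV ^ (i : ℕ) : V) : K) = (∑ i, b i * y ^ (i : ℕ)) / b i₀ := by
      push_cast
      rw [Finset.sum_div]
      refine Finset.sum_congr rfl fun i _ => ?_
      show b i / b i₀ * y ^ (i : ℕ) = _
      ring
    have h3 : (∑ i, cV i * yV ^ (i : ℕ) : V) ∈ IsLocalRing.maximalIdeal V := by
      rw [V.valuation_lt_one_iff, h2, map_div₀]
      rw [div_lt_one₀ hpos]
      exact lt_of_le_of_lt ((V.valuation_le_one_iff _).mpr hs) h1
    exact (IsLocalRing.residue_eq_zero_iff _).mpr h3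
  -- the subfield
  set k₀ := resSub V L₀ with hk₀
  let c0 : Fin p → k₀ := fun i => ⟨res (cV i), cV i, hcL i, rfl⟩
  have hypV : y ^ p ∈ V := pow_mem hy p
  let a : k₀ := ⟨res yV ^ p, ⟨y ^ p, hypV⟩, hyp, by
    show res _ = _
    rw [← map_pow]
    rfl⟩
  have hirr : Irreducible (X ^ p - C a : k₀[X]) := by
    refine X_pow_sub_C_irreducible_of_prime hp fun d hd => ?_
    obtain ⟨c, hc, hcd⟩ := mem_resSub.mp d.2
    have h2 : (d : k) ^ p = res yV ^ p := by
      have := congrArg (fun z : k₀ => (z : k)) hd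
      simpa using this
    have h3 : (d : k) = res yV := by
      have h4 : ((d : k) - res yV) ^ p = 0 := by
        rw [sub_pow_char, h2, sub_self]
      have h5 := pow_eq_zero_iff (hp.ne_zero) |>.mp h4
      exact sub_eq_zero.mp h5
    have h4 : res (yV - c) = 0 := by
      rw [map_sub, ← h3]
      show (d : k) - IsLocalRing.residue V c = 0
      rw [hcd, sub_self]
    have h5 : (yV - c : V) ∈ IsLocalRing.maximalIdeal V :=
      (IsLocalRing.residue_eq_zero_iff _).mp h4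
    obtain ⟨h6, h7⟩ := hres (c : K) hc c.2
    apply (IsLocalRing.mem_maximalIdeal (yV - c : V)).mp h5
    have h8 : y - (c : K) ≠ 0 := sub_ne_zero.mpr h7
    refine ⟨⟨yV - c, ⟨(y - (c : K))⁻¹, h6⟩, ?_, ?_⟩, rfl⟩
    · apply Subtype.ext
      show (y - (c : K)) * (y - (c : K))⁻¹ = 1
      exact mul_inv_cancel₀ h8
    · apply Subtype.ext
      show (y - (c : K))⁻¹ * (y - (c : K)) = 1
      exact inv_mul_cancel₀ h8
  have hmonic : (X ^ p - C a : k₀[X]).Monic := monic_X_pow_sub_C a hp.ne_zero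
  have hmin : minpoly k₀ (res yV) = X ^ p - C a := by
    refine (minpoly.eq_of_irreducible_of_monic hirr ?_ hmonic).symm
    rw [map_sub, map_pow, aeval_X, aeval_C]
    show res yV ^ p - (a : k) = 0
    exact sub_self _
  set g : k₀[X] := ∑ i : Fin p, C (c0 i) * X ^ (i : ℕ) with hg
  have hgdeg : g.degree < p := by
    rw [hg]
    exact degree_sum_fin_lt c0
  have hgcoeff : g.coeff (i₀ : ℕ) = 1 := by
    rw [hg, finsetSum_coeff]
    rw [Finset.sum_eq_single i₀]
    · rw [coeff_C_mul, coeff_X_pow, if_pos rfl, mul_one]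
      apply Subtype.ext
      show res (cV i₀) = 1
      have : cV i₀ = 1 := by
        apply Subtype.ext
        exact div_self hb0
      rw [this, map_one]
    · intro i _ hi
      rw [coeff_C_mul, coeff_X_pow, if_neg, mul_zero]
      intro h
      exact hi (Fin.ext h.symm)
    · intro h
      exact absurd (Finset.mem_univ _) h
  have hg0 : g ≠ 0 := by
    intro h0
    rw [h0, coeff_zero] at hgcoeff
    exact zero_ne_one hgcoeff
  have hgroot : aeval (res yV) g = 0 := by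
    rw [hg, map_sum, ← hsum, map_sum]
    refine Finset.sum_congr rfl fun i _ => ?_
    rw [map_mul, map_pow, aeval_X, aeval_C, map_mul, map_pow]
    rfl
  have hle := minpoly.degree_le_of_ne_zero k₀ (res yV) hg0 hgroot
  rw [hmin, degree_X_pow_sub_C hp.pos] at hle
  exact absurd hgdeg (not_lt.mpr hle)

theorem claimM_residue {p : ℕ} [Fact p.Prime] {K : Type} [Field K] [CharP K p]
    (V : ValuationSubring K) (L₀ : Subfield K) (x : K) (hx : x ∉ L₀) (hxp : x ^ p ∈ L₀)
    (c₀ e : K) (hc₀ : c₀ ∈ L₀) (he : e ∈ L₀) (he0 : e ≠ 0) (hy : (x - c₀) / e ∈ V)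
    (hres : ∀ c ∈ L₀, c ∈ V → ((x - c₀) / e - c)⁻¹ ∈ V)
    (S : Finset K) (hS : ∀ s ∈ S, s ∈ V ∧ ∃ a : Fin p → K, (∀ i, a i ∈ L₀) ∧
      s = ∑ i, a i * x ^ (i : ℕ)) :
    ∃ y : K, y ∈ V ∧ y ∉ L₀ ∧ (∃ a : Fin p → K, (∀ i, a i ∈ L₀) ∧ y = ∑ i, a i * x ^ (i : ℕ)) ∧
      ∀ s ∈ S, ∃ a : Fin p → K, (∀ i, a i ∈ L₀ ∧ a i ∈ V) ∧ s = ∑ i, a i * y ^ (i : ℕ) := by
  classical
  have hp : p.Prime := Fact.out
  set y := (x - c₀) / e with hydef
  have hxy : x = e * y + c₀ := by
    rw [hydef]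
    field_simp
    ring
  have hyL : y ∉ L₀ := by
    intro h
    apply hx
    rw [hxy]
    exact L₀.add_mem (L₀.mul_mem he h) hc₀
  have hyp : y ^ p ∈ L₀ := by
    rw [hydef, div_pow, sub_pow_char]
    exact L₀.div_mem (L₀.sub_mem hxp (L₀.pow_mem hc₀ _)) (L₀.pow_mem he _)
  refine ⟨y, hy, hyL, ?_, ?_⟩
  · have hp2 := hp.two_le
    refine ⟨fun i => if (i : ℕ) = 0 then -c₀ / e else if (i : ℕ) = 1 then 1 / e else 0,
      fun i => ?_, ?_⟩
    · dsimp only
      split
      · exact L₀.div_mem (L₀.neg_mem hc₀) he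
      · split
        · exact L₀.div_mem L₀.one_mem he
        · exact L₀.zero_mem
    · rw [← Finset.sum_range (fun i : ℕ => (if i = 0 then -c₀ / e else if i = 1 then 1 / e else 0)
        * x ^ i)]
      obtain ⟨m, rfl⟩ : ∃ m, p = m + 2 := ⟨p - 2, by omega⟩
      rw [Finset.sum_range_succ', Finset.sum_range_succ']
      rw [Finset.sum_eq_zero]
      · simp only [zero_add, if_true, pow_zero, pow_one, one_ne_zero, if_false, mul_one]
        rw [hydef]
        field_simp
        ring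
      · intro i _
        simp
  · intro s hs
    obtain ⟨hsV, a, ha, hsa⟩ := hS s hs
    set P : L₀[X] := ∑ i : Fin p, C (⟨a i, ha i⟩ : L₀) *
      (C (⟨e, he⟩ : L₀) * X + C (⟨c₀, hc₀⟩ : L₀)) ^ (i : ℕ) with hP
    have hPdeg : P.natDegree < p := by
      rw [hP]
      refine lt_of_le_of_lt (natDegree_sum_le_of_forall_le (n := p - 1) _ _ ?_)
        (Nat.sub_lt hp.pos one_pos)
      intro i _
      refine (natDegree_C_mul_le _ _).trans ?_
      refine natDegree_pow_le.trans ?_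
      have h1 : (C (⟨e, he⟩ : L₀) * X + C (⟨c₀, hc₀⟩ : L₀)).natDegree ≤ 1 := natDegree_linear_le
      calc (i : ℕ) * _ ≤ (i : ℕ) * 1 := Nat.mul_le_mul_left _ h1
        _ ≤ p - 1 := by rw [mul_one]; have := i.2; omega
    have hPy : aeval y P = s := by
      rw [hP, map_sum, hsa]
      refine Finset.sum_congr rfl fun i _ => ?_
      rw [map_mul, map_pow, map_add, map_mul, aeval_C, aeval_C, aeval_C, aeval_X]
      show a i * (e * y + c₀) ^ (i : ℕ) = _
      rw [← hxy]
    have hsum : ∑ i : Fin p, ((P.coeff (i : ℕ) : L₀) : K) * y ^ (i : ℕ) = s := by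
      rw [← hPy, aeval_eq_sum_range' hPdeg, Finset.sum_range]
      rfl
    have hmem := mem_of_residue V L₀ y hy hyp (fun c hc hcV => ⟨hres c hc hcV, fun h => hyL (h ▸ hc)⟩)
      (fun i => ((P.coeff (i : ℕ) : L₀) : K)) (fun i => (P.coeff (i : ℕ)).2)
      (by rw [hsum]; exact hsV)
    exact ⟨fun i => ((P.coeff (i : ℕ) : L₀) : K), fun i => ⟨(P.coeff (i : ℕ)).2, hmem i⟩, hsum.symm⟩

end Pool.Agent.W_MP_b723a0_ag.P
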