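import Mathlib
import Pool.Agent.W_MP_b723a0_ag.P.Defs
import Pool.Agent.W_MP_b723a0_ag.P.MonoCase
import Pool.Agent.W_MP_b723a0_ag.P.ResidueCase
import Pool.Agent.W_MP_b723a0_ag.P.ImmediateCase

/-!
# Task V1: one step of the tower

Proof. If for every `c ∈ L₀` there is `c' ∈ L₀` with `v(x-c') < v(x-c)` (multiplicative
valuation), use `claimM_immediate`. Otherwise there is `c₀ ∈ L₀` with `v(x-c₀) ≤ v(x-c)` for all
`c ∈ L₀`. Let `x₁ = x - c₀ ∉ L₀`, `x₁^p = x^p - c₀^p ∈ L₀`. If `v(x₁) ≠ v(e)` for all nonzero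
`e ∈ L₀`, apply `claimM_mono` to `x₁` (rewrite polynomials of degree `< p` in `x` as polynomials
in `x₁` and back). Otherwise `v(x₁) = v(e)`; use `claimM_residue`: `(x-c₀)/e ∈ V`, and for
`c ∈ V₀`: `v((x-c₀)/e - c) = v(x - (c₀ + e c))/v(e) ≥ v(x-c₀)/v(e) = 1`, so its inverse is in `V`.
-/

namespace Pool.Agent.W_MP_b723a0_ag.P

section ClaimMAux

variable {K : Type} [Field K]

/-- Polynomials of degree `< p` in `x` with coefficients in `L₀`. -/
def CmPol (p : ℕ) (L₀ : Subfield K) (x s : K) : Prop :=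
  ∃ a : Fin p → K, (∀ i, a i ∈ L₀) ∧ s = ∑ i, a i * x ^ (i : ℕ)

theorem CmPol.zero (p : ℕ) (L₀ : Subfield K) (x : K) : CmPol p L₀ x 0 :=
  ⟨fun _ => 0, fun _ => L₀.zero_mem, by simp⟩

theorem CmPol.add {p : ℕ} {L₀ : Subfield K} {x s t : K} (hs : CmPol p L₀ x s)
    (ht : CmPol p L₀ x t) : CmPol p L₀ x (s + t) := by
  obtain ⟨a, ha, rfl⟩ := hs
  obtain ⟨b, hb, rfl⟩ := ht
  refine ⟨fun i => a i + b i, fun i => L₀.add_mem (ha i) (hb i), ?_⟩
  rw [← Finset.sum_add_distrib]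
  exact Finset.sum_congr rfl fun i _ => by ring

theorem CmPol.sum {p : ℕ} {L₀ : Subfield K} {x : K} {ι : Type*} (T : Finset ι)
    (f : ι → K) (h : ∀ i ∈ T, CmPol p L₀ x (f i)) : CmPol p L₀ x (∑ i ∈ T, f i) := by
  classical
  induction T using Finset.induction_on with
  | empty => simpa using CmPol.zero p L₀ x
  | insert a T ha ih =>
    rw [Finset.sum_insert ha]
    exact (h a (Finset.mem_insert_self a T)).add
      (ih fun i hi => h i (Finset.mem_insert_of_mem hi))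

theorem CmPol.monomial {p : ℕ} {L₀ : Subfield K} {x : K} (c : K) (hc : c ∈ L₀) (j : ℕ)
    (hj : j < p) : CmPol p L₀ x (c * x ^ j) := by
  classical
  refine ⟨fun i => if i = ⟨j, hj⟩ then c else 0, fun i => ?_, ?_⟩
  · dsimp only
    split
    · exact hc
    · exact L₀.zero_mem
  · rw [Finset.sum_eq_single ⟨j, hj⟩]
    · simp
    · intro b _ hb
      simp [hb]
    · intro h
      exact absurd (Finset.mem_univ _) h

/-- Change of the variable by a translation. -/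
theorem CmPol.shift {p : ℕ} {L₀ : Subfield K} {x s : K} (hs : CmPol p L₀ x s) (c₀ : K)
    (hc₀ : c₀ ∈ L₀) : CmPol p L₀ (x - c₀) s := by
  obtain ⟨a, ha, rfl⟩ := hs
  refine CmPol.sum _ _ fun i _ => ?_
  have hx : x = (x - c₀) + c₀ := by ring
  have h1 : a i * x ^ (i : ℕ) = ∑ m ∈ Finset.range ((i : ℕ) + 1),
      (a i * (c₀ ^ ((i : ℕ) - m) * ((i : ℕ).choose m : K))) * (x - c₀) ^ m := by
    conv_lhs => rw [hx, add_pow, Finset.mul_sum]
    exact Finset.sum_congr rfl fun m _ => by ring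
  rw [h1]
  refine CmPol.sum _ _ fun m hm => ?_
  refine CmPol.monomial _ (L₀.mul_mem (ha i) (L₀.mul_mem (L₀.pow_mem hc₀ _)
    (natCast_mem L₀ _))) m ?_
  have h2 := Finset.mem_range.1 hm
  have h3 := i.2
  omega

end ClaimMAux

theorem claimM {p : ℕ} [Fact p.Prime] {K : Type} [Field K] [CharP K p]
    (V : ValuationSubring K) (L₀ : Subfield K) (x : K) (hx : x ∉ L₀) (hxp : x ^ p ∈ L₀)
    (S : Finset K) (hS : ∀ s ∈ S, s ∈ V ∧ ∃ a : Fin p → K, (∀ i, a i ∈ L₀) ∧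
      s = ∑ i, a i * x ^ (i : ℕ)) :
    ∃ y : K, y ∈ V ∧ y ∉ L₀ ∧ (∃ a : Fin p → K, (∀ i, a i ∈ L₀) ∧ y = ∑ i, a i * x ^ (i : ℕ)) ∧
      ∀ s ∈ S, ∃ a : Fin p → K, (∀ i, a i ∈ L₀ ∧ a i ∈ V) ∧ s = ∑ i, a i * y ^ (i : ℕ) := by
  by_cases himm : ∀ c ∈ L₀, ∃ c' ∈ L₀, V.valuation (x - c') < V.valuation (x - c)
  · exact claimM_immediate V L₀ x hx hxp himm S hS
  push Not at himm
  obtain ⟨c₀, hc₀, hmin⟩ := himm
  have hx₁ : x - c₀ ∉ L₀ := by
    intro h
    apply hx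
    have := L₀.add_mem h hc₀
    rwa [sub_add_cancel] at this
  have hx₁p : (x - c₀) ^ p ∈ L₀ := by
    rw [sub_pow_char]
    exact L₀.sub_mem hxp (L₀.pow_mem hc₀ _)
  by_cases hram : ∀ e ∈ L₀, e ≠ 0 → ¬ ((x - c₀) / e ∈ V ∧ e / (x - c₀) ∈ V)
  · obtain ⟨y, h1, h2, h3, h4⟩ := claimM_mono V L₀ (x - c₀) hx₁ hx₁p hram S (fun s hs =>
      ⟨(hS s hs).1, CmPol.shift (hS s hs).2 c₀ hc₀⟩)
    refine ⟨y, h1, h2, ?_, h4⟩
    have h5 := CmPol.shift (x := x - c₀) h3 (-c₀) (L₀.neg_mem hc₀)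
    have h6 : x - c₀ - -c₀ = x := by ring
    rw [h6] at h5
    exact h5
  · push Not at hram
    obtain ⟨e, he, he0, hy1, hy2⟩ := hram
    refine claimM_residue V L₀ x hx hxp c₀ e hc₀ he he0 hy1 ?_ S hS
    intro c hc hcV
    rw [← V.valuation_le_one_iff, map_inv₀]
    have hve : V.valuation e ≠ 0 := by
      rw [Ne, map_eq_zero]
      exact he0
    have hx₁0 : x - c₀ ≠ 0 := fun h => hx₁ (h ▸ L₀.zero_mem)
    have hvx : V.valuation (x - c₀) ≠ 0 := by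
      rw [Ne, map_eq_zero]
      exact hx₁0
    have hle : V.valuation e ≤ V.valuation (x - c₀) := by
      rw [← V.valuation_le_one_iff, map_div₀] at hy2
      rwa [div_le_one₀ (zero_lt_iff.2 hvx)] at hy2
    have h1 : (x - c₀) / e - c = (x - (c₀ + e * c)) / e := by
      field_simp
      ring
    have h2 := hmin (c₀ + e * c) (L₀.add_mem hc₀ (L₀.mul_mem he hc))
    have h3 : 1 ≤ V.valuation ((x - c₀) / e - c) := by
      rw [h1, map_div₀, one_le_div₀ (zero_lt_iff.2 hve)]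
      exact hle.trans h2
    exact inv_le_one_of_one_le₀ h3

end Pool.Agent.W_MP_b723a0_ag.P
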