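import Mathlib
import Pool.Agent.W_MP_b723a0_ag.P.Defs
import Pool.Agent.W_MP_b723a0_ag.P.PtBasics
import Pool.Agent.W_MP_b723a0_ag.P.ClaimM

/-!
# Task V2: p-bases adapted to a valuation ring

`lemmaP`. Let `K^p = {a^p}` (a subfield), `K = K^p[x_1, ..., x_s]` (`FGp`), and let
`L_j = K^p[x_1, ..., x_j]` (a subfield: it is a ring generated by elements `x_i` with
`x_i^p ∈ K^p`, so finite over `K^p`). Claim for `j = 0, ..., s`: for each finite `S ⊂ V ∩ L_j`
there are `n` and `y : Fin n → K` with `y_l ∈ V ∩ L_j`, every `a ∈ L_j` uniquely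
`a = ∑_I c_I^p y^I` (`I : Fin n → Fin p`), and for `a ∈ S` the coefficients `c_I` are in `V`.
Induction on `j`. `j = 0`: `L_0 = K^p`, `n = 0`; `c^p ∈ V → c ∈ V` (a valuation ring is integrally
closed). Step: if `x_{j+1} ∈ L_j` then `L_{j+1} = L_j`. Otherwise every element of `L_{j+1}` is
uniquely `∑_{i<p} a_i x_{j+1}^i` with `a_i ∈ L_j` (`x_{j+1}^p ∈ L_j`, `x_{j+1} ∉ L_j`, so
`X^p - x_{j+1}^p` is irreducible over `L_j`). Apply `claimM` with `L₀ = L_j`, `x = x_{j+1}` and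
`S`; we get `y ∈ V ∩ L_{j+1}`, `y ∉ L_j`, `S ⊂ ∑_{i<p} (V ∩ L_j) y^i`. Let `S'` be the set of all
coefficients; by induction there are `y_1, ..., y_n` for `S'`; then `y_1, ..., y_n, y` works (every
element of `L_{j+1}` is uniquely `∑_{i<p} a_i y^i`, `a_i ∈ L_j`, because `y ∉ L_j` and `y^p ∈ K^p ⊂ L_j`
so `1, ..., y^{p-1}` is a basis of the `p`-dimensional `L_j`-vector space `L_{j+1}`).

`exists_pbasis`: `V = ⊤`, `S = ∅`.

`gen_fgp`: let `pt.Gen κ`, `κ` perfect. For `a ∈ K`, `a = ev g / ev h = ev (g h^{p-1}) / (ev h)^p`,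
and `ev (g h^{p-1})` is a polynomial in the coordinates `pt.val x` with coefficients in
`κ = κ^p ⊂ K^p`. So `K = K^p[pt.val x : x ∈ Vr N q]`.
-/

namespace Pool.Agent.W_MP_b723a0_ag.P

open Polynomial IntermediateField

section lemmaPaux

variable {p : ℕ} [Fact p.Prime] {K : Type} [Field K]

theorem lpa_irred [CharP K p] (L : Subfield K) (x : K) (hx : x ∉ L) (hxp : x ^ p ∈ L) :
    Irreducible (X ^ p - C (⟨x ^ p, hxp⟩ : L)) := by
  refine X_pow_sub_C_irreducible_of_prime (Fact.out : p.Prime) fun b hb => hx ?_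
  have h1 : (b : K) ^ p = x ^ p := by
    have := congrArg (fun t : L => (t : K)) hb
    simpa using this
  have h2 : (b : K) = x := by
    apply frobenius_inj K p
    simpa [frobenius_def] using h1
  rw [← h2]
  exact b.2

theorem lpa_minpoly [CharP K p] (L : Subfield K) (x : K) (hx : x ∉ L) (hxp : x ^ p ∈ L) :
    minpoly L x = X ^ p - C (⟨x ^ p, hxp⟩ : L) := by
  refine (minpoly.eq_of_irreducible_of_monic (lpa_irred L x hx hxp) ?_ ?_).symm
  · simp only [map_sub, map_pow, aeval_X, aeval_C]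
    exact sub_self _
  · exact monic_X_pow_sub_C _ (Fact.out : p.Prime).ne_zero

theorem lpa_integral [CharP K p] (L : Subfield K) (x : K) (hx : x ∉ L) (hxp : x ^ p ∈ L) :
    IsIntegral L x := by
  refine ⟨X ^ p - C (⟨x ^ p, hxp⟩ : L), monic_X_pow_sub_C _ (Fact.out : p.Prime).ne_zero, ?_⟩
  rw [← aeval_def]
  simp only [map_sub, map_pow, aeval_X, aeval_C]
  exact sub_self _

/-- The elements of `L(x)`. -/
theorem lpa_mem [CharP K p] (L : Subfield K) (x : K) (hx : x ∉ L) (hxp : x ^ p ∈ L) (b : K) :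
    b ∈ L⟮x⟯ ↔ ∃ a : Fin p → K, (∀ i, a i ∈ L) ∧ b = ∑ i, a i * x ^ (i : ℕ) := by
  have hint := lpa_integral L x hx hxp
  rw [← IntermediateField.mem_toSubalgebra,
    IntermediateField.adjoin_simple_toSubalgebra_of_isAlgebraic hint.isAlgebraic,
    Algebra.adjoin_singleton_eq_range_aeval]
  constructor
  · rintro ⟨P, rfl⟩
    set Q : L[X] := X ^ p - C (⟨x ^ p, hxp⟩ : L) with hQ
    have hQm : Q.Monic := monic_X_pow_sub_C _ (Fact.out : p.Prime).ne_zero
    have hQ0 : aeval x Q = 0 := by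
      rw [hQ]
      simp only [map_sub, map_pow, aeval_X, aeval_C]
      exact sub_self _
    have hdeg : (P %ₘ Q).natDegree < p := by
      have h := natDegree_modByMonic_lt P hQm (by
        intro h1
        have := congrArg natDegree h1
        rw [hQ, natDegree_X_pow_sub_C, natDegree_one] at this
        exact (Fact.out : p.Prime).ne_zero this)
      rwa [hQ, natDegree_X_pow_sub_C] at h
    refine ⟨fun i => ((P %ₘ Q).coeff i : K), fun i => SetLike.coe_mem _, ?_⟩
    change aeval x P = _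
    rw [← aeval_modByMonic_eq_self_of_root hQ0, aeval_eq_sum_range' hdeg, Finset.sum_range]
    rfl
  · rintro ⟨a, ha, rfl⟩
    refine ⟨∑ i : Fin p, C (⟨a i, ha i⟩ : L) * X ^ (i : ℕ), ?_⟩
    change aeval x _ = _
    simp only [map_sum, map_mul, map_pow, aeval_X, aeval_C]
    rfl

theorem lpa_unique [CharP K p] (L : Subfield K) (x : K) (hx : x ∉ L) (hxp : x ^ p ∈ L)
    (a a' : Fin p → K) (ha : ∀ i, a i ∈ L) (ha' : ∀ i, a' i ∈ L)
    (h : ∑ i, a i * x ^ (i : ℕ) = ∑ i, a' i * x ^ (i : ℕ)) : a = a' := by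
  set P : L[X] := ∑ i : Fin p, C (⟨a i - a' i, L.sub_mem (ha i) (ha' i)⟩ : L) * X ^ (i : ℕ) with hP
  have h0 : aeval x P = 0 := by
    rw [hP]
    simp only [map_sum, map_mul, map_pow, aeval_X, aeval_C]
    change ∑ i, (a i - a' i) * x ^ (i : ℕ) = 0
    simp only [sub_mul, Finset.sum_sub_distrib, h, sub_self]
  have hdeg : P.degree < (p : ℕ) := by
    rw [hP]
    refine (degree_sum_le _ _).trans_lt ?_
    rw [Finset.sup_lt_iff (by exact WithBot.bot_lt_coe p)]
    intro i _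
    refine (degree_C_mul_X_pow_le _ _).trans_lt ?_
    exact_mod_cast i.2
  have hP0 : P = 0 := by
    by_contra hne
    have h1 := minpoly.degree_le_of_ne_zero L x hne h0
    rw [lpa_minpoly L x hx hxp, degree_X_pow_sub_C (Fact.out : p.Prime).pos] at h1
    exact absurd h1 (not_le.2 hdeg)
  funext i
  have h2 : P.coeff i = (⟨a i - a' i, L.sub_mem (ha i) (ha' i)⟩ : L) := by
    rw [hP, finset_sum_coeff]
    rw [Finset.sum_eq_single i]
    · simp
    · intro j _ hj
      rw [coeff_C_mul_X_pow, if_neg]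
      intro hij
      exact hj (Fin.ext hij.symm)
    · intro h; exact absurd (Finset.mem_univ _) h
  rw [hP0, coeff_zero] at h2
  have h3 := congrArg (fun t : L => (t : K)) h2
  simp only [ZeroMemClass.coe_zero] at h3
  exact (sub_eq_zero.1 h3.symm)

theorem lpa_eq [CharP K p] (L : Subfield K) (x y : K) (hx : x ∉ L) (hxp : x ^ p ∈ L)
    (hy : y ∉ L) (hyp : y ^ p ∈ L) (hyx : y ∈ L⟮x⟯) : L⟮y⟯ = L⟮x⟯ := by
  have hix := lpa_integral L x hx hxp
  have hiy := lpa_integral L y hy hyp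
  haveI : FiniteDimensional L L⟮x⟯ := IntermediateField.adjoin.finiteDimensional hix
  refine IntermediateField.eq_of_le_of_finrank_eq ?_ ?_
  · rw [IntermediateField.adjoin_simple_le_iff]
    exact hyx
  · rw [IntermediateField.adjoin.finrank hix, IntermediateField.adjoin.finrank hiy,
      lpa_minpoly L x hx hxp, lpa_minpoly L y hy hyp, natDegree_X_pow_sub_C,
      natDegree_X_pow_sub_C]

theorem lpa_root (V : ValuationSubring K) {c : K} (hc : c ^ p ∈ V) : c ∈ V := by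
  rcases V.mem_or_inv_mem c with h | h
  · exact h
  · by_cases h0 : c = 0
    · rw [h0]; exact V.zero_mem
    · have hp : 1 ≤ p := (Fact.out : p.Prime).one_le
      have e : c = c ^ p * (c⁻¹) ^ (p - 1) := by
        obtain ⟨q, rfl⟩ : ∃ q, p = q + 1 := ⟨p - 1, by omega⟩
        rw [Nat.add_sub_cancel, inv_pow, pow_succ]
        field_simp
      rw [e]
      exact V.mul_mem _ _ hc (pow_mem h _)

/-- The adapted basis property of a subfield. -/
def LpQ (p : ℕ) {K : Type} [Field K] (V : ValuationSubring K) (L : Subfield K) : Prop :=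
  (∀ a : K, a ^ p ∈ L) ∧ ∀ S : Finset K, (∀ s ∈ S, s ∈ V ∧ s ∈ L) →
    ∃ (n : ℕ) (y : Fin n → K), (∀ l, y l ∈ V ∧ y l ∈ L) ∧
      (∀ a ∈ L, ∃! c : (Fin n → Fin p) → K, a = ∑ I, c I ^ p * ∏ l, y l ^ (I l : ℕ)) ∧
      ∀ s ∈ S, ∃ c : (Fin n → Fin p) → K, (∀ I, c I ∈ V) ∧
        s = ∑ I, c I ^ p * ∏ l, y l ^ (I l : ℕ)

theorem lpq_base [CharP K p] (V : ValuationSubring K) : LpQ p V (frobenius K p).fieldRange := by
  refine ⟨fun a => ⟨a, rfl⟩, fun S hS => ?_⟩
  refine ⟨0, Fin.elim0, fun l => l.elim0, ?_, ?_⟩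
  · rintro a ⟨b, hb⟩
    refine ⟨fun _ => b, ?_, ?_⟩
    · simp only [Finset.univ_unique, Finset.sum_singleton, Finset.univ_eq_empty,
        Finset.prod_empty, mul_one]
      rw [← hb, frobenius_def]
    · intro c hc
      simp only [Finset.univ_unique, Finset.sum_singleton, Finset.univ_eq_empty,
        Finset.prod_empty, mul_one] at hc
      funext I
      have hc' : a = c I ^ p := hc.trans (congrArg (fun J => c J ^ p) (Subsingleton.elim _ _))
      apply frobenius_inj K p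
      rw [hb, frobenius_def]
      exact hc'.symm
  · intro s hs
    obtain ⟨hV, b, hb⟩ := hS s hs
    refine ⟨fun _ => b, fun _ => ?_, ?_⟩
    · refine lpa_root (p := p) V ?_
      rw [← frobenius_def, hb]
      exact hV
    · simp only [Finset.univ_unique, Finset.sum_singleton, Finset.univ_eq_empty,
        Finset.prod_empty, mul_one]
      rw [← hb, frobenius_def]

/-- Splitting off the first coordinate. -/
theorem lpq_split {n : ℕ} (z : K) (y : Fin n → K) (c : (Fin (n + 1) → Fin p) → K) :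
    (∑ I, c I ^ p * ∏ l, (Fin.cons z y : Fin (n + 1) → K) l ^ (I l : ℕ)) =
      ∑ i : Fin p, (∑ I : Fin n → Fin p, c (Fin.cons i I) ^ p * ∏ l, y l ^ (I l : ℕ)) *
        z ^ (i : ℕ) := by
  rw [← (Fin.consEquiv (fun _ : Fin (n + 1) => Fin p)).sum_comp, Fintype.sum_prod_type]
  refine Finset.sum_congr rfl fun i _ => ?_
  rw [Finset.sum_mul]
  refine Finset.sum_congr rfl fun I _ => ?_
  have e1 : (Fin.consEquiv (fun _ : Fin (n + 1) => Fin p)) (i, I) = Fin.cons i I := rfl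
  simp only [e1, Fin.prod_univ_succ, Fin.cons_zero, Fin.cons_succ]
  ring

theorem lpq_step [CharP K p] (V : ValuationSubring K) (L : Subfield K) (hL : LpQ p V L) (x : K)
    (hx : x ∉ L) : LpQ p V (L⟮x⟯).toSubfield := by
  obtain ⟨hp, hQ⟩ := hL
  have hLx : ∀ a ∈ L, a ∈ (L⟮x⟯).toSubfield := fun a ha =>
    (L⟮x⟯).algebraMap_mem ⟨a, ha⟩
  refine ⟨fun a => hLx _ (hp a), fun S hS => ?_⟩
  have hmem : ∀ b : K, b ∈ (L⟮x⟯).toSubfield ↔
      ∃ a : Fin p → K, (∀ i, a i ∈ L) ∧ b = ∑ i, a i * x ^ (i : ℕ) := fun b => by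
    rw [IntermediateField.mem_toSubfield]
    exact lpa_mem L x hx (hp x) b
  obtain ⟨y, hyV, hyL, hyx, hyS⟩ := claimM V L x hx (hp x) S fun s hs =>
    ⟨(hS s hs).1, (hmem s).1 (hS s hs).2⟩
  have hyx' : y ∈ L⟮x⟯ := (lpa_mem L x hx (hp x) y).2 hyx
  have hyeq := lpa_eq L x y hx (hp x) hyL (hp y) hyx'
  have hmem' : ∀ b : K, b ∈ (L⟮x⟯).toSubfield ↔
      ∃ a : Fin p → K, (∀ i, a i ∈ L) ∧ b = ∑ i, a i * y ^ (i : ℕ) := fun b => by
    rw [IntermediateField.mem_toSubfield, ← hyeq]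
    exact lpa_mem L y hyL (hp y) b
  choose! A hA hAs using hyS
  classical
  obtain ⟨n, w, hw, hwu, hwS⟩ := hQ (S.biUnion fun s => Finset.univ.image fun i => A s i) (by
    intro t ht
    simp only [Finset.mem_biUnion, Finset.mem_image, Finset.mem_univ, true_and] at ht
    obtain ⟨s, hs, i, rfl⟩ := ht
    exact ⟨(hA s hs i).2, (hA s hs i).1⟩)
  refine ⟨n + 1, Fin.cons y w, ?_, ?_, ?_⟩
  · intro l
    refine Fin.cases ?_ (fun l => ?_) l
    · rw [Fin.cons_zero]
      exact ⟨hyV, hyx'⟩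
    · rw [Fin.cons_succ]
      exact ⟨(hw l).1, hLx _ (hw l).2⟩
  · intro a ha
    obtain ⟨b, hb, hab⟩ := (hmem' a).1 ha
    have hcoef : ∀ c : (Fin n → Fin p) → K,
        (∑ I : Fin n → Fin p, c I ^ p * ∏ l, w l ^ (I l : ℕ)) ∈ L := fun c =>
      L.sum_mem fun I _ => L.mul_mem (hp _) (L.prod_mem fun l _ => L.pow_mem (hw l).2 _)
    choose! c hc hcu using fun i => hwu (b i) (hb i)
    refine ⟨fun I => c (I 0) (Fin.tail I), ?_, ?_⟩
    · simp only
      rw [lpq_split, hab]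
      refine Finset.sum_congr rfl fun i _ => ?_
      congr 1
      simp only [Fin.cons_zero, Fin.tail_cons]
      exact hc i
    · intro d hd
      rw [lpq_split, hab] at hd
      have h1 := lpa_unique L y hyL (hp y) _ _ hb (fun i => hcoef _) hd
      funext I
      have h2 := hcu (I 0) (fun J => d (Fin.cons (I 0) J)) (congrFun h1 (I 0))
      have h3 := congrFun h2 (Fin.tail I)
      simp only [Fin.cons_self_tail] at h3
      exact h3
  · intro s hs
    have h1 : ∀ i, ∃ c : (Fin n → Fin p) → K, (∀ I, c I ∈ V) ∧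
        A s i = ∑ I, c I ^ p * ∏ l, w l ^ (I l : ℕ) := fun i => hwS (A s i) (by
      simp only [Finset.mem_biUnion, Finset.mem_image, Finset.mem_univ, true_and]
      exact ⟨s, hs, i, rfl⟩)
    choose c hcV hc using h1
    refine ⟨fun I => c (I 0) (Fin.tail I), fun I => hcV _ _, ?_⟩
    rw [lpq_split, hAs s hs]
    refine Finset.sum_congr rfl fun i _ => ?_
    simp only [Fin.cons_zero, Fin.tail_cons]
    rw [hc i]

theorem lpq_exists [CharP K p] (V : ValuationSubring K) (T : Finset K) :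
    ∃ L : Subfield K, LpQ p V L ∧ ∀ t ∈ T, t ∈ L := by
  classical
  induction T using Finset.induction_on with
  | empty => exact ⟨_, lpq_base V, fun t ht => absurd ht (Finset.notMem_empty t)⟩
  | insert x T _ ih =>
    obtain ⟨L, hL, hT⟩ := ih
    by_cases hx : x ∈ L
    · refine ⟨L, hL, fun t ht => ?_⟩
      rcases Finset.mem_insert.1 ht with rfl | ht
      · exact hx
      · exact hT t ht
    · refine ⟨(L⟮x⟯).toSubfield, lpq_step V L hL x hx, fun t ht => ?_⟩
      rcases Finset.mem_insert.1 ht with rfl | ht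
      · exact IntermediateField.mem_adjoin_simple_self L t
      · exact (L⟮x⟯).algebraMap_mem ⟨t, hT t ht⟩

end lemmaPaux

theorem lemmaP {p : ℕ} [Fact p.Prime] {K : Type} [Field K] [CharP K p] (hK : FGp p K)
    (V : ValuationSubring K) (S : Finset K) (hS : ∀ s ∈ S, s ∈ V) :
    ∃ (n : ℕ) (y : Fin n → K), PBasis p y ∧ (∀ l, y l ∈ V) ∧
      ∀ s ∈ S, ∃ c : (Fin n → Fin p) → K, (∀ I, c I ∈ V) ∧
        s = ∑ I, c I ^ p * ∏ l, y l ^ (I l : ℕ) := by
  classical
  obtain ⟨m, x, hx⟩ := hK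
  obtain ⟨L, hL, hT⟩ := lpq_exists (p := p) V (Finset.univ.image x)
  have htop : ∀ a : K, a ∈ L := by
    intro a
    obtain ⟨G, rfl⟩ := hx a
    rw [MvPolynomial.eval₂_eq]
    refine L.sum_mem fun d _ => L.mul_mem (hL.1 _) (L.prod_mem fun i _ => L.pow_mem ?_ _)
    exact hT _ (Finset.mem_image_of_mem _ (Finset.mem_univ i))
  obtain ⟨n, y, hy, hyu, hyS⟩ := hL.2 S fun s hs => ⟨hS s hs, htop s⟩
  exact ⟨n, y, fun a => hyu a (htop a), fun l => (hy l).1, hyS⟩

theorem exists_pbasis {p : ℕ} [Fact p.Prime] {K : Type} [Field K] [CharP K p] (hK : FGp p K) :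
    ∃ (n : ℕ) (y : Fin n → K), PBasis p y := by
  obtain ⟨n, y, h, _⟩ := lemmaP hK ⊤ ∅ (by simp)
  exact ⟨n, y, h⟩

theorem gen_fgp {p : ℕ} [Fact p.Prime] {κ : Type} [Field κ] [CharP κ p] [PerfectRing κ p]
    {K : Type} [Field K] [CharP K p] [Algebra κ K] {N q : ℕ} (pt : Pt N q K) (hG : pt.Gen κ) :
    FGp p K := by
  classical
  let e : Vr N q ≃ Fin (Fintype.card (Vr N q)) := Fintype.equivFin _
  refine ⟨Fintype.card (Vr N q), fun i => pt.val (e.symm i), fun a => ?_⟩
  obtain ⟨m, g, h, _, _, hh, hgh⟩ := hG a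
  let φ : κ →+* K := (algebraMap κ K).comp ((frobeniusEquiv κ p).symm : κ →+* κ)
  have hφ : (frobenius K p).comp φ = algebraMap κ K := by
    ext c
    simp only [φ, RingHom.comp_apply, frobenius_def]
    rw [← map_pow]
    congr 1
    exact frobeniusEquiv_symm_pow_p κ p c
  have hev : ∀ r : Sr κ N q, MvPolynomial.eval₂ (frobenius K p) (fun i => pt.val (e.symm i))
      (MvPolynomial.rename e (MvPolynomial.map φ r)) = pt.ev κ r := by
    intro r
    rw [MvPolynomial.eval₂_rename, MvPolynomial.eval₂_map, hφ]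
    unfold Pt.ev
    rw [MvPolynomial.aeval_def]
    congr 1
    funext i
    simp
  refine ⟨MvPolynomial.C ((pt.ev κ h)⁻¹) *
    MvPolynomial.rename e (MvPolynomial.map φ (g * h ^ (p - 1))), ?_⟩
  rw [MvPolynomial.eval₂_mul, MvPolynomial.eval₂_C, hev, map_mul, map_pow, ← hgh, frobenius_def]
  obtain ⟨q', hq'⟩ : ∃ q', p = q' + 1 := ⟨p - 1, by
    have := (Fact.out : p.Prime).one_le
    omega⟩
  rw [hq', Nat.add_sub_cancel]
  have h3 : ((pt.ev κ h)⁻¹) ^ (q' + 1) * (pt.ev κ h) ^ (q' + 1) = 1 := by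
    rw [← mul_pow, inv_mul_cancel₀ hh, one_pow]
  calc a = a * 1 := (mul_one a).symm
    _ = a * (((pt.ev κ h)⁻¹) ^ (q' + 1) * (pt.ev κ h) ^ (q' + 1)) := by rw [h3]
    _ = _ := by rw [pow_succ (pt.ev κ h)]; ring

end Pool.Agent.W_MP_b723a0_ag.P
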