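import Mathlib
import Pool.Agent.W_MP_b723a0_ag.P.Defs
import Pool.Agent.W_MP_b723a0_ag.P.ArtinSchreier
import Pool.Agent.W_MP_b723a0_ag.P.LemmaP
import Pool.Agent.W_MP_b723a0_ag.P.HolLoc

/-!
# Task V4: a finite cover by charts

Let `𝔸 = hol p κ K`. For a maximal ideal `m` of `𝔸` let `V = 𝔸_m` (`hol_locVal`,
`exists_locRing`), choose `l` with `z_l ≠ 0`, `z_b/z_l ∈ V` for all `b` (`exists_min_coord`), and
apply `lemmaP` to `S = {t_j} ∪ {z_b/z_l}`: a p-basis `v` of `K` in `V` with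
`t_j = ∑_I e_{jI}^p v^I`, `z_b/z_l = ∑_I c_{bI}^p v^I`, and `e_{jI}, c_{bI}, v_x ∈ V`. There is
`g ∈ 𝔸 ∖ m` with `g v_x, g e_{jI}, g c_{bI} ∈ 𝔸` (common denominator, finitely many elements of the
localisation). The elements `g = g_m` (for all maximal `m`), hence also their powers `g_m^D`,
`D = 1 + n (p-1)` (`n = n_m` the size of the p-basis, depends on `m`), generate the unit ideal of
`𝔸` (not contained in any maximal ideal). So there are finitely many `m_α` and `δ_α ∈ g_α^{D_α} 𝔸`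
with `∑ δ_α = 1`. The chart `α`: `v'_x = g_α^p v_x ∈ 𝔸` (as `p ≥ 1`, `g v_x ∈ 𝔸`), again a p-basis
(`∑ c_I^p v'^I = ∑ (c_I g^{|I|})^p v^I`, `|I| = ∑ I_x`), `δ_α`, `l_α`,
`e'_{jI} = δ_α e_{jI} g_α^{-|I|} ∈ 𝔸`, `c'_{bI} = δ_α c_{bI} g_α^{-|I|} ∈ 𝔸`, because
`|I| + 1 ≤ n (p-1) + 1 = D`. Then `∑_I e'^p v'^I = δ_α^p ∑_I e^p v^I = δ_α^p t_j` and
`z_l ∑_I c'^p v'^I = δ_α^p z_b`.
-/

namespace Pool.Agent.W_MP_b723a0_ag.P

/-- Finitely many elements of the localisation have a common denominator. -/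
theorem cover_common_den {K : Type} [Field K] (A : Subring K) (m : Ideal A) (hm : m.IsMaximal)
    {ι : Type*} [Fintype ι] (f : ι → K) (hf : ∀ i, InLoc A m (f i)) :
    ∃ g : A, g ∉ m ∧ ∀ i, (g : K) * f i ∈ A := by
  classical
  have hp : m.IsPrime := hm.isPrime
  choose a s hs h using hf
  refine ⟨∏ i, s i, ?_, fun i => ?_⟩
  · intro hmem
    obtain ⟨i, _, hi⟩ := (Ideal.IsPrime.prod_mem_iff (s := Finset.univ)).1 hmem
    exact hs i hi
  · rw [← Finset.prod_erase_mul _ _ (Finset.mem_univ i)]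
    have h1 : ((((∏ j ∈ Finset.univ.erase i, s j) * s i : A) : K)) * f i =
        ((∏ j ∈ Finset.univ.erase i, s j : A) : K) * (a i : K) := by
      rw [← h i]
      push_cast
      ring
    rw [h1]
    exact A.mul_mem (SetLike.coe_mem _) (SetLike.coe_mem _)

/-- The sum of the exponents. -/
def cover_len {p n : ℕ} (I : Fin n → Fin p) : ℕ := ∑ x, (I x : ℕ)

theorem cover_len_le {p n : ℕ} (I : Fin n → Fin p) : cover_len I ≤ n * (p - 1) := by
  unfold cover_len
  calc ∑ x, (I x : ℕ) ≤ ∑ _x : Fin n, (p - 1) := by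
        refine Finset.sum_le_sum fun x _ => ?_
        have := (I x).2
        omega
    _ = n * (p - 1) := by simp

theorem cover_prod {K : Type} [Field K] {p n : ℕ} (u : K) (v : Fin n → K) (I : Fin n → Fin p) :
    ∏ x, (u ^ p * v x) ^ (I x : ℕ) = (u ^ cover_len I) ^ p * ∏ x, v x ^ (I x : ℕ) := by
  have h1 : ∀ x, (u ^ p * v x) ^ (I x : ℕ) = (u ^ p) ^ (I x : ℕ) * v x ^ (I x : ℕ) :=
    fun x => mul_pow _ _ _
  rw [Finset.prod_congr rfl fun x _ => h1 x, Finset.prod_mul_distrib, Finset.prod_pow_eq_pow_sum]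
  rw [cover_len, ← pow_mul, ← pow_mul, mul_comm p]

/-- Multiplying a p-basis by `p`-th powers gives a p-basis. -/
theorem cover_pbasis {K : Type} [Field K] {p n : ℕ} {u : K} (hu : u ≠ 0) {v : Fin n → K}
    (h : PBasis p v) : PBasis p fun x => u ^ p * v x := by
  intro a
  obtain ⟨c, hc, huniq⟩ := h a
  have key : ∀ d : (Fin n → Fin p) → K,
      ∑ I, d I ^ p * ∏ x, (u ^ p * v x) ^ (I x : ℕ) =
        ∑ I, (d I * u ^ cover_len I) ^ p * ∏ x, v x ^ (I x : ℕ) := by
    intro d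
    refine Finset.sum_congr rfl fun I _ => ?_
    rw [cover_prod, mul_pow]
    ring
  refine ⟨fun I => c I / u ^ cover_len I, ?_, ?_⟩
  · change a = ∑ I, (c I / u ^ cover_len I) ^ p * ∏ x, (u ^ p * v x) ^ (I x : ℕ)
    rw [key fun I => c I / u ^ cover_len I, hc]
    refine Finset.sum_congr rfl fun I _ => ?_
    rw [div_mul_cancel₀ _ (pow_ne_zero _ hu)]
  · intro d hd
    change a = ∑ I, d I ^ p * ∏ x, (u ^ p * v x) ^ (I x : ℕ) at hd
    rw [key] at hd
    have h1 := huniq (fun I => d I * u ^ cover_len I) hd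
    funext I
    have h2 := congrFun h1 I
    rw [← h2]
    exact (mul_div_cancel_right₀ _ (pow_ne_zero _ hu)).symm

/-- The expansion of the rescaled coefficients. -/
theorem cover_expand {K : Type} [Field K] {p n : ℕ} (a u : K) (v : Fin n → K)
    (c : (Fin n → Fin p) → K) {D : ℕ} (hD : n * (p - 1) ≤ D) :
    ∑ I, (a * u ^ (D - cover_len I) * c I) ^ p * ∏ x, (u ^ p * v x) ^ (I x : ℕ) =
      (a * u ^ D) ^ p * ∑ I, c I ^ p * ∏ x, v x ^ (I x : ℕ) := by
  rw [Finset.mul_sum]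
  refine Finset.sum_congr rfl fun I _ => ?_
  rw [cover_prod]
  have h1 : u ^ D = u ^ (D - cover_len I) * u ^ cover_len I := by
    rw [← pow_add]
    congr 1
    have := cover_len_le I
    omega
  rw [h1]
  ring

theorem cover_local {p : ℕ} [Fact p.Prime] {κ K : Type} [Field κ] [Field K] [CharP K p]
    [Algebra κ K] (hAS : ASFree p K) (hK : FGp p K) {M N : ℕ} (t : Fin M → K)
    (ht : ∀ j, t j ∈ hol p κ K) (z : Fin (N + 1) → K) (hz : ∃ j, z j ≠ 0)
    (m : Ideal (hol p κ K).toSubring) (hm : m.IsMaximal) :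
    ∃ (n : ℕ) (v : Fin n → K) (l : Fin (N + 1)) (e : Fin M → (Fin n → Fin p) → K)
      (c : Fin (N + 1) → (Fin n → Fin p) → K) (g : (hol p κ K).toSubring), g ∉ m ∧
      PBasis p v ∧ z l ≠ 0 ∧ (∀ j, t j = ∑ I, e j I ^ p * ∏ x, v x ^ (I x : ℕ)) ∧
      (∀ b, z b / z l = ∑ I, c b I ^ p * ∏ x, v x ^ (I x : ℕ)) ∧
      (∀ x, (g : K) * v x ∈ (hol p κ K).toSubring) ∧
      (∀ j I, (g : K) * e j I ∈ (hol p κ K).toSubring) ∧
      ∀ b I, (g : K) * c b I ∈ (hol p κ K).toSubring := by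
  classical
  obtain ⟨V, hV⟩ := exists_locRing (hol p κ K).toSubring (hol_locVal hAS) m hm
  obtain ⟨l, hl, hlj⟩ := exists_min_coord hAS m hm z hz
  obtain ⟨n, v, hpb, hvV, hS⟩ := lemmaP hK V
    (Finset.univ.image t ∪ Finset.univ.image fun b => z b / z l) (by
    intro s hs
    rw [hV]
    rcases Finset.mem_union.1 hs with h | h
    · obtain ⟨j, _, rfl⟩ := Finset.mem_image.1 h
      exact inLoc_of_mem _ m hm _ (ht j)
    · obtain ⟨b, _, rfl⟩ := Finset.mem_image.1 h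
      exact hlj b)
  have h1 : ∀ j, ∃ c : (Fin n → Fin p) → K, (∀ I, c I ∈ V) ∧
      t j = ∑ I, c I ^ p * ∏ l, v l ^ (I l : ℕ) := fun j =>
    hS (t j) (Finset.mem_union_left _ (Finset.mem_image_of_mem _ (Finset.mem_univ j)))
  have h2 : ∀ b, ∃ c : (Fin n → Fin p) → K, (∀ I, c I ∈ V) ∧
      z b / z l = ∑ I, c I ^ p * ∏ l, v l ^ (I l : ℕ) := fun b =>
    hS (z b / z l) (Finset.mem_union_right _
      (Finset.mem_image_of_mem (fun b => z b / z l) (Finset.mem_univ b)))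
  choose e he het using h1
  choose c hc hct using h2
  obtain ⟨g₁, hg₁, hg₁'⟩ := cover_common_den (hol p κ K).toSubring m hm v
    fun x => (hV _).1 (hvV x)
  obtain ⟨g₂, hg₂, hg₂'⟩ := cover_common_den (hol p κ K).toSubring m hm
    (fun q : Fin M × (Fin n → Fin p) => e q.1 q.2) fun q => (hV _).1 (he q.1 q.2)
  obtain ⟨g₃, hg₃, hg₃'⟩ := cover_common_den (hol p κ K).toSubring m hm
    (fun q : Fin (N + 1) × (Fin n → Fin p) => c q.1 q.2) fun q => (hV _).1 (hc q.1 q.2)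
  have hp : m.IsPrime := hm.isPrime
  refine ⟨n, v, l, e, c, g₁ * g₂ * g₃, ?_, hpb, hl, het, hct, fun x => ?_, fun j I => ?_,
    fun b I => ?_⟩
  · intro h
    rcases hp.mem_or_mem h with h | h
    · rcases hp.mem_or_mem h with h | h
      · exact hg₁ h
      · exact hg₂ h
    · exact hg₃ h
  · have h3 : ((g₁ * g₂ * g₃ : (hol p κ K).toSubring) : K) * v x =
        ((g₂ * g₃ : (hol p κ K).toSubring) : K) * ((g₁ : K) * v x) := by
      push_cast
      ring
    rw [h3]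
    exact Subring.mul_mem _ (SetLike.coe_mem _) (hg₁' x)
  · have h3 : ((g₁ * g₂ * g₃ : (hol p κ K).toSubring) : K) * e j I =
        ((g₁ * g₃ : (hol p κ K).toSubring) : K) * ((g₂ : K) * e j I) := by
      push_cast
      ring
    rw [h3]
    exact Subring.mul_mem _ (SetLike.coe_mem _) (hg₂' (j, I))
  · have h3 : ((g₁ * g₂ * g₃ : (hol p κ K).toSubring) : K) * c b I =
        ((g₁ * g₂ : (hol p κ K).toSubring) : K) * ((g₃ : K) * c b I) := by
      push_cast
      ring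
    rw [h3]
    exact Subring.mul_mem _ (SetLike.coe_mem _) (hg₃' (b, I))

theorem cover_span {R : Type*} [CommRing R] (g : {m : Ideal R // m.IsMaximal} → R)
    (hg : ∀ m, g m ∉ m.1) (D : {m : Ideal R // m.IsMaximal} → ℕ) :
    ∃ c : {m : Ideal R // m.IsMaximal} →₀ R, (c.sum fun m a => a * g m ^ D m) = 1 := by
  rw [← Finsupp.mem_ideal_span_range_iff_exists_finsupp, ← Ideal.eq_top_iff_one]
  by_contra hne
  obtain ⟨m, hm, hle⟩ := Ideal.exists_le_maximal _ hne
  have h1 : g ⟨m, hm⟩ ^ D ⟨m, hm⟩ ∈ m :=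
    hle (Ideal.subset_span ⟨⟨m, hm⟩, rfl⟩)
  exact hg ⟨m, hm⟩ (hm.isPrime.mem_of_pow_mem _ h1)

theorem cover_mem {K : Type} [Field K] (A : Subring K) {p n : ℕ} (I : Fin n → Fin p) {D : ℕ}
    (hD : n * (p - 1) + 1 ≤ D) (a u : A) (y : K) (hy : (u : K) * y ∈ A) :
    (a : K) * (u : K) ^ (D - cover_len I) * y ∈ A := by
  have h1 := cover_len_le I
  have h2 : D - cover_len I = (D - cover_len I - 1) + 1 := by omega
  have h3 : (a : K) * (u : K) ^ (D - cover_len I) * y =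
      (a : K) * (u : K) ^ (D - cover_len I - 1) * ((u : K) * y) := by
    rw [h2, pow_succ]
    simp only [Nat.add_sub_cancel]
    ring
  rw [h3]
  exact A.mul_mem (A.mul_mem a.2 (A.pow_mem u.2 _)) hy

theorem exists_cover {p : ℕ} [Fact p.Prime] {κ K : Type} [Field κ] [Field K] [CharP K p]
    [Algebra κ K] (hAS : ASFree p K) (hK : FGp p K) {M N : ℕ} (t : Fin M → K)
    (ht : ∀ j, t j ∈ hol p κ K) (z : Fin (N + 1) → K) (hz : ∃ j, z j ≠ 0) :
    ∃ (A : ℕ) (C : Fin A → Chart p K M N), (∀ α, (C α).OK t z) ∧ ∑ α, (C α).δ = 1 ∧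
      (∀ α x, (C α).v x ∈ hol p κ K) ∧ (∀ α j I, (C α).e j I ∈ hol p κ K) ∧
      ∀ α b I, (C α).c b I ∈ hol p κ K := by
  classical
  choose n v l e c g hg hpb hl ht' hz' hgv hge hgc using
    fun m : {m : Ideal (hol p κ K).toSubring // m.IsMaximal} =>
      cover_local hAS hK t ht z hz m.1 m.2
  obtain ⟨a, ha⟩ := cover_span g hg fun m => n m * (p - 1) + 1
  have hp0 : 0 < p := (Fact.out : p.Prime).pos
  have hg0 : ∀ m, (g m : K) ≠ 0 := by
    intro m h
    have h1 : g m = 0 := Subtype.ext h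
    exact hg m (h1 ▸ m.1.zero_mem)
  let Ch : {m : Ideal (hol p κ K).toSubring // m.IsMaximal} → Chart p K M N := fun m =>
    { n := n m
      v := fun x => (g m : K) ^ p * v m x
      δ := (a m : K) * (g m : K) ^ (n m * (p - 1) + 1)
      l := l m
      e := fun j I => (a m : K) * (g m : K) ^ (n m * (p - 1) + 1 - cover_len I) * e m j I
      c := fun b I => (a m : K) * (g m : K) ^ (n m * (p - 1) + 1 - cover_len I) * c m b I }
  have hOK : ∀ m, (Ch m).OK t z := by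
    intro m
    refine ⟨cover_pbasis (hg0 m) (hpb m), hl m, fun j => ?_, fun b => ?_⟩
    · change ∑ I, ((a m : K) * (g m : K) ^ (n m * (p - 1) + 1 - cover_len I) * e m j I) ^ p *
        ∏ x, ((g m : K) ^ p * v m x) ^ (I x : ℕ) =
        ((a m : K) * (g m : K) ^ (n m * (p - 1) + 1)) ^ p * t j
      rw [cover_expand _ _ _ _ (Nat.le_succ _), ← ht' m j]
    · change z (l m) * ∑ I, ((a m : K) * (g m : K) ^ (n m * (p - 1) + 1 - cover_len I) *
        c m b I) ^ p * ∏ x, ((g m : K) ^ p * v m x) ^ (I x : ℕ) =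
        ((a m : K) * (g m : K) ^ (n m * (p - 1) + 1)) ^ p * z b
      rw [cover_expand _ _ _ _ (Nat.le_succ _), ← hz' m b]
      have := hl m
      field_simp
  have hv : ∀ m x, (Ch m).v x ∈ hol p κ K := by
    intro m x
    change (g m : K) ^ p * v m x ∈ hol p κ K
    have h1 : (g m : K) ^ p * v m x = (g m : K) ^ (p - 1) * ((g m : K) * v m x) := by
      rw [← mul_assoc, ← pow_succ, Nat.sub_add_cancel hp0]
    rw [h1]
    exact (hol p κ K).mul_mem ((hol p κ K).pow_mem (g m).2 _) (hgv m x)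
  have he : ∀ m j I, (Ch m).e j I ∈ hol p κ K := fun m j I =>
    cover_mem (hol p κ K).toSubring I le_rfl (a m) (g m) _ (hge m j I)
  have hc : ∀ m b I, (Ch m).c b I ∈ hol p κ K := fun m b I =>
    cover_mem (hol p κ K).toSubring I le_rfl (a m) (g m) _ (hgc m b I)
  refine ⟨a.support.card, fun α => Ch (a.support.equivFin.symm α).1, fun α => hOK _, ?_,
    fun α x => hv _ x, fun α j I => he _ j I, fun α b I => hc _ b I⟩
  have h1 : ∑ α, (Ch (a.support.equivFin.symm α).1).δ = ∑ m ∈ a.support, (Ch m).δ := by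
    rw [← Finset.sum_coe_sort a.support]
    exact Equiv.sum_comp a.support.equivFin.symm fun m : a.support => (Ch m.1).δ
  rw [h1]
  have h2 := congrArg (fun x : (hol p κ K).toSubring => (x : K)) ha
  rw [Finsupp.sum] at h2
  push_cast at h2
  exact h2

end Pool.Agent.W_MP_b723a0_ag.P
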