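import Mathlib
import Pool.Agent.W_MP_b723a0_ag.Defs
import Pool.Agent.W_MP_b723a0_ag.Digits
import Pool.Agent.W_MP_b723a0_ag.P.Defs
import Pool.Agent.W_MP_b723a0_ag.P.ArtinSchreier
import Pool.Agent.W_MP_b723a0_ag.P.HolLoc
import Pool.Agent.W_MP_b723a0_ag.P.LemmaP
import Pool.Agent.W_MP_b723a0_ag.P.Cover
import Pool.Agent.W_MP_b723a0_ag.P.CombField

/-!
# Task V5: the field-level key step

Let `𝔸 = hol p κ K`. Take the charts `C_α` of `exists_cover` for `t` and `z`. The new parameters
`t'` are all the elements `(C α).v x`, `(C α).e j I`, `(C α).c b I` (a finite family; index set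
`Σ α : Fin A, (Fin n_α ⊕ (Fin M × (Fin n_α → Fin p)) ⊕ (Fin (N+1) × (Fin n_α → Fin p)))`, reindexed
by some `Fin M'`), all in `𝔸`. The integer polynomials:
`T_j = ∑_α ∑_I E_{α,j,I}^p V_α^I`, `Z_{b b'} = ∑_{α : l_α = b'} ∑_I C_{α,b,I}^p V_α^I`. Then
`T(t')_j = ∑_α δ_α^p t_j = t_j` and `∑_{b'} Z_{b b'}(t') z_{b'} = ∑_α δ_α^p z_b = z_b`. Lifts `t̂'`
of `t'` over `k` are the same as lifts `Λ_α` of all the charts, and
`T_j(t̂') = ∑_α tval_α j`, `∑_{b'} Z_{b b'}(t̂') ẑ_{b'} = ∑_α zval_α b`. `combField` gives `P_s` for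
each `F_s` (reference p-basis from `exists_pbasis`).

Integrality of `P_s / z_l^d` at a maximal ideal `m` of `𝔸`, for `l` with `z_l ≠ 0` and all
`ζ_b = z_b/z_l ∈ V = 𝔸_m`. Take `k` an algebraic closure of `K` (perfect and infinite) and the
Teichmüller lifts `t̂' = [t']`, `ẑ_b = [z_b] = [z_l] [ζ_b]`. By homogeneity
`F(T(t̂'), Z(t̂') ẑ) = [z_l]^d F(T([t']), Z([t']) [ζ])`, so (as `[z_l]` is a unit)
`F(T([t']), Z([t'])[ζ]) ≡ p^i [P/z_l^d] mod p^{i+1}` in `W(k)`. The left side is the image of an
element of `W(V)` (`t'_j, ζ_b ∈ V`; `V` a ring of characteristic `p`, functoriality of Witt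
vectors and `zpToWitt`, `map_comp_zpToWitt`), so its `i`-th component is in `V`. The `i`-th
component of `p^i [x] = V^i F^i [x]` is `x^{p^i}`, and elements of `W(k)` which are congruent
mod `p^{i+1} = V^{i+1} F^{i+1}` have the same `i`-th component. So `(P/z_l^d)^{p^i} ∈ V`, hence
`P/z_l^d ∈ V` (valuation ring).
-/

namespace Pool.Agent.W_MP_b723a0_ag.P

/-- Homogeneity in the second group of variables. -/
theorem ks1_scale {R S : Type*} [CommRing R] [CommRing S] {M N d : ℕ} (f : R →+* S)
    (F : MvPolynomial (Fin M ⊕ Fin (N + 1)) R)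
    (hhom : F.IsWeightedHomogeneous (Sum.elim (fun _ => 0) (fun _ => 1) :
      Fin M ⊕ Fin (N + 1) → ℕ) d) (a : Fin M → S) (y : Fin (N + 1) → S) (c : S) :
    MvPolynomial.eval₂ f (Sum.elim a (fun b => c * y b)) F =
      c ^ d * MvPolynomial.eval₂ f (Sum.elim a y) F := by
  rw [MvPolynomial.eval₂_eq', MvPolynomial.eval₂_eq', Finset.mul_sum]
  refine Finset.sum_congr rfl fun m hm => ?_
  have h1 : ∑ b : Fin (N + 1), m (Sum.inr b) = d := by
    have h2 := hhom (MvPolynomial.mem_support_iff.1 hm)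
    rw [Finsupp.weight_apply, Finsupp.sum_fintype _ _ (by simp), Fintype.sum_sum_type] at h2
    simpa using h2
  rw [Fintype.prod_sum_type, Fintype.prod_sum_type]
  simp only [Sum.elim_inl, Sum.elim_inr, mul_pow, Finset.prod_mul_distrib, Finset.prod_pow_eq_pow_sum, h1]
  ring

/-- Congruent Witt vectors have the same components. -/
theorem ks1_coeff {p : ℕ} [Fact p.Prime] {k : Type} [Field k] [CharP k p] [PerfectRing k p]
    {i : ℕ} {x y : WittVector p k} (h : (p : WittVector p k) ^ (i + 1) ∣ x - y) :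
    x.coeff i = y.coeff i := by
  have h1 : x - y ∈ Ideal.span {(p : WittVector p k) ^ (i + 1)} :=
    Ideal.mem_span_singleton.2 h
  rw [WittVector.mem_span_p_pow_iff_le_coeff_eq_zero] at h1
  exact WittVector.le_coeff_eq_iff_le_sub_coeff_eq_zero.2 h1 i (Nat.lt_succ_self i)

theorem ks1_coeff_pow {p : ℕ} [Fact p.Prime] {k : Type} [Field k] [CharP k p] (i : ℕ) (x : k) :
    ((p : WittVector p k) ^ i * WittVector.teichmuller p x).coeff i = x ^ p ^ i := by
  rw [mul_comm, coeff_teichmuller_mul, WittVector.coeff_p_pow, mul_one]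

/-- The index set of the new parameters. -/
abbrev Ks1Ix (p M N A : ℕ) {K : Type} (C : Fin A → Chart p K M N) : Type :=
  Σ α : Fin A, (Fin (C α).n ⊕ ((Fin M × (Fin (C α).n → Fin p)) ⊕
    (Fin (N + 1) × (Fin (C α).n → Fin p))))

/-- The new parameters. -/
def ks1Val {p M N A : ℕ} {K : Type} (C : Fin A → Chart p K M N) : Ks1Ix p M N A C → K
  | ⟨α, Sum.inl x⟩ => (C α).v x
  | ⟨α, Sum.inr (Sum.inl jI)⟩ => (C α).e jI.1 jI.2
  | ⟨α, Sum.inr (Sum.inr bI)⟩ => (C α).c bI.1 bI.2

section poly

variable {p M N A : ℕ} {K : Type} (C : Fin A → Chart p K M N) {M' : ℕ}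
  (e : Ks1Ix p M N A C ≃ Fin M')

/-- The polynomials `T_j`. -/
noncomputable def ks1T (j : Fin M) : MvPolynomial (Fin M') ℤ :=
  ∑ α, ∑ I, MvPolynomial.X (e ⟨α, Sum.inr (Sum.inl (j, I))⟩) ^ p *
    ∏ x, MvPolynomial.X (e ⟨α, Sum.inl x⟩) ^ (I x : ℕ)

/-- The polynomials `Z_{b b'}`. -/
noncomputable def ks1Z (b b' : Fin (N + 1)) : MvPolynomial (Fin M') ℤ :=
  ∑ α, if (C α).l = b' then ∑ I, MvPolynomial.X (e ⟨α, Sum.inr (Sum.inr (b, I))⟩) ^ p *
    ∏ x, MvPolynomial.X (e ⟨α, Sum.inl x⟩) ^ (I x : ℕ) else 0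

theorem ks1T_aeval {R : Type*} [CommRing R] (τ : Fin M' → R) (j : Fin M) :
    MvPolynomial.aeval τ (ks1T C e j) = ∑ α, ∑ I, τ (e ⟨α, Sum.inr (Sum.inl (j, I))⟩) ^ p *
      ∏ x, τ (e ⟨α, Sum.inl x⟩) ^ (I x : ℕ) := by
  simp only [ks1T, map_sum, map_mul, map_pow, map_prod, MvPolynomial.aeval_X]

theorem ks1Z_aeval {R : Type*} [CommRing R] (τ : Fin M' → R) (b : Fin (N + 1))
    (y : Fin (N + 1) → R) :
    ∑ b', MvPolynomial.aeval τ (ks1Z C e b b') * y b' =
      ∑ α, y (C α).l * ∑ I, τ (e ⟨α, Sum.inr (Sum.inr (b, I))⟩) ^ p *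
        ∏ x, τ (e ⟨α, Sum.inl x⟩) ^ (I x : ℕ) := by
  simp only [ks1Z, map_sum, Finset.sum_mul]
  rw [Finset.sum_comm]
  refine Finset.sum_congr rfl fun α _ => ?_
  rw [Finset.sum_eq_single (C α).l]
  · rw [if_pos rfl]
    simp only [map_sum, map_mul, map_pow, map_prod, MvPolynomial.aeval_X]
    ring
  · intro b' _ hb'
    rw [if_neg (Ne.symm hb')]
    simp
  · intro h
    exact absurd (Finset.mem_univ _) h

end poly

/-- Lifts of the parameters are lifts of the charts. -/
noncomputable def ks1Lift {p : ℕ} [Fact p.Prime] {K : Type} [Field K] {M N A M' : ℕ}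
    (C : Fin A → Chart p K M N) (e : Ks1Ix p M N A C ≃ Fin M') {k : Type} [Field k]
    [Algebra K k] (th : Fin M' → WittVector p k)
    (hth : IsLift p (fun j => algebraMap K k (ks1Val C (e.symm j))) th) (α : Fin A) :
    (C α).Lift k where
  v := fun x => th (e ⟨α, Sum.inl x⟩)
  e := fun j I => th (e ⟨α, Sum.inr (Sum.inl (j, I))⟩)
  c := fun b I => th (e ⟨α, Sum.inr (Sum.inr (b, I))⟩)
  hv := fun x => by
    have h := hth (e ⟨α, Sum.inl x⟩)
    simp only [Equiv.symm_apply_apply] at h
    exact h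
  he := fun j I => by
    have h := hth (e ⟨α, Sum.inr (Sum.inl (j, I))⟩)
    simp only [Equiv.symm_apply_apply] at h
    exact h
  hc := fun b I => by
    have h := hth (e ⟨α, Sum.inr (Sum.inr (b, I))⟩)
    simp only [Equiv.symm_apply_apply] at h
    exact h

theorem ks1 {p : ℕ} [Fact p.Prime] {κ K : Type} [Field κ] [CharP κ p] [Field K] [CharP K p]
    [Algebra κ K] (hAS : ASFree p K) (hK : FGp p K) {M N r : ℕ} (t : Fin M → K)
    (ht : ∀ j, t j ∈ hol p κ K) (z : Fin (N + 1) → K) (hz : ∃ j, z j ≠ 0) (d i : ℕ)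
    (F : Fin r → MvPolynomial (Fin M ⊕ Fin (N + 1)) ℤ_[p])
    (hhom : ∀ s, (F s).IsWeightedHomogeneous (Sum.elim (fun _ => 0) (fun _ => 1) :
      Fin M ⊕ Fin (N + 1) → ℕ) d)
    (hF : ∀ s, ∀ (k : Type) [Field k] [CharP k p] [PerfectRing k p] [Infinite k] [Algebra K k]
      (th : Fin M → WittVector p k) (zh : Fin (N + 1) → WittVector p k),
        IsLift p (fun j => algebraMap K k (t j)) th →
        IsLift p (fun b => algebraMap K k (z b)) zh →
        (p : WittVector p k) ^ i ∣ MvPolynomial.eval₂ (zpToWitt p k) (Sum.elim th zh) (F s)) :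
    ∃ (M' : ℕ) (t' : Fin M' → K) (T : Fin M → MvPolynomial (Fin M') ℤ)
      (Z : Fin (N + 1) → Fin (N + 1) → MvPolynomial (Fin M') ℤ) (P : Fin r → K),
      (∀ j, t' j ∈ hol p κ K) ∧ (∀ j, MvPolynomial.aeval t' (T j) = t j) ∧
      (∀ b, ∑ b', MvPolynomial.aeval t' (Z b b') * z b' = z b) ∧
      (∀ s, ∀ (k : Type) [Field k] [CharP k p] [PerfectRing k p] [Infinite k] [Algebra K k]
        (th : Fin M' → WittVector p k) (zh : Fin (N + 1) → WittVector p k),
        IsLift p (fun j => algebraMap K k (t' j)) th →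
        IsLift p (fun b => algebraMap K k (z b)) zh →
        (p : WittVector p k) ^ (i + 1) ∣ MvPolynomial.eval₂ (zpToWitt p k)
          (Sum.elim (fun j => MvPolynomial.aeval th (T j))
            (fun b => ∑ b', MvPolynomial.aeval th (Z b b') * zh b')) (F s) -
          p ^ i * WittVector.teichmuller p (algebraMap K k (P s))) ∧
      ∀ s (m : Ideal (hol p κ K).toSubring), m.IsMaximal → ∀ l, z l ≠ 0 →
        (∀ b, InLoc (hol p κ K).toSubring m (z b / z l)) →
        InLoc (hol p κ K).toSubring m (P s / z l ^ d) := by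
  obtain ⟨A, C, hC, hδ, hv, he, hc⟩ := exists_cover hAS hK t ht z hz
  obtain ⟨n0, v0, hv0⟩ := exists_pbasis hK
  have hP := fun s => combField hv0 t z C hC hδ d i (F s) (hhom s) (hF s)
  choose P hP using hP
  let e : Ks1Ix p M N A C ≃ Fin (Fintype.card (Ks1Ix p M N A C)) := Fintype.equivFin _
  have hδp : ∑ α, (C α).δ ^ p = 1 := by
    rw [← sum_pow_char, hδ, one_pow]
  have hval : ∀ x, ks1Val C x ∈ hol p κ K := by
    rintro ⟨α, x | jI | bI⟩
    · exact hv α x
    · exact he α jI.1 jI.2
    · exact hc α bI.1 bI.2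
  -- the congruence
  have hcong : ∀ s, ∀ (k : Type) [Field k] [CharP k p] [PerfectRing k p] [Infinite k] [Algebra K k]
        (th : Fin (Fintype.card (Ks1Ix p M N A C)) → WittVector p k)
        (zh : Fin (N + 1) → WittVector p k),
        IsLift p (fun j => algebraMap K k (ks1Val C (e.symm j))) th →
        IsLift p (fun b => algebraMap K k (z b)) zh →
        (p : WittVector p k) ^ (i + 1) ∣ MvPolynomial.eval₂ (zpToWitt p k)
          (Sum.elim (fun j => MvPolynomial.aeval th (ks1T C e j))
            (fun b => ∑ b', MvPolynomial.aeval th (ks1Z C e b b') * zh b')) (F s) -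
          p ^ i * WittVector.teichmuller p (algebraMap K k (P s)) := by
    intro s k _ _ _ _ _ th zh hth hzh
    have h1 := hP s k (ks1Lift C e th hth) zh hzh
    have h2 : (fun j => ∑ α, (ks1Lift C e th hth α).tval j) =
        (fun j => MvPolynomial.aeval th (ks1T C e j)) := by
      funext j
      rw [ks1T_aeval]
      rfl
    have h3 : (fun b => ∑ α, (ks1Lift C e th hth α).zval zh b) =
        (fun b => ∑ b', MvPolynomial.aeval th (ks1Z C e b b') * zh b') := by
      funext b
      rw [ks1Z_aeval]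
      rfl
    rw [h2, h3] at h1
    exact h1
  refine ⟨_, fun j => ks1Val C (e.symm j), ks1T C e, ks1Z C e, P, fun j => hval _, ?_, ?_, hcong, ?_⟩
  · intro j
    rw [ks1T_aeval]
    simp only [Equiv.symm_apply_apply, ks1Val]
    calc ∑ α, ∑ I, (C α).e j I ^ p * ∏ x, (C α).v x ^ (I x : ℕ)
        = ∑ α, (C α).δ ^ p * t j := Finset.sum_congr rfl fun α _ => (hC α).he j
      _ = t j := by rw [← Finset.sum_mul, hδp, one_mul]
  · intro b
    rw [ks1Z_aeval]
    simp only [Equiv.symm_apply_apply, ks1Val]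
    calc ∑ α, z (C α).l * ∑ I, (C α).c b I ^ p * ∏ x, (C α).v x ^ (I x : ℕ)
        = ∑ α, (C α).δ ^ p * z b := Finset.sum_congr rfl fun α _ => (hC α).hc b
      _ = z b := by rw [← Finset.sum_mul, hδp, one_mul]
  · -- integrality
    intro s m hm l hl hζ
    obtain ⟨V, hV⟩ := exists_locRing (hol p κ K).toSubring (hol_locVal hAS) m hm
    rw [← hV]
    have hvalV : ∀ x, ks1Val C x ∈ V := fun x =>
      (hV _).2 (inLoc_of_mem _ m hm _ (hval x))
    have hζV : ∀ b, z b / z l ∈ V := fun b => (hV _).2 (hζ b)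
    let k := AlgebraicClosure K
    let φ : K →+* k := algebraMap K k
    have : CharP k p := charP_of_injective_algebraMap (algebraMap K k).injective p
    have : CharP V p := by
      refine ⟨fun x => ?_⟩
      rw [← CharP.cast_eq_zero_iff K p x]
      constructor
      · intro h
        have := congrArg (algebraMap V K) h
        simpa using this
      · intro h
        apply Subtype.ext
        simpa using h
    let th : Fin (Fintype.card (Ks1Ix p M N A C)) → WittVector p k :=
      fun j => WittVector.teichmuller p (φ (ks1Val C (e.symm j)))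
    let zh : Fin (N + 1) → WittVector p k := fun b => WittVector.teichmuller p (φ (z b))
    let ζh : Fin (N + 1) → WittVector p k := fun b => WittVector.teichmuller p (φ (z b / z l))
    have h1 := hcong s k th zh (fun j => WittVector.teichmuller_coeff_zero _ _)
      (fun b => WittVector.teichmuller_coeff_zero _ _)
    have hzζ : ∀ b, zh b = WittVector.teichmuller p (φ (z l)) * ζh b := by
      intro b
      simp only [zh, ζh]
      rw [← map_mul, ← map_mul, mul_div_cancel₀ _ hl]
    have h2 : (fun b => ∑ b', MvPolynomial.aeval th (ks1Z C e b b') * zh b') =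
        (fun b => WittVector.teichmuller p (φ (z l)) *
          ∑ b', MvPolynomial.aeval th (ks1Z C e b b') * ζh b') := by
      funext b
      rw [Finset.mul_sum]
      refine Finset.sum_congr rfl fun b' _ => ?_
      rw [hzζ b']
      ring
    rw [h2, ks1_scale _ _ (hhom s)] at h1
    set Y := MvPolynomial.eval₂ (zpToWitt p k) (Sum.elim (fun j => MvPolynomial.aeval th (ks1T C e j))
      (fun b => ∑ b', MvPolynomial.aeval th (ks1Z C e b b') * ζh b')) (F s) with hY
    -- cancel the unit
    have hunit : WittVector.teichmuller p (φ ((z l)⁻¹)) * WittVector.teichmuller p (φ (z l)) = 1 := by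
      rw [← map_mul, ← map_mul, inv_mul_cancel₀ hl, map_one, map_one]
    have h3 : (p : WittVector p k) ^ (i + 1) ∣ Y -
        p ^ i * WittVector.teichmuller p (φ (P s / z l ^ d)) := by
      have h4 := Dvd.dvd.mul_left h1 (WittVector.teichmuller p (φ ((z l)⁻¹)) ^ d)
      have h5 : WittVector.teichmuller p (φ ((z l)⁻¹)) ^ d *
          (WittVector.teichmuller p (φ (z l)) ^ d * Y -
            p ^ i * WittVector.teichmuller p (algebraMap K k (P s))) =
          Y - p ^ i * WittVector.teichmuller p (φ (P s / z l ^ d)) := by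
        have h6 : WittVector.teichmuller p (φ (P s / z l ^ d)) =
            WittVector.teichmuller p (φ ((z l)⁻¹)) ^ d *
              WittVector.teichmuller p (algebraMap K k (P s)) := by
          rw [← map_pow, ← map_pow, ← map_mul]
          congr 1
          change _ = φ _ * φ (P s)
          rw [← map_mul]
          congr 1
          rw [div_eq_mul_inv, inv_pow, mul_comm]
        rw [h6, mul_sub, ← mul_assoc, ← mul_pow, hunit, one_pow, one_mul]
        ring
      rw [h5] at h4
      exact h4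
    have h7 := ks1_coeff h3
    rw [ks1_coeff_pow] at h7
    -- the value over V
    let ψ : V →+* k := φ.comp V.subtype
    let thV : Fin (Fintype.card (Ks1Ix p M N A C)) → WittVector p V :=
      fun j => WittVector.teichmuller p (⟨ks1Val C (e.symm j), hvalV _⟩ : V)
    let ζV : Fin (N + 1) → WittVector p V := fun b => WittVector.teichmuller p (⟨z b / z l, hζV b⟩ : V)
    let YV : WittVector p V := MvPolynomial.eval₂ (zpToWitt p V)
      (Sum.elim (fun j => MvPolynomial.aeval thV (ks1T C e j))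
        (fun b => ∑ b', MvPolynomial.aeval thV (ks1Z C e b b') * ζV b')) (F s)
    have hth : ∀ j, WittVector.map ψ (thV j) = th j := by
      intro j
      simp only [thV, th, WittVector.map_teichmuller]
      rfl
    have hζ' : ∀ j, WittVector.map ψ (ζV j) = ζh j := by
      intro j
      simp only [ζV, ζh, WittVector.map_teichmuller]
      rfl
    have haev : ∀ G : MvPolynomial (Fin (Fintype.card (Ks1Ix p M N A C))) ℤ,
        WittVector.map ψ (MvPolynomial.aeval thV G) = MvPolynomial.aeval th G := by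
      intro G
      have h8 : (fun j => WittVector.map ψ (thV j)) = th := funext hth
      rw [← h8]
      rw [MvPolynomial.aeval_def, MvPolynomial.aeval_def, MvPolynomial.hom_eval₂]
      congr 1
      exact RingHom.ext_int _ _
    have h9 : WittVector.map ψ YV = Y := by
      simp only [YV]
      rw [MvPolynomial.hom_eval₂, map_comp_zpToWitt, hY]
      congr 1
      funext x
      rcases x with j | b
      · simp only [Sum.elim_inl]
        exact haev _
      · simp only [Sum.elim_inr, map_sum, map_mul, haev, hζ']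
    rw [← h9, WittVector.map_coeff] at h7
    have h10 : (P s / z l ^ d) ^ p ^ i = ((YV.coeff i : V) : K) := by
      apply (algebraMap K k).injective
      rw [map_pow]
      exact h7.symm
    have h11 : (P s / z l ^ d) ^ p ^ i ∈ V := by
      rw [h10]
      exact (YV.coeff i).2
    rw [← V.valuation_le_one_iff] at h11 ⊢
    rw [map_pow] at h11
    exact (pow_le_one_iff (pow_ne_zero _ (Nat.Prime.ne_zero Fact.out))).1 h11

end Pool.Agent.W_MP_b723a0_ag.P
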