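import Mathlib
import Pool.Agent.W_MP_b723a0_ag.Defs
import Pool.Agent.W_MP_b723a0_ag.P.Defs
import Pool.Agent.W_MP_b723a0_ag.P.HilBasics
import Pool.Agent.W_MP_b723a0_ag.P.PtBasics

/-!
# Task M1: basic facts on levels

`level_mono`: immediate. `level_zero`: `M = 0`, `c = 0`, `X` the identity matrix
(`X a b = if a = b then 1 else 0`); `p^0` divides everything.
`level_snoc`: given `M, c, a, X` for `pt.P κ` take the same `M, c, X` and
`a' j = emb (a j) * (asf u_last v_last)^c`, of degree `c • degQ p N (q+1)` (`emb_Qf_mul`,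
`emb_mem`). A ring homomorphism `φ : Sr κ N (q+1) → k` killing `(pt.snoc b).P κ` with
`φ (Qf (q+1)) ≠ 0` restricts to `φ ∘ emb`, which kills `pt.P κ` (`emb_mem_P`), and
`φ (Qf (q+1)) = φ (emb Qf) * φ (asf u v)` with both factors nonzero; so the condition
`t₀ j * φ (Qf (q+1))^c = φ (a' j)` gives `t₀ j * φ (emb Qf)^c = φ (emb (a j))`; also
`emb (X (inl b)) = X (inl b)`. `level_ext`: induction on `Ext`.
-/

namespace Pool.Agent.W_MP_b723a0_ag.P

variable {p : ℕ} [Fact p.Prime] {κ : Type} [Field κ] {N r : ℕ}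

theorem level_mono {q : ℕ} {f : Fin r → MvPolynomial (Fin (N + 1)) ℤ_[p]} {i : ℕ}
    {I J : Ideal (Sr κ N q)} (h : I ≤ J) (hI : Level p f i I) : Level p f i J := by
  obtain ⟨M, c, a, X, ha, H⟩ := hI
  refine ⟨M, c, a, X, ha, ?_⟩
  intro k _ _ _ φ hφ hQ t₀ ht₀
  exact H k φ (fun x hx => hφ x (h hx)) hQ t₀ ht₀

theorem level_zero {q : ℕ} (f : Fin r → MvPolynomial (Fin (N + 1)) ℤ_[p])
    (I : Ideal (Sr κ N q)) : Level p f 0 I := by
  refine ⟨0, 0, Fin.elim0, fun a b => if a = b then 1 else 0, fun j => j.elim0, ?_⟩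
  intro k _ _ _ φ hφ hQ t₀ ht₀
  refine ⟨?_, ?_⟩
  · intro j
    have : ∀ b : Fin (N + 1), MvPolynomial.aeval t₀ (if j = b then (1 : MvPolynomial (Fin 0) ℤ)
        else 0) * φ (MvPolynomial.X (Sum.inl b)) =
        if j = b then φ (MvPolynomial.X (Sum.inl b)) else 0 := by
      intro b
      split_ifs with hb
      · simp
      · simp
    simp only [this]
    rw [Finset.sum_ite_eq]
    simp
  · intro t z _ _ s
    simp

theorem lb_asf_last_mem (p : ℕ) (hp : 1 ≤ p) {q : ℕ} :
    asf p (MvPolynomial.X (Sum.inr (Fin.last q, false)) : Sr κ N (q + 1))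
      (MvPolynomial.X (Sum.inr (Fin.last q, true))) ∈
      Sm κ N (q + 1) (p • Pi.single (Fin.last (q + 1)) 1) := by
  have hu : ∀ bb : Bool, (MvPolynomial.X (Sum.inr (Fin.last q, bb)) : Sr κ N (q + 1)) ∈
      Sm κ N (q + 1) (Pi.single (Fin.last (q + 1)) 1) := by
    intro bb
    have := MvPolynomial.isWeightedHomogeneous_X κ (wt N (q + 1))
      (Sum.inr (Fin.last q, bb) : Vr N (q + 1))
    simpa [wt, gidx, Fin.succ_last] using this
  unfold asf
  have h1 : (MvPolynomial.X (Sum.inr (Fin.last q, false)) : Sr κ N (q + 1)) ^ p ∈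
      Sm κ N (q + 1) (p • Pi.single (Fin.last (q + 1)) 1) :=
    MvPolynomial.IsWeightedHomogeneous.pow (hu false) p
  have h2 : (MvPolynomial.X (Sum.inr (Fin.last q, false)) : Sr κ N (q + 1)) *
      MvPolynomial.X (Sum.inr (Fin.last q, true)) ^ (p - 1) ∈
      Sm κ N (q + 1) (p • Pi.single (Fin.last (q + 1)) 1) := by
    have h3 := MvPolynomial.IsWeightedHomogeneous.mul (hu false)
      (MvPolynomial.IsWeightedHomogeneous.pow (hu true) (p - 1))
    have h4 : (Pi.single (Fin.last (q + 1)) 1 + (p - 1) • Pi.single (Fin.last (q + 1)) 1 :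
        Fin (q + 1 + 1) → ℕ) = p • Pi.single (Fin.last (q + 1)) 1 := by
      rw [← succ_nsmul']
      congr 1
      omega
    rw [h4] at h3
    exact h3
  have h5 : (MvPolynomial.X (Sum.inr (Fin.last q, true)) : Sr κ N (q + 1)) ^ p ∈
      Sm κ N (q + 1) (p • Pi.single (Fin.last (q + 1)) 1) :=
    MvPolynomial.IsWeightedHomogeneous.pow (hu true) p
  exact Submodule.sub_mem _ (Submodule.sub_mem _ h1 h2) h5

theorem lb_emb_X_inl {q : ℕ} (j : Fin (N + 1)) :
    emb κ N q (MvPolynomial.X (Sum.inl j)) = MvPolynomial.X (Sum.inl j) := by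
  simp [emb]

theorem level_snoc {q : ℕ} {K : Type} [Field K] [Algebra κ K]
    {f : Fin r → MvPolynomial (Fin (N + 1)) ℤ_[p]} {i : ℕ} (pt : Pt N q K) (b : K)
    (h : Level p f i (pt.P κ)) : Level p f i ((pt.snoc b).P κ) := by
  obtain ⟨M, c, a, X, ha, H⟩ := h
  have hp : 1 ≤ p := (Fact.out : p.Prime).one_le
  refine ⟨M, c, fun j => emb κ N q (a j) *
    asf p (MvPolynomial.X (Sum.inr (Fin.last q, false)))
      (MvPolynomial.X (Sum.inr (Fin.last q, true))) ^ c, X, ?_, ?_⟩
  · intro j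
    have h1 := emb_mem (ha j)
    have h2 := MvPolynomial.IsWeightedHomogeneous.mul h1
      (MvPolynomial.IsWeightedHomogeneous.pow (lb_asf_last_mem (κ := κ) (N := N) (q := q) p hp) c)
    have h3 : (Fin.snoc (c • degQ p N q) 0 + c • (p • Pi.single (Fin.last (q + 1)) 1) :
        Fin (q + 1 + 1) → ℕ) = c • degQ p N (q + 1) := by
      funext k
      refine Fin.lastCases ?_ (fun k => ?_) k
      · simp only [Pi.add_apply, Fin.snoc_last, Pi.smul_apply, Pi.single_eq_same, smul_eq_mul,
          zero_add, mul_one]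
        rw [← Fin.succ_last]
        simp [degQ]
      · simp only [Pi.add_apply, Fin.snoc_castSucc, Pi.smul_apply, smul_eq_mul]
        rw [Pi.single_eq_of_ne (Fin.castSucc_lt_last k).ne]
        simp only [mul_zero, add_zero]
        refine Fin.cases ?_ (fun k => ?_) k
        · simp [degQ]
        · rw [← Fin.succ_castSucc]
          simp [degQ]
    rw [h3] at h2
    exact h2
  · intro k _ _ _ φ hφ hQ t₀ ht₀
    have hprod := emb_Qf_mul (κ := κ) (N := N) (q := q) p
    rw [← hprod, map_mul] at hQ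
    have hQ1 : φ (emb κ N q (Qf p κ N q)) ≠ 0 := left_ne_zero_of_mul hQ
    have hQ2 := right_ne_zero_of_mul hQ
    have H1 := H k (φ.comp (emb κ N q).toRingHom) (fun x hx => hφ _ (emb_mem_P pt b hx))
      hQ1 t₀ (by
        intro j
        have h1 := ht₀ j
        rw [← hprod] at h1
        simp only [map_mul, map_pow, mul_pow] at h1
        have h2 : (t₀ j * φ (emb κ N q (Qf p κ N q)) ^ c) *
            φ (asf p (MvPolynomial.X (Sum.inr (Fin.last q, false)))
              (MvPolynomial.X (Sum.inr (Fin.last q, true)))) ^ c =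
            φ (emb κ N q (a j)) *
            φ (asf p (MvPolynomial.X (Sum.inr (Fin.last q, false)))
              (MvPolynomial.X (Sum.inr (Fin.last q, true)))) ^ c := by
          rw [← h1]; ring
        exact mul_right_cancel₀ (pow_ne_zero c hQ2) h2)
    have hX : ∀ j : Fin (N + 1), (φ.comp (emb κ N q).toRingHom) (MvPolynomial.X (Sum.inl j)) =
        φ (MvPolynomial.X (Sum.inl j)) := by
      intro j
      show φ (emb κ N q (MvPolynomial.X (Sum.inl j))) = _
      rw [lb_emb_X_inl]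
    simp only [hX] at H1
    exact H1

theorem level_ext {q q' : ℕ} {K : Type} [Field K] [Algebra κ K]
    {f : Fin r → MvPolynomial (Fin (N + 1)) ℤ_[p]} {i : ℕ} {pt : Pt N q K} {pt' : Pt N q' K}
    (hext : Ext pt pt') (h : Level p f i (pt.P κ)) : Level p f i (pt'.P κ) := by
  induction hext with
  | refl pt => exact h
  | snoc hh b ih => exact level_snoc _ b (ih h)

end Pool.Agent.W_MP_b723a0_ag.P
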