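import Mathlib
import Pool.Agent.W_MP_b723a0_ag.P.Defs
import Pool.Agent.W_MP_b723a0_ag.P.HilBasics
import Pool.Agent.W_MP_b723a0_ag.P.PtBasics
import Pool.Agent.W_MP_b723a0_ag.P.ArtinSchreier

/-!
# Task M3a: regular functions

`Reg p κ pt x`: `x = a(pt)/Q(pt)^c` with `a` homogeneous of degree `c • degQ`, `Q = Qf`.

* `reg_raise`: the exponent can be increased (multiply `a` by a power of `Q`).
* `reg_add, reg_mul, reg_const`: `Reg` is a `κ`-subalgebra (common exponent).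
* `reg_snoc`, `reg_ext`: if `x = a/Q^c` for `pt`, then for `pt.snoc b`,
  `x = emb a · (asf u v)^c / (Q')^c` (`emb_Qf_mul`, `ev_snoc_emb`).
* `reg_frac`: for `j ≤ p` and `b ∈ K` with `b^p - b - 1 ≠ 0`, `b^j/(b^p - b - 1)` is regular at
  `pt.snoc b`: it is `emb (Qf q) u^j v^{p-j} / Qf (q+1)` (`u = b`, `v = 1` at the new point).
* `exists_ext_reg`: for a finite family in `hol p κ K` there is an extension of `pt` at which all
  are regular. Proof: the set of `x ∈ K` such that for every extension `pt₁` of `pt` there is a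
  further extension `pt₂` of `pt₁` with `Reg pt₂ x` is a `κ`-subalgebra of `K` (extend twice, use
  `reg_ext`) containing the generators of `hol` (`reg_frac`, `ASFree`), so it contains `hol`; then
  induct on the family.
* `reg_common`: a finite family of regular elements has a common exponent `c`.
-/

namespace Pool.Agent.W_MP_b723a0_ag.P

variable {p : ℕ} [Fact p.Prime] {κ : Type} [Field κ] {K : Type} [Field K] [Algebra κ K]
  {N q : ℕ}

theorem rb_mul_mem {m m' : Fin (q + 1) → ℕ} {a b : Sr κ N q} (ha : a ∈ Sm κ N q m)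
    (hb : b ∈ Sm κ N q m') : a * b ∈ Sm κ N q (m + m') := by
  rw [MvPolynomial.mem_weightedHomogeneousSubmodule] at *
  exact ha.mul hb

theorem rb_pow_mem {m : Fin (q + 1) → ℕ} {a : Sr κ N q} (ha : a ∈ Sm κ N q m) (n : ℕ) :
    a ^ n ∈ Sm κ N q (n • m) := by
  rw [MvPolynomial.mem_weightedHomogeneousSubmodule] at *
  exact ha.pow n

theorem rb_X_mem (κ : Type) [Field κ] {N q : ℕ} (x : Vr N q) :
    (MvPolynomial.X x : Sr κ N q) ∈ Sm κ N q (Pi.single (gidx x) 1) := by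
  rw [MvPolynomial.mem_weightedHomogeneousSubmodule]
  exact MvPolynomial.isWeightedHomogeneous_X κ (wt N q) x

theorem rb_asf_mem (κ : Type) [Field κ] {N q : ℕ} {p : ℕ} (hp : 1 ≤ p) {m : Fin (q + 1) → ℕ}
    {u v : Sr κ N q} (hu : u ∈ Sm κ N q m) (hv : v ∈ Sm κ N q m) :
    asf p u v ∈ Sm κ N q (p • m) := by
  unfold asf
  refine Submodule.sub_mem _ (Submodule.sub_mem _ (rb_pow_mem hu p) ?_) (rb_pow_mem hv p)
  have h := rb_mul_mem hu (rb_pow_mem hv (p - 1))
  have h2 : m + (p - 1) • m = p • m := by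
    conv_rhs => rw [← Nat.sub_add_cancel hp, add_smul, one_smul, add_comm]
  rwa [h2] at h

theorem rb_degQ_succ (p N q : ℕ) :
    (Fin.snoc (degQ p N q) 0 : Fin (q + 1 + 1) → ℕ) + p • Pi.single (Fin.last (q + 1)) 1
      = degQ p N (q + 1) := by
  funext k
  refine Fin.lastCases ?_ (fun k => ?_) k
  · simp [degQ]
  · rw [Pi.add_apply, Fin.snoc_castSucc, Pi.smul_apply,
      Pi.single_eq_of_ne (Fin.castSucc_lt_last k).ne, smul_zero, add_zero]
    refine Fin.cases ?_ (fun k => ?_) k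
    · simp [degQ]
    · unfold degQ
      rw [Fin.cons_succ, Fin.castSucc_succ, Fin.cons_succ]

theorem rb_snoc_smul (c : ℕ) (m : Fin (q + 1) → ℕ) :
    (Fin.snoc (c • m) 0 : Fin (q + 1 + 1) → ℕ) = c • Fin.snoc m 0 := by
  funext k
  refine Fin.lastCases ?_ (fun k => ?_) k
  · simp
  · simp

theorem rb_asf_new (κ : Type) [Field κ] {N q p : ℕ} (hp : 1 ≤ p) :
    asf p (MvPolynomial.X (Sum.inr (Fin.last q, false)) : Sr κ N (q + 1))
      (MvPolynomial.X (Sum.inr (Fin.last q, true))) ∈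
        Sm κ N (q + 1) (p • Pi.single (Fin.last (q + 1)) 1) := by
  refine rb_asf_mem κ hp ?_ ?_
  · exact rb_X_mem κ (N := N) (q := q + 1) (Sum.inr (Fin.last q, false))
  · exact rb_X_mem κ (N := N) (q := q + 1) (Sum.inr (Fin.last q, true))

theorem reg_raise (pt : Pt N q K) {x : K} {c c' : ℕ} {a : Sr κ N q}
    (ha : a ∈ Sm κ N q (c • degQ p N q)) (hx : x * pt.ev κ (Qf p κ N q) ^ c = pt.ev κ a)
    (hc : c ≤ c') : ∃ a' ∈ Sm κ N q (c' • degQ p N q),
      x * pt.ev κ (Qf p κ N q) ^ c' = pt.ev κ a' := by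
  have hp : 1 ≤ p := (Fact.out : p.Prime).one_lt.le
  refine ⟨a * Qf p κ N q ^ (c' - c), ?_, ?_⟩
  · have h := rb_mul_mem ha (rb_pow_mem (Qf_mem (κ := κ) (N := N) (q := q) p hp) (c' - c))
    rwa [← add_smul, Nat.add_sub_cancel' hc] at h
  · rw [map_mul, map_pow, ← hx, mul_assoc, ← pow_add, Nat.add_sub_cancel' hc]

theorem reg_const (pt : Pt N q K) (c : κ) : Reg p κ pt (algebraMap κ K c) := by
  refine ⟨0, MvPolynomial.C c, ?_, ?_⟩
  · rw [zero_smul, MvPolynomial.mem_weightedHomogeneousSubmodule]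
    exact MvPolynomial.isWeightedHomogeneous_C (wt N q) c
  · rw [pow_zero, mul_one]
    unfold Pt.ev
    rw [MvPolynomial.aeval_C]

theorem reg_add (pt : Pt N q K) {x y : K} (hx : Reg p κ pt x) (hy : Reg p κ pt y) :
    Reg p κ pt (x + y) := by
  obtain ⟨c, a, ha, hxa⟩ := hx
  obtain ⟨c', b, hb, hyb⟩ := hy
  obtain ⟨a', ha', hxa'⟩ := reg_raise pt ha hxa (le_max_left c c')
  obtain ⟨b', hb', hyb'⟩ := reg_raise pt hb hyb (le_max_right c c')
  exact ⟨max c c', a' + b', Submodule.add_mem _ ha' hb', by rw [add_mul, hxa', hyb', map_add]⟩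

theorem reg_mul (pt : Pt N q K) {x y : K} (hx : Reg p κ pt x) (hy : Reg p κ pt y) :
    Reg p κ pt (x * y) := by
  obtain ⟨c, a, ha, hxa⟩ := hx
  obtain ⟨c', b, hb, hyb⟩ := hy
  refine ⟨c + c', a * b, ?_, ?_⟩
  · have h := rb_mul_mem ha hb
    rwa [← add_smul] at h
  · rw [map_mul, ← hxa, ← hyb, pow_add]
    ring

theorem reg_snoc (pt : Pt N q K) (b : K) {x : K} (hx : Reg p κ pt x) :
    Reg p κ (pt.snoc b) x := by
  have hp : 1 ≤ p := (Fact.out : p.Prime).one_lt.le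
  obtain ⟨c, a, ha, hxa⟩ := hx
  refine ⟨c, emb κ N q a * asf p (MvPolynomial.X (Sum.inr (Fin.last q, false)))
      (MvPolynomial.X (Sum.inr (Fin.last q, true))) ^ c, ?_, ?_⟩
  · have h := rb_mul_mem (emb_mem ha) (rb_pow_mem (rb_asf_new κ (N := N) (q := q) hp) c)
    rwa [rb_snoc_smul, ← smul_add, rb_degQ_succ] at h
  · rw [← emb_Qf_mul, map_mul, map_mul, map_pow, mul_pow, ev_snoc_emb, ev_snoc_emb, ← hxa]
    ring

theorem reg_ext {q' : ℕ} {pt : Pt N q K} {pt' : Pt N q' K} (h : Ext pt pt') {x : K}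
    (hx : Reg p κ pt x) : Reg p κ pt' x := by
  induction h with
  | refl pt => exact hx
  | snoc h b ih => exact reg_snoc _ b (ih hx)

theorem reg_frac (hAS : ASFree p K) (pt : Pt N q K) (b : K) (j : ℕ) (hj : j ≤ p) :
    Reg p κ (pt.snoc b) (b ^ j / (b ^ p - b - 1)) := by
  have hp : 1 ≤ p := (Fact.out : p.Prime).one_lt.le
  have hb : b ^ p - b - 1 ≠ 0 := by
    intro h0
    have h1 := hAS b 1 (by simp only [asf, one_pow, mul_one]; exact h0)
    exact one_ne_zero h1.2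
  have hu : (pt.snoc b).ev κ (MvPolynomial.X (Sum.inr (Fin.last q, false))) = b := by
    unfold Pt.ev
    rw [MvPolynomial.aeval_X]
    simp [Pt.val, Pt.snoc]
  have hv : (pt.snoc b).ev κ (MvPolynomial.X (Sum.inr (Fin.last q, true))) = 1 := by
    unfold Pt.ev
    rw [MvPolynomial.aeval_X]
    simp [Pt.val, Pt.snoc]
  refine ⟨1, emb κ N q (Qf p κ N q) * (MvPolynomial.X (Sum.inr (Fin.last q, false)) ^ j *
      MvPolynomial.X (Sum.inr (Fin.last q, true)) ^ (p - j)), ?_, ?_⟩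
  · have h1 := rb_mul_mem (rb_pow_mem (rb_X_mem κ (N := N) (q := q + 1)
        (Sum.inr (Fin.last q, false))) j)
      (rb_pow_mem (rb_X_mem κ (N := N) (q := q + 1) (Sum.inr (Fin.last q, true))) (p - j))
    have h2 : j • (Pi.single (gidx (N := N) (q := q + 1) (Sum.inr (Fin.last q, false))) 1 :
          Fin (q + 1 + 1) → ℕ) +
        (p - j) • Pi.single (gidx (N := N) (q := q + 1) (Sum.inr (Fin.last q, true))) 1 =
        p • Pi.single (Fin.last (q + 1)) 1 := by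
      change j • (Pi.single (Fin.last (q + 1)) 1 : Fin (q + 1 + 1) → ℕ) +
        (p - j) • Pi.single (Fin.last (q + 1)) 1 = p • Pi.single (Fin.last (q + 1)) 1
      rw [← add_smul, Nat.add_sub_cancel' hj]
    rw [h2] at h1
    have h := rb_mul_mem (emb_mem (Qf_mem (κ := κ) (N := N) (q := q) p hp)) h1
    rwa [rb_degQ_succ, ← one_smul ℕ (degQ p N (q + 1))] at h
  · rw [← emb_Qf_mul, map_mul, map_mul, map_mul, map_pow, map_pow, hu, hv, pow_one, ev_snoc_emb]
    have h3 : (pt.snoc b).ev κ (asf p (MvPolynomial.X (Sum.inr (Fin.last q, false)))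
        (MvPolynomial.X (Sum.inr (Fin.last q, true)))) = b ^ p - b - 1 := by
      unfold asf
      rw [map_sub, map_sub, map_mul, map_pow, map_pow, map_pow, hu, hv, one_pow, one_pow, mul_one]
    rw [h3, one_pow, mul_one]
    field_simp

theorem rb_exists_one (hAS : ASFree p K) {x : K} (hx : x ∈ hol p κ K) :
    ∀ (q : ℕ) (pt : Pt N q K), ∃ (q' : ℕ) (pt' : Pt N q' K), Ext pt pt' ∧ Reg p κ pt' x := by
  unfold hol at hx
  induction hx using Algebra.adjoin_induction with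
  | mem x hx =>
    obtain ⟨b, j, hj, rfl⟩ := hx
    intro q pt
    exact ⟨q + 1, pt.snoc b, Ext.snoc (Ext.refl pt) b, reg_frac hAS pt b j hj⟩
  | algebraMap r =>
    intro q pt
    exact ⟨q, pt, Ext.refl pt, reg_const pt r⟩
  | add x y _ _ ihx ihy =>
    intro q pt
    obtain ⟨q₁, pt₁, h₁, hx₁⟩ := ihx q pt
    obtain ⟨q₂, pt₂, h₂, hy₂⟩ := ihy q₁ pt₁
    exact ⟨q₂, pt₂, ext_trans h₁ h₂, reg_add pt₂ (reg_ext h₂ hx₁) hy₂⟩
  | mul x y _ _ ihx ihy =>
    intro q pt
    obtain ⟨q₁, pt₁, h₁, hx₁⟩ := ihx q pt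
    obtain ⟨q₂, pt₂, h₂, hy₂⟩ := ihy q₁ pt₁
    exact ⟨q₂, pt₂, ext_trans h₁ h₂, reg_mul pt₂ (reg_ext h₂ hx₁) hy₂⟩

theorem exists_ext_reg (hAS : ASFree p K) (pt : Pt N q K) {ι : Type} [Finite ι] (x : ι → K)
    (hx : ∀ j, x j ∈ hol p κ K) :
    ∃ (q' : ℕ) (pt' : Pt N q' K), Ext pt pt' ∧ ∀ j, Reg p κ pt' (x j) := by
  classical
  have := Fintype.ofFinite ι
  have key : ∀ s : Finset ι, ∃ (q' : ℕ) (pt' : Pt N q' K), Ext pt pt' ∧
      ∀ j ∈ s, Reg p κ pt' (x j) := by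
    intro s
    induction s using Finset.induction_on with
    | empty => exact ⟨q, pt, Ext.refl pt, by simp⟩
    | insert i s hi ih =>
      obtain ⟨q₁, pt₁, h₁, hx₁⟩ := ih
      obtain ⟨q₂, pt₂, h₂, hx₂⟩ := rb_exists_one hAS (hx i) q₁ pt₁
      refine ⟨q₂, pt₂, ext_trans h₁ h₂, ?_⟩
      intro j hj
      rcases Finset.mem_insert.1 hj with rfl | hj
      · exact hx₂
      · exact reg_ext h₂ (hx₁ j hj)
  obtain ⟨q', pt', h, hall⟩ := key Finset.univ
  exact ⟨q', pt', h, fun j => hall j (Finset.mem_univ j)⟩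

theorem reg_common (pt : Pt N q K) {ι : Type} [Finite ι] (x : ι → K)
    (hx : ∀ j, Reg p κ pt (x j)) :
    ∃ (c : ℕ) (a : ι → Sr κ N q), ∀ j, a j ∈ Sm κ N q (c • degQ p N q) ∧
      x j * pt.ev κ (Qf p κ N q) ^ c = pt.ev κ (a j) := by
  classical
  have := Fintype.ofFinite ι
  choose c a ha hxa using hx
  have h : ∀ j, ∃ a' ∈ Sm κ N q ((Finset.univ.sup c) • degQ p N q),
      x j * pt.ev κ (Qf p κ N q) ^ (Finset.univ.sup c) = pt.ev κ a' := fun j =>
    reg_raise pt (ha j) (hxa j) (Finset.le_sup (Finset.mem_univ j))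
  choose a' ha' hxa' using h
  exact ⟨Finset.univ.sup c, a', fun j => ⟨ha' j, hxa' j⟩⟩

end Pool.Agent.W_MP_b723a0_ag.P
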