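import Mathlib
import Pool.Agent.W_MP_b723a0_ag.P.Defs
import Pool.Agent.W_MP_b723a0_ag.P.HilBasics
import Pool.Agent.W_MP_b723a0_ag.P.PtBasics
import Pool.Agent.W_MP_b723a0_ag.P.ArtinSchreier
import Pool.Agent.W_MP_b723a0_ag.P.HolLoc

/-!
# Task M3b: regular functions are in the holomorphy ring

Proof. By `mem_of_forall_inLoc` it is enough to show `x ∈ V = 𝔸_m` for every maximal `m`
(`hol_locVal`, `exists_locRing`). By `exists_min_coord` choose `l` with `z_l ≠ 0` and
`z_j/z_l ∈ V` for all `j`, and for each `k` a nonzero `w_k ∈ {u_k, v_k}` with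
`u_k/w_k, v_k/w_k ∈ V`. Let `n x = lam (gidx x) * pt.val x` be the normalised coordinates
(`lam 0 = 1/z_l`, `lam (k+1) = 1/w_k`), all in `V`. By `ev_scale`, for `a` of degree `c • degQ` and
`Q^c` of the same degree, `x = ev a/(ev Q)^c = a(n)/Q(n)^c`. `a(n) ∈ V` (polynomial with
coefficients in `κ ⊂ 𝔸`), `Q(n) = nf(z/z_l) ∏ asf(u_k/w_k, v_k/w_k)` and the inverses of these
factors are in `V` by `nf_inv`, `asf_inv`.
-/

namespace Pool.Agent.W_MP_b723a0_ag.P

/-- The point with rescaled coordinates. -/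
def regHol_scale {N q : ℕ} {K : Type} [Field K] (pt : Pt N q K) (lam : Fin (q + 1) → K)
    (hlam : ∀ k, lam k ≠ 0) : Pt N q K where
  z := fun j => lam 0 * pt.z j
  u := fun k => lam k.succ * pt.u k
  v := fun k => lam k.succ * pt.v k
  hz := by
    obtain ⟨j, hj⟩ := pt.hz
    exact ⟨j, mul_ne_zero (hlam 0) hj⟩
  huv := fun k => (pt.huv k).imp (mul_ne_zero (hlam _)) (mul_ne_zero (hlam _))

theorem regHol_scale_val {N q : ℕ} {K : Type} [Field K] (pt : Pt N q K) (lam : Fin (q + 1) → K)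
    (hlam : ∀ k, lam k ≠ 0) :
    (regHol_scale pt lam hlam).val = fun x => lam (gidx x) * pt.val x := by
  funext x
  rcases x with j | ⟨k, b⟩
  · rfl
  · cases b <;> rfl

theorem reg_mem_hol {p : ℕ} [Fact p.Prime] {κ : Type} [Field κ] {K : Type} [Field K]
    [Algebra κ K] {N q : ℕ} (hAS : ASFree p K) (pt : Pt N q K) {x : K} (hx : Reg p κ pt x) :
    x ∈ hol p κ K := by
  obtain ⟨c, a, ha, hxa⟩ := hx
  have hp : 1 ≤ p := (Fact.out : p.Prime).one_lt.le
  apply mem_of_forall_inLoc (hol p κ K).toSubring x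
  intro m hm
  obtain ⟨V, hV, -⟩ := holLoc_V (κ := κ) hAS m hm
  rw [← hV]
  obtain ⟨l, hl0, hl⟩ := exists_min_coord hAS m hm pt.z pt.hz
  have hw : ∀ k : Fin q, ∃ w : K, w ≠ 0 ∧ w⁻¹ * pt.u k ∈ V ∧ w⁻¹ * pt.v k ∈ V ∧
      (w⁻¹ * pt.u k = 1 ∨ w⁻¹ * pt.v k = 1) := by
    intro k
    obtain ⟨i, hi0, hi⟩ := exists_min_coord hAS m hm ![pt.u k, pt.v k] (by
      rcases pt.huv k with h | h
      · exact ⟨0, h⟩
      · exact ⟨1, h⟩)
    refine ⟨![pt.u k, pt.v k] i, hi0, ?_, ?_, ?_⟩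
    · rw [hV, ← div_eq_inv_mul]
      exact hi 0
    · rw [hV, ← div_eq_inv_mul]
      exact hi 1
    · fin_cases i
      · left
        exact inv_mul_cancel₀ hi0
      · right
        exact inv_mul_cancel₀ hi0
  choose w hw0 hwu hwv hw1 using hw
  obtain ⟨lam, hlam0, hlams⟩ : ∃ lam : Fin (q + 1) → K, lam 0 = (pt.z l)⁻¹ ∧
      ∀ k : Fin q, lam k.succ = (w k)⁻¹ :=
    ⟨Fin.cons (pt.z l)⁻¹ (fun k => (w k)⁻¹), Fin.cons_zero _ _, fun k => Fin.cons_succ _ _ _⟩
  have hlam : ∀ k, lam k ≠ 0 := by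
    intro k
    refine Fin.cases ?_ (fun k => ?_) k
    · rw [hlam0]
      exact inv_ne_zero hl0
    · rw [hlams]
      exact inv_ne_zero (hw0 k)
  let pt' : Pt N q K := regHol_scale pt lam hlam
  have hval : pt'.val = fun x => lam (gidx x) * pt.val x := regHol_scale_val pt lam hlam
  have hevs : ∀ (m : Fin (q + 1) → ℕ) (b : Sr κ N q), b ∈ Sm κ N q m →
      pt'.ev κ b = (∏ k, lam k ^ m k) * pt.ev κ b := by
    intro m b hb
    have := ev_scale pt hb lam
    rw [← hval] at this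
    exact this
  -- the normalised coordinates are in `V`
  have hz' : ∀ j, pt'.z j ∈ V := by
    intro j
    show lam 0 * pt.z j ∈ V
    rw [hlam0, ← div_eq_inv_mul, hV]
    exact hl j
  have hu' : ∀ k, pt'.u k ∈ V := by
    intro k
    show lam k.succ * pt.u k ∈ V
    rw [hlams]
    exact hwu k
  have hv' : ∀ k, pt'.v k ∈ V := by
    intro k
    show lam k.succ * pt.v k ∈ V
    rw [hlams]
    exact hwv k
  have hval' : ∀ y, pt'.val y ∈ V := by
    intro y
    rcases y with j | ⟨k, b⟩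
    · exact hz' j
    · cases b
      · exact hu' k
      · exact hv' k
  have hκ : ∀ r : κ, algebraMap κ K r ∈ V := by
    intro r
    rw [hV]
    exact inLoc_of_mem _ m hm _ ((hol p κ K).algebraMap_mem r)
  have hev : ∀ b : Sr κ N q, pt'.ev κ b ∈ V := by
    intro b
    show MvPolynomial.aeval pt'.val b ∈ V
    induction b using MvPolynomial.induction_on with
    | C r =>
      rw [MvPolynomial.aeval_C]
      exact hκ r
    | add f g hf hg =>
      rw [map_add]
      exact add_mem hf hg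
    | mul_X f y hf =>
      rw [map_mul, MvPolynomial.aeval_X]
      exact mul_mem hf (hval' y)
  -- the value of `Q`
  have hQinv : (pt'.ev κ (Qf p κ N q))⁻¹ ∈ V := by
    rw [ev_Qf, mul_inv, ← Finset.prod_inv_distrib]
    refine mul_mem ?_ (prod_mem fun k _ => ?_)
    · rw [hV]
      refine nf_inv hAS m hm N pt'.z (fun j => (hV _).1 (hz' j)) l ?_
      show lam 0 * pt.z l = 1
      rw [hlam0]
      exact inv_mul_cancel₀ hl0
    · rw [hV]
      refine asf_inv hAS m hm _ _ ((hV _).1 (hu' k)) ((hV _).1 (hv' k)) ?_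
      show lam k.succ * pt.u k = 1 ∨ lam k.succ * pt.v k = 1
      rw [hlams]
      exact hw1 k
  have hQ0 : pt'.ev κ (Qf p κ N q) ≠ 0 := ev_Qf_ne_zero hp hAS pt'
  have hQ := hevs _ _ (Qf_mem (κ := κ) (N := N) (q := q) p hp)
  have hA := hevs _ _ ha
  have hL : (∏ k, lam k ^ (c • degQ p N q) k) = (∏ k, lam k ^ degQ p N q k) ^ c := by
    rw [← Finset.prod_pow]
    refine Finset.prod_congr rfl fun k _ => ?_
    rw [Pi.smul_apply, smul_eq_mul, mul_comm, pow_mul]
  have key : x * pt'.ev κ (Qf p κ N q) ^ c = pt'.ev κ a := by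
    rw [hQ, hA, hL, mul_pow, ← hxa]
    ring
  have : x = pt'.ev κ a * (pt'.ev κ (Qf p κ N q))⁻¹ ^ c := by
    rw [← key, mul_assoc, ← mul_pow, mul_inv_cancel₀ hQ0, one_pow, mul_one]
  rw [this]
  exact mul_mem (hev a) (pow_mem hQinv c)

end Pool.Agent.W_MP_b723a0_ag.P
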