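import Mathlib
import Pool.Agent.W_MP_b723a0_ag.Defs
import Pool.Agent.W_MP_b723a0_ag.Digits
import Pool.Agent.W_MP_b723a0_ag.P.Defs

/-!
# Task M4: the specialization lemma

`B` a domain of characteristic `p`, `y₀ ∈ B^σ`, `G ∈ ℤ_p[Y_s]`, `R ∈ B`, and an injective ring
homomorphism `ψ` from `B[X_{s,j} : s ∈ σ, 0 ≤ j < i]` to a perfect field `k₀` such that for all lifts
`ŷ ∈ W(k₀)^σ` of `ψ(y₀)`, `G(ŷ) ≡ p^i [ψ(R)] mod p^{i+1}`. Then for every perfect field `k'`, every
ring homomorphism `φ : B → k'` and all lifts `ŷ` of `φ(y₀)`: `G(ŷ) ≡ p^i [φ(R)] mod p^{i+1}`.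

Proof. Let `Y_s = [y₀ s] + ∑_{j < i} p^{j+1} [X_{s,j}] ∈ W(B[X])` and
`E = G(Y) - p^i [R] ∈ W(B[X])`. The image of `E` in `W(k₀)` is `G(ŷ) - p^i[ψ R]` for the lift
`ŷ_s = [ψ y₀ s] + ∑ p^{j+1} [ψ X_{s,j}]`, hence divisible by `p^{i+1}`, so its components
`0, ..., i` vanish (`WittVector.mem_span_p_pow_iff_le_coeff_eq_zero`); as `ψ` is injective the
components `0, ..., i` of `E` vanish in `B[X]`. Now let `ŷ` be a lift of `φ(y₀)` over `k'`. As `k'`
is perfect, `ŷ_s ≡ [φ y₀ s] + ∑_{j<i} p^{j+1} [x_{s,j}] mod p^{i+1}` for suitable `x_{s,j} ∈ k'`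
(`x = ∑_j p^j [x_j^{p^{-j}}]`; see `WittVector.dvd_sub_sum_teichmuller_iterateFrobeniusEquiv_coeff`
or successive approximation). Under `B[X] → k'`, `φ` on `B` and `X_{s,j} ↦ x_{s,j}`, `E` maps to
`G([φ y₀ s] + ∑ p^{j+1}[x_{s,j}]) - p^i [φ R]`, whose components `0, ..., i` vanish, so it is
divisible by `p^{i+1}` (`k'` perfect), and `G(ŷ)` is congruent mod `p^{i+1}`
(`eval₂_congr_dvd`/`eval₂_point_dvd` type lemma: congruent points have congruent values).
-/

namespace Pool.Agent.W_MP_b723a0_ag.P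

theorem specialize_eval₂_dvd {S R σ : Type*} [CommRing S] [CommRing R] (g : S →+* R) (d : R)
    (a b : σ → R) (h : ∀ s, d ∣ a s - b s) (G : MvPolynomial σ S) :
    d ∣ MvPolynomial.eval₂ g a G - MvPolynomial.eval₂ g b G := by
  rw [← Ideal.mem_span_singleton, ← Ideal.Quotient.eq_zero_iff_mem, map_sub, sub_eq_zero,
    MvPolynomial.eval₂_comp_left, MvPolynomial.eval₂_comp_left]
  congr 1
  funext s
  rw [Function.comp_apply, Function.comp_apply, ← sub_eq_zero, ← map_sub,
    Ideal.Quotient.eq_zero_iff_mem, Ideal.mem_span_singleton]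
  exact h s

theorem specialize_digit_coeff_zero {p : ℕ} [Fact p.Prime] {A : Type*} [CommRing A] [CharP A p]
    (m : ℕ) {σ : Type*} (y : Fin (m + 1) × σ → A) (s : σ) :
    (digitPoint p (m + 1) y s).coeff 0 = y (0, s) := by
  have h : ∀ w : WittVector p A, w.coeff 0 = WittVector.constantCoeff w := fun _ => rfl
  rw [h, digitPoint, map_sum, Fin.sum_univ_succ]
  rw [Finset.sum_eq_zero]
  · simp only [Fin.val_zero, pow_zero, one_mul, add_zero]
    rw [← h, WittVector.teichmuller_coeff_zero]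
  · intro j _
    rw [map_mul, map_pow, map_natCast, CharP.cast_eq_zero, zero_pow (by simp), zero_mul]

theorem specialize_dvd_iff {p : ℕ} [Fact p.Prime] {k : Type*} [Field k] [CharP k p]
    [PerfectRing k p] (w : WittVector p k) (n : ℕ) :
    (p : WittVector p k) ^ n ∣ w ↔ ∀ m, m < n → w.coeff m = 0 := by
  rw [← WittVector.mem_span_p_pow_iff_le_coeff_eq_zero, Ideal.mem_span_singleton]

theorem specialize {p : ℕ} [Fact p.Prime] {B : Type} [CommRing B] [IsDomain B] [CharP B p]
    {σ : Type} (i : ℕ) (y₀ : σ → B) (G : MvPolynomial σ ℤ_[p]) (R : B) (k₀ : Type) [Field k₀]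
    [CharP k₀ p] [PerfectRing k₀ p] (ψ : MvPolynomial (σ × Fin i) B →+* k₀)
    (hψ : Function.Injective ψ)
    (h₀ : ∀ ŷ : σ → WittVector p k₀, IsLift p (fun s => ψ (MvPolynomial.C (y₀ s))) ŷ →
      (p : WittVector p k₀) ^ (i + 1) ∣ MvPolynomial.eval₂ (zpToWitt p k₀) ŷ G -
        p ^ i * WittVector.teichmuller p (ψ (MvPolynomial.C R)))
    (k' : Type) [Field k'] [CharP k' p] [PerfectRing k' p] (φ : B →+* k')
    (ŷ : σ → WittVector p k') (hŷ : IsLift p (fun s => φ (y₀ s)) ŷ) :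
    (p : WittVector p k') ^ (i + 1) ∣ MvPolynomial.eval₂ (zpToWitt p k') ŷ G -
      p ^ i * WittVector.teichmuller p (φ R) := by
  have hA : CharP (MvPolynomial (σ × Fin i) B) p := inferInstance
  let y' : Fin (i + 1) × σ → MvPolynomial (σ × Fin i) B := fun q =>
    Fin.cases (MvPolynomial.C (y₀ q.2)) (fun j => MvPolynomial.X (q.2, j)) q.1
  let E : WittVector p (MvPolynomial (σ × Fin i) B) :=
    MvPolynomial.eval₂ (zpToWitt p (MvPolynomial (σ × Fin i) B)) (digitPoint p (i + 1) y') G -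
      (p : WittVector p (MvPolynomial (σ × Fin i) B)) ^ i *
        WittVector.teichmuller p (MvPolynomial.C R)
  -- images of `E`
  have hmap : ∀ (k : Type) [Field k] [CharP k p] (Φ : MvPolynomial (σ × Fin i) B →+* k),
      WittVector.map Φ E = MvPolynomial.eval₂ (zpToWitt p k)
        (digitPoint p (i + 1) (fun q => Φ (y' q))) G -
          p ^ i * WittVector.teichmuller p (Φ (MvPolynomial.C R)) := by
    intro k _ _ Φ
    simp only [E]
    rw [map_sub, map_eval_digitPoint, map_mul, map_pow, map_natCast, WittVector.map_teichmuller]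
  -- the components of `E` vanish
  have hE : ∀ m, m < i + 1 → E.coeff m = 0 := by
    intro m hm
    have h1 := h₀ (digitPoint p (i + 1) (fun q => ψ (y' q))) (fun s => by
      rw [specialize_digit_coeff_zero]
      rfl)
    rw [← hmap k₀ ψ, specialize_dvd_iff] at h1
    have h2 := h1 m hm
    rw [WittVector.map_coeff] at h2
    exact hψ (by rw [h2, map_zero])
  -- the specialization
  let x : σ × Fin i → k' := fun q =>
    ((frobeniusEquiv k' p).symm ^ ((q.2 : ℕ) + 1)) ((ŷ q.1).coeff ((q.2 : ℕ) + 1))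
  let Φ : MvPolynomial (σ × Fin i) B →+* k' := MvPolynomial.eval₂Hom φ x
  have h3 : (p : WittVector p k') ^ (i + 1) ∣ WittVector.map Φ E := by
    rw [specialize_dvd_iff]
    intro m hm
    rw [WittVector.map_coeff, hE m hm, map_zero]
  rw [hmap k' Φ] at h3
  have h4 : Φ (MvPolynomial.C R) = φ R := by simp [Φ]
  rw [h4] at h3
  have h5 : ∀ s, (p : WittVector p k') ^ (i + 1) ∣
      ŷ s - digitPoint p (i + 1) (fun q => Φ (y' q)) s := by
    intro s
    have h6 := WittVector.dvd_sub_sum_teichmuller_iterateFrobeniusEquiv_coeff (ŷ s) i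
    convert h6 using 2
    have h7 : Finset.Iic i = Finset.range (i + 1) := by
      ext a; simp
    rw [h7, Finset.sum_range, digitPoint]
    refine Finset.sum_congr rfl fun j _ => ?_
    rw [mul_comm]
    congr 2
    refine Fin.cases ?_ (fun j => ?_) j
    · have h8 : Φ (y' (0, s)) = φ (y₀ s) := by
        simp only [y', Φ, Fin.cases_zero, MvPolynomial.eval₂Hom_C]
      rw [h8, Fin.val_zero, pow_zero]
      exact (hŷ s).symm
    · have h8 : Φ (y' (j.succ, s)) = x (s, j) := by
        simp only [y', Φ, Fin.cases_succ, MvPolynomial.eval₂Hom_X']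
      rw [h8]
      simp only [x, Fin.val_succ]
  have h9 := specialize_eval₂_dvd (zpToWitt p k') _ _ _ h5 G
  have h10 := dvd_add h9 h3
  convert h10 using 1
  ring

end Pool.Agent.W_MP_b723a0_ag.P
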