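import Mathlib
import Pool.Agent.W_MP_b723a0_ag.Defs
import Pool.Agent.W_MP_b723a0_ag.SystemZp
import Pool.Agent.W_MP_b723a0_ag.P.Defs
import Pool.Agent.W_MP_b723a0_ag.P.HilBasics
import Pool.Agent.W_MP_b723a0_ag.P.PtBasics
import Pool.Agent.W_MP_b723a0_ag.P.ArtinSchreier
import Pool.Agent.W_MP_b723a0_ag.P.LevelBasics
import Pool.Agent.W_MP_b723a0_ag.P.LemmaP
import Pool.Agent.W_MP_b723a0_ag.P.KS1
import Pool.Agent.W_MP_b723a0_ag.P.RegBasics
import Pool.Agent.W_MP_b723a0_ag.P.RegHol
import Pool.Agent.W_MP_b723a0_ag.P.SectionReg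
import Pool.Agent.W_MP_b723a0_ag.P.Specialize

/-!
# The key step

Assembly of `ks1`, `reg_mem_hol`, `exists_ext_reg`, `exists_sections`, `specialize`.
-/

namespace Pool.Agent.W_MP_b723a0_ag.P

open MvPolynomial

/-- The polynomial `f(X(T) Z)`. -/
noncomputable def FPoly (p : ℕ) [Fact p.Prime] {N M : ℕ} (f : MvPolynomial (Fin (N + 1)) ℤ_[p])
    (X : Fin (N + 1) → Fin (N + 1) → MvPolynomial (Fin M) ℤ) :
    MvPolynomial (Fin M ⊕ Fin (N + 1)) ℤ_[p] :=
  MvPolynomial.aeval (fun a => ∑ b,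
    MvPolynomial.aeval (fun j => MvPolynomial.X (Sum.inl j)) (X a b) *
      MvPolynomial.X (Sum.inr b)) f

theorem eval₂_aeval_int {R A : Type*} [CommRing R] [CommRing A] {σ τ : Type*} (φ : R →+* A)
    (g : τ → A) (h : σ → MvPolynomial τ R) (P : MvPolynomial σ ℤ) :
    MvPolynomial.eval₂ φ g (MvPolynomial.aeval h P) =
      MvPolynomial.aeval (fun j => MvPolynomial.eval₂ φ g (h j)) P := by
  have h1 : (MvPolynomial.eval₂Hom φ g).comp
      (MvPolynomial.aeval h : MvPolynomial σ ℤ →ₐ[ℤ] _).toRingHom =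
      (MvPolynomial.aeval (fun j => MvPolynomial.eval₂ φ g (h j)) :
        MvPolynomial σ ℤ →ₐ[ℤ] A).toRingHom := by
    apply MvPolynomial.ringHom_ext
    · intro r; simp
    · intro i; simp
  exact congrArg (fun F => F P) h1

theorem eval₂_FPoly (p : ℕ) [Fact p.Prime] {N M : ℕ} (f : MvPolynomial (Fin (N + 1)) ℤ_[p])
    (X : Fin (N + 1) → Fin (N + 1) → MvPolynomial (Fin M) ℤ) {k : Type} [Field k] [CharP k p]
    (th : Fin M → WittVector p k) (zh : Fin (N + 1) → WittVector p k) :
    MvPolynomial.eval₂ (zpToWitt p k) (Sum.elim th zh) (FPoly p f X) = fval p f X th zh := by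
  have h1 : (MvPolynomial.eval₂Hom (zpToWitt p k) (Sum.elim th zh)).comp
      (MvPolynomial.aeval (fun a => ∑ b,
        MvPolynomial.aeval (fun j => MvPolynomial.X (Sum.inl j)) (X a b) *
        MvPolynomial.X (Sum.inr b)) : MvPolynomial (Fin (N + 1)) ℤ_[p] →ₐ[ℤ_[p]]
          MvPolynomial (Fin M ⊕ Fin (N + 1)) ℤ_[p]).toRingHom =
      MvPolynomial.eval₂Hom (zpToWitt p k)
        (fun a => ∑ b, MvPolynomial.aeval th (X a b) * zh b) := by
    apply MvPolynomial.ringHom_ext
    · intro r; simp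
    · intro i
      simp only [AlgHom.toRingHom_eq_coe, RingHom.coe_comp, RingHom.coe_coe, Function.comp_apply,
        aeval_X, map_sum, map_mul, coe_eval₂Hom, eval₂_X, Sum.elim_inr, eval₂_sum, eval₂_mul]
      refine Finset.sum_congr rfl (fun b _ => ?_)
      rw [eval₂_aeval_int]
      simp
  exact congrArg (fun F => F f) h1

/-- The weights on `T, Z`. -/
abbrev wTZ (M N : ℕ) : Fin M ⊕ Fin (N + 1) → ℕ := Sum.elim (fun _ => 0) (fun _ => 1)

theorem aeval_inl_weighted (p : ℕ) [Fact p.Prime] {N M : ℕ} (P : MvPolynomial (Fin M) ℤ) :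
    (MvPolynomial.aeval (fun j => (MvPolynomial.X (Sum.inl j) :
      MvPolynomial (Fin M ⊕ Fin (N + 1)) ℤ_[p])) P).IsWeightedHomogeneous (wTZ M N) 0 := by
  induction P using MvPolynomial.induction_on with
  | C a =>
    simp only [MvPolynomial.algHom_C]
    have : (algebraMap ℤ (MvPolynomial (Fin M ⊕ Fin (N + 1)) ℤ_[p])) a =
      MvPolynomial.C ((a : ℤ) : ℤ_[p]) := by simp
    rw [this]
    exact MvPolynomial.isWeightedHomogeneous_C _ _
  | add P Q hP hQ => rw [map_add]; exact hP.add hQ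
  | mul_X P j hP =>
    rw [map_mul, MvPolynomial.aeval_X]
    have h1 := MvPolynomial.isWeightedHomogeneous_X ℤ_[p] (wTZ M N) (Sum.inl j)
    have := hP.mul h1
    simpa using this

theorem FPoly_weighted (p : ℕ) [Fact p.Prime] {N M d : ℕ} (f : MvPolynomial (Fin (N + 1)) ℤ_[p])
    (hf : f.IsHomogeneous d) (X : Fin (N + 1) → Fin (N + 1) → MvPolynomial (Fin M) ℤ) :
    (FPoly p f X).IsWeightedHomogeneous (wTZ M N) d := by
  have hlin : ∀ a, (∑ b, MvPolynomial.aeval (fun j => MvPolynomial.X (Sum.inl j)) (X a b) *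
      MvPolynomial.X (Sum.inr b) : MvPolynomial (Fin M ⊕ Fin (N + 1)) ℤ_[p]).IsWeightedHomogeneous
        (wTZ M N) 1 := by
    intro a
    apply MvPolynomial.IsWeightedHomogeneous.sum
    intro b _
    have h1 := MvPolynomial.isWeightedHomogeneous_X ℤ_[p] (wTZ M N) (Sum.inr b)
    have := (aeval_inl_weighted p (N := N) (X a b)).mul h1
    simpa using this
  rw [FPoly, MvPolynomial.aeval_def, MvPolynomial.eval₂_eq]
  apply MvPolynomial.IsWeightedHomogeneous.sum
  intro m hm
  have hm' : m.degree = d := by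
    by_contra hne
    exact (MvPolynomial.mem_support_iff.1 hm) (hf.coeff_eq_zero hne)
  have h2 : (∏ i ∈ m.support, (∑ b, MvPolynomial.aeval (fun j => MvPolynomial.X (Sum.inl j))
      (X i b) * MvPolynomial.X (Sum.inr b) : MvPolynomial (Fin M ⊕ Fin (N + 1)) ℤ_[p]) ^
        m i).IsWeightedHomogeneous (wTZ M N) (∑ i ∈ m.support, m i • 1) := by
    apply MvPolynomial.IsWeightedHomogeneous.prod
    intro i _
    exact (hlin i).pow _
  have h3 : (∑ i ∈ m.support, m i • 1) = d := by
    rw [← hm', Finsupp.degree_apply]; simp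
  rw [h3] at h2
  have h4 := (MvPolynomial.isWeightedHomogeneous_C (wTZ M N) (f.coeff m)).mul h2
  simpa using h4

/-- Composition of the matrices. -/
noncomputable def XComp {N M M' : ℕ} (X : Fin (N + 1) → Fin (N + 1) → MvPolynomial (Fin M) ℤ)
    (T : Fin M → MvPolynomial (Fin M') ℤ)
    (Z : Fin (N + 1) → Fin (N + 1) → MvPolynomial (Fin M') ℤ) :
    Fin (N + 1) → Fin (N + 1) → MvPolynomial (Fin M') ℤ :=
  fun a b => ∑ c, MvPolynomial.aeval T (X a c) * Z c b

theorem XComp_apply {N M M' : ℕ} (X : Fin (N + 1) → Fin (N + 1) → MvPolynomial (Fin M) ℤ)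
    (T : Fin M → MvPolynomial (Fin M') ℤ)
    (Z : Fin (N + 1) → Fin (N + 1) → MvPolynomial (Fin M') ℤ) {R : Type*} [CommRing R]
    (t : Fin M' → R) (z : Fin (N + 1) → R) (a : Fin (N + 1)) :
    ∑ b, MvPolynomial.aeval t (XComp X T Z a b) * z b =
      ∑ c, MvPolynomial.aeval (fun j => MvPolynomial.aeval t (T j)) (X a c) *
        ∑ b, MvPolynomial.aeval t (Z c b) * z b := by
  simp only [XComp, map_sum, map_mul, Finset.sum_mul, Finset.mul_sum]
  rw [Finset.sum_comm]
  refine Finset.sum_congr rfl (fun c _ => Finset.sum_congr rfl (fun b _ => ?_))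
  have : MvPolynomial.aeval t (MvPolynomial.aeval T (X a c)) =
      MvPolynomial.aeval (fun j => MvPolynomial.aeval t (T j)) (X a c) := by
    rw [← AlgHom.comp_apply, MvPolynomial.comp_aeval]
  rw [this]
  ring

theorem fval_comp (p : ℕ) [Fact p.Prime] {N M M' : ℕ} (f : MvPolynomial (Fin (N + 1)) ℤ_[p])
    (X : Fin (N + 1) → Fin (N + 1) → MvPolynomial (Fin M) ℤ)
    (T : Fin M → MvPolynomial (Fin M') ℤ)
    (Z : Fin (N + 1) → Fin (N + 1) → MvPolynomial (Fin M') ℤ) {k : Type} [Field k] [CharP k p]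
    (th : Fin M' → WittVector p k) (zh : Fin (N + 1) → WittVector p k) :
    fval p f (XComp X T Z) th zh = fval p f X (fun j => MvPolynomial.aeval th (T j))
      (fun b => ∑ b', MvPolynomial.aeval th (Z b b') * zh b') := by
  unfold fval
  congr 1
  funext a
  exact XComp_apply X T Z th zh a

theorem fval_scale (p : ℕ) [Fact p.Prime] {N M d : ℕ} (f : MvPolynomial (Fin (N + 1)) ℤ_[p])
    (hf : f.IsHomogeneous d)
    (X : Fin (N + 1) → Fin (N + 1) → MvPolynomial (Fin M) ℤ) {k : Type} [Field k] [CharP k p]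
    (th : Fin M → WittVector p k) (zh : Fin (N + 1) → WittVector p k) (c : WittVector p k) :
    fval p f X th (fun b => c * zh b) = c ^ d * fval p f X th zh := by
  unfold fval
  rw [← eval₂_mul_of_isHomogeneous (zpToWitt p k) d f hf]
  congr 1
  funext a
  rw [Finset.mul_sum]
  exact Finset.sum_congr rfl (fun b _ => by ring)

variable {κ : Type} [Field κ] {K : Type} [Field K] [Algebra κ K] {N q : ℕ}

theorem big_of_mem (pt : Pt N q K) {m : Fin (q + 1) → ℕ} {g : Sr κ N q}
    (hg : g ∈ Sm κ N q m) :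
    pt.big κ g = MvPolynomial.C (pt.ev κ g) * ∏ k, MvPolynomial.X k ^ m k := by
  classical
  have hmem : ∀ e ∈ g.support, ∀ k, (Finsupp.weight (wt N q) e) k = m k := by
    intro e he k
    have := (MvPolynomial.mem_weightedHomogeneousSubmodule κ (wt N q) m g).mp hg
      (MvPolynomial.mem_support_iff.mp he)
    rw [this]
  rw [Pt.big, Pt.ev, MvPolynomial.aeval_def, MvPolynomial.aeval_def, MvPolynomial.eval₂_eq',
    MvPolynomial.eval₂_eq', map_sum, Finset.sum_mul]
  refine Finset.sum_congr rfl (fun e he => ?_)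
  have h1 : ∏ x, (MvPolynomial.C (pt.val x) * MvPolynomial.X (gidx x) :
      MvPolynomial (Fin (q + 1)) K) ^ e x =
      MvPolynomial.C (∏ x, pt.val x ^ e x) * ∏ k, MvPolynomial.X k ^ m k := by
    simp_rw [mul_pow]
    rw [Finset.prod_mul_distrib, map_prod]
    congr 1
    · exact Finset.prod_congr rfl (fun x _ => by rw [map_pow])
    · have h2 : ∀ k, m k = ∑ x, if gidx x = k then e x else 0 := by
        intro k
        rw [← hmem e he k, Finsupp.weight_apply, Finsupp.sum_fintype _ _ (by simp),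
          Finset.sum_apply]
        refine Finset.sum_congr rfl (fun x _ => ?_)
        rw [Pi.smul_apply, wt, Pi.single_apply, smul_eq_mul]
        by_cases hx : k = gidx x
        · simp [hx]
        · simp [hx, Ne.symm hx]
      have h3 : ∀ k, (MvPolynomial.X k : MvPolynomial (Fin (q + 1)) K) ^ m k =
          ∏ x, if gidx x = k then MvPolynomial.X k ^ e x else 1 := by
        intro k
        rw [h2 k, ← Finset.prod_pow_eq_pow_sum]
        refine Finset.prod_congr rfl (fun x _ => ?_)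
        split_ifs <;> simp
      simp_rw [h3]
      rw [Finset.prod_comm]
      refine Finset.prod_congr rfl (fun x _ => ?_)
      rw [Finset.prod_ite_eq]
      simp
  rw [h1, map_mul, mul_assoc]
  congr 1

/-- The coordinate ring of the locus `Q ≠ 0` of the cone over a point. -/
theorem exists_B (p : ℕ) (pt : Pt N q K) (hQm : Qf p κ N q ∈ Sm κ N q (degQ p N q))
    (hQ : pt.ev κ (Qf p κ N q) ≠ 0) :
    ∃ (B : Type) (_ : CommRing B) (_ : IsDomain B) (π : Sr κ N q →+* B) (E : Type) (_ : Field E)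
      (_ : Algebra K E) (β : B →+* E) (μ : (Fin (q + 1) → ℕ) → E),
      Function.Injective β ∧ IsUnit (π (Qf p κ N q)) ∧
      (∀ (k' : Type) [Field k'] (φ : Sr κ N q →+* k'), (∀ x ∈ pt.P κ, φ x = 0) →
        φ (Qf p κ N q) ≠ 0 → ∃ φB : B →+* k', φB.comp π = φ) ∧
      (∀ m, μ m ≠ 0) ∧ (∀ m n, μ (m + n) = μ m * μ n) ∧
      (∀ m, ∀ g ∈ Sm κ N q m, β (π g) = algebraMap K E (pt.ev κ g) * μ m) := by
  have hprime : (pt.P κ).IsPrime := pt_prime pt
  set A := Sr κ N q ⧸ pt.P κ with hA
  set Qb : A := Ideal.Quotient.mk (pt.P κ) (Qf p κ N q) with hQb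
  let bA : A →+* MvPolynomial (Fin (q + 1)) K :=
    Ideal.Quotient.lift (pt.P κ) (pt.big κ).toRingHom (fun x hx => hx)
  have hbA : Function.Injective bA := by
    rw [injective_iff_map_eq_zero]
    intro x hx
    obtain ⟨g, rfl⟩ := Ideal.Quotient.mk_surjective x
    rw [Ideal.Quotient.eq_zero_iff_mem]
    exact hx
  let E := FractionRing (MvPolynomial (Fin (q + 1)) K)
  let βA : A →+* E := (algebraMap (MvPolynomial (Fin (q + 1)) K) E).comp bA
  have hβA : Function.Injective βA := (IsFractionRing.injective _ _).comp hbA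
  have hQP : Qf p κ N q ∉ pt.P κ := by
    rw [pt_mem_iff pt hQm]; exact hQ
  have hQb0 : Qb ≠ 0 := by
    rw [hQb, Ne, Ideal.Quotient.eq_zero_iff_mem]; exact hQP
  have hu : IsUnit (βA Qb) := by
    rw [isUnit_iff_ne_zero]
    exact (map_ne_zero_iff βA hβA).mpr hQb0
  have hle : Submonoid.powers Qb ≤ nonZeroDivisors A := powers_le_nonZeroDivisors_of_noZeroDivisors hQb0
  have hdomB : IsDomain (Localization.Away Qb) := IsLocalization.isDomain_localization hle
  let β : Localization.Away Qb →+* E := IsLocalization.Away.lift Qb hu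
  have hβ : Function.Injective β := by
    have := (IsLocalization.lift_injective_iff (M := Submonoid.powers Qb)
      (S := Localization.Away Qb) (g := βA)
      (hg := fun y => by
        obtain ⟨y, n, rfl⟩ := y
        simpa using hu.pow n)).mpr (by
          intro x y
          constructor
          · intro h
            rw [IsLocalization.injective (Localization.Away Qb) hle h]
          · intro h
            rw [hβA h])
    exact this
  refine ⟨Localization.Away Qb, inferInstance, hdomB,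
    (algebraMap A (Localization.Away Qb)).comp (Ideal.Quotient.mk (pt.P κ)), E, inferInstance,
    inferInstance, β, fun m => algebraMap (MvPolynomial (Fin (q + 1)) K) E
      (∏ k, MvPolynomial.X k ^ m k), hβ, ?_, ?_, ?_, ?_, ?_⟩
  · exact IsLocalization.Away.algebraMap_isUnit Qb
  · intro k' _ φ hφ hφQ
    let φA : A →+* k' := Ideal.Quotient.lift (pt.P κ) φ hφ
    have hu' : IsUnit (φA Qb) := by
      rw [isUnit_iff_ne_zero]; exact hφQ
    refine ⟨IsLocalization.Away.lift Qb hu', ?_⟩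
    apply RingHom.ext
    intro x
    simp only [RingHom.coe_comp, Function.comp_apply]
    rw [IsLocalization.Away.lift_eq]
    rfl
  · intro m
    rw [Ne, map_eq_zero_iff _ (IsFractionRing.injective _ _), Finset.prod_eq_zero_iff]
    rintro ⟨k, -, hk⟩
    exact MvPolynomial.X_ne_zero k (by exact eq_zero_of_pow_eq_zero hk)
  · intro m n
    simp only [Pi.add_apply, pow_add, Finset.prod_mul_distrib, map_mul]
  · intro m g hg
    simp only [RingHom.coe_comp, Function.comp_apply]
    have h1 : β (algebraMap A (Localization.Away Qb) (Ideal.Quotient.mk (pt.P κ) g)) =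
        βA (Ideal.Quotient.mk (pt.P κ) g) := IsLocalization.Away.lift_eq Qb hu _
    rw [h1]
    have h2 : βA (Ideal.Quotient.mk (pt.P κ) g) =
      algebraMap (MvPolynomial (Fin (q + 1)) K) E (pt.big κ g) := rfl
    rw [h2, big_of_mem pt hg, map_mul]
    congr 1

theorem algebraMap_aeval_int {R A : Type*} [CommRing R] [CommRing A] (φ : R →+* A) {σ : Type*}
    (t : σ → R) (P : MvPolynomial σ ℤ) :
    φ (MvPolynomial.aeval t P) = MvPolynomial.aeval (fun j => φ (t j)) P := by
  have h1 : φ.comp (MvPolynomial.aeval t : MvPolynomial σ ℤ →ₐ[ℤ] R).toRingHom =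
      (MvPolynomial.aeval (fun j => φ (t j)) : MvPolynomial σ ℤ →ₐ[ℤ] A).toRingHom := by
    apply MvPolynomial.ringHom_ext
    · intro r; simp
    · intro i; simp
  exact congrArg (fun F => F P) h1

theorem key_step {p : ℕ} [Fact p.Prime] {κ : Type} [Field κ] [CharP κ p] [PerfectRing κ p]
    {K : Type} [Field K] [Algebra κ K] {N q r d i S : ℕ}
    {f : Fin r → MvPolynomial (Fin (N + 1)) ℤ_[p]} (hf : ∀ s, (f s).IsHomogeneous d)
    (hAS : ASFree p K) (pt : Pt N q K) (hG : pt.Gen κ) (hlev : Level p f i (pt.P κ)) :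
    ∃ (q'' : ℕ) (pt'' : Pt N q'' K), Ext pt pt'' ∧ ∃ (c : Fin (q'' + 1) → ℕ)
      (s : Fin r → Sr κ N q''), (∀ j, s j ∈ Sm κ N q'' (d • e0 q'' + p ^ S • c)) ∧
      ∀ 𝔔 : Ideal (Sr κ N q''), pt''.P κ ≤ 𝔔 → (∀ j, s j ∈ 𝔔) → Level p f (i + 1) 𝔔 := by
  have hp : p.Prime := Fact.out
  have : CharP K p := charP_of_injective_algebraMap (algebraMap κ K).injective p
  obtain ⟨M, c, a, X, ha, hL⟩ := hlev
  have hQ0 : pt.ev κ (Qf p κ N q) ≠ 0 := ev_Qf_ne_zero hp.one_le hAS pt
  set Q := Qf p κ N q with hQdef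
  let t : Fin M → K := fun j => pt.ev κ (a j) / pt.ev κ Q ^ c
  have ht_eq : ∀ j, t j * pt.ev κ Q ^ c = pt.ev κ (a j) := fun j =>
    div_mul_cancel₀ _ (pow_ne_zero _ hQ0)
  have ht : ∀ j, t j ∈ hol p κ K := fun j =>
    reg_mem_hol hAS pt ⟨c, a j, ha j, ht_eq j⟩
  -- the level property over an extension `k` of `K`
  have hLk : ∀ (k : Type) [Field k] [CharP k p] [PerfectRing k p] [Algebra K k],
      (∀ j, ∑ b, MvPolynomial.aeval (fun j => algebraMap K k (t j)) (X j b) *
        algebraMap K k (pt.z b) = algebraMap K k (pt.z j)) ∧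
      ∀ (th : Fin M → WittVector p k) (zh : Fin (N + 1) → WittVector p k),
        IsLift p (fun j => algebraMap K k (t j)) th →
        IsLift p (fun b => algebraMap K k (pt.z b)) zh →
          ∀ s, (p : WittVector p k) ^ i ∣ fval p (f s) X th zh := by
    intro k _ _ _ _
    have h1 := hL k ((algebraMap K k).comp (pt.ev κ).toRingHom) (by
        intro x hx
        have h0 : pt.ev κ x = 0 := by
          have hx2 := pt_hom pt x hx
          have hx3 : ∀ m, pt.ev κ (MvPolynomial.weightedHomogeneousComponent (wt N q) m x) = 0 := by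
            intro m
            exact (pt_mem_iff pt (MvPolynomial.weightedHomogeneousComponent_mem _ _ _)).mp (hx2 m)
          have hsum := MvPolynomial.sum_weightedHomogeneousComponent (wt N q) x
          rw [← hsum, finsum_eq_sum_of_support_subset (s :=
            (MvPolynomial.weightedHomogeneousComponent_finsupp (w := wt N q) x).toFinset)
            _ (by simp), map_sum]
          exact Finset.sum_eq_zero (fun m _ => hx3 m)
        show algebraMap K k (pt.ev κ x) = 0
        rw [h0, map_zero]) (by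
        show algebraMap K k (pt.ev κ (Qf p κ N q)) ≠ 0
        exact (map_ne_zero_iff _ (algebraMap K k).injective).mpr hQ0)
      (fun j => algebraMap K k (t j)) (by
        intro j
        show algebraMap K k (t j) * algebraMap K k (pt.ev κ (Qf p κ N q)) ^ c =
          algebraMap K k (pt.ev κ (a j))
        rw [← ht_eq j, map_mul, map_pow])
    have hz : ∀ b, ((algebraMap K k).comp (pt.ev κ).toRingHom) (MvPolynomial.X (Sum.inl b)) =
        algebraMap K k (pt.z b) := by
      intro b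
      show algebraMap K k (pt.ev κ (MvPolynomial.X (Sum.inl b))) = _
      rw [Pt.ev, MvPolynomial.aeval_X]
      rfl
    simp only [hz] at h1
    exact h1
  -- identity in `K`
  have hXK : ∀ j, ∑ b, MvPolynomial.aeval t (X j b) * pt.z b = pt.z j := by
    intro j
    have : CharP (AlgebraicClosure K) p :=
      charP_of_injective_algebraMap (algebraMap K (AlgebraicClosure K)).injective p
    have : PerfectRing (AlgebraicClosure K) p := inferInstance
    apply (algebraMap K (AlgebraicClosure K)).injective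
    rw [← (hLk (AlgebraicClosure K)).1 j, map_sum]
    refine Finset.sum_congr rfl (fun b _ => ?_)
    rw [map_mul, algebraMap_aeval_int]
  obtain ⟨M', t', T, Z, P, ht', hT, hZ, hW, hPint⟩ := ks1 hAS (gen_fgp pt hG) t ht pt.z pt.hz d i
    (fun s => FPoly p (f s) X) (fun s => FPoly_weighted p (f s) (hf s) X) (by
      intro s k _ _ _ _ _ th zh hth hzh
      rw [eval₂_FPoly]
      exact (hLk k).2 th zh hth hzh s)
  -- extensions
  obtain ⟨q₁, pt₁, hext₁, hreg₁⟩ := exists_ext_reg hAS pt t' ht'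
  have hz₁ : pt₁.z = pt.z := ext_z hext₁
  obtain ⟨q₂, pt₂, hext₂, C, sec, hsec⟩ := exists_sections hAS pt₁ d (p ^ S)
    (Nat.one_le_pow _ _ hp.pos) P (by rw [hz₁]; exact hPint)
  have hz₂ : pt₂.z = pt.z := (ext_z hext₂).trans hz₁
  obtain ⟨c', a', ha'⟩ := reg_common (p := p) pt₂ t' (fun j => reg_ext hext₂ (hreg₁ j))
  refine ⟨q₂, pt₂, ext_trans hext₁ hext₂, C • degQ p N q₂, sec, ?_, ?_⟩
  · intro j
    have := (hsec j).1
    rwa [mul_smul] at this
  intro 𝔔 h𝔔 hs𝔔
  have hQ2 : pt₂.ev κ (Qf p κ N q₂) ≠ 0 := ev_Qf_ne_zero hp.one_le hAS pt₂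
  refine ⟨M', c', a', XComp X T Z, fun j => (ha' j).1, ?_⟩
  intro k' _ _ _ φ hφ hφQ t₀ ht₀
  obtain ⟨B, _, _, π, E, _, _, β, μ, hβ, hu, hlift, hμ0, hμadd, hβπ⟩ :=
    exists_B p pt₂ (Qf_mem p hp.one_le) hQ2
  obtain ⟨φB, hφB⟩ := hlift k' φ (fun x hx => hφ x (h𝔔 hx)) hφQ
  obtain ⟨Qi, hQi⟩ := hu.exists_right_inv
  have hcharE : CharP E p := charP_of_injective_algebraMap (algebraMap K E).injective p
  have hcharB : CharP B p := (RingHom.charP_iff β hβ p).mpr hcharE
  -- powers of μ
  have hμn : ∀ (n : ℕ) m, μ (n • m) = μ m ^ n := by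
    intro n m
    induction n with
    | zero =>
      rw [zero_smul, pow_zero]
      have := hμadd 0 0
      rw [add_zero] at this
      exact (mul_eq_left₀ (hμ0 0)).mp this.symm
    | succ n ih => rw [succ_nsmul, hμadd, ih, pow_succ]
  have hβQ : β (π (Qf p κ N q₂)) = algebraMap K E (pt₂.ev κ (Qf p κ N q₂)) * μ (degQ p N q₂) :=
    hβπ _ _ (Qf_mem p hp.one_le)
  have hβQ0 : β (π (Qf p κ N q₂)) ≠ 0 := by
    rw [hβQ]
    exact mul_ne_zero ((map_ne_zero_iff _ (algebraMap K E).injective).mpr hQ2) (hμ0 _)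
  have hβQi : β Qi * β (π (Qf p κ N q₂)) = 1 := by
    rw [← map_mul, mul_comm, hQi, map_one]
  -- images of parameters
  let y₀ : Fin M' ⊕ Fin (N + 1) → B :=
    Sum.elim (fun j => π (a' j) * Qi ^ c') (fun b => π (MvPolynomial.X (Sum.inl b)))
  have hy1 : ∀ j, β (y₀ (Sum.inl j)) = algebraMap K E (t' j) := by
    intro j
    have h1 : β (π (a' j)) = algebraMap K E (t' j) * β (π (Qf p κ N q₂)) ^ c' := by
      rw [hβπ _ _ (ha' j).1, ← (ha' j).2, hβQ, mul_pow, hμn, map_mul, map_pow]
      ring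
    show β (π (a' j) * Qi ^ c') = _
    rw [map_mul, h1, map_pow, mul_assoc, ← mul_pow, mul_comm (β (π (Qf p κ N q₂))), hβQi, one_pow,
      mul_one]
  have hy2 : ∀ b, β (y₀ (Sum.inr b)) = algebraMap K E (pt.z b) * μ (e0 q₂) := by
    intro b
    show β (π (MvPolynomial.X (Sum.inl b))) = _
    have hX : (MvPolynomial.X (Sum.inl b) : Sr κ N q₂) ∈ Sm κ N q₂ (e0 q₂) := by
      have := MvPolynomial.isWeightedHomogeneous_X κ (wt N q₂) (Sum.inl b)
      exact this
    rw [hβπ _ _ hX, Pt.ev, MvPolynomial.aeval_X]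
    congr 2
    show pt₂.z b = pt.z b
    rw [hz₂]
  have hid : ∀ b, ∑ b', MvPolynomial.aeval (fun j => y₀ (Sum.inl j)) (XComp X T Z b b') *
      y₀ (Sum.inr b') = y₀ (Sum.inr b) := by
    intro b
    apply hβ
    rw [map_sum]
    have h1 : ∀ b', β (MvPolynomial.aeval (fun j => y₀ (Sum.inl j)) (XComp X T Z b b') *
        y₀ (Sum.inr b')) = algebraMap K E (MvPolynomial.aeval t' (XComp X T Z b b') * pt.z b') *
          μ (e0 q₂) := by
      intro b'
      rw [map_mul, hy2, algebraMap_aeval_int, map_mul, algebraMap_aeval_int]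
      simp only [hy1]
      ring
    rw [Finset.sum_congr rfl (fun b' _ => h1 b'), ← Finset.sum_mul, ← map_sum, hy2]
    congr 2
    rw [XComp_apply]
    simp only [hT, hZ]
    exact hXK b
  -- specialised parameters
  have hφ1 : ∀ j, φB (y₀ (Sum.inl j)) = t₀ j := by
    intro j
    have h1 : φB (y₀ (Sum.inl j)) * φ (Qf p κ N q₂) ^ c' = φ (a' j) := by
      show φB (π (a' j) * Qi ^ c') * φ (Qf p κ N q₂) ^ c' = φ (a' j)
      rw [← hφB]
      simp only [RingHom.coe_comp, Function.comp_apply]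
      rw [← map_pow, ← map_mul, mul_assoc, ← mul_pow, mul_comm Qi, hQi, one_pow, mul_one]
    rw [← ht₀ j] at h1
    exact mul_right_cancel₀ (pow_ne_zero _ hφQ) h1
  have hφ2 : ∀ b, φB (y₀ (Sum.inr b)) = φ (MvPolynomial.X (Sum.inl b)) := by
    intro b
    show φB (π (MvPolynomial.X (Sum.inl b))) = _
    rw [← hφB]
    rfl
  refine ⟨?_, ?_⟩
  · intro b
    have h1 := congrArg φB (hid b)
    rw [map_sum, hφ2] at h1
    rw [← h1]
    refine Finset.sum_congr rfl (fun b' _ => ?_)
    rw [map_mul, algebraMap_aeval_int, hφ2]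
    simp only [hφ1]
  intro th zh hth hzh s
  -- the universal field
  let σ := Fin M' ⊕ Fin (N + 1)
  let k₀ := AlgebraicClosure (FractionRing (MvPolynomial (σ × Fin i) E))
  let ψE : MvPolynomial (σ × Fin i) E →+* k₀ := (algebraMap (FractionRing
    (MvPolynomial (σ × Fin i) E)) k₀).comp (algebraMap (MvPolynomial (σ × Fin i) E) _)
  have hψE : Function.Injective ψE := (algebraMap (FractionRing
    (MvPolynomial (σ × Fin i) E)) k₀).injective.comp (IsFractionRing.injective _ _)
  let ψ : MvPolynomial (σ × Fin i) B →+* k₀ := ψE.comp (MvPolynomial.map β)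
  have hψ : Function.Injective ψ := hψE.comp (MvPolynomial.map_injective β hβ)
  let ι₀ : K →+* k₀ := ψE.comp ((MvPolynomial.C).comp (algebraMap K E))
  let _ : Algebra K k₀ := ι₀.toAlgebra
  have : CharP k₀ p := charP_of_injective_ringHom ι₀.injective p
  have : PerfectRing k₀ p := inferInstance
  have : Infinite k₀ := IsAlgClosed.instInfinite
  let τ : k₀ := ψE (MvPolynomial.C (μ (e0 q₂)))
  have hτ : τ ≠ 0 := by
    rw [Ne, map_eq_zero_iff ψE hψE, MvPolynomial.C_eq_zero]
    exact hμ0 _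
  have hψ1 : ∀ j, ψ (MvPolynomial.C (y₀ (Sum.inl j))) = algebraMap K k₀ (t' j) := by
    intro j
    show ψE (MvPolynomial.map β (MvPolynomial.C _)) = ψE (MvPolynomial.C (algebraMap K E (t' j)))
    rw [MvPolynomial.map_C, hy1]
  have hψ2 : ∀ b, ψ (MvPolynomial.C (y₀ (Sum.inr b))) = τ * algebraMap K k₀ (pt.z b) := by
    intro b
    show ψE (MvPolynomial.map β (MvPolynomial.C _)) = ψE (MvPolynomial.C (μ (e0 q₂))) *
      ψE (MvPolynomial.C (algebraMap K E (pt.z b)))
    rw [MvPolynomial.map_C, hy2, ← map_mul, ← map_mul, mul_comm]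
  let R : B := π (sec s) * Qi ^ (p ^ S * C)
  have hψR : ψ (MvPolynomial.C R) = τ ^ d * algebraMap K k₀ (P s) := by
    have h1 : β (π (sec s)) = (algebraMap K E (P s) * μ (e0 q₂) ^ d) *
        β (π (Qf p κ N q₂)) ^ (p ^ S * C) := by
      rw [hβπ _ _ (hsec s).1, (hsec s).2, hβQ, mul_pow, hμadd, hμn, hμn, map_mul, map_pow]
      ring
    have h2 : β R = algebraMap K E (P s) * μ (e0 q₂) ^ d := by
      show β (π (sec s) * Qi ^ (p ^ S * C)) = _
      rw [map_mul, h1, map_pow, mul_assoc, ← mul_pow, mul_comm (β (π (Qf p κ N q₂))), hβQi,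
        one_pow, mul_one]
    show ψE (MvPolynomial.map β (MvPolynomial.C _)) = ψE (MvPolynomial.C (μ (e0 q₂))) ^ d *
      ψE (MvPolynomial.C (algebraMap K E (P s)))
    rw [MvPolynomial.map_C, h2, ← map_pow, ← map_pow, ← map_mul, ← map_mul, mul_comm]
  have hφR : φB R = 0 := by
    show φB (π (sec s) * Qi ^ (p ^ S * C)) = 0
    have h1 : φB (π (sec s)) = 0 := by
      have h2 : φB (π (sec s)) = φ (sec s) := by rw [← hφB]; rfl
      rw [h2]
      exact hφ _ (hs𝔔 s)
    rw [map_mul, h1, zero_mul]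
  have hspec := specialize i y₀ (FPoly p (f s) (XComp X T Z)) R k₀ ψ hψ (by
    intro ŷ hŷ
    -- lifts over `k₀`
    set τh : WittVector p k₀ := WittVector.teichmuller p τ with hτh
    set τi : WittVector p k₀ := WittVector.teichmuller p τ⁻¹ with hτi
    have hττ : τh * τi = 1 := by
      rw [hτh, hτi, ← map_mul, mul_inv_cancel₀ hτ, map_one]
    have hsplit : ŷ = Sum.elim (fun j => ŷ (Sum.inl j)) (fun b => ŷ (Sum.inr b)) := by
      funext x; cases x <;> rfl
    rw [hsplit, eval₂_FPoly]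
    set th₀ : Fin M' → WittVector p k₀ := fun j => ŷ (Sum.inl j)
    set zh₀ : Fin (N + 1) → WittVector p k₀ := fun b => τi * ŷ (Sum.inr b) with hzh₀
    have hzz : (fun b => ŷ (Sum.inr b)) = fun b => τh * zh₀ b := by
      funext b
      rw [hzh₀]
      show ŷ (Sum.inr b) = τh * (τi * ŷ (Sum.inr b))
      rw [← mul_assoc, hττ, one_mul]
    rw [hzz, fval_scale p (f s) (hf s), fval_comp]
    have hth₀ : IsLift p (fun j => algebraMap K k₀ (t' j)) th₀ := by
      intro j
      show (th₀ j).coeff 0 = algebraMap K k₀ (t' j)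
      rw [← hψ1]
      exact hŷ (Sum.inl j)
    have hzh₀' : IsLift p (fun b => algebraMap K k₀ (pt.z b)) zh₀ := by
      intro b
      have h1 := hŷ (Sum.inr b)
      simp only [hψ2] at h1
      show (τi * ŷ (Sum.inr b)).coeff 0 = _
      rw [WittVector.mul_coeff_zero, h1, hτi, WittVector.teichmuller_coeff_zero, ← mul_assoc,
        inv_mul_cancel₀ hτ, one_mul]
    have h2 := hW s k₀ th₀ zh₀ hth₀ hzh₀'
    rw [eval₂_FPoly] at h2
    have h3 := Dvd.dvd.mul_left h2 (τh ^ d)
    rw [mul_sub] at h3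
    have h4 : τh ^ d * ((p : WittVector p k₀) ^ i *
        WittVector.teichmuller p (algebraMap K k₀ (P s))) =
        (p : WittVector p k₀) ^ i * WittVector.teichmuller p (ψ (MvPolynomial.C R)) := by
      rw [hψR, map_mul, map_pow, ← hτh]
      ring
    rw [h4] at h3
    exact h3) k' φB (Sum.elim th zh) (by
    intro x
    cases x with
    | inl j =>
      show (th j).coeff 0 = φB (y₀ (Sum.inl j))
      rw [hφ1]; exact hth j
    | inr b =>
      show (zh b).coeff 0 = φB (y₀ (Sum.inr b))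
      rw [hφ2]; exact hzh b)
  rw [eval₂_FPoly, hφR, WittVector.teichmuller_zero, mul_zero, sub_zero] at hspec
  exact hspec

end Pool.Agent.W_MP_b723a0_ag.P
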