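import Mathlib
import Pool.Agent.W_MP_b723a0_ag.Defs
import Pool.Agent.W_MP_b723a0_ag.Kap
import Pool.Agent.W_MP_b723a0_ag.PacLite
import Pool.Agent.W_MP_b723a0_ag.P.Defs
import Pool.Agent.W_MP_b723a0_ag.P.HilBasics
import Pool.Agent.W_MP_b723a0_ag.P.PtBasics
import Pool.Agent.W_MP_b723a0_ag.P.ArtinSchreier

/-!
# Task M2: the top level

Let `K` be `ASFree`, `pt` a point over `K` with `Level p f L (pt.P κ)`. Then there is a primitive
`x ∈ W(κ)^{N+1}` with `p^L ∣ f_s(x)` for all `s`.

Proof. Choose `z_{j0} ≠ 0` and for each `k` a nonzero `w_k ∈ {u_k, v_k}` (coordinates of `pt`).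
Let `n : Vr N q → K` be the normalised coordinates (`z_j/z_{j0}`, `u_k/w_k`, `v_k/w_k`), i.e.
`n x = lam (gidx x) * pt.val x`, and let `A ⊂ K` be the `κ`-subalgebra generated by the `n x` and
`1/Q(n)`; `Q(n) = (unit) · ev Qf ≠ 0` by `ev_scale`, `ev_Qf_ne_zero`. `A` is a finitely generated
domain; `FractionRing A` embeds in `K`, so it is `ASFree` (`asFree_of_ringHom`), and `pac_lite`
(with `ℓ = p`, `μ = X^p - X - 1`, `hroot_of_asFree`, `irreducible_as`, `natDegree_as`) gives a
`κ`-algebra homomorphism `A → κ`. Let `φ : Sr κ N q → A → κ`, `X x ↦ n x`. `φ` kills `pt.P κ`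
(`pt_hom`, `pt_mem_iff`, `ev_scale`), `φ (Qf) ≠ 0` (a unit of `A`), `φ (z_{j0}) = 1`. Apply the
level property with `k = κ` (perfect: `IsKap.perfectField`, and `PerfectField.toPerfectRing`),
`t₀ j = φ (a j) / φ (Qf)^c`, and the Teichmüller lifts `t = [t₀]`, `z = [φ (z_b)]`. Put
`x_a = ∑ b, aeval t (X a b) * z b`; so `fval p (f s) X t z = eval₂ (zpToWitt p κ) x (f s)` by
definition, and `x_{j0}` has residue `∑ b, aeval t₀ (X j0 b) * φ (z_b) = φ (z_{j0}) = 1`
(`WittVector.constantCoeff` is a ring homomorphism), so `p ∤ x_{j0}`.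
-/

namespace Pool.Agent.W_MP_b723a0_ag.P

/-- Evaluation at rescaled coordinates factors through `Pt.big`. -/
theorem lt_aeval_eq {κ : Type} [Field κ] {K : Type} [Field K] [Algebra κ K] {N q : ℕ}
    (pt : Pt N q K) (lam : Fin (q + 1) → K) (x : Sr κ N q) :
    MvPolynomial.aeval (fun y => lam (gidx y) * pt.val y) x =
      MvPolynomial.eval lam (pt.big κ x) := by
  have h : (MvPolynomial.aeval (fun y => lam (gidx y) * pt.val y) : Sr κ N q →ₐ[κ] K).toRingHom =
      (MvPolynomial.eval lam).comp (pt.big κ).toRingHom := by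
    apply MvPolynomial.ringHom_ext
    · intro r
      have h1 : (pt.big κ).toRingHom (MvPolynomial.C r) =
          MvPolynomial.C (algebraMap κ K r) := (pt.big κ).commutes r
      rw [RingHom.comp_apply, h1, MvPolynomial.eval_C]
      exact (MvPolynomial.aeval _).commutes r
    · intro y
      have h1 : (pt.big κ).toRingHom (MvPolynomial.X y) =
          MvPolynomial.C (pt.val y) * MvPolynomial.X (gidx y) := by
        simp [Pt.big]
      rw [RingHom.comp_apply, h1, map_mul, MvPolynomial.eval_C, MvPolynomial.eval_X, mul_comm]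
      simp
  exact RingHom.congr_fun h x

theorem lt_constantCoeff_aeval {p : ℕ} [Fact p.Prime] {κ : Type} [Field κ] [CharP κ p] {M : ℕ}
    (t : Fin M → WittVector p κ) (P : MvPolynomial (Fin M) ℤ) :
    WittVector.constantCoeff (MvPolynomial.aeval t P) =
      MvPolynomial.aeval (fun j => (t j).coeff 0) P := by
  rw [MvPolynomial.aeval_def, MvPolynomial.aeval_def, MvPolynomial.eval₂_comp_left]
  congr 1
  exact RingHom.ext_int _ _

theorem level_top {p : ℕ} [Fact p.Prime] {κ : Type} [Field κ] [CharP κ p] (hκ : IsKap p p κ)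
    {K : Type} [Field K] [Algebra κ K] (hAS : ASFree p K) {N q r L : ℕ}
    {f : Fin r → MvPolynomial (Fin (N + 1)) ℤ_[p]} (pt : Pt N q K)
    (h : Level p f L (pt.P κ)) :
    ∃ x : Fin (N + 1) → WittVector p κ, (∃ j, ¬ (p : WittVector p κ) ∣ x j) ∧
      ∀ s, (p : WittVector p κ) ^ L ∣ MvPolynomial.eval₂ (zpToWitt p κ) x (f s) := by
  classical
  have hp : p.Prime := Fact.out
  obtain ⟨M, c, a, X, ha, hX⟩ := h
  obtain ⟨j0, hj0⟩ := pt.hz
  have hw : ∀ k, ∃ w : K, w ≠ 0 ∧ (w = pt.u k ∨ w = pt.v k) := fun k => by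
    rcases pt.huv k with h | h
    · exact ⟨_, h, Or.inl rfl⟩
    · exact ⟨_, h, Or.inr rfl⟩
  choose w hw0 _ using hw
  let lam : Fin (q + 1) → K := Fin.cons (pt.z j0)⁻¹ (fun k => (w k)⁻¹)
  have hlam : ∀ k, lam k ≠ 0 := by
    intro k
    refine Fin.cases ?_ (fun k => ?_) k
    · simpa [lam] using hj0
    · simpa [lam] using hw0 k
  let n : Vr N q → K := fun y => lam (gidx y) * pt.val y
  let Q : K := MvPolynomial.aeval n (Qf p κ N q)
  have hQ : Q ≠ 0 := by
    have h1 : Q = (∏ k, lam k ^ degQ p N q k) * pt.ev κ (Qf p κ N q) :=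
      ev_scale pt (Qf_mem p hp.one_le) lam
    rw [h1]
    exact mul_ne_zero (Finset.prod_ne_zero_iff.mpr fun k _ => pow_ne_zero _ (hlam k))
      (ev_Qf_ne_zero hp.one_le hAS pt)
  let T : Finset K := insert Q⁻¹ (Finset.univ.image n)
  let A : Subalgebra κ K := Algebra.adjoin κ (T : Set K)
  have hnA : ∀ y, n y ∈ A := fun y => Algebra.subset_adjoin (by simp [T])
  have hQA : Q⁻¹ ∈ A := Algebra.subset_adjoin (by simp [T])
  have : Algebra.FiniteType κ A :=
    A.fg_iff_finiteType.mp (Subalgebra.fg_adjoin_finset T)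
  have hASF : ASFree p (FractionRing A) :=
    asFree_of_ringHom (IsFractionRing.lift (K := FractionRing A)
      (g := algebraMap A K) Subtype.val_injective) hAS
  obtain ⟨τ⟩ := pac_lite hp hκ _ (irreducible_as p) (natDegree_as p (ZMod p)) A
    (fun α => hroot_of_asFree hASF α)
  let ι : Sr κ N q →ₐ[κ] A := MvPolynomial.aeval (fun y => (⟨n y, hnA y⟩ : A))
  have hι : ∀ x, ((ι x : A) : K) = MvPolynomial.aeval n x := by
    intro x
    have h1 : A.val.comp ι = MvPolynomial.aeval n := by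
      apply MvPolynomial.algHom_ext
      intro y
      simp [ι]
    exact DFunLike.congr_fun h1 x
  let φ : Sr κ N q →+* κ := (τ.comp ι).toRingHom
  have hφ0 : ∀ x ∈ pt.P κ, φ x = 0 := by
    intro x hx
    have h1 : pt.big κ x = 0 := hx
    have h2 : ι x = 0 := by
      apply Subtype.ext
      rw [hι]
      show MvPolynomial.aeval (fun y => lam (gidx y) * pt.val y) x = 0
      rw [lt_aeval_eq, h1, map_zero]
    show τ (ι x) = 0
    rw [h2, map_zero]
  have hφQ : φ (Qf p κ N q) ≠ 0 := by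
    intro h0
    have h1 : ι (Qf p κ N q) * ⟨Q⁻¹, hQA⟩ = 1 := by
      apply Subtype.ext
      show ((ι (Qf p κ N q) : A) : K) * Q⁻¹ = 1
      rw [hι]
      exact mul_inv_cancel₀ hQ
    have h2 := congrArg τ h1
    rw [map_mul, map_one] at h2
    have h3 : τ (ι (Qf p κ N q)) = 0 := h0
    rw [h3, zero_mul] at h2
    exact zero_ne_one h2
  have hφz : φ (MvPolynomial.X (Sum.inl j0)) = 1 := by
    have h1 : ι (MvPolynomial.X (Sum.inl j0)) = 1 := by
      apply Subtype.ext
      rw [hι, MvPolynomial.aeval_X]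
      show lam (gidx (Sum.inl j0 : Vr N q)) * pt.z j0 = 1
      exact inv_mul_cancel₀ hj0
    show τ (ι _) = 1
    rw [h1, map_one]
  have : PerfectField κ := hκ.perfectField hp
  have : PerfectRing κ p := PerfectField.toPerfectRing p
  let t₀ : Fin M → κ := fun j => φ (a j) / φ (Qf p κ N q) ^ c
  obtain ⟨h1, h2⟩ := hX κ φ hφ0 hφQ t₀ (fun j => div_mul_cancel₀ _ (pow_ne_zero _ hφQ))
  let t : Fin M → WittVector p κ := fun j => WittVector.teichmuller p (t₀ j)
  let z : Fin (N + 1) → WittVector p κ := fun b =>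
    WittVector.teichmuller p (φ (MvPolynomial.X (Sum.inl b)))
  refine ⟨fun a => ∑ b, MvPolynomial.aeval t (X a b) * z b, ⟨j0, ?_⟩, fun s => ?_⟩
  · rintro ⟨y, hy⟩
    have h3 := congrArg WittVector.constantCoeff hy
    rw [map_sum, map_mul, map_natCast, CharP.cast_eq_zero, zero_mul] at h3
    have h4 : ∀ b, WittVector.constantCoeff (MvPolynomial.aeval t (X j0 b) * z b) =
        MvPolynomial.aeval t₀ (X j0 b) * φ (MvPolynomial.X (Sum.inl b)) := by
      intro b
      rw [map_mul, lt_constantCoeff_aeval]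
      have h5 : (fun j => (t j).coeff 0) = t₀ := by
        funext j
        exact WittVector.teichmuller_coeff_zero p _
      have h6 : WittVector.constantCoeff (z b) = φ (MvPolynomial.X (Sum.inl b)) :=
        WittVector.teichmuller_coeff_zero p _
      rw [h5, h6]
    simp only [h4] at h3
    rw [h1 j0, hφz] at h3
    exact one_ne_zero h3
  · exact h2 t z (fun j => WittVector.teichmuller_coeff_zero p _)
      (fun b => WittVector.teichmuller_coeff_zero p _) s

end Pool.Agent.W_MP_b723a0_ag.P
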