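import Mathlib
import Pool.Agent.W_MP_b723a0_ag.Defs
import Pool.Agent.W_MP_b723a0_ag.HStable
import Pool.Agent.W_MP_b723a0_ag.P.Defs
import Pool.Agent.W_MP_b723a0_ag.P.HilBasics
import Pool.Agent.W_MP_b723a0_ag.P.Devissage

/-!
# Task E4: the Artin-Schreier step

Compare `stable_congr` in `HStable.lean` (same argument for the `ℕ`-grading, proved; it can be
copied with `idealDeg` replaced by `Sm ⊓ I`, or generalised).

Proof. Let `J = 𝔔 ⊔ (h^{p-1-i} g^i : i < p)`, a homogeneous ideal. In `L = Frac (S/𝔔)` let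
`α = g / h`; as `asf p g h ∈ 𝔔`, `α^p - α - 1 = 0`, so `E = κ(α) ⊂ L` has degree `p` over `κ`
(`hirr`). `W_m = image of J ∩ Sm m` in `S/𝔔 ⊂ L` is stable under multiplication by `α`:
for `i < p-1`, `α h^{p-1-i} g^i = h^{p-2-i} g^{i+1}`, and
`α g^{p-1} = g^p / h ≡ (g h^{p-1} + h^p)/h = g h^{p-2} + h^{p-1}` mod `𝔔`, and multiples of
these by homogeneous polynomials. By `hstable_dvd`, `p ∣ dim_κ W_m`. So
`hil 𝔔 m - hil J m = dim W_m ≡ 0 mod p` for all `m`, hence `Kill p r 𝔔 ↔ Kill p r J`.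
`h^{p-1} ∈ J ∖ 𝔔`, so every homogeneous prime containing `J` is strictly larger than `𝔔`, and
`devissage` gives `Kill p r J`.
-/

namespace Pool.Agent.W_MP_b723a0_ag.P

/-- The degree of the Artin-Schreier polynomial. -/
theorem stepAS_natDegree {p : ℕ} (hp : p.Prime) {κ : Type} [Field κ] :
    (Polynomial.X ^ p - Polynomial.X - 1 : Polynomial κ).natDegree = p := by
  have h2 := hp.two_le
  rw [sub_sub]
  rw [Polynomial.natDegree_sub_eq_left_of_natDegree_lt]
  · exact Polynomial.natDegree_X_pow p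
  · rw [Polynomial.natDegree_X_pow]
    calc (Polynomial.X + 1 : Polynomial κ).natDegree ≤ 1 := by
          refine (Polynomial.natDegree_add_le _ _).trans ?_
          simp
      _ < p := by omega

/-- The graded pieces of `J = 𝔔 ⊔ (h^{p-1-i} g^i)` and `𝔔` have the same dimension mod `p`. -/
theorem step_congr {p : ℕ} [Fact p.Prime] {κ : Type} [Field κ] {N q : ℕ}
    (hirr : Irreducible (Polynomial.X ^ p - Polynomial.X - 1 : Polynomial κ))
    {𝔔 : Ideal (Sr κ N q)} (h𝔔 : 𝔔.IsPrime) (hom : HomI 𝔔) (e : Fin (q + 1) → ℕ)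
    (g h : Sr κ N q) (hg : g ∈ Sm κ N q e) (hh : h ∈ Sm κ N q e) (hh𝔔 : h ∉ 𝔔)
    (hgh : asf p g h ∈ 𝔔) (m : Fin (q + 1) → ℕ) :
    Module.finrank κ ↥(Sm κ N q m ⊓
      (𝔔 ⊔ Ideal.span (Set.range fun i : Fin p => h ^ (p - 1 - (i : ℕ)) *
        g ^ (i : ℕ))).restrictScalars κ) ≡
      Module.finrank κ ↥(Sm κ N q m ⊓ 𝔔.restrictScalars κ) [MOD p] := by
  classical
  have hp : p.Prime := Fact.out
  set J : Ideal (Sr κ N q) :=
    𝔔 ⊔ Ideal.span (Set.range fun i : Fin p => h ^ (p - 1 - (i : ℕ)) * g ^ (i : ℕ)) with hJ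
  have hPJ : 𝔔 ≤ J := le_sup_left
  have hgenJ : ∀ i : ℕ, i < p → h ^ (p - 1 - i) * g ^ i ∈ J := fun i hi =>
    (le_sup_right : _ ≤ J) (Ideal.subset_span ⟨⟨i, hi⟩, rfl⟩)
  have hp2 : 2 ≤ p := hp.two_le
  -- J is homogeneous
  have hJh : HomI J := by
    refine homI_sup hom (homI_span _ ?_)
    rintro _ ⟨i, rfl⟩
    exact ⟨(p - 1 - (i : ℕ)) • e + (i : ℕ) • e,
      MvPolynomial.IsWeightedHomogeneous.mul (MvPolynomial.IsWeightedHomogeneous.pow hh _)
        (MvPolynomial.IsWeightedHomogeneous.pow hg _)⟩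
  -- division by h
  have hdiv : ∀ a ∈ J, ∃ b ∈ J, h * b - g * a ∈ 𝔔 := by
    let D : Ideal (Sr κ N q) :=
      { carrier := {a | ∃ b ∈ J, h * b - g * a ∈ 𝔔}
        add_mem' := by
          rintro a a' ⟨b, hb, h1⟩ ⟨b', hb', h2⟩
          refine ⟨b + b', J.add_mem hb hb', ?_⟩
          have : h * (b + b') - g * (a + a') = (h * b - g * a) + (h * b' - g * a') := by ring
          rw [this]; exact 𝔔.add_mem h1 h2
        zero_mem' := ⟨0, J.zero_mem, by simp⟩
        smul_mem' := by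
          rintro c a ⟨b, hb, h1⟩
          refine ⟨c * b, J.mul_mem_left c hb, ?_⟩
          have : h * (c * b) - g * (c • a) = c * (h * b - g * a) := by
            rw [smul_eq_mul]; ring
          rw [this]; exact 𝔔.mul_mem_left c h1 }
    have hJD : J ≤ D := by
      refine sup_le ?_ (Ideal.span_le.mpr ?_)
      · intro a ha
        refine ⟨0, J.zero_mem, ?_⟩
        have : h * 0 - g * a = (-g) * a := by ring
        rw [this]; exact 𝔔.mul_mem_left _ ha
      · rintro _ ⟨i, rfl⟩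
        obtain ⟨i, hi⟩ := i
        rcases Nat.lt_or_ge (i + 1) p with hlt | hge
        · refine ⟨h ^ (p - 1 - (i + 1)) * g ^ (i + 1), hgenJ _ hlt, ?_⟩
          have h3 : p - 1 - i = (p - 1 - (i + 1)) + 1 := by omega
          have : h * (h ^ (p - 1 - (i + 1)) * g ^ (i + 1)) - g * (h ^ (p - 1 - i) * g ^ i) = 0 := by
            rw [h3]; ring
          simp only
          rw [this]; exact 𝔔.zero_mem
        · have hi' : i = p - 1 := by omega
          subst hi'
          refine ⟨h ^ (p - 1 - 1) * g ^ 1 + h ^ (p - 1 - 0) * g ^ 0,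
            J.add_mem (hgenJ 1 (by omega)) (hgenJ 0 (by omega)), ?_⟩
          have h6 : h * (h ^ (p - 1 - 1) * g ^ 1 + h ^ (p - 1 - 0) * g ^ 0) -
              g * (h ^ (p - 1 - (p - 1)) * g ^ (p - 1)) = -(asf p g h) := by
            have key : ∀ k : ℕ, h * (h ^ k * g ^ 1 + h ^ (k + 1) * g ^ 0) -
                g * (h ^ 0 * g ^ (k + 1)) = -(g ^ (k + 2) - g * h ^ (k + 1) - h ^ (k + 2)) := by
              intro k
              ring
            have e1 : p - 2 + 2 = p := by omega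
            have e2 : p - 2 + 1 = p - 1 := by omega
            have e3 : p - 1 - 1 = p - 2 := by omega
            have := key (p - 2)
            rw [e1, e2] at this
            unfold asf
            rw [Nat.sub_self, Nat.sub_zero, e3]
            exact this
          simp only
          rw [h6]; exact 𝔔.neg_mem hgh
    exact fun a ha => hJD ha
  -- the fraction field
  let A := Sr κ N q ⧸ 𝔔
  have : IsDomain A := Ideal.Quotient.isDomain 𝔔
  let K := FractionRing A
  let φ : Sr κ N q →ₐ[κ] K := (Algebra.algHom κ A K).comp (Ideal.Quotient.mkₐ κ 𝔔)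
  have hφ0 : ∀ a, φ a = 0 ↔ a ∈ 𝔔 := by
    intro a
    have : φ a = algebraMap A K (Ideal.Quotient.mk 𝔔 a) := rfl
    rw [this, map_eq_zero_iff _ (IsFractionRing.injective A K), Ideal.Quotient.eq_zero_iff_mem]
  have hφh : φ h ≠ 0 := fun h0 => hh𝔔 ((hφ0 h).mp h0)
  set α : K := φ g / φ h with hα
  let W : Submodule κ K := (Sm κ N q m ⊓ J.restrictScalars κ).map φ.toLinearMap
  have hWα : ∀ w ∈ W, α * w ∈ W := by
    rintro _ ⟨a, ha, rfl⟩
    obtain ⟨ham, haJ⟩ := ha
    have haJ' : a ∈ J := haJ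
    obtain ⟨b, hb, hbP⟩ := hdiv a haJ'
    refine ⟨MvPolynomial.weightedHomogeneousComponent (wt N q) m b, ⟨?_, ?_⟩, ?_⟩
    · exact MvPolynomial.weightedHomogeneousComponent_isWeightedHomogeneous _ _
    · exact hJh b hb m
    · have h9 := hom _ hbP (m + e)
      rw [map_sub, comp_mul hh, comp_mul hg,
        MvPolynomial.weightedHomogeneousComponent_of_mem ham, if_pos rfl] at h9
      have h10 := (hφ0 _).mpr h9
      rw [map_sub, map_mul, map_mul, sub_eq_zero] at h10
      change φ _ = α * φ a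
      rw [hα, div_mul_eq_mul_div, eq_div_iff hφh, mul_comm, h10]
  -- α is a root of μ
  have hαroot : Polynomial.aeval α (Polynomial.X ^ p - Polynomial.X - 1 : Polynomial κ) = 0 := by
    have h11 := (hφ0 _).mpr hgh
    unfold asf at h11
    rw [map_sub, map_sub, map_mul, map_pow, map_pow, map_pow] at h11
    rw [map_sub, map_sub, map_pow, Polynomial.aeval_X, map_one, hα, div_pow]
    have e1 : φ h ^ p = φ h ^ (p - 1) * φ h := by
      rw [← pow_succ]; congr 1; omega
    have hpw : φ h ^ p ≠ 0 := pow_ne_zero p hφh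
    have hpw1 : φ h ^ (p - 1) ≠ 0 := pow_ne_zero _ hφh
    have h13 : φ g / φ h = φ g * φ h ^ (p - 1) / φ h ^ p := by
      rw [eq_div_iff hpw, e1, ← mul_assoc, mul_comm (φ g / φ h) (φ h ^ (p - 1)), mul_assoc,
        div_mul_cancel₀ _ hφh, mul_comm]
    have h12 : φ g ^ p / φ h ^ p - φ g / φ h - 1 =
        (φ g ^ p - φ g * φ h ^ (p - 1) - φ h ^ p) / φ h ^ p := by
      rw [sub_div, sub_div, div_self hpw, ← h13]
    rw [h12, h11, zero_div]
  have hαint : IsIntegral κ α := IsAlgebraic.isIntegral ⟨_, hirr.ne_zero, hαroot⟩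
  have hmin : (minpoly κ α).natDegree = p := by
    have h16 := minpoly.eq_of_irreducible hirr hαroot
    have h17 := congrArg Polynomial.natDegree h16
    rw [Polynomial.natDegree_mul_C (inv_ne_zero (Polynomial.leadingCoeff_ne_zero.mpr
      hirr.ne_zero)), stepAS_natDegree hp] at h17
    exact h17.symm
  let E := IntermediateField.adjoin κ {α}
  have hE : Module.finrank κ E = p := by
    rw [IntermediateField.adjoin.finrank hαint, hmin]
  have hEW : ∀ c ∈ E, ∀ w ∈ W, c * w ∈ W := by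
    intro c hc
    have hc' : c ∈ Algebra.adjoin κ {α} := by
      rw [← IntermediateField.adjoin_simple_toSubalgebra_of_isAlgebraic hαint.isAlgebraic]
      exact hc
    refine Algebra.adjoin_induction (p := fun c _ => ∀ w ∈ W, c * w ∈ W) ?_ ?_ ?_ ?_ hc'
    · intro x hx w hw
      rw [Set.mem_singleton_iff.mp hx]; exact hWα w hw
    · intro r w hw
      rw [← Algebra.smul_def]; exact W.smul_mem r hw
    · intro x y _ _ hx hy w hw
      rw [add_mul]; exact W.add_mem (hx w hw) (hy w hw)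
    · intro x y _ _ hx hy w hw
      rw [mul_assoc]; exact hx _ (hy w hw)
  have hdvd : p ∣ Module.finrank κ W := by
    rw [← hE]
    refine hstable_dvd W fun c w hw => ?_
    rw [Algebra.smul_def]
    exact hEW c.1 c.2 w hw
  -- rank-nullity
  have hfin : FiniteDimensional κ ↥(Sm κ N q m ⊓ J.restrictScalars κ) := by
    have : FiniteDimensional κ (Sm κ N q m) := finite_Sm κ N q m
    exact Submodule.finiteDimensional_inf_left _ _
  have hrn := LinearMap.finrank_range_add_finrank_ker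
    (φ.toLinearMap.domRestrict (Sm κ N q m ⊓ J.restrictScalars κ))
  have hrange : LinearMap.range
      (φ.toLinearMap.domRestrict (Sm κ N q m ⊓ J.restrictScalars κ)) = W :=
    LinearMap.range_domRestrict _ _
  have hker : Module.finrank κ (LinearMap.ker
      (φ.toLinearMap.domRestrict (Sm κ N q m ⊓ J.restrictScalars κ))) =
      Module.finrank κ ↥(Sm κ N q m ⊓ 𝔔.restrictScalars κ) := by
    refine LinearEquiv.finrank_eq ?_
    exact
      { toFun := fun w => ⟨w.1.1, ⟨w.1.2.1, (hφ0 _).mp w.2⟩⟩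
        invFun := fun w => ⟨⟨w.1, ⟨w.2.1, hPJ w.2.2⟩⟩, (hφ0 _).mpr w.2.2⟩
        left_inv := fun _ => rfl
        right_inv := fun _ => rfl
        map_add' := fun _ _ => rfl
        map_smul' := fun _ _ => rfl }
  rw [hrange, hker] at hrn
  rw [← hrn]
  have h18 : Module.finrank κ W ≡ 0 [MOD p] := (Nat.modEq_zero_iff_dvd).mpr hdvd
  simpa using h18.add_right (Module.finrank κ ↥(Sm κ N q m ⊓ 𝔔.restrictScalars κ))

theorem stable_step {p : ℕ} [Fact p.Prime] {κ : Type} [Field κ] {N q : ℕ}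
    (hirr : Irreducible (Polynomial.X ^ p - Polynomial.X - 1 : Polynomial κ)) (r : ℕ)
    {𝔔 : Ideal (Sr κ N q)} (h𝔔 : 𝔔.IsPrime) (hom : HomI 𝔔) (e : Fin (q + 1) → ℕ)
    (g h : Sr κ N q) (hg : g ∈ Sm κ N q e) (hh : h ∈ Sm κ N q e) (hh𝔔 : h ∉ 𝔔)
    (hgh : asf p g h ∈ 𝔔)
    (hK : ∀ 𝔮 : Ideal (Sr κ N q), 𝔮.IsPrime → HomI 𝔮 → 𝔔 < 𝔮 → Kill p r 𝔮) : Kill p r 𝔔 := by
  have hp : p.Prime := Fact.out
  set J : Ideal (Sr κ N q) :=
    𝔔 ⊔ Ideal.span (Set.range fun i : Fin p => h ^ (p - 1 - (i : ℕ)) * g ^ (i : ℕ)) with hJ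
  have hPJ : 𝔔 ≤ J := le_sup_left
  have hhJ : h ^ (p - 1) ∈ J := by
    have := (le_sup_right : _ ≤ J) (Ideal.subset_span (⟨⟨0, hp.pos⟩, rfl⟩ :
      h ^ (p - 1 - 0) * g ^ 0 ∈ Set.range fun i : Fin p => h ^ (p - 1 - (i : ℕ)) * g ^ (i : ℕ)))
    simpa using this
  have hJh : HomI J := by
    refine homI_sup hom (homI_span _ ?_)
    rintro _ ⟨i, rfl⟩
    exact ⟨(p - 1 - (i : ℕ)) • e + (i : ℕ) • e,
      MvPolynomial.IsWeightedHomogeneous.mul (MvPolynomial.IsWeightedHomogeneous.pow hh _)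
        (MvPolynomial.IsWeightedHomogeneous.pow hg _)⟩
  have hKJ : Kill p r J := by
    refine devissage r hJh fun 𝔮 hq hqh hJq => hK 𝔮 hq hqh ?_
    refine lt_of_le_of_ne (hPJ.trans hJq) ?_
    rintro rfl
    exact hh𝔔 (h𝔔.mem_of_pow_mem _ (hJq hhJ))
  have heq : (fun m => ((hil 𝔔 m : ℤ) : ZMod p)) = (fun m => ((hil J m : ℤ) : ZMod p)) := by
    funext m
    have h1 := step_congr hirr h𝔔 hom e g h hg hh hh𝔔 hgh m
    have h2 := (ZMod.natCast_eq_natCast_iff _ _ _).2 h1
    unfold hil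
    push_cast
    rw [← hJ] at h2
    rw [h2]
  obtain ⟨B, hB⟩ := hKJ
  refine ⟨B, fun m hm => ?_⟩
  rw [heq]
  exact hB m hm

end Pool.Agent.W_MP_b723a0_ag.P
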