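import Mathlib
import Pool.Agent.W_MP_b723a0_ag.P.Defs
import Pool.Agent.W_MP_b723a0_ag.P.HilBasics
import Pool.Agent.W_MP_b723a0_ag.P.PtBasics
import Pool.Agent.W_MP_b723a0_ag.P.Devissage
import Pool.Agent.W_MP_b723a0_ag.P.StableStep

/-!
# Task E9: ideals containing `Qf`

Claim: `Kill p 0 𝔔` (i.e. `p ∣ hil 𝔔 m` for large `m`) for all multihomogeneous primes `𝔔 ∋ Qf`;
then `devissage` gives the statement for ideals. Noetherian induction on `𝔔` (so the claim is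
known for all larger multihomogeneous primes, they contain `Qf` as well). `𝔔` is prime and
contains the product `Qf`.

Case A: `asf u_k v_k ∈ 𝔔` for some `k`. If `v_k ∈ 𝔔` then `u_k^p ∈ 𝔔`, `u_k ∈ 𝔔`, so all
variables of index `k + 1` are in `𝔔` and `hil 𝔔 m = 0` for `1 ≤ m (k+1)`
(`hil_eq_zero_of_vars`). If `v_k ∉ 𝔔`, apply `stable_step` with `g = u_k`, `h = v_k`.

Case B: `nf p N z ∈ 𝔔`. Let `n ≤ N` and suppose `nf p n (z_0..z_n) ∈ 𝔔` and
`z_{n+1}, ..., z_N ∈ 𝔔`. If `n = 0` all `z_j ∈ 𝔔` and `hil 𝔔 m = 0` for `1 ≤ m 0`. If `n ≥ 1`,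
`nf p n z = asf (nf p (n-1) z') (z_n^{p^(n-1)})`. If `z_n ∉ 𝔔` apply `stable_step` with
`g = nf p (n-1) z'`, `h = z_n^{p^(n-1)}`, both homogeneous of degree `p^(n-1) • e0`. If
`z_n ∈ 𝔔` then `(nf p (n-1) z')^p ∈ 𝔔`, so `nf p (n-1) z' ∈ 𝔔`; continue with `n - 1`.
-/

namespace Pool.Agent.W_MP_b723a0_ag.P

theorem qk_asf_mem {p : ℕ} (hp : 1 ≤ p) {κ : Type} [Field κ] {N q : ℕ} {e : Fin (q + 1) → ℕ}
    {g h : Sr κ N q} (hg : g ∈ Sm κ N q e) (hh : h ∈ Sm κ N q e) :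
    asf p g h ∈ Sm κ N q (p • e) := by
  have hg' : MvPolynomial.IsWeightedHomogeneous (wt N q) g e := hg
  have hh' : MvPolynomial.IsWeightedHomogeneous (wt N q) h e := hh
  have h1 : g ^ p ∈ Sm κ N q (p • e) := hg'.pow p
  have h2 : h ^ p ∈ Sm κ N q (p • e) := hh'.pow p
  have h3 : g * h ^ (p - 1) ∈ Sm κ N q (p • e) := by
    have h4 := hg'.mul (hh'.pow (p - 1))
    have h5 : e + (p - 1) • e = p • e := by
      nth_rewrite 1 [← one_smul ℕ e]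
      rw [← add_smul]
      congr 1
      omega
    rw [h5] at h4
    exact h4
  exact Submodule.sub_mem _ (Submodule.sub_mem _ h1 h3) h2

theorem qk_nf_mem {p : ℕ} (hp : 1 ≤ p) {κ : Type} [Field κ] {N q : ℕ} :
    ∀ (n : ℕ) (φ : Fin (n + 1) → Fin (N + 1)),
      nf p n (fun j => (MvPolynomial.X (Sum.inl (φ j)) : Sr κ N q)) ∈ Sm κ N q (p ^ n • e0 q)
  | 0, φ => by
    show (MvPolynomial.X (Sum.inl (φ 0)) : Sr κ N q) ∈ Sm κ N q (p ^ 0 • e0 q)
    rw [pow_zero, one_smul]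
    exact MvPolynomial.isWeightedHomogeneous_X κ (wt N q) (Sum.inl (φ 0))
  | n + 1, φ => by
    have h1 := qk_nf_mem hp (κ := κ) (q := q) n (fun j => φ j.castSucc)
    have h2 : (MvPolynomial.X (Sum.inl (φ (Fin.last (n + 1)))) : Sr κ N q) ^ p ^ n ∈
        Sm κ N q (p ^ n • e0 q) :=
      (MvPolynomial.isWeightedHomogeneous_X κ (wt N q) (Sum.inl (φ (Fin.last (n + 1))))).pow (p ^ n)
    have h3 := qk_asf_mem hp h1 h2
    rw [smul_smul, ← pow_succ'] at h3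
    exact h3

theorem qk_kill_of_vars {p : ℕ} {κ : Type} [Field κ] {N q : ℕ} (I : Ideal (Sr κ N q))
    (k : Fin (q + 1)) (h : ∀ x : Vr N q, gidx x = k → MvPolynomial.X x ∈ I) : Kill p 0 I := by
  refine ⟨1, fun m hm => ?_⟩
  show ((hil I m : ℤ) : ZMod p) = 0
  rw [hil_eq_zero_of_vars I k h m (hm k), Int.cast_zero]

/-- If `h` and the Artin-Schreier form are in a prime ideal, so is `g`. -/
theorem qk_left_mem {p : ℕ} (hp : 2 ≤ p) {R : Type*} [CommRing R] {𝔔 : Ideal R} (h𝔔 : 𝔔.IsPrime)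
    {g h : R} (hh : h ∈ 𝔔) (hgh : asf p g h ∈ 𝔔) : g ∈ 𝔔 := by
  refine h𝔔.mem_of_pow_mem p ?_
  have h1 : g ^ p = asf p g h + (g * h ^ (p - 1) + h ^ p) := by
    unfold asf
    ring
  rw [h1]
  exact 𝔔.add_mem hgh (𝔔.add_mem (𝔔.mul_mem_left _ (𝔔.pow_mem_of_mem hh _ (by omega)))
    (𝔔.pow_mem_of_mem hh _ (by omega)))

theorem qk_nf_case {p : ℕ} [Fact p.Prime] {κ : Type} [Field κ] {N q : ℕ}
    (hirr : Irreducible (Polynomial.X ^ p - Polynomial.X - 1 : Polynomial κ))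
    {𝔔 : Ideal (Sr κ N q)} (h𝔔 : 𝔔.IsPrime) (hom : HomI 𝔔)
    (hK : ∀ 𝔮 : Ideal (Sr κ N q), 𝔮.IsPrime → HomI 𝔮 → 𝔔 < 𝔮 → Kill p 0 𝔮) :
    ∀ (n : ℕ) (hn : n + 1 ≤ N + 1),
      nf p n (fun j => (MvPolynomial.X (Sum.inl (Fin.castLE hn j)) : Sr κ N q)) ∈ 𝔔 →
      (∀ j : Fin (N + 1), n < (j : ℕ) → (MvPolynomial.X (Sum.inl j) : Sr κ N q) ∈ 𝔔) →
      Kill p 0 𝔔 := by
  have hp : 2 ≤ p := (Fact.out : p.Prime).two_le
  intro n
  induction n with
  | zero =>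
    intro hn h0 hj
    refine qk_kill_of_vars 𝔔 0 ?_
    rintro (j | kb) hx
    · rcases Nat.eq_zero_or_pos (j : ℕ) with hj0 | hj0
      · have h1 : Fin.castLE hn 0 = j := Fin.ext (by simp [hj0])
        have h2 : (MvPolynomial.X (Sum.inl (Fin.castLE hn 0)) : Sr κ N q) ∈ 𝔔 := h0
        rw [h1] at h2
        exact h2
      · exact hj j hj0
    · exact absurd hx (Fin.succ_ne_zero _)
  | succ n ih =>
    intro hn h0 hj
    have hn' : n + 1 ≤ N + 1 := by omega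
    set g : Sr κ N q := nf p n (fun j => (MvPolynomial.X (Sum.inl (Fin.castLE hn' j)) : Sr κ N q))
      with hgdef
    set y : Sr κ N q := MvPolynomial.X (Sum.inl (Fin.castLE hn (Fin.last (n + 1)))) with hydef
    have hasf : asf p g (y ^ p ^ n) ∈ 𝔔 := h0
    by_cases hy : y ^ p ^ n ∈ 𝔔
    · have hg : g ∈ 𝔔 := qk_left_mem hp h𝔔 hy hasf
      have hy' : y ∈ 𝔔 := h𝔔.mem_of_pow_mem _ hy
      refine ih hn' hg fun j hjn => ?_
      rcases Nat.lt_or_ge (n + 1) (j : ℕ) with h1 | h1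
      · exact hj j h1
      · have h2 : Fin.castLE hn (Fin.last (n + 1)) = j := Fin.ext (by simp; omega)
        rw [← h2]
        exact hy'
    · exact stable_step hirr 0 h𝔔 hom (p ^ n • e0 q) g (y ^ p ^ n)
        (qk_nf_mem (by omega) n (fun j => Fin.castLE hn' j))
        ((MvPolynomial.isWeightedHomogeneous_X κ (wt N q)
          (Sum.inl (Fin.castLE hn (Fin.last (n + 1))))).pow (p ^ n)) hy hasf hK

theorem qk_prime {p : ℕ} [Fact p.Prime] {κ : Type} [Field κ] {N q : ℕ}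
    (hirr : Irreducible (Polynomial.X ^ p - Polynomial.X - 1 : Polynomial κ)) :
    ∀ 𝔔 : Ideal (Sr κ N q), 𝔔.IsPrime → HomI 𝔔 → Qf p κ N q ∈ 𝔔 → Kill p 0 𝔔 := by
  have hp : 2 ≤ p := (Fact.out : p.Prime).two_le
  intro 𝔔
  induction 𝔔 using WellFoundedGT.induction with
  | ind 𝔔 ih =>
    intro h𝔔 hom hQ
    have hK : ∀ 𝔮 : Ideal (Sr κ N q), 𝔮.IsPrime → HomI 𝔮 → 𝔔 < 𝔮 → Kill p 0 𝔮 :=
      fun 𝔮 h1 h2 h3 => ih 𝔮 h3 h1 h2 (h3.le hQ)
    rcases h𝔔.mem_or_mem hQ with h | h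
    · exact qk_nf_case hirr h𝔔 hom hK N le_rfl h fun j hj => absurd j.isLt (by omega)
    · obtain ⟨k, -, hk⟩ := (h𝔔.prod_mem_iff).1 h
      by_cases hv : (MvPolynomial.X (Sum.inr (k, true)) : Sr κ N q) ∈ 𝔔
      · have hu : (MvPolynomial.X (Sum.inr (k, false)) : Sr κ N q) ∈ 𝔔 := qk_left_mem hp h𝔔 hv hk
        refine qk_kill_of_vars 𝔔 k.succ ?_
        rintro (j | ⟨k', b⟩) hx
        · exact absurd hx.symm (Fin.succ_ne_zero _)
        · have h1 : k' = k := Fin.succ_injective _ hx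
          subst h1
          cases b
          · exact hu
          · exact hv
      · exact stable_step hirr 0 h𝔔 hom (Pi.single k.succ 1) _ _
          (MvPolynomial.isWeightedHomogeneous_X κ (wt N q) (Sum.inr (k, false)))
          (MvPolynomial.isWeightedHomogeneous_X κ (wt N q) (Sum.inr (k, true))) hv hk hK

theorem kill_of_Qf_mem {p : ℕ} [Fact p.Prime] {κ : Type} [Field κ] {N q : ℕ}
    (hirr : Irreducible (Polynomial.X ^ p - Polynomial.X - 1 : Polynomial κ))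
    {I : Ideal (Sr κ N q)} (hI : HomI I) (hQ : Qf p κ N q ∈ I) : Kill p 0 I :=
  devissage 0 hI fun 𝔮 h𝔮 hom hle => qk_prime hirr 𝔮 h𝔮 hom (hle hQ)

end Pool.Agent.W_MP_b723a0_ag.P
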