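import Mathlib
import Pool.Agent.W_MP_b723a0_ag.P.Defs
import Pool.Agent.W_MP_b723a0_ag.P.HilBasics
import Pool.Agent.W_MP_b723a0_ag.P.HilStep

/-!
# Task E2: differences and periodicity of the Hilbert function

`hil_dif_zero`. Claim: for a homogeneous ideal `I` and `k`, with `n` the number of variables `x`
with `gidx x = k` and `X x ∉ I`, there is `B` such that for all `m` with `B ≤ m k` (no condition
on the other coordinates!) `(dif k)^[n] (hil I) m = 0`; then the same holds for every larger
number of differences.
Proof by induction on `n`, and for fixed `n` Noetherian induction on `I`.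
`n = 0`: `hil I m = 0` for `1 ≤ m k` (`hil_eq_zero_of_vars`).
`n > 0`: let `x` have index `k`, `X x ∉ I`. By `hil_step` with `e = Pi.single k 1`,
`hil I (m + e) = hil (colonI I (X x)) m + hil (I ⊔ (X x)) (m + e)`. The ideal `I ⊔ (X x)` has
`< n` variables of index `k` outside. If `colonI I (X x) = I` then
`dif k (hil I) m = hil (I ⊔ (X x)) (m + e)`, so one more difference kills it. Otherwise
`colonI I (X x)` is strictly larger, has `≤ n` variables outside, and both summands are killed by
`(dif k)^[n]` in large degrees; replace `m` by `m - e`.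

`hil_period`. Modulo `p`, `(dif k)^[p^S] f m = f (m + p^S • e_k) - f m` (as
`(T-1)^{p^S} = T^{p^S} - 1` mod `p`). Since there are `N+1` variables of index `0` and two
variables of index `k ≥ 1`, and `N + 1 ≤ p^S`, `2 ≤ p ≤ p^S`, we get periodicity with period
`p^S` in each coordinate in large degrees; then add up the coordinates of `c`.
-/

namespace Pool.Agent.W_MP_b723a0_ag.P

section dif

variable {A : Type*} [AddCommGroup A] {q : ℕ} (k : Fin (q + 1))

theorem period_iter_succ (n : ℕ) (f : (Fin (q + 1) → ℕ) → A) (m : Fin (q + 1) → ℕ) :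
    (dif k)^[n + 1] f m = (dif k)^[n] f (m + Pi.single k 1) - (dif k)^[n] f m := by
  rw [Function.iterate_succ_apply']
  rfl

theorem period_le {B : ℕ} {m : Fin (q + 1) → ℕ} (h : B ≤ m k) :
    B ≤ (m + Pi.single k 1 : Fin (q + 1) → ℕ) k := by
  rw [Pi.add_apply]
  omega

theorem period_congr (n : ℕ) {f g : (Fin (q + 1) → ℕ) → A} {B : ℕ}
    (h : ∀ m : Fin (q + 1) → ℕ, B ≤ m k → f m = g m) :
    ∀ m : Fin (q + 1) → ℕ, B ≤ m k → (dif k)^[n] f m = (dif k)^[n] g m := by
  induction n with
  | zero => exact h
  | succ n ih =>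
    intro m hm
    rw [period_iter_succ, period_iter_succ, ih m hm, ih _ (period_le k hm)]

theorem period_add (n : ℕ) (f g : (Fin (q + 1) → ℕ) → A) (m : Fin (q + 1) → ℕ) :
    (dif k)^[n] (fun m => f m + g m) m = (dif k)^[n] f m + (dif k)^[n] g m := by
  induction n generalizing m with
  | zero => rfl
  | succ n ih =>
    rw [period_iter_succ, period_iter_succ, period_iter_succ, ih, ih]
    abel

theorem period_shift (n : ℕ) (f : (Fin (q + 1) → ℕ) → A) (m : Fin (q + 1) → ℕ) :
    (dif k)^[n] (fun m => f (m + Pi.single k 1)) m = (dif k)^[n] f (m + Pi.single k 1) := by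
  induction n generalizing m with
  | zero => rfl
  | succ n ih => rw [period_iter_succ, period_iter_succ, ih, ih]

theorem period_zero_of_le {n n' : ℕ} (hn : n ≤ n') {f : (Fin (q + 1) → ℕ) → A} {B : ℕ}
    (h : ∀ m : Fin (q + 1) → ℕ, B ≤ m k → (dif k)^[n] f m = 0) :
    ∀ m : Fin (q + 1) → ℕ, B ≤ m k → (dif k)^[n'] f m = 0 := by
  induction n', hn using Nat.le_induction with
  | base => exact h
  | succ n' _ ih =>
    intro m hm
    rw [period_iter_succ, ih m hm, ih _ (period_le k hm), sub_zero]

theorem period_map {A' : Type*} [AddCommGroup A'] (φ : A →+ A') (n : ℕ)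
    (f : (Fin (q + 1) → ℕ) → A) (m : Fin (q + 1) → ℕ) :
    (dif k)^[n] (fun m => φ (f m)) m = φ ((dif k)^[n] f m) := by
  induction n generalizing m with
  | zero => rfl
  | succ n ih => rw [period_iter_succ, period_iter_succ, ih, ih, map_sub]

end dif

open Classical in
/-- number of variables of index `k` outside of `I` -/
noncomputable def periodCount {κ : Type} [Field κ] {N q : ℕ} (I : Ideal (Sr κ N q))
    (k : Fin (q + 1)) : ℕ :=
  (Finset.univ.filter fun x : Vr N q => gidx x = k ∧ (MvPolynomial.X x : Sr κ N q) ∉ I).card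

theorem periodCount_mono {κ : Type} [Field κ] {N q : ℕ} {I J : Ideal (Sr κ N q)} (h : I ≤ J)
    (k : Fin (q + 1)) : periodCount J k ≤ periodCount I k := by
  classical
  unfold periodCount
  apply Finset.card_le_card
  intro x hx
  rw [Finset.mem_filter] at hx ⊢
  exact ⟨hx.1, hx.2.1, fun h' => hx.2.2 (h h')⟩

theorem periodCount_lt {κ : Type} [Field κ] {N q : ℕ} {I J : Ideal (Sr κ N q)} (h : I ≤ J)
    (k : Fin (q + 1)) (x : Vr N q) (hx : gidx x = k) (hI : (MvPolynomial.X x : Sr κ N q) ∉ I)
    (hJ : (MvPolynomial.X x : Sr κ N q) ∈ J) : periodCount J k < periodCount I k := by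
  classical
  unfold periodCount
  apply Finset.card_lt_card
  refine ⟨?_, ?_⟩
  · intro y hy
    rw [Finset.mem_filter] at hy ⊢
    exact ⟨hy.1, hy.2.1, fun h' => hy.2.2 (h h')⟩
  · intro hsub
    have := hsub (Finset.mem_filter.2 ⟨Finset.mem_univ x, hx, hI⟩)
    rw [Finset.mem_filter] at this
    exact this.2.2 hJ

theorem period_X_mem {κ : Type} [Field κ] {N q : ℕ} {k : Fin (q + 1)} {x : Vr N q}
    (hx : gidx x = k) : (MvPolynomial.X x : Sr κ N q) ∈ Sm κ N q (Pi.single k 1) := by
  have h := MvPolynomial.isWeightedHomogeneous_X κ (wt N q) x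
  have h2 : wt N q x = Pi.single k 1 := by unfold wt; rw [hx]
  rw [h2] at h
  exact h

theorem period_main {κ : Type} [Field κ] {N q : ℕ} (k : Fin (q + 1)) (n : ℕ) :
    ∀ I : Ideal (Sr κ N q), HomI I → periodCount I k ≤ n →
      ∃ B : ℕ, ∀ m : Fin (q + 1) → ℕ, B ≤ m k → (dif k)^[n] (hil I) m = 0 := by
  classical
  induction n with
  | zero =>
    intro I _ hc
    refine ⟨1, fun m hm => ?_⟩
    apply hil_eq_zero_of_vars I k _ m hm
    intro x hx
    by_contra hX
    have h1 : periodCount I k = 0 := Nat.le_zero.1 hc
    unfold periodCount at h1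
    rw [Finset.card_eq_zero] at h1
    have h2 : x ∈ (Finset.univ.filter fun x : Vr N q =>
        gidx x = k ∧ (MvPolynomial.X x : Sr κ N q) ∉ I) :=
      Finset.mem_filter.2 ⟨Finset.mem_univ x, hx, hX⟩
    rw [h1] at h2
    simp at h2
  | succ n ih =>
    intro I
    induction I using WellFoundedGT.induction with
    | ind I ihI =>
      intro hI hc
      by_cases hall : ∀ x : Vr N q, gidx x = k → (MvPolynomial.X x : Sr κ N q) ∈ I
      · refine ⟨1, period_zero_of_le k (Nat.zero_le _) fun m hm => ?_⟩
        exact hil_eq_zero_of_vars I k hall m hm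
      · push Not at hall
        obtain ⟨x, hx, hX⟩ := hall
        have hXm := period_X_mem (κ := κ) (N := N) hx
        set J := I ⊔ Ideal.span {(MvPolynomial.X x : Sr κ N q)} with hJdef
        have hIJ : I ≤ J := le_sup_left
        have hXJ : (MvPolynomial.X x : Sr κ N q) ∈ J :=
          (le_sup_right : Ideal.span {(MvPolynomial.X x : Sr κ N q)} ≤ J)
            (Ideal.subset_span rfl)
        have hJ : HomI J := homI_sup hI (homI_span _ (by
          intro y hy
          rw [Set.mem_singleton_iff] at hy
          rw [hy]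
          exact ⟨_, hXm⟩))
        have hJc : periodCount J k ≤ n := by
          have := periodCount_lt hIJ k x hx hX hXJ
          omega
        obtain ⟨BJ, hBJ⟩ := ih J hJ hJc
        have hstep := fun m => hil_step hI hXm m
        have hIC : I ≤ colonI I (MvPolynomial.X x) := fun y hy => I.mul_mem_left _ hy
        by_cases hCI : colonI I (MvPolynomial.X x) = I
        · refine ⟨BJ, fun m hm => ?_⟩
          rw [Function.iterate_succ_apply]
          have h1 : dif k (hil I) = fun m => hil J (m + Pi.single k 1) := by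
            funext m
            have := hstep m
            rw [hCI] at this
            unfold dif
            rw [this]
            ring
          rw [h1, period_shift]
          exact hBJ _ (period_le k hm)
        · obtain ⟨BC, hBC⟩ := ihI (colonI I (MvPolynomial.X x)) (lt_of_le_of_ne hIC (Ne.symm hCI))
            (homI_colon hI hXm) ((periodCount_mono hIC k).trans hc)
          refine ⟨max BJ BC + 1, fun m' hm' => ?_⟩
          obtain ⟨m, rfl⟩ : ∃ m : Fin (q + 1) → ℕ, m' = m + Pi.single k 1 := by
            refine ⟨Function.update m' k (m' k - 1), ?_⟩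
            funext j
            by_cases hj : j = k
            · subst hj
              simp
              omega
            · simp [Function.update_of_ne hj, Pi.single_eq_of_ne hj]
          have hm : max BJ BC ≤ m k := by
            rw [Pi.add_apply, Pi.single_eq_same] at hm'
            omega
          rw [← period_shift]
          have h1 : (fun m => hil I (m + Pi.single k 1)) =
              fun m => hil (colonI I (MvPolynomial.X x)) m + hil J (m + Pi.single k 1) := by
            funext m
            exact hstep m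
          rw [h1]
          refine (period_add k (n + 1) (hil (colonI I (MvPolynomial.X x)))
            (fun m => hil J (m + Pi.single k 1)) m).trans ?_
          rw [period_shift, hBC m ((le_max_right _ _).trans hm),
            period_zero_of_le k (Nat.le_succ n) hBJ _
              (period_le k ((le_max_left _ _).trans hm)), add_zero]

theorem periodCount_le {κ : Type} [Field κ] {N q : ℕ} (I : Ideal (Sr κ N q))
    (k : Fin (q + 1)) : periodCount I k ≤ if k = 0 then N + 1 else 2 := by
  classical
  unfold periodCount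
  split_ifs with hk
  · subst hk
    calc _ ≤ ((Finset.univ : Finset (Fin (N + 1))).image (Sum.inl : _ → Vr N q)).card := by
          apply Finset.card_le_card
          intro x hx
          rw [Finset.mem_filter] at hx
          rcases x with x | x
          · simp
          · exact absurd hx.2.1 (Fin.succ_ne_zero _)
      _ ≤ (Finset.univ : Finset (Fin (N + 1))).card := Finset.card_image_le
      _ = N + 1 := by simp
  · obtain ⟨j, rfl⟩ := Fin.exists_succ_eq.2 hk
    calc _ ≤ ((Finset.univ : Finset Bool).image fun b => (Sum.inr (j, b) : Vr N q)).card := by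
          apply Finset.card_le_card
          intro x hx
          rw [Finset.mem_filter] at hx
          rcases x with x | ⟨i, b⟩
          · exact absurd hx.2.1.symm (Fin.succ_ne_zero _)
          · have h1 : i.succ = j.succ := hx.2.1
            have h2 : i = j := Fin.succ_injective _ h1
            rw [h2]
            simp
      _ ≤ (Finset.univ : Finset Bool).card := Finset.card_image_le
      _ = 2 := by simp

theorem hil_dif_zero {κ : Type} [Field κ] {N q : ℕ} {I : Ideal (Sr κ N q)} (hI : HomI I)
    (k : Fin (q + 1)) : ∃ B : ℕ, ∀ m : Fin (q + 1) → ℕ, B ≤ m k →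
      (dif k)^[if k = 0 then N + 1 else 2] (hil I) m = 0 :=
  period_main k _ I hI (periodCount_le I k)

theorem period_frob {p : ℕ} [Fact p.Prime] {q : ℕ} (k : Fin (q + 1)) (S : ℕ)
    (f : (Fin (q + 1) → ℕ) → ZMod p) (m : Fin (q + 1) → ℕ) :
    (dif k)^[p ^ S] f m = f (m + p ^ S • Pi.single k 1) - f m := by
  have h1 : (dif k)^[p ^ S] f m = (fwdDiff (Pi.single k 1 : Fin (q + 1) → ℕ))^[p ^ S] f m := rfl
  have hp : p.Prime := Fact.out
  have hpS : 0 < p ^ S := pow_pos hp.pos S
  rw [h1, fwdDiff_iter_eq_sum_shift, Finset.sum_range_succ]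
  have h2 : ∑ j ∈ Finset.range (p ^ S), ((-1 : ℤ) ^ (p ^ S - j) * ((p ^ S).choose j : ℤ)) •
      f (m + j • Pi.single k 1) = - f m := by
    rw [Finset.sum_eq_single_of_mem 0 (Finset.mem_range.2 hpS)]
    · simp only [Nat.sub_zero, Nat.choose_zero_right, Nat.cast_one, mul_one, zero_smul, add_zero,
        zsmul_eq_mul]
      push_cast
      rw [ZMod.pow_card_pow, neg_one_mul]
    · intro j hj hj0
      rw [Finset.mem_range] at hj
      have hdvd : p ∣ (p ^ S).choose j := hp.dvd_choose_pow hj0 hj.ne
      obtain ⟨c, hc⟩ := hdvd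
      rw [hc, zsmul_eq_mul]
      push_cast
      simp
  rw [h2]
  simp
  ring

theorem hil_period {p : ℕ} [Fact p.Prime] {κ : Type} [Field κ] {N q : ℕ} {I : Ideal (Sr κ N q)}
    (hI : HomI I) (S : ℕ) (hS : N + 1 ≤ p ^ S) (hS1 : 1 ≤ S) :
    ∃ B : ℕ, ∀ m : Fin (q + 1) → ℕ, (∀ k, B ≤ m k) → ∀ c : Fin (q + 1) → ℕ,
      ((hil I (m + p ^ S • c) : ℤ) : ZMod p) = ((hil I m : ℤ) : ZMod p) := by
  classical
  choose B hB using fun k => hil_dif_zero hI k
  have hp : p.Prime := Fact.out
  have h2 : 2 ≤ p ^ S := hp.two_le.trans (Nat.le_self_pow (by omega) p)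
  refine ⟨Finset.univ.sup B, fun m hm c => ?_⟩
  set f : (Fin (q + 1) → ℕ) → ZMod p := fun m => ((hil I m : ℤ) : ZMod p) with hf
  have hBk : ∀ k, B k ≤ Finset.univ.sup B := fun k => Finset.le_sup (Finset.mem_univ k)
  -- one step in the direction `k`
  have hone : ∀ (k : Fin (q + 1)) (m : Fin (q + 1) → ℕ), (∀ j, Finset.univ.sup B ≤ m j) →
      f (m + p ^ S • Pi.single k 1) = f m := by
    intro k m hm
    have h3 : (dif k)^[p ^ S] f m = 0 := by
      have h4 := period_map k (Int.castAddHom (ZMod p)) (p ^ S) (hil I) m
      have h5 : (fun m => (Int.castAddHom (ZMod p)) (hil I m)) = f := rfl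
      rw [h5] at h4
      rw [h4, period_zero_of_le k (n := if k = 0 then N + 1 else 2) (by split_ifs <;> assumption)
        (hB k) m ((hBk k).trans (hm k)), map_zero]
    rw [period_frob] at h3
    exact sub_eq_zero.1 h3
  have hge : ∀ (a : Fin (q + 1) → ℕ) (m : Fin (q + 1) → ℕ), (∀ j, Finset.univ.sup B ≤ m j) →
      ∀ j, Finset.univ.sup B ≤ (m + a) j := fun a m hm j => (hm j).trans (Nat.le_add_right _ _)
  -- several steps in the direction `k`
  have hmany : ∀ (k : Fin (q + 1)) (t : ℕ) (m : Fin (q + 1) → ℕ),
      (∀ j, Finset.univ.sup B ≤ m j) → f (m + p ^ S • Pi.single k t) = f m := by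
    intro k t
    induction t with
    | zero => intro m _; simp
    | succ t ih =>
      intro m hm
      have h3 : m + p ^ S • Pi.single k (t + 1) =
          (m + p ^ S • Pi.single k t) + p ^ S • Pi.single k 1 := by
        rw [Pi.single_add, smul_add, add_assoc]
      rw [h3, hone k _ (hge _ m hm), ih m hm]
  have hall : ∀ (s : Finset (Fin (q + 1))) (m : Fin (q + 1) → ℕ),
      (∀ j, Finset.univ.sup B ≤ m j) →
      f (m + p ^ S • ∑ k ∈ s, Pi.single k (c k)) = f m := by
    intro s
    induction s using Finset.induction_on with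
    | empty => intro m _; simp
    | insert k s hk ih =>
      intro m hm
      rw [Finset.sum_insert hk, smul_add, ← add_assoc, ih _ (hge _ m hm), hmany k _ m hm]
  have := hall Finset.univ m hm
  rw [Finset.univ_sum_single] at this
  exact this

end Pool.Agent.W_MP_b723a0_ag.P
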