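import Mathlib
import Pool.Agent.W_MP_b723a0_ag.P.Defs
import Pool.Agent.W_MP_b723a0_ag.P.HilBasics
import Pool.Agent.W_MP_b723a0_ag.P.HilStep
import Pool.Agent.W_MP_b723a0_ag.P.Period

/-!
# Task E3: the section step

Proof. Let `e = d • e0 + p^S • c`, `a = padicValNat p d`, `d = p^a d'`, `p ∤ d'`. As `𝔔` is prime
and `s ∉ 𝔔`, `colonI 𝔔 s = 𝔔`, so `hil 𝔔 (m + e) - hil 𝔔 m = hil (𝔔 ⊔ (s)) (m + e)`. Let
`H m = (hil 𝔔 m : ZMod p)`. By `hil_period`, `H (m + e) = H (m + d • e0)` for large `m`. Let `T`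
be the translation by `e0` acting on functions, so `fwd = T - 1`. In large degrees
`(T - 1)^r (T^d - 1) H = 0` (hypothesis `Kill p r (𝔔 ⊔ (s))`), and `(T - 1)^{N+1} H = 0` by
`hil_dif_zero` with `k = 0`. Over `F_p`, `T^d - 1 = (T^{d'} - 1)^{p^a} = (T-1)^{p^a} g(T)^{p^a}`
with `g = 1 + T + ... + T^{d'-1}`, `g(1) = d' ≠ 0`, so `g^{p^a}` is prime to `(T-1)^{N+1}` and
`u g^{p^a} + w (T-1)^{N+1} = 1` for some `u, w ∈ F_p[T]`. Hence
`(T-1)^{r+p^a} H = u (T-1)^r (T^d - 1) H + w (T-1)^{r+p^a} (T-1)^{N+1} H = 0` in large degrees.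
-/

namespace Pool.Agent.W_MP_b723a0_ag.P

open Polynomial in
/-- The polynomial identity behind the section step. -/
theorem sst_poly {p : ℕ} [Fact p.Prime] (d r n : ℕ) (hd : 1 ≤ d) :
    ∃ u w : (ZMod p)[X], (X - 1 : (ZMod p)[X]) ^ (r + p ^ padicValNat p d) =
      u * ((X - 1) ^ r * (X ^ d - 1)) + w * (X - 1) ^ n := by
  obtain ⟨d', hd', hnd⟩ : ∃ d', d = p ^ padicValNat p d * d' ∧ ¬ p ∣ d' := by
    obtain ⟨d', h⟩ := pow_padicValNat_dvd (p := p) (n := d)
    refine ⟨d', h, fun hdvd => ?_⟩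
    obtain ⟨x, rfl⟩ := hdvd
    apply pow_succ_padicValNat_not_dvd (p := p) (n := d) (by omega)
    refine ⟨x, ?_⟩
    rw [pow_succ]
    calc d = p ^ padicValNat p d * (p * x) := h
      _ = _ := by ring
  set a := padicValNat p d with ha
  set g : (ZMod p)[X] := ∑ i ∈ Finset.range d', X ^ i with hg
  have h1 : (X ^ d - 1 : (ZMod p)[X]) = (X - 1) ^ p ^ a * g ^ p ^ a := by
    have h2 : g * (X - 1) = X ^ d' - 1 := by
      rw [hg]
      exact geom_sum_mul _ _
    rw [← mul_pow, mul_comm (X - 1) g, h2, sub_pow_char_pow, one_pow, ← pow_mul, mul_comm d',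
      ← hd']
  have h3 : IsCoprime g (X - 1 : (ZMod p)[X]) := by
    have h4 : Irreducible (X - C 1 : (ZMod p)[X]) := irreducible_X_sub_C 1
    have h5 : ¬ (X - C 1 : (ZMod p)[X]) ∣ g := by
      rw [dvd_iff_isRoot, IsRoot, hg, eval_finset_sum]
      simp only [eval_pow, eval_X, one_pow, Finset.sum_const, Finset.card_range, nsmul_eq_mul,
        mul_one]
      rw [ZMod.natCast_eq_zero_iff]
      exact hnd
    have h6 := (h4.coprime_iff_not_dvd).2 h5
    rw [C_1] at h6
    exact h6.symm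
  have h7 : IsCoprime (g ^ p ^ a) ((X - 1 : (ZMod p)[X]) ^ n) := h3.pow
  obtain ⟨u, w, huw⟩ := h7
  refine ⟨u, w * (X - 1) ^ (r + p ^ a), ?_⟩
  rw [h1]
  calc (X - 1 : (ZMod p)[X]) ^ (r + p ^ a)
      = (X - 1) ^ (r + p ^ a) * (u * g ^ p ^ a + w * (X - 1) ^ n) := by rw [huw, mul_one]
    _ = _ := by rw [pow_add]; ring

/-- Translation by `e0`. -/
noncomputable def sstT (p q : ℕ) : ((Fin (q + 1) → ℕ) → ZMod p) →ₗ[ZMod p]
    ((Fin (q + 1) → ℕ) → ZMod p) where
  toFun f := fun m => f (m + e0 q)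
  map_add' f g := rfl
  map_smul' c f := rfl

theorem sstT_apply {p q : ℕ} (f : (Fin (q + 1) → ℕ) → ZMod p) (m : Fin (q + 1) → ℕ) :
    sstT p q f m = f (m + e0 q) := rfl

theorem sstT_pow {p q : ℕ} (n : ℕ) (f : (Fin (q + 1) → ℕ) → ZMod p) (m : Fin (q + 1) → ℕ) :
    ((sstT p q) ^ n) f m = f (m + n • e0 q) := by
  induction n generalizing m with
  | zero => simp
  | succ n ih =>
    rw [pow_succ', Module.End.mul_apply, sstT_apply, ih, add_assoc, succ_nsmul' (e0 q) n]

theorem sst_fwd {p q : ℕ} (n : ℕ) (f : (Fin (q + 1) → ℕ) → ZMod p) :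
    fwd^[n] f = ((sstT p q - 1) ^ n) f := by
  induction n generalizing f with
  | zero => simp
  | succ n ih =>
    rw [Function.iterate_succ, Function.comp_apply, ih, pow_succ, Module.End.mul_apply]
    rfl

/-- Functions vanishing in all large degrees. -/
def sstV (p q : ℕ) : Submodule (ZMod p) ((Fin (q + 1) → ℕ) → ZMod p) where
  carrier := {f | ∃ B : ℕ, ∀ m : Fin (q + 1) → ℕ, (∀ k, B ≤ m k) → f m = 0}
  add_mem' := by
    rintro f g ⟨B, hB⟩ ⟨B', hB'⟩
    refine ⟨max B B', fun m hm => ?_⟩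
    rw [Pi.add_apply, hB m fun k => (le_max_left _ _).trans (hm k),
      hB' m fun k => (le_max_right _ _).trans (hm k), add_zero]
  zero_mem' := ⟨0, fun m _ => rfl⟩
  smul_mem' := by
    rintro c f ⟨B, hB⟩
    refine ⟨B, fun m hm => ?_⟩
    rw [Pi.smul_apply, hB m hm, smul_zero]

theorem mem_sstV {p q : ℕ} {f : (Fin (q + 1) → ℕ) → ZMod p} :
    f ∈ sstV p q ↔ ∃ B : ℕ, ∀ m : Fin (q + 1) → ℕ, (∀ k, B ≤ m k) → f m = 0 := Iff.rfl

theorem sstV_T {p q : ℕ} {f : (Fin (q + 1) → ℕ) → ZMod p} (hf : f ∈ sstV p q) :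
    sstT p q f ∈ sstV p q := by
  obtain ⟨B, hB⟩ := hf
  refine ⟨B, fun m hm => ?_⟩
  rw [sstT_apply]
  exact hB _ fun k => (hm k).trans (by simp)

theorem sstV_aeval {p q : ℕ} (g : Polynomial (ZMod p)) {f : (Fin (q + 1) → ℕ) → ZMod p}
    (hf : f ∈ sstV p q) : (Polynomial.aeval (sstT p q) g) f ∈ sstV p q := by
  induction g using Polynomial.induction_on' with
  | add a b ha hb =>
    rw [map_add, LinearMap.add_apply]
    exact (sstV p q).add_mem ha hb
  | monomial n c =>
    rw [Polynomial.aeval_monomial, Module.End.mul_apply, Module.algebraMap_end_apply]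
    refine (sstV p q).smul_mem c ?_
    clear c
    induction n with
    | zero => simpa using hf
    | succ n ih =>
      rw [pow_succ', Module.End.mul_apply]
      exact sstV_T ih

theorem section_step {p : ℕ} [Fact p.Prime] {κ : Type} [Field κ] {N q : ℕ} (d r S : ℕ)
    (hd : 1 ≤ d) (hS : N + 1 ≤ p ^ S) (hS1 : 1 ≤ S) {𝔔 : Ideal (Sr κ N q)} (h𝔔 : 𝔔.IsPrime)
    (hom : HomI 𝔔) (c : Fin (q + 1) → ℕ) (s : Sr κ N q)
    (hs : s ∈ Sm κ N q (d • e0 q + p ^ S • c)) (hs𝔔 : s ∉ 𝔔)
    (hK : Kill p r (𝔔 ⊔ Ideal.span {s})) : Kill p (r + p ^ padicValNat p d) 𝔔 := by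
  set H : (Fin (q + 1) → ℕ) → ZMod p := fun m => ((hil 𝔔 m : ℤ) : ZMod p) with hH
  set G : (Fin (q + 1) → ℕ) → ZMod p :=
    fun m => ((hil (𝔔 ⊔ Ideal.span {s}) m : ℤ) : ZMod p) with hG
  set e : Fin (q + 1) → ℕ := d • e0 q + p ^ S • c with he
  have hcol : colonI 𝔔 s = 𝔔 := by
    ext x
    constructor
    · intro hx
      have hx' : s * x ∈ 𝔔 := hx
      exact (h𝔔.mem_or_mem hx').resolve_left hs𝔔
    · intro hx
      exact 𝔔.mul_mem_left s hx
  have hstep : ∀ m, H (m + e) = H m + G (m + e) := by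
    intro m
    have := hil_step hom hs m
    rw [hcol] at this
    simp only [hH, hG]
    rw [this]
    push_cast
    rfl
  -- first vanishing
  have hV1 : ((sstT p q - 1) ^ (N + 1)) H ∈ sstV p q := by
    obtain ⟨B, hB⟩ := hil_dif_zero hom (0 : Fin (q + 1))
    rw [if_pos rfl] at hB
    have hcast : ∀ (n : ℕ) (f : (Fin (q + 1) → ℕ) → ℤ) (m : Fin (q + 1) → ℕ),
        (fwd^[n] fun m => ((f m : ℤ) : ZMod p)) m = (((dif 0)^[n] f m : ℤ) : ZMod p) := by
      intro n
      induction n with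
      | zero => intro f m; rfl
      | succ n ih =>
        intro f m
        rw [Function.iterate_succ, Function.comp_apply, Function.iterate_succ,
          Function.comp_apply, ← ih]
        have h9 : (fwd fun m => ((f m : ℤ) : ZMod p)) =
            fun m => (((dif 0 f m : ℤ)) : ZMod p) := by
          funext m'
          simp only [fwd, dif, e0]
          push_cast
          rfl
        rw [h9]
    refine ⟨B, fun m hm => ?_⟩
    rw [← sst_fwd, hH, hcast, hB m (hm 0), Int.cast_zero]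
  -- second vanishing
  have hV2 : ((sstT p q - 1) ^ r) (((sstT p q) ^ d - 1) H) ∈ sstV p q := by
    have h1 : ((sstT p q) ^ d - 1) H - (fun m => G (m + e)) ∈ sstV p q := by
      obtain ⟨B, hB⟩ := hil_period hom S hS hS1
      refine ⟨B, fun m hm => ?_⟩
      rw [Pi.sub_apply, LinearMap.sub_apply, Pi.sub_apply, sstT_pow, Module.End.one_apply]
      have h2 := hB (m + d • e0 q) (fun k => (hm k).trans (by simp)) c
      rw [add_assoc, ← he] at h2
      have h3 := hstep m
      simp only [hH] at h3 ⊢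
      rw [← h2, h3]
      ring
    have h4 : ((sstT p q - 1) ^ r) (fun m => G (m + e)) ∈ sstV p q := by
      obtain ⟨B, hB⟩ := hK
      refine ⟨B, fun m hm => ?_⟩
      have h5 : ∀ (n : ℕ) (f : (Fin (q + 1) → ℕ) → ZMod p) (m : Fin (q + 1) → ℕ),
          ((sstT p q - 1) ^ n) (fun m => f (m + e)) m = (fwd^[n] f) (m + e) := by
        intro n
        induction n with
        | zero => intro f m; rfl
        | succ n ih =>
          intro f m
          rw [pow_succ, Module.End.mul_apply, Function.iterate_succ, Function.comp_apply, ← ih]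
          have h9 : ((sstT p q - 1) fun m => f (m + e)) = fun m => fwd f (m + e) := by
            funext m'
            rw [LinearMap.sub_apply, Pi.sub_apply, sstT_apply, Module.End.one_apply]
            simp only [fwd]
            rw [add_right_comm]
          rw [h9]
      rw [h5]
      exact hB (m + e) fun k => (hm k).trans (by simp)
    have h6 : ((sstT p q - 1) ^ r) (((sstT p q) ^ d - 1) H - (fun m => G (m + e))) ∈
        sstV p q := by
      have h7 := sstV_aeval ((Polynomial.X - 1) ^ r) h1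
      simpa using h7
    rw [map_sub] at h6
    have h8 := (sstV p q).add_mem h6 h4
    rwa [sub_add_cancel] at h8
  obtain ⟨u, w, huw⟩ := sst_poly (p := p) d r (N + 1) hd
  have hfin : ((sstT p q - 1) ^ (r + p ^ padicValNat p d)) H ∈ sstV p q := by
    have h1 := congrArg (fun g => (Polynomial.aeval (sstT p q) g) H) huw
    simp only [map_add, map_mul, map_pow, map_sub, Polynomial.aeval_X, map_one,
      LinearMap.add_apply, Module.End.mul_apply] at h1
    rw [h1]
    exact (sstV p q).add_mem (sstV_aeval u hV2) (sstV_aeval w hV1)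
  obtain ⟨B, hB⟩ := hfin
  refine ⟨B, fun m hm => ?_⟩
  rw [sst_fwd]
  exact hB m hm

end Pool.Agent.W_MP_b723a0_ag.P
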