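import Mathlib
import Pool.Agent.W_MP_b723a0_ag.P.Defs
import Pool.Agent.W_MP_b723a0_ag.P.HilBasics
import Pool.Agent.W_MP_b723a0_ag.P.PtBasics

/-!
# Task E5a: the Hilbert function of a point with one more coordinate

Write `V_m = pt.ev κ '' Sm κ N q m ⊂ K` (a finite dimensional `κ`-subspace). By `pt_mem_iff`,
`hil (pt.P κ) m = dim V_m` for every point. For `pt.snoc b` the degree is `(m, l)`; a polynomial
of degree `Fin.snoc m l` in `Sr κ N (q+1)` is `∑_{i ≤ l} emb (x_i) u^i v^{l-i}` with `x_i ∈ Sm m`,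
so `hil ((pt.snoc b).P κ) (Fin.snoc m l) = dim A_l`, `A_l = ∑_{i ≤ l} b^i V_m`.

Let `I j = {x : g^j x ∈ 𝔓 ⊔ (g^i h^{j-i} : i < j)}` with `𝔓 = pt.P κ`, so `I 0 = 𝔓`
(`colonI _ (g^j)`), a homogeneous ideal. For `x ∈ Sm m` and `j ≥ 1`:
`x ∈ I j ↔ b^j ev x ∈ A_{j-1} = ∑_{i<j} b^i V_m` [take the component of degree `m + j m₀` of
the relation; divide by `(ev h)^j`; `b = ev g / ev h`]. So `A_j / A_{j-1} ≅ V_m / (V_m ∩ b^{-j}
A_{j-1})` has dimension `hil (I j) m` (if `b = 0` and `j ≥ 1` then `g ∈ 𝔓`, `I j = ⊤`, and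
`A_j = A_{j-1}`, also fine). Summing up gives the formula. `I` is monotone:
`g^j x ∈ 𝔓 + (g^i h^{j-i})_{i<j}` implies `g^{j+1} x ∈ 𝔓 + (g^{i+1} h^{j-i})_{i<j}`.
`h ∈ I j` for `j ≥ 1`: `g^j h = g · (g^{j-1} h)`.
-/

namespace Pool.Agent.W_MP_b723a0_ag.P

section Snh

variable {κ : Type} [Field κ] {K : Type} [Field K] [Algebra κ K] {N q : ℕ}

theorem snh_finrank {V W : Type*} [AddCommGroup V] [Module κ V] [AddCommGroup W] [Module κ W]
    (f : V →ₗ[κ] W) (B : Submodule κ V) [Module.Finite κ B] :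
    Module.finrank κ (B.map f) + Module.finrank κ ↥(B ⊓ LinearMap.ker f)
      = Module.finrank κ B := by
  have h := LinearMap.finrank_range_add_finrank_ker (f.domRestrict B)
  rw [LinearMap.range_domRestrict, LinearMap.ker_domRestrict,
    ← Submodule.finrank_map_subtype_eq, Submodule.map_comap_subtype] at h
  exact h

/-- values of the forms of degree `m` -/
noncomputable def snhV (κ : Type) [Field κ] {K : Type} [Field K] [Algebra κ K] {N q : ℕ}
    (pt : Pt N q K) (m : Fin (q + 1) → ℕ) : Submodule κ K :=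
  (Sm κ N q m).map (pt.ev κ).toLinearMap

/-- `∑_{i < j} b^i V_m` -/
noncomputable def snhA (κ : Type) [Field κ] {K : Type} [Field K] [Algebra κ K] {N q : ℕ}
    (pt : Pt N q K) (b : K) (m : Fin (q + 1) → ℕ) : ℕ → Submodule κ K
  | 0 => ⊥
  | j + 1 => snhA κ pt b m j ⊔ (snhV κ pt m).map (LinearMap.mulLeft κ (b ^ j))

theorem snh_mem_A (pt : Pt N q K) (b : K) (m : Fin (q + 1) → ℕ) (j : ℕ) (z : K) :
    z ∈ snhA κ pt b m j ↔ ∃ y : ℕ → Sr κ N q, (∀ i, y i ∈ Sm κ N q m) ∧
      z = ∑ i ∈ Finset.range j, b ^ i * pt.ev κ (y i) := by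
  induction j generalizing z with
  | zero =>
    simp only [snhA, Submodule.mem_bot, Finset.range_zero, Finset.sum_empty]
    exact ⟨fun h => ⟨fun _ => 0, fun _ => Submodule.zero_mem _, h⟩, fun ⟨_, _, h⟩ => h⟩
  | succ j ih =>
    simp only [snhA, Submodule.mem_sup, Submodule.mem_map, snhV]
    constructor
    · rintro ⟨z1, hz1, z2, ⟨_, ⟨x, hx, rfl⟩, rfl⟩, rfl⟩
      obtain ⟨y, hy, rfl⟩ := (ih z1).1 hz1
      refine ⟨Function.update y j x, ?_, ?_⟩
      · intro i
        by_cases hi : i = j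
        · subst hi; rw [Function.update_self]; exact hx
        · rw [Function.update_of_ne hi]; exact hy i
      · rw [Finset.sum_range_succ, Function.update_self]
        congr 1
        refine Finset.sum_congr rfl fun i hi => ?_
        rw [Function.update_of_ne (Finset.mem_range.1 hi).ne]
    · rintro ⟨y, hy, rfl⟩
      refine ⟨_, (ih _).2 ⟨y, hy, rfl⟩, b ^ j * pt.ev κ (y j), ⟨pt.ev κ (y j), ⟨y j, hy j, rfl⟩, rfl⟩, ?_⟩
      rw [Finset.sum_range_succ]

theorem snh_fg_V (pt : Pt N q K) (m : Fin (q + 1) → ℕ) : (snhV κ pt m).FG :=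
  (Module.Finite.iff_fg.1 (finite_Sm κ N q m)).map _

theorem snh_fg_A (pt : Pt N q K) (b : K) (m : Fin (q + 1) → ℕ) (j : ℕ) :
    (snhA κ pt b m j).FG := by
  induction j with
  | zero => exact Submodule.fg_bot
  | succ j ih => exact ih.sup ((snh_fg_V pt m).map _)

theorem snh_finite_A (pt : Pt N q K) (b : K) (m : Fin (q + 1) → ℕ) (j : ℕ) :
    Module.Finite κ (snhA κ pt b m j) := Module.Finite.iff_fg.2 (snh_fg_A pt b m j)

/-- the ideal `𝔓 + (g^i h^{j-i} : i < j)` -/
noncomputable def snhJ (κ : Type) [Field κ] {K : Type} [Field K] [Algebra κ K] {N q : ℕ}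
    (pt : Pt N q K) (g h : Sr κ N q) (j : ℕ) : Ideal (Sr κ N q) :=
  pt.P κ ⊔ Ideal.span ((fun i => g ^ i * h ^ (j - i)) '' (Finset.range j : Set ℕ))

theorem snh_mem_J (pt : Pt N q K) (g h : Sr κ N q) (j : ℕ) (x : Sr κ N q) :
    x ∈ snhJ κ pt g h j ↔ ∃ y ∈ pt.P κ, ∃ c : ℕ → Sr κ N q,
      x = y + ∑ i ∈ Finset.range j, c i * (g ^ i * h ^ (j - i)) := by
  unfold snhJ
  rw [Submodule.mem_sup]
  constructor
  · rintro ⟨y, hy, z, hz, rfl⟩
    obtain ⟨c, hc⟩ := (Submodule.mem_span_image_finset_iff_exists_fun' _).1 hz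
    exact ⟨y, hy, c, by rw [← hc]; rfl⟩
  · rintro ⟨y, hy, c, rfl⟩
    exact ⟨y, hy, _, (Submodule.mem_span_image_finset_iff_exists_fun' _).2 ⟨c, rfl⟩, rfl⟩

theorem snh_pow_mem {m₀ : Fin (q + 1) → ℕ} {g h : Sr κ N q} (hg : g ∈ Sm κ N q m₀)
    (hh : h ∈ Sm κ N q m₀) {i j : ℕ} (hij : i ≤ j) :
    g ^ i * h ^ (j - i) ∈ Sm κ N q (j • m₀) := by
  have h1 : MvPolynomial.IsWeightedHomogeneous (wt N q) (g ^ i) (i • m₀) :=
    MvPolynomial.IsWeightedHomogeneous.pow hg i
  have h2 : MvPolynomial.IsWeightedHomogeneous (wt N q) (h ^ (j - i)) ((j - i) • m₀) :=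
    MvPolynomial.IsWeightedHomogeneous.pow hh (j - i)
  have h3 := h1.mul h2
  rw [← add_smul, Nat.add_sub_cancel' hij] at h3
  exact h3

theorem snh_key (pt : Pt N q K) (b : K) (m₀ : Fin (q + 1) → ℕ) (g h : Sr κ N q)
    (hg : g ∈ Sm κ N q m₀) (hh : h ∈ Sm κ N q m₀) (hh0 : pt.ev κ h ≠ 0)
    (hb : b * pt.ev κ h = pt.ev κ g) (m : Fin (q + 1) → ℕ) (j : ℕ) {x : Sr κ N q}
    (hx : x ∈ Sm κ N q m) :
    g ^ j * x ∈ snhJ κ pt g h j ↔ b ^ j * pt.ev κ x ∈ snhA κ pt b m j := by
  have hgj : g ^ j ∈ Sm κ N q (j • m₀) := by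
    have := snh_pow_mem hg hh (le_refl j)
    rwa [Nat.sub_self, pow_zero, mul_one] at this
  have hgjx : g ^ j * x ∈ Sm κ N q (m + j • m₀) := by
    rw [add_comm]
    exact MvPolynomial.IsWeightedHomogeneous.mul hgj hx
  have hpow : ∀ i, i ≤ j → ∀ y : Sr κ N q, pt.ev κ (y * (g ^ i * h ^ (j - i))) =
      pt.ev κ h ^ j * (b ^ i * pt.ev κ y) := by
    intro i hi y
    rw [map_mul, map_mul, map_pow, map_pow, ← hb, mul_pow]
    have : pt.ev κ h ^ j = pt.ev κ h ^ i * pt.ev κ h ^ (j - i) := by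
      rw [← pow_add, Nat.add_sub_cancel' hi]
    rw [this]; ring
  rw [snh_mem_J, snh_mem_A]
  constructor
  · rintro ⟨y, hy, c, hxc⟩
    refine ⟨fun i => MvPolynomial.weightedHomogeneousComponent (wt N q) m (c i),
      fun i => MvPolynomial.weightedHomogeneousComponent_mem _ _ _, ?_⟩
    have h1 := congrArg (MvPolynomial.weightedHomogeneousComponent (wt N q) (m + j • m₀)) hxc
    rw [MvPolynomial.IsWeightedHomogeneous.weightedHomogeneousComponent_same hgjx, map_add,
      map_sum] at h1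
    have h2 : ∀ i ∈ Finset.range j,
        MvPolynomial.weightedHomogeneousComponent (wt N q) (m + j • m₀)
          (c i * (g ^ i * h ^ (j - i))) =
        MvPolynomial.weightedHomogeneousComponent (wt N q) m (c i) * (g ^ i * h ^ (j - i)) := by
      intro i hi
      rw [mul_comm (c i), comp_mul (snh_pow_mem hg hh (Finset.mem_range.1 hi).le), mul_comm]
    rw [Finset.sum_congr rfl h2] at h1
    have h3 : pt.ev κ (MvPolynomial.weightedHomogeneousComponent (wt N q) (m + j • m₀) y) = 0 :=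
      (pt_mem_iff pt (MvPolynomial.weightedHomogeneousComponent_mem _ _ _)).1
        (pt_hom pt y hy _)
    have h4 := congrArg (pt.ev κ) h1
    rw [map_add, h3, zero_add, map_sum] at h4
    have h5 : pt.ev κ (g ^ j * x) = pt.ev κ h ^ j * (b ^ j * pt.ev κ x) := by
      have := hpow j le_rfl x
      rwa [Nat.sub_self, pow_zero, mul_one, mul_comm x] at this
    rw [h5, Finset.sum_congr rfl fun i hi => hpow i (Finset.mem_range.1 hi).le _,
      ← Finset.mul_sum] at h4
    exact mul_left_cancel₀ (pow_ne_zero _ hh0) h4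
  · rintro ⟨y, hy, hxy⟩
    refine ⟨g ^ j * x - ∑ i ∈ Finset.range j, y i * (g ^ i * h ^ (j - i)), ?_, y, ?_⟩
    · rw [pt_mem_iff pt (m := m + j • m₀)]
      · have h5 : pt.ev κ (g ^ j * x) = pt.ev κ h ^ j * (b ^ j * pt.ev κ x) := by
          have := hpow j le_rfl x
          rwa [Nat.sub_self, pow_zero, mul_one, mul_comm x] at this
        rw [map_sub, map_sum, h5,
          Finset.sum_congr rfl fun i hi => hpow i (Finset.mem_range.1 hi).le _,
          ← Finset.mul_sum, hxy, sub_self]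
      · refine Submodule.sub_mem _ hgjx (Submodule.sum_mem _ fun i hi => ?_)
        exact MvPolynomial.IsWeightedHomogeneous.mul (hy i)
          (snh_pow_mem hg hh (Finset.mem_range.1 hi).le)
    · ring

theorem snh_hil_eq (pt : Pt N q K) (m : Fin (q + 1) → ℕ) (b : K) (I : Ideal (Sr κ N q)) (j : ℕ)
    (hI : ∀ x ∈ Sm κ N q m, x ∈ I ↔ b ^ j * pt.ev κ x ∈ snhA κ pt b m j) :
    hil I m = (Module.finrank κ (snhA κ pt b m (j + 1)) : ℤ) -
      Module.finrank κ (snhA κ pt b m j) := by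
  have hfS := finite_Sm κ N q m
  have hfA := snh_finite_A (κ := κ) pt b m (j + 1)
  let f : Sr κ N q →ₗ[κ] K ⧸ snhA κ pt b m j :=
    (snhA κ pt b m j).mkQ ∘ₗ (LinearMap.mulLeft κ (b ^ j)) ∘ₗ (pt.ev κ).toLinearMap
  have h1 := snh_finrank f (Sm κ N q m)
  have h2 := snh_finrank (snhA κ pt b m j).mkQ (snhA κ pt b m (j + 1))
  have hmap : (snhA κ pt b m (j + 1)).map (snhA κ pt b m j).mkQ = (Sm κ N q m).map f := by
    show (snhA κ pt b m j ⊔ (snhV κ pt m).map (LinearMap.mulLeft κ (b ^ j))).map _ = _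
    rw [Submodule.map_sup, Submodule.mkQ_map_self, bot_sup_eq, snhV, ← Submodule.map_comp,
      ← Submodule.map_comp]
    rfl
  have hker : snhA κ pt b m (j + 1) ⊓ LinearMap.ker (snhA κ pt b m j).mkQ = snhA κ pt b m j := by
    rw [Submodule.ker_mkQ]
    exact inf_eq_right.2 le_sup_left
  have hker2 : Sm κ N q m ⊓ LinearMap.ker f = Sm κ N q m ⊓ I.restrictScalars κ := by
    ext x
    simp only [Submodule.mem_inf, LinearMap.mem_ker, Submodule.restrictScalars_mem]
    refine and_congr_right fun hx => ?_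
    rw [hI x hx]
    show Submodule.Quotient.mk _ = _ ↔ _
    rw [Submodule.Quotient.mk_eq_zero]
    rfl
  rw [hmap, hker] at h2
  rw [hker2] at h1
  unfold hil
  omega

/-- the last coordinate function `u` -/
noncomputable def snhU (κ : Type) [Field κ] (N q : ℕ) : Sr κ N (q + 1) :=
  MvPolynomial.X (Sum.inr (Fin.last q, false))

/-- the last coordinate function `v` -/
noncomputable def snhW (κ : Type) [Field κ] (N q : ℕ) : Sr κ N (q + 1) :=
  MvPolynomial.X (Sum.inr (Fin.last q, true))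

theorem snh_ev_U (pt : Pt N q K) (b : K) : (pt.snoc b).ev κ (snhU κ N q) = b := by
  unfold snhU Pt.ev
  rw [MvPolynomial.aeval_X]
  simp [Pt.val, Pt.snoc]

theorem snh_ev_W (pt : Pt N q K) (b : K) : (pt.snoc b).ev κ (snhW κ N q) = 1 := by
  unfold snhW Pt.ev
  rw [MvPolynomial.aeval_X]
  simp [Pt.val, Pt.snoc]

theorem snh_mem_U : snhU κ N q ∈ Sm κ N (q + 1) (Pi.single (Fin.last (q + 1)) 1) := by
  have := MvPolynomial.isWeightedHomogeneous_X κ (wt N (q + 1)) (Sum.inr (Fin.last q, false))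
  exact this

theorem snh_mem_W : snhW κ N q ∈ Sm κ N (q + 1) (Pi.single (Fin.last (q + 1)) 1) := by
  have := MvPolynomial.isWeightedHomogeneous_X κ (wt N (q + 1)) (Sum.inr (Fin.last q, true))
  exact this

/-- the inclusion of the variables -/
def snhI (N q : ℕ) : Vr N q → Vr N (q + 1) := Sum.map id (Prod.map Fin.castSucc id)

theorem snh_prod {M : Type*} [CommMonoid M] (F : Vr N (q + 1) → M) :
    ∏ x, F x = (∏ x, F (snhI N q x)) *
      (F (Sum.inr (Fin.last q, true)) * F (Sum.inr (Fin.last q, false))) := by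
  simp only [Fintype.prod_sum_type, Fintype.prod_prod_type, Fin.prod_univ_castSucc,
    Fintype.prod_bool, snhI, Sum.map_inl, Sum.map_inr, id, Prod.map, mul_assoc]

theorem snh_sum {M : Type*} [AddCommMonoid M] (F : Vr N (q + 1) → M) :
    ∑ x, F x = (∑ x, F (snhI N q x)) +
      (F (Sum.inr (Fin.last q, true)) + F (Sum.inr (Fin.last q, false))) := by
  simp only [Fintype.sum_sum_type, Fintype.sum_prod_type, Fin.sum_univ_castSucc,
    Fintype.sum_bool, snhI, Sum.map_inl, Sum.map_inr, id, Prod.map, add_assoc]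

theorem snh_gidx (x : Vr N q) : gidx (snhI N q x) = (gidx x).castSucc := by
  rcases x with j | ⟨k, c⟩
  · rfl
  · rfl

theorem snh_val (pt : Pt N q K) (b : K) (x : Vr N q) :
    (pt.snoc b).val (snhI N q x) = pt.val x := by
  rcases x with j | ⟨k, c⟩
  · rfl
  · cases c <;> simp [snhI, Pt.val, Pt.snoc]

theorem snh_weight {N q : ℕ} (d : Vr N q →₀ ℕ) (k : Fin (q + 1)) :
    Finsupp.weight (wt N q) d k = ∑ x, if gidx x = k then d x else 0 := by
  rw [hb_weight_apply]
  refine Finset.sum_subset (Finset.subset_univ _) fun x _ hx => ?_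
  rw [Finsupp.notMem_support_iff.1 hx, ite_self]

theorem snh_ev_monomial {K : Type} [Field K] [Algebra κ K] (pt : Pt N q K) (d : Vr N q →₀ ℕ)
    (c : κ) : pt.ev κ (MvPolynomial.monomial d c) = algebraMap κ K c * ∏ x, pt.val x ^ d x := by
  unfold Pt.ev
  rw [MvPolynomial.aeval_monomial, Finsupp.prod_fintype]
  intro x
  exact pow_zero _

theorem snh_V_snoc (pt : Pt N q K) (b : K) (m : Fin (q + 1) → ℕ) (l : ℕ) :
    snhV κ (pt.snoc b) (Fin.snoc m l) = snhA κ pt b m (l + 1) := by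
  apply le_antisymm
  · rintro _ ⟨f, hf, rfl⟩
    show (pt.snoc b).ev κ f ∈ _
    rw [f.as_sum, map_sum]
    refine Submodule.sum_mem _ fun d hd => ?_
    have hw : Finsupp.weight (wt N (q + 1)) d = Fin.snoc m l :=
      hf (MvPolynomial.mem_support_iff.1 hd)
    set c := MvPolynomial.coeff d f with hc
    let d' : Vr N q →₀ ℕ := Finsupp.equivFunOnFinite.symm fun x => d (snhI N q x)
    have hd' : ∀ x, d' x = d (snhI N q x) := fun x => rfl
    have hw' : Finsupp.weight (wt N q) d' = m := by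
      funext k
      have h1 := congrFun hw k.castSucc
      rw [Fin.snoc_castSucc, snh_weight, snh_sum] at h1
      rw [snh_weight, ← h1]
      have h2 : ∀ c : Bool, gidx (Sum.inr (Fin.last q, c) : Vr N (q + 1)) ≠ k.castSucc := by
        intro c
        exact (Fin.castSucc_lt_last k).ne'
      rw [if_neg (h2 _), if_neg (h2 _), add_zero, add_zero]
      refine Finset.sum_congr rfl fun x _ => ?_
      rw [snh_gidx, hd']
      simp only [Fin.castSucc_inj]
    have hl : d (Sum.inr (Fin.last q, true)) + d (Sum.inr (Fin.last q, false)) = l := by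
      have h1 := congrFun hw (Fin.last (q + 1))
      rw [Fin.snoc_last, snh_weight, snh_sum] at h1
      have h2 : ∀ c : Bool, gidx (Sum.inr (Fin.last q, c) : Vr N (q + 1)) = Fin.last (q + 1) :=
        fun c => rfl
      rw [if_pos (h2 _), if_pos (h2 _)] at h1
      have h3 : ∑ x, (if gidx (snhI N q x) = Fin.last (q + 1) then d (snhI N q x) else 0) = 0 := by
        refine Finset.sum_eq_zero fun x _ => ?_
        rw [snh_gidx, if_neg (Fin.castSucc_lt_last _).ne]
      rw [h3, zero_add] at h1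
      exact h1
    rw [snh_mem_A]
    refine ⟨fun i => if i = d (Sum.inr (Fin.last q, false)) then MvPolynomial.monomial d' c
      else 0, ?_, ?_⟩
    · intro i
      dsimp only
      split_ifs
      · exact MvPolynomial.isWeightedHomogeneous_monomial _ _ _ hw'
      · exact Submodule.zero_mem _
    · rw [Finset.sum_eq_single (d (Sum.inr (Fin.last q, false)))]
      · dsimp only
        rw [if_pos rfl, snh_ev_monomial, snh_ev_monomial, snh_prod]
        have h1 : (pt.snoc b).val (Sum.inr (Fin.last q, true)) = 1 := by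
          simp [Pt.val, Pt.snoc]
        have h2 : (pt.snoc b).val (Sum.inr (Fin.last q, false)) = b := by
          simp [Pt.val, Pt.snoc]
        rw [h1, h2, one_pow, one_mul]
        simp only [snh_val, hd']
        ring
      · intro i _ hi
        dsimp only
        rw [if_neg hi, map_zero, mul_zero]
      · intro h
        exfalso
        apply h
        rw [Finset.mem_range]
        omega
  · intro z hz
    obtain ⟨y, hy, rfl⟩ := (snh_mem_A pt b m (l + 1) z).1 hz
    refine Submodule.sum_mem _ fun i hi => ?_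
    have hi' : i ≤ l := Nat.lt_succ_iff.1 (Finset.mem_range.1 hi)
    refine ⟨emb κ N q (y i) * (snhU κ N q ^ i * snhW κ N q ^ (l - i)), ?_, ?_⟩
    · have h1 := emb_mem (hy i)
      have h2 : MvPolynomial.IsWeightedHomogeneous (wt N (q + 1)) (snhU κ N q ^ i)
          (i • Pi.single (Fin.last (q + 1)) 1) :=
        MvPolynomial.IsWeightedHomogeneous.pow snh_mem_U i
      have h3 : MvPolynomial.IsWeightedHomogeneous (wt N (q + 1)) (snhW κ N q ^ (l - i))
          ((l - i) • Pi.single (Fin.last (q + 1)) 1) :=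
        MvPolynomial.IsWeightedHomogeneous.pow snh_mem_W (l - i)
      have h4 := MvPolynomial.IsWeightedHomogeneous.mul h1 (h2.mul h3)
      rw [← add_smul, Nat.add_sub_cancel' hi'] at h4
      have h5 : (Fin.snoc m 0 : Fin (q + 2) → ℕ) + l • Pi.single (Fin.last (q + 1)) 1
          = Fin.snoc m l := by
        funext k
        refine Fin.lastCases ?_ (fun k => ?_) k
        · simp
        · simp [(Fin.castSucc_lt_last k).ne]
      rw [h5] at h4
      exact h4
    · show (pt.snoc b).ev κ _ = _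
      rw [map_mul, map_mul, map_pow, map_pow, snh_ev_U, snh_ev_W, one_pow, mul_one, ev_snoc_emb,
        mul_comm]

end Snh

theorem hil_snoc {κ : Type} [Field κ] {K : Type} [Field K] [Algebra κ K] {N q : ℕ}
    (pt : Pt N q K) (b : K) (m₀ : Fin (q + 1) → ℕ) (g h : Sr κ N q) (hg : g ∈ Sm κ N q m₀)
    (hh : h ∈ Sm κ N q m₀) (hh0 : pt.ev κ h ≠ 0) (hb : b * pt.ev κ h = pt.ev κ g) :
    ∃ I : ℕ → Ideal (Sr κ N q), I 0 = pt.P κ ∧ (∀ j, HomI (I j)) ∧ Monotone I ∧
      (∀ j, 1 ≤ j → h ∈ I j) ∧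
      ∀ (m : Fin (q + 1) → ℕ) (l : ℕ), hil ((pt.snoc b).P κ) (Fin.snoc m l) =
        ∑ j ∈ Finset.range (l + 1), hil (I j) m := by
  have hgj : ∀ j : ℕ, g ^ j ∈ Sm κ N q (j • m₀) := fun j =>
    MvPolynomial.IsWeightedHomogeneous.pow hg j
  have hmulg : ∀ (j : ℕ) (x : Sr κ N q), x ∈ snhJ κ pt g h j → g * x ∈ snhJ κ pt g h (j + 1) := by
    intro j x hx
    have hle : snhJ κ pt g h j ≤ colonI (snhJ κ pt g h (j + 1)) g := by
      unfold snhJ
      refine sup_le ?_ (Ideal.span_le.2 ?_)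
      · intro y hy
        exact Ideal.mul_mem_left _ _ (Ideal.mem_sup_left hy)
      · rintro _ ⟨i, hi, rfl⟩
        have hi' : i < j := by simpa using hi
        show g * (g ^ i * h ^ (j - i)) ∈ pt.P κ ⊔
          Ideal.span ((fun i => g ^ i * h ^ (j + 1 - i)) '' (Finset.range (j + 1) : Set ℕ))
        apply Ideal.mem_sup_right
        apply Ideal.subset_span
        refine ⟨i + 1, by simpa using hi', ?_⟩
        show g ^ (i + 1) * h ^ (j + 1 - (i + 1)) = _
        rw [Nat.add_sub_add_right, pow_succ]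
        ring
    exact hle hx
  refine ⟨fun j => colonI (snhJ κ pt g h j) (g ^ j), ?_, ?_, ?_, ?_, ?_⟩
  · ext x
    show g ^ 0 * x ∈ snhJ κ pt g h 0 ↔ _
    simp [snhJ]
  · intro j
    refine homI_colon ?_ (hgj j)
    refine homI_sup (pt_hom pt) (homI_span _ ?_)
    rintro _ ⟨i, hi, rfl⟩
    have hi' : i < j := by simpa using hi
    exact ⟨_, snh_pow_mem hg hh hi'.le⟩
  · refine monotone_nat_of_le_succ fun j x hx => ?_
    show g ^ (j + 1) * x ∈ snhJ κ pt g h (j + 1)
    have h1 := hmulg j _ hx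
    rwa [← mul_assoc, ← pow_succ'] at h1
  · intro j hj
    obtain ⟨j, rfl⟩ : ∃ j', j = j' + 1 := ⟨j - 1, by omega⟩
    show g ^ (j + 1) * h ∈ snhJ κ pt g h (j + 1)
    have h1 : g ^ (j + 1) * h = g * (g ^ j * h ^ (j + 1 - j)) := by
      rw [Nat.add_sub_cancel_left, pow_one]; ring
    rw [h1]
    apply Ideal.mul_mem_left
    apply Ideal.mem_sup_right
    apply Ideal.subset_span
    exact ⟨j, by simp, rfl⟩
  · intro m l
    have h1 : hil ((pt.snoc b).P κ) (Fin.snoc m l) =
        Module.finrank κ (snhV κ (pt.snoc b) (Fin.snoc m l)) := by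
      have hfS := finite_Sm κ N (q + 1) (Fin.snoc m l)
      have h2 := snh_finrank ((pt.snoc b).ev κ).toLinearMap (Sm κ N (q + 1) (Fin.snoc m l))
      have h3 : Sm κ N (q + 1) (Fin.snoc m l) ⊓ LinearMap.ker ((pt.snoc b).ev κ).toLinearMap =
          Sm κ N (q + 1) (Fin.snoc m l) ⊓ ((pt.snoc b).P κ).restrictScalars κ := by
        ext x
        simp only [Submodule.mem_inf, LinearMap.mem_ker, Submodule.restrictScalars_mem]
        exact and_congr_right fun hx => (pt_mem_iff (pt.snoc b) hx).symm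
      rw [h3] at h2
      unfold hil snhV
      omega
    rw [h1, snh_V_snoc]
    have h4 : ∀ j, hil (colonI (snhJ κ pt g h j) (g ^ j)) m =
        (Module.finrank κ (snhA κ pt b m (j + 1)) : ℤ) - Module.finrank κ (snhA κ pt b m j) :=
      fun j => snh_hil_eq pt m b _ j fun x hx => snh_key pt b m₀ g h hg hh hh0 hb m j hx
    simp only [h4]
    rw [Finset.sum_range_sub (fun j => (Module.finrank κ (snhA κ pt b m j) : ℤ))]
    have h5 : Module.finrank κ (snhA κ pt b m 0) = 0 := by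
      show Module.finrank κ (⊥ : Submodule κ K) = 0
      exact finrank_bot κ K
    rw [h5]
    simp

end Pool.Agent.W_MP_b723a0_ag.P
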