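import Mathlib
import Pool.Agent.W_MP_b723a0_ag.P.Defs
import Pool.Agent.W_MP_b723a0_ag.P.HilBasics
import Pool.Agent.W_MP_b723a0_ag.P.PtBasics
import Pool.Agent.W_MP_b723a0_ag.P.Devissage
import Pool.Agent.W_MP_b723a0_ag.P.SnocHil

/-!
# Task E5b: going back from `pt.snoc b` to `pt`

`kill_of_snoc`. By `Gen`, `b = ev g / ev h` with `g, h` homogeneous of the same degree. Take `I j`
from `hil_snoc`. The sequence `I j` is monotone and stabilises (Noetherian ring). For `j ≥ 1`,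
`I j ≥ I 0 = pt.P κ` contains `h ∉ pt.P κ`, so every homogeneous prime containing `I j` is
strictly larger than `pt.P κ`; by `devissage` and `h1`, `Kill p r (I j)`. As there are only
finitely many different `I j`, one bound `B` works for all `j ≥ 1`. Let `l` be larger than the
bound `B'` of `Kill p r ((pt.snoc b).P κ)`. For `m ≥ max B B'`, apply `fwd^[r]` at `Fin.snoc m l`
(note `Fin.snoc m l + e0 (q+1) = Fin.snoc (m + e0 q) l`):
`0 = fwd^[r] (hil (pt.snoc b).P) (snoc m l) = ∑_{j ≤ l} fwd^[r] (hil (I j)) m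
  = fwd^[r] (hil pt.P) m`.

`kill_of_ext`: induction on `Ext`, using `kill_of_snoc` and `ext_gen`.
-/

namespace Pool.Agent.W_MP_b723a0_ag.P

theorem sk_snoc_add {q : ℕ} (m : Fin (q + 1) → ℕ) (l : ℕ) :
    (Fin.snoc m l : Fin (q + 2) → ℕ) + e0 (q + 1) = Fin.snoc (m + e0 q) l := by
  funext k
  refine Fin.lastCases ?_ (fun k => ?_) k
  · rw [Pi.add_apply, Fin.snoc_last, Fin.snoc_last]
    unfold e0
    rw [Pi.single_eq_of_ne (Fin.last_pos (n := q)).ne', add_zero]
  · rw [Pi.add_apply, Fin.snoc_castSucc, Fin.snoc_castSucc, Pi.add_apply]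
    unfold e0
    congr 1
    by_cases hk : k = 0
    · subst hk
      rw [Pi.single_eq_same, Fin.castSucc_zero, Pi.single_eq_same]
    · rw [Pi.single_eq_of_ne hk, Pi.single_eq_of_ne]
      intro h
      exact hk (Fin.castSucc_injective _ (by rw [h]; rfl))

theorem sk_fwd_iter {A : Type*} [AddCommGroup A] {q : ℕ} (l : ℕ) (s : Finset ℕ) (r : ℕ) :
    ∀ (f' : (Fin (q + 2) → ℕ) → A) (f : ℕ → (Fin (q + 1) → ℕ) → A),
      (∀ m, f' (Fin.snoc m l) = ∑ j ∈ s, f j m) →
      ∀ m, fwd^[r] f' (Fin.snoc m l) = ∑ j ∈ s, fwd^[r] (f j) m := by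
  induction r with
  | zero => intro f' f h m; exact h m
  | succ r ih =>
    intro f' f h m
    rw [Function.iterate_succ_apply]
    rw [ih (fwd f') (fun j => fwd (f j)) ?_ m]
    · rfl
    · intro m'
      unfold fwd
      rw [sk_snoc_add, h, h, ← Finset.sum_sub_distrib]

theorem kill_of_snoc {p : ℕ} {κ : Type} [Field κ] {K : Type} [Field K] [Algebra κ K] {N q r : ℕ}
    (pt : Pt N q K) (hG : pt.Gen κ) (b : K)
    (h1 : ∀ 𝔮 : Ideal (Sr κ N q), 𝔮.IsPrime → HomI 𝔮 → pt.P κ < 𝔮 → Kill p r 𝔮)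
    (h2 : Kill p r ((pt.snoc b).P κ)) : Kill p r (pt.P κ) := by
  classical
  obtain ⟨m₀, g, h, hg, hh, hh0, hb⟩ := hG b
  obtain ⟨I, hI0, hIh, hImono, hIh', hIsum⟩ := hil_snoc pt b m₀ g h hg hh hh0 hb
  have hnot : h ∉ pt.P κ := fun hc => hh0 ((pt_mem_iff pt hh).1 hc)
  have hkill : ∀ j, 1 ≤ j → Kill p r (I j) := by
    intro j hj
    apply devissage r (hIh j)
    intro 𝔮 h𝔮 h𝔮h hle
    apply h1 𝔮 h𝔮 h𝔮h
    refine lt_of_le_of_ne ?_ ?_
    · rw [← hI0]
      exact (hImono (Nat.zero_le j)).trans hle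
    · intro he
      apply hnot
      rw [he]
      exact hle (hIh' j hj)
  obtain ⟨n, hn⟩ := monotone_stabilizes_iff_noetherian.2
    (inferInstance : IsNoetherian (Sr κ N q) (Sr κ N q)) ⟨I, hImono⟩
  have hn' : ∀ m, n ≤ m → I n = I m := hn
  -- a uniform bound
  have hunif : ∃ B : ℕ, ∀ j, 1 ≤ j → ∀ m : Fin (q + 1) → ℕ, (∀ k, B ≤ m k) →
      (fwd^[r] (fun m => ((hil (I j) m : ℤ) : ZMod p))) m = 0 := by
    choose! B hB using hkill
    refine ⟨(Finset.range (n + 2)).sup B, ?_⟩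
    intro j hj m hm
    by_cases hjn : j < n + 2
    · exact hB j hj m (fun k => (Finset.le_sup (f := B) (Finset.mem_range.2 hjn)).trans (hm k))
    · have h3 : I j = I (n + 1) := by
        rw [← hn' j (by omega), ← hn' (n + 1) (by omega)]
      rw [h3]
      exact hB (n + 1) (by omega) m
        (fun k => (Finset.le_sup (f := B) (Finset.mem_range.2 (by omega))).trans (hm k))
  obtain ⟨B, hB⟩ := hunif
  obtain ⟨B', hB'⟩ := h2
  refine ⟨max B B', ?_⟩
  intro m hm
  have h4 := hB' (Fin.snoc m B') (by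
    intro k
    refine Fin.lastCases ?_ (fun k => ?_) k
    · rw [Fin.snoc_last]
    · rw [Fin.snoc_castSucc]
      exact (le_max_right _ _).trans (hm k))
  rw [sk_fwd_iter B' (Finset.range (B' + 1)) r
    (fun m => ((hil ((pt.snoc b).P κ) m : ℤ) : ZMod p))
    (fun j m => ((hil (I j) m : ℤ) : ZMod p)) (by
      intro m'
      rw [hIsum, Int.cast_sum]) m, Finset.sum_range_succ'] at h4
  rw [Finset.sum_eq_zero (fun j _ => hB (j + 1) (by omega) m
    (fun k => (le_max_left _ _).trans (hm k))), zero_add, hI0] at h4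
  exact h4

theorem kill_of_ext {p : ℕ} {κ : Type} [Field κ] {K : Type} [Field K] [Algebra κ K]
    {N q q'' r : ℕ} {pt : Pt N q K} {pt'' : Pt N q'' K} (hext : Ext pt pt'') (hG : pt.Gen κ)
    (h1 : ∀ (q' : ℕ) (pt' : Pt N q' K), Ext pt pt' → ∀ 𝔮 : Ideal (Sr κ N q'), 𝔮.IsPrime →
      HomI 𝔮 → pt'.P κ < 𝔮 → Kill p r 𝔮)
    (h2 : Kill p r (pt''.P κ)) : Kill p r (pt.P κ) := by
  revert hG h1 h2
  induction hext with
  | refl pt => intro _ _ h2; exact h2
  | snoc h b ih =>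
    intro hG h1 h2
    exact ih hG h1 (kill_of_snoc _ (ext_gen h hG) b (h1 _ _ h) h2)

end Pool.Agent.W_MP_b723a0_ag.P
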