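import Mathlib
import Pool.Agent.W_MP_b723a0_ag.P.Defs
import Pool.Agent.W_MP_b723a0_ag.P.HilBasics
import Pool.Agent.W_MP_b723a0_ag.P.PtBasics

/-!
# Task E8: transcendence degrees drop

`exists_trLe`: by `Gen`, `K` is generated as a field over `κ` by the coordinates `pt.val x`
(a finite set), so its transcendence degree is finite, and bounds the size of every algebraically
independent family.

`trLe_lt`: let `𝔓 = pt.P < 𝔓' = pt'.P` and let `x_1, ..., x_n ∈ K'` be algebraically independent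
over `κ`. Claim `n + 1 ≤ δ`; then `δ' = δ - 1` works (take `n = 0` to see `1 ≤ δ`).
By `Gen` for `pt'` write `x_i = ev' g_i / ev' h_i`, `g_i, h_i ∈ Sm m_i`, `ev' h_i ≠ 0`. As
`𝔓 ≤ 𝔓'`, `ev h_i ≠ 0`; let `y_i = ev g_i / ev h_i ∈ K`. Choose `w ∈ 𝔓' ∖ 𝔓` homogeneous of
degree `m'` (a component of an element of `𝔓' ∖ 𝔓`), and `t` a monomial of degree `m'` in
variables which are nonzero at `pt'` (`pt'.hz`, `pt'.huv`), so `ev' t ≠ 0`, `ev t ≠ 0`; let
`y_{n+1} = ev w / ev t ≠ 0`. Then `y_1, ..., y_{n+1}` are algebraically independent: let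
`F(y_1, ..., y_{n+1}) = 0` with `F ≠ 0`; dividing by a power of the last variable (`y_{n+1} ≠ 0`)
we may assume that `F(T_1, ..., T_n, 0) ≠ 0`. Multiplying by large powers of the `h_i` and `t`
(homogenise: `∏ h_i^D t^D F(g_1/h_1, ..., w/t)` is a homogeneous form `Φ` of degree
`∑ D m_i + D m'`, with `ev Φ = (∏ (ev h_i)^D (ev t)^D) F(y) = 0`), `Φ ∈ 𝔓 ≤ 𝔓'`, hence
`F(x_1, ..., x_n, 0) = 0` (`ev' w = 0`): contradiction with the independence of the `x_i`.

(Another way to organise this: `O = {ev g / ev h : g, h ∈ Sm m, h ∉ 𝔓'}` is a `κ`-subalgebra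
of `K` with a `κ`-algebra homomorphism `O → K'`, `ev g / ev h ↦ ev' g / ev' h`, which is
surjective by `Gen` and whose kernel is not zero.)
-/

namespace Pool.Agent.W_MP_b723a0_ag.P

theorem exists_trLe {κ : Type} [Field κ] {K : Type} [Field K] [Algebra κ K] {N q : ℕ}
    (pt : Pt N q K) (hG : pt.Gen κ) : ∃ δ, TrLe κ K δ := by
  classical
  have hmem : ∀ g : Sr κ N q, pt.ev κ g ∈ Algebra.adjoin κ (Set.range pt.val) := by
    intro g
    rw [Algebra.adjoin_range_eq_range_aeval]
    exact ⟨g, rfl⟩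
  have halg : Algebra.IsAlgebraic (Algebra.adjoin κ (Set.range pt.val)) K := by
    refine ⟨fun x => ?_⟩
    obtain ⟨m, g, h, hg, hh, hne, hx⟩ := hG x
    refine ⟨Polynomial.C (⟨pt.ev κ h, hmem h⟩ : Algebra.adjoin κ (Set.range pt.val)) *
      Polynomial.X - Polynomial.C ⟨pt.ev κ g, hmem g⟩, ?_, ?_⟩
    · intro h0
      have h1 := congrArg (fun P => Polynomial.coeff P 1) h0
      simp only [Polynomial.coeff_sub, Polynomial.coeff_C_mul, Polynomial.coeff_X_one, mul_one,
        Polynomial.coeff_C_succ, sub_zero, Polynomial.coeff_zero] at h1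
      exact hne (congrArg Subtype.val h1)
    · rw [map_sub, map_mul, Polynomial.aeval_C, Polynomial.aeval_X, Polynomial.aeval_C]
      show pt.ev κ h * x - pt.ev κ g = 0
      rw [← hx, mul_comm, sub_self]
  have hle := Algebra.IsAlgebraic.trdeg_le_cardinalMk κ (Set.range pt.val)
  have hfin : Cardinal.mk (Set.range pt.val) < Cardinal.aleph0 := Cardinal.lt_aleph0_of_finite _
  have htr : Algebra.trdeg κ K < Cardinal.aleph0 := lt_of_le_of_lt hle hfin
  obtain ⟨δ, hδ⟩ := Cardinal.lt_aleph0.1 htr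
  refine ⟨δ, fun n x hx => ?_⟩
  have h1 := hx.lift_cardinalMk_le_trdeg
  rw [hδ] at h1
  simpa using h1

/-- Pairs of values `(g/h, g'/h')` at two points. -/
def td_pairs (κ : Type) [Field κ] {K : Type} [Field K] [Algebra κ K] {K' : Type} [Field K']
    [Algebra κ K'] {N q : ℕ} (pt : Pt N q K) (pt' : Pt N q K')
    (hne : ∀ (m : Fin (q + 1) → ℕ) (h : Sr κ N q), h ∈ Sm κ N q m → pt'.ev κ h ≠ 0 →
      pt.ev κ h ≠ 0) : Subalgebra κ (K × K') where
  carrier := {y | ∃ (m : Fin (q + 1) → ℕ) (g h : Sr κ N q), g ∈ Sm κ N q m ∧ h ∈ Sm κ N q m ∧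
    pt'.ev κ h ≠ 0 ∧ y.1 * pt.ev κ h = pt.ev κ g ∧ y.2 * pt'.ev κ h = pt'.ev κ g}
  mul_mem' := by
    rintro ⟨a, a'⟩ ⟨b, b'⟩ ⟨m, g, h, hg, hh, h0, h1, h2⟩ ⟨n, g', h', hg', hh', h0', h1', h2'⟩
    refine ⟨m + n, g * g', h * h', MvPolynomial.IsWeightedHomogeneous.mul hg hg',
      MvPolynomial.IsWeightedHomogeneous.mul hh hh', ?_, ?_, ?_⟩
    · rw [map_mul]; exact mul_ne_zero h0 h0'
    · rw [map_mul, map_mul, ← h1, ← h1']
      show a * b * _ = _
      simp only
      ring
    · rw [map_mul, map_mul, ← h2, ← h2']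
      show a' * b' * _ = _
      simp only
      ring
  add_mem' := by
    rintro ⟨a, a'⟩ ⟨b, b'⟩ ⟨m, g, h, hg, hh, h0, h1, h2⟩ ⟨n, g', h', hg', hh', h0', h1', h2'⟩
    refine ⟨m + n, g * h' + h * g', h * h', (Sm κ N q (m + n)).add_mem
      (MvPolynomial.IsWeightedHomogeneous.mul hg hh')
      (MvPolynomial.IsWeightedHomogeneous.mul hh hg'),
      MvPolynomial.IsWeightedHomogeneous.mul hh hh', ?_, ?_, ?_⟩
    · rw [map_mul]; exact mul_ne_zero h0 h0'
    · rw [map_mul, map_add, map_mul, map_mul, ← h1, ← h1']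
      show (a + b) * _ = _
      simp only
      ring
    · rw [map_mul, map_add, map_mul, map_mul, ← h2, ← h2']
      show (a' + b') * _ = _
      simp only
      ring
  algebraMap_mem' := by
    intro r
    refine ⟨0, MvPolynomial.C r, 1, MvPolynomial.isWeightedHomogeneous_C _ r,
      MvPolynomial.isWeightedHomogeneous_one _ _, ?_, ?_, ?_⟩
    · rw [map_one]; exact one_ne_zero
    · rw [map_one, mul_one]
      show algebraMap κ K r = MvPolynomial.aeval _ _
      rw [MvPolynomial.aeval_C]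
    · rw [map_one, mul_one]
      show algebraMap κ K' r = MvPolynomial.aeval _ _
      rw [MvPolynomial.aeval_C]

theorem td_exists_mono {κ : Type} [Field κ] {K : Type} [Field K] [Algebra κ K] {N q : ℕ}
    (pt : Pt N q K) (m : Fin (q + 1) → ℕ) :
    ∃ t : Sr κ N q, t ∈ Sm κ N q m ∧ pt.ev κ t ≠ 0 := by
  classical
  have hx : ∀ k : Fin (q + 1), ∃ x : Vr N q, gidx x = k ∧ pt.val x ≠ 0 := by
    intro k
    refine Fin.cases ?_ (fun k => ?_) k
    · obtain ⟨j, hj⟩ := pt.hz
      exact ⟨Sum.inl j, rfl, hj⟩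
    · rcases pt.huv k with h | h
      · exact ⟨Sum.inr (k, false), rfl, by simpa [Pt.val] using h⟩
      · exact ⟨Sum.inr (k, true), rfl, by simpa [Pt.val] using h⟩
  choose x hx1 hx2 using hx
  refine ⟨∏ k, MvPolynomial.X (x k) ^ m k, ?_, ?_⟩
  · have h1 : MvPolynomial.IsWeightedHomogeneous (wt N q)
        (∏ k, (MvPolynomial.X (x k) : Sr κ N q) ^ m k) (∑ k, m k • wt N q (x k)) := by
      refine MvPolynomial.IsWeightedHomogeneous.prod Finset.univ _ _ fun k _ => ?_
      exact (MvPolynomial.isWeightedHomogeneous_X κ (wt N q) (x k)).pow (m k)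
    have h2 : (∑ k, m k • wt N q (x k)) = m := by
      ext l
      rw [Finset.sum_apply, Finset.sum_eq_single l]
      · show m l • (wt N q (x l) l) = m l
        unfold wt
        rw [hx1 l, Pi.single_eq_same, smul_eq_mul, mul_one]
      · intro k _ hk
        show m k • (wt N q (x k) l) = 0
        unfold wt
        rw [hx1 k, Pi.single_eq_of_ne (Ne.symm hk), smul_zero]
      · intro h; exact absurd (Finset.mem_univ _) h
    rw [h2] at h1
    exact h1
  · rw [map_prod, Finset.prod_ne_zero_iff]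
    intro k _
    rw [map_pow]
    refine pow_ne_zero _ ?_
    show MvPolynomial.aeval pt.val (MvPolynomial.X (x k)) ≠ 0
    rw [MvPolynomial.aeval_X]
    exact hx2 k

theorem trLe_lt {κ : Type} [Field κ] {K : Type} [Field K] [Algebra κ K] {K' : Type} [Field K']
    [Algebra κ K'] {N q : ℕ} (pt : Pt N q K) (pt' : Pt N q K') (hG' : pt'.Gen κ)
    (hlt : pt.P κ < pt'.P κ) {δ : ℕ} (h : TrLe κ K δ) : ∃ δ', δ' < δ ∧ TrLe κ K' δ' := by
  classical
  have hne : ∀ (m : Fin (q + 1) → ℕ) (h : Sr κ N q), h ∈ Sm κ N q m → pt'.ev κ h ≠ 0 →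
      pt.ev κ h ≠ 0 := by
    intro m h hh h1 h2
    exact h1 ((pt_mem_iff pt' hh).1 (hlt.le ((pt_mem_iff pt hh).2 h2)))
  set Γ := td_pairs κ pt pt' hne with hΓ
  -- the first projection is injective
  have hinj : ∀ y ∈ Γ, y.1 = 0 → y.2 = 0 := by
    rintro ⟨y, y'⟩ ⟨m, g, h, hg, hh, h0, h1, h2⟩ hy
    simp only at hy h1 h2 ⊢
    rw [hy, zero_mul] at h1
    have h3 : pt'.ev κ g = 0 := (pt_mem_iff pt' hg).1 (hlt.le ((pt_mem_iff pt hg).2 h1.symm))
    rw [h3] at h2
    exact (mul_eq_zero.1 h2).resolve_right h0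
  -- the second is surjective
  have hsurj : ∀ x : K', ∃ y : K, (y, x) ∈ Γ := by
    intro x
    obtain ⟨m, g, h, hg, hh, h0, h1⟩ := hG' x
    refine ⟨pt.ev κ g / pt.ev κ h, m, g, h, hg, hh, h0, ?_, h1⟩
    exact div_mul_cancel₀ _ (hne m h hh h0)
  -- a nonzero element of the kernel
  obtain ⟨y0, hy0, hy0Γ⟩ : ∃ y : K, y ≠ 0 ∧ (y, (0 : K')) ∈ Γ := by
    obtain ⟨w0, hw0, hw0'⟩ := Set.exists_of_ssubset hlt
    have h1 : ∃ m, MvPolynomial.weightedHomogeneousComponent (wt N q) m w0 ∉ pt.P κ := by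
      by_contra hcon
      push Not at hcon
      apply hw0'
      rw [← MvPolynomial.sum_weightedHomogeneousComponent (wt N q) w0,
        finsum_eq_sum _ (MvPolynomial.weightedHomogeneousComponent_finsupp w0)]
      exact (pt.P κ).sum_mem fun m _ => hcon m
    obtain ⟨m, hm⟩ := h1
    have hw : MvPolynomial.weightedHomogeneousComponent (wt N q) m w0 ∈ Sm κ N q m :=
      MvPolynomial.weightedHomogeneousComponent_isWeightedHomogeneous _ _
    have hw' : MvPolynomial.weightedHomogeneousComponent (wt N q) m w0 ∈ pt'.P κ :=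
      pt_hom pt' w0 hw0 m
    obtain ⟨t, ht, ht0⟩ := td_exists_mono (κ := κ) pt' m
    refine ⟨pt.ev κ (MvPolynomial.weightedHomogeneousComponent (wt N q) m w0) / pt.ev κ t,
      div_ne_zero (fun h0 => hm ((pt_mem_iff pt hw).2 h0)) (hne m t ht ht0),
      m, _, t, hw, ht, ht0, div_mul_cancel₀ _ (hne m t ht ht0), ?_⟩
    show (0 : K') * _ = _
    rw [zero_mul]
    exact ((pt_mem_iff pt' hw).1 hw').symm
  have key : ∀ (n : ℕ) (x : Fin n → K'), AlgebraicIndependent κ x → n + 1 ≤ δ := by
    intro n x hx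
    choose y hy using fun i => hsurj (x i)
    have hlift : ∀ F : MvPolynomial (Fin n) κ,
        (MvPolynomial.aeval y F, MvPolynomial.aeval x F) ∈ Γ := by
      intro F
      have h2 := (MvPolynomial.aeval (fun i => (⟨(y i, x i), hy i⟩ : Γ)) F).2
      have h3 : ((MvPolynomial.aeval (fun i => (⟨(y i, x i), hy i⟩ : Γ)) F : Γ) : K × K') =
          (MvPolynomial.aeval y F, MvPolynomial.aeval x F) := by
        have e1 : ((MvPolynomial.aeval (fun i => (⟨(y i, x i), hy i⟩ : Γ)) F : Γ) : K × K').1 =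
            MvPolynomial.aeval y F := by
          have e := congrArg (fun f => f F) (MvPolynomial.comp_aeval
            (fun i => (⟨(y i, x i), hy i⟩ : Γ)) ((AlgHom.fst κ K K').comp Γ.val))
          exact e
        have e2 : ((MvPolynomial.aeval (fun i => (⟨(y i, x i), hy i⟩ : Γ)) F : Γ) : K × K').2 =
            MvPolynomial.aeval x F := by
          have e := congrArg (fun f => f F) (MvPolynomial.comp_aeval
            (fun i => (⟨(y i, x i), hy i⟩ : Γ)) ((AlgHom.snd κ K K').comp Γ.val))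
          exact e
        exact Prod.ext e1 e2
      rw [h3] at h2
      exact h2
    have hyind : AlgebraicIndependent κ y := by
      rw [algebraicIndependent_iff]
      intro F hF
      have h1 := hinj _ (hlift F) hF
      exact (algebraicIndependent_iff.1 hx) F h1
    have htr : Transcendental (Algebra.adjoin κ (Set.range y)) y0 := by
      intro halg
      obtain ⟨P, hP0, hP⟩ := halg.exists_nonzero_coeff_and_aeval_eq_zero
        (mem_nonZeroDivisors_of_ne_zero hy0)
      have hF : ∀ a : Algebra.adjoin κ (Set.range y), ∃ F : MvPolynomial (Fin n) κ,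
          MvPolynomial.aeval y F = (a : K) := by
        rintro ⟨a, ha⟩
        rw [Algebra.adjoin_range_eq_range_aeval] at ha
        exact ha
      choose F hF using hF
      -- the element `∑ F_i (y_0, 0)^i` of `Γ`
      have hmem : (∑ i ∈ P.support, (MvPolynomial.aeval y (F (P.coeff i)),
          MvPolynomial.aeval x (F (P.coeff i))) * ((y0, (0 : K')) : K × K') ^ i) ∈ Γ :=
        Γ.sum_mem fun i _ => Γ.mul_mem (hlift _) (Γ.pow_mem hy0Γ i)
      have h1 : (∑ i ∈ P.support, (MvPolynomial.aeval y (F (P.coeff i)),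
          MvPolynomial.aeval x (F (P.coeff i))) * ((y0, (0 : K')) : K × K') ^ i).1 = 0 := by
        rw [Prod.fst_sum]
        rw [Polynomial.aeval_eq_sum_range] at hP
        rw [← hP]
        rw [Finset.sum_subset (s₁ := P.support) (s₂ := Finset.range (P.natDegree + 1))]
        · refine Finset.sum_congr rfl fun i _ => ?_
          rw [Prod.fst_mul, Prod.pow_fst, Algebra.smul_def, hF]
          rfl
        · intro i hi
          exact Finset.mem_range.2 (Nat.lt_succ_of_le (Polynomial.le_natDegree_of_mem_supp i hi))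
        · intro i _ hi
          rw [Prod.fst_mul]
          simp only [hF]
          rw [Polynomial.notMem_support_iff.1 hi]
          simp
      have h2 := hinj _ hmem h1
      have h0s : (0 : ℕ) ∈ P.support := Polynomial.mem_support_iff.2 hP0
      rw [Prod.snd_sum, Finset.sum_eq_single_of_mem 0 h0s] at h2
      · rw [pow_zero, mul_one] at h2
        have h3 : F (P.coeff 0) = 0 := (algebraicIndependent_iff.1 hx) _ h2
        apply hP0
        have h4 := hF (P.coeff 0)
        rw [h3, map_zero] at h4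
        exact Subtype.ext h4.symm
      · intro i _ hi
        rw [Prod.snd_mul, Prod.pow_snd, zero_pow hi, mul_zero]
    have hopt := (hyind.option_iff_transcendental y0).2 htr
    have hfin : AlgebraicIndependent κ ((fun o : Option (Fin n) => o.elim y0 y) ∘
        (finSuccEquiv n)) := hopt.comp _ (finSuccEquiv n).injective
    exact h (n + 1) _ hfin
  have h0 : 1 ≤ δ := by
    have := key 0 (fun i => i.elim0) (by
      rw [algebraicIndependent_empty_type_iff]
      exact (algebraMap κ K').injective)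
    simpa using this
  exact ⟨δ - 1, by omega, fun n x hx => by have := key n x hx; omega⟩

end Pool.Agent.W_MP_b723a0_ag.P
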