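import Mathlib
import Pool.Agent.W_MP_b723a0_ag.Defs
import Pool.Agent.W_MP_b723a0_ag.Kap
import Pool.Agent.W_MP_b723a0_ag.P.Defs
import Pool.Agent.W_MP_b723a0_ag.P.HilBasics
import Pool.Agent.W_MP_b723a0_ag.P.PtBasics
import Pool.Agent.W_MP_b723a0_ag.P.ArtinSchreier
import Pool.Agent.W_MP_b723a0_ag.P.Devissage
import Pool.Agent.W_MP_b723a0_ag.P.SectionStep
import Pool.Agent.W_MP_b723a0_ag.P.StableStep
import Pool.Agent.W_MP_b723a0_ag.P.SnocKill
import Pool.Agent.W_MP_b723a0_ag.P.KillBot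
import Pool.Agent.W_MP_b723a0_ag.P.ExistsPt
import Pool.Agent.W_MP_b723a0_ag.P.TrDrop
import Pool.Agent.W_MP_b723a0_ag.P.QfKill
import Pool.Agent.W_MP_b723a0_ag.P.LevelBasics
import Pool.Agent.W_MP_b723a0_ag.P.LevelTop
import Pool.Agent.W_MP_b723a0_ag.P.KeyStep

/-!
# Task M6: Theorem A (main induction)

Let `a = p ^ padicValNat p d`, choose `S ≥ 1` with `N + 1 ≤ p^S`. `κ` is perfect
(`IsKap.perfectField`, `PerfectField.toPerfectRing`), `irreducible_as_kap` gives `hirr`.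

Claim(i), for `i ≤ L`: for all `q`, all fields `K` (`Type`, `Algebra κ K`) and points
`pt : Pt N q K` with `pt.Gen κ` and `Level p f i (pt.P κ)`:
`Kill p ((L - i) * r * a) (pt.P κ)`. Proof by induction on `L - i`, for all `q, K, pt`, and, for fixed
`i`, by strong induction on `δ` with `TrLe κ K δ` (exists by `exists_trLe`). Let
`ρ = (L - i) * r * a`.

(0) Auxiliary: if `𝔮` is a multihomogeneous prime, `pt'.P κ < 𝔮` where `pt'` is any point over
the SAME field `K` with `pt'.Gen κ` and `Level p f i (pt'.P κ)`, then `Kill p ρ 𝔮`: if `Qf ∈ 𝔮`,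
`kill_of_Qf_mem` and `kill_mono`; otherwise `exists_pt` gives `𝔮 = pt₁.P κ` with `pt₁` over `K₁`,
`trLe_lt` gives `TrLe κ K₁ δ'` with `δ' < δ`, `level_mono` gives the level of `𝔮`; use the inner
induction hypothesis.

(1) `K` not `ASFree`: by `asFree_iff` there is `α ∈ K` with `α^p - α - 1 = 0`. By `Gen`,
`α · ev h = ev g`, `g, h ∈ Sm m`, `ev h ≠ 0`; `asf p g h ∈ pt.P κ` because it is homogeneous of degree
`p • m` and `ev (asf p g h) = (ev h)^p (α^p - α - 1) = 0` (`pt_mem_iff`). Apply `stable_step` to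
`𝔔 = pt.P κ` with (0) for `pt' = pt`.

(2) `K` is `ASFree` and `i = L`: `level_top` contradicts `hno`.

(3) `K` is `ASFree` and `i < L`: `key_step` gives `q''`, `pt''` with `Ext pt pt''`, `c`, and
`s : Fin r → Sr κ N q''`. Sub-claim, for `n ≤ r`: for every multihomogeneous prime `𝔔 ≥ pt''.P κ`
with `s j ∈ 𝔔` for all `j` with `n ≤ j`: `Kill p ((L - i - 1) * r * a + n * a) 𝔔`. Induction on
`n`. `n = 0`: `𝔔` has level `i + 1`; if `Qf ∈ 𝔔` use `kill_of_Qf_mem`; otherwise `exists_pt` and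
Claim(i+1). `n + 1`: if `s n ∈ 𝔔` use the case `n` and `kill_mono`. Otherwise `section_step` for
`s n`: by `devissage` (and `homI_sup`, `homI_span`) `Kill p ((L-i-1) r a + n a) (𝔔 ⊔ (s n))`,
because every multihomogeneous prime `𝔮 ⊇ 𝔔 ⊔ (s n)` satisfies the hypothesis for `n`. So
`Kill p ((L-i-1) r a + n a + a) 𝔔`. For `n = r` and `𝔔 = pt''.P κ` we get `Kill p ρ (pt''.P κ)`.
Now `kill_of_ext`: for `Ext pt pt'` the point `pt'` has `Gen` (`ext_gen`) and level `i`
(`level_ext`), so (0) applies; conclude `Kill p ρ (pt.P κ)`.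

Finally, `Qf p κ N 0 ≠ 0` (e.g. `ev_Qf_ne_zero` for a point over the `ASFree` field `κ`,
`asFree_kap`), so `exists_pt` for the prime `⊥` of `Sr κ N 0` gives a point with `pt.P κ = ⊥`,
of level `0` (`level_zero`). Claim(0) gives `Kill p (L * r * a) ⊥`, and `le_of_kill_bot` gives
`N + 1 ≤ L * r * a`.
-/

namespace Pool.Agent.W_MP_b723a0_ag.P

/-- The Artin-Schreier form of two homogeneous elements of the same degree is homogeneous. -/
theorem asf_mem_Sm {p : ℕ} (hp : 1 ≤ p) {κ : Type} [Field κ] {N q : ℕ} {m : Fin (q + 1) → ℕ}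
    {g h : Sr κ N q} (hg : g ∈ Sm κ N q m) (hh : h ∈ Sm κ N q m) :
    asf p g h ∈ Sm κ N q (p • m) := by
  have hg' : MvPolynomial.IsWeightedHomogeneous (wt N q) g m := hg
  have hh' : MvPolynomial.IsWeightedHomogeneous (wt N q) h m := hh
  have h1 : g ^ p ∈ Sm κ N q (p • m) := hg'.pow p
  have h2 : h ^ p ∈ Sm κ N q (p • m) := hh'.pow p
  have h3 : g * h ^ (p - 1) ∈ Sm κ N q (p • m) := by
    have h4 : MvPolynomial.IsWeightedHomogeneous (wt N q) (g * h ^ (p - 1)) (m + (p - 1) • m) :=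
      hg'.mul (hh'.pow (p - 1))
    have h5 : m + (p - 1) • m = p • m := by
      have : p = (p - 1) + 1 := by omega
      conv_rhs => rw [this]
      rw [add_smul, one_smul]
      exact add_comm _ _
    rw [h5] at h4
    exact h4
  exact Submodule.sub_mem _ (Submodule.sub_mem _ h1 h3) h2

/-- The induction step of the section argument. -/
theorem sections_kill {p : ℕ} [Fact p.Prime] {κ : Type} [Field κ] {N q r : ℕ} (d S ρ : ℕ)
    (hd : 1 ≤ d) (hS : N + 1 ≤ p ^ S) (hS1 : 1 ≤ S) (I : Ideal (Sr κ N q))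
    (c : Fin (q + 1) → ℕ) (s : Fin r → Sr κ N q)
    (hs : ∀ j, s j ∈ Sm κ N q (d • e0 q + p ^ S • c))
    (h0 : ∀ 𝔔 : Ideal (Sr κ N q), 𝔔.IsPrime → HomI 𝔔 → I ≤ 𝔔 → (∀ j, s j ∈ 𝔔) → Kill p ρ 𝔔) :
    ∀ n ≤ r, ∀ 𝔔 : Ideal (Sr κ N q), 𝔔.IsPrime → HomI 𝔔 → I ≤ 𝔔 →
      (∀ j : Fin r, n ≤ (j : ℕ) → s j ∈ 𝔔) → Kill p (ρ + n * p ^ padicValNat p d) 𝔔 := by
  intro n
  induction n with
  | zero =>
    intro _ 𝔔 h𝔔 hom hI hmem
    rw [zero_mul, add_zero]
    exact h0 𝔔 h𝔔 hom hI fun j => hmem j (Nat.zero_le _)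
  | succ n ih =>
    intro hn 𝔔 h𝔔 hom hI hmem
    have hn' : n < r := hn
    by_cases hsn : s ⟨n, hn'⟩ ∈ 𝔔
    · refine kill_mono (ih hn'.le 𝔔 h𝔔 hom hI fun j hj => ?_)
        (Nat.add_le_add_left (Nat.mul_le_mul_right _ (Nat.le_succ n)) _)
      rcases Nat.eq_or_lt_of_le hj with hj | hj
      · have : j = ⟨n, hn'⟩ := Fin.ext hj.symm
        rw [this]
        exact hsn
      · exact hmem j hj
    · have hK : Kill p (ρ + n * p ^ padicValNat p d) (𝔔 ⊔ Ideal.span {s ⟨n, hn'⟩}) := by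
        refine devissage _ (homI_sup hom (homI_span _ ?_)) ?_
        · intro x hx
          rw [Set.mem_singleton_iff] at hx
          rw [hx]
          exact ⟨_, hs _⟩
        · intro 𝔮 h𝔮 hom𝔮 hle
          have h1 : 𝔔 ≤ 𝔮 := le_sup_left.trans hle
          have h2 : s ⟨n, hn'⟩ ∈ 𝔮 := hle (Ideal.mem_sup_right (Ideal.mem_span_singleton_self _))
          refine ih hn'.le 𝔮 h𝔮 hom𝔮 (hI.trans h1) fun j hj => ?_
          rcases Nat.eq_or_lt_of_le hj with hj | hj
          · have : j = ⟨n, hn'⟩ := Fin.ext hj.symm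
            rw [this]
            exact h2
          · exact h1 (hmem j hj)
      have h3 := section_step d (ρ + n * p ^ padicValNat p d) S hd hS hS1 h𝔔 hom c
        (s ⟨n, hn'⟩) (hs _) hsn hK
      have h4 : ρ + n * p ^ padicValNat p d + p ^ padicValNat p d =
          ρ + (n + 1) * p ^ padicValNat p d := by ring
      rw [h4] at h3
      exact h3

/-- The main claim. -/
theorem theoremA_claim {p : ℕ} [Fact p.Prime] {κ : Type} [Field κ] [CharP κ p]
    [PerfectRing κ p] (hκ : IsKap p p κ) (N r d L S : ℕ) (hd : 1 ≤ d) (hS : N + 1 ≤ p ^ S)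
    (hS1 : 1 ≤ S) (f : Fin r → MvPolynomial (Fin (N + 1)) ℤ_[p])
    (hf : ∀ s, (f s).IsHomogeneous d)
    (hno : ∀ x : Fin (N + 1) → WittVector p κ, (∃ a, ¬ (p : WittVector p κ) ∣ x a) →
      ¬ ∀ s, (p : WittVector p κ) ^ L ∣ MvPolynomial.eval₂ (zpToWitt p κ) x (f s)) :
    ∀ n i : ℕ, i + n = L → ∀ (δ q : ℕ) (K : Type) [Field K] [Algebra κ K] (pt : Pt N q K),
      TrLe κ K δ → pt.Gen κ → Level p f i (pt.P κ) →
      Kill p (n * r * p ^ padicValNat p d) (pt.P κ) := by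
  have hp1 : 1 ≤ p := (Fact.out : p.Prime).one_le
  have hirr := irreducible_as_kap hκ
  intro n
  induction n with
  | zero =>
    intro i hi δ
    induction δ using Nat.strong_induction_on with
    | _ δ ihδ =>
      intro q K _ _ pt hδ hG hlev
      have haux : ∀ 𝔮 : Ideal (Sr κ N q), 𝔮.IsPrime → HomI 𝔮 → pt.P κ < 𝔮 →
          Kill p (0 * r * p ^ padicValNat p d) 𝔮 := by
        intro 𝔮 h𝔮 hom hlt
        by_cases hQ : Qf p κ N q ∈ 𝔮
        · exact kill_mono (kill_of_Qf_mem hirr hom hQ) (Nat.zero_le _)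
        · obtain ⟨K₁, _, _, pt₁, hG₁, rfl⟩ := exists_pt hp1 h𝔮 hom hQ
          obtain ⟨δ', hδ', hT⟩ := trLe_lt pt pt₁ hG₁ hlt hδ
          exact ihδ δ' hδ' q K₁ pt₁ hT hG₁ (level_mono hlt.le hlev)
      by_cases hAS : ASFree p K
      · exfalso
        rw [Nat.add_zero] at hi
        subst hi
        obtain ⟨x, hx1, hx2⟩ := level_top hκ hAS pt hlev
        exact hno x hx1 hx2
      · rw [asFree_iff] at hAS
        push Not at hAS
        obtain ⟨α, hα⟩ := hAS
        obtain ⟨m, g, h, hg, hh, hne, hgh⟩ := hG α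
        have h1 : asf p g h ∈ pt.P κ := by
          rw [pt_mem_iff pt (asf_mem_Sm hp1 hg hh)]
          simp only [asf, map_sub, map_mul, map_pow]
          rw [← hgh]
          have h2 : pt.ev κ h ^ p = pt.ev κ h * pt.ev κ h ^ (p - 1) := by
            rw [← pow_succ']
            congr 1
            omega
          calc (α * pt.ev κ h) ^ p - α * pt.ev κ h * pt.ev κ h ^ (p - 1) - pt.ev κ h ^ p
              = (α ^ p - α - 1) * pt.ev κ h ^ p := by
                rw [mul_pow, mul_assoc α, ← h2]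
                ring
            _ = 0 := by rw [hα, zero_mul]
        exact stable_step hirr _ (pt_prime pt) (pt_hom pt) m g h hg hh
          (fun hmem => hne ((pt_mem_iff pt hh).1 hmem)) h1 haux
  | succ n ihn =>
    intro i hi δ
    induction δ using Nat.strong_induction_on with
    | _ δ ihδ =>
      intro q K _ _ pt hδ hG hlev
      have haux : ∀ (q' : ℕ) (pt' : Pt N q' K), pt'.Gen κ → Level p f i (pt'.P κ) →
          ∀ 𝔮 : Ideal (Sr κ N q'), 𝔮.IsPrime → HomI 𝔮 → pt'.P κ < 𝔮 →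
          Kill p ((n + 1) * r * p ^ padicValNat p d) 𝔮 := by
        intro q' pt' hG' hlev' 𝔮 h𝔮 hom hlt
        by_cases hQ : Qf p κ N q' ∈ 𝔮
        · exact kill_mono (kill_of_Qf_mem hirr hom hQ) (Nat.zero_le _)
        · obtain ⟨K₁, _, _, pt₁, hG₁, rfl⟩ := exists_pt hp1 h𝔮 hom hQ
          obtain ⟨δ', hδ', hT⟩ := trLe_lt pt' pt₁ hG₁ hlt hδ
          exact ihδ δ' hδ' q' K₁ pt₁ hT hG₁ (level_mono hlt.le hlev')
      by_cases hAS : ASFree p K
      · obtain ⟨q'', pt'', hext, c, s, hs, hslev⟩ :=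
          key_step (d := d) (S := S) hf hAS pt hG hlev
        have h0 : ∀ 𝔔 : Ideal (Sr κ N q''), 𝔔.IsPrime → HomI 𝔔 → pt''.P κ ≤ 𝔔 →
            (∀ j, s j ∈ 𝔔) → Kill p (n * r * p ^ padicValNat p d) 𝔔 := by
          intro 𝔔 h𝔔 hom hle hmem
          have hl : Level p f (i + 1) 𝔔 := hslev 𝔔 hle hmem
          by_cases hQ : Qf p κ N q'' ∈ 𝔔
          · exact kill_mono (kill_of_Qf_mem hirr hom hQ) (Nat.zero_le _)
          · obtain ⟨K₁, _, _, pt₁, hG₁, rfl⟩ := exists_pt hp1 h𝔔 hom hQ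
            obtain ⟨δ₁, hδ₁⟩ := exists_trLe pt₁ hG₁
            exact ihn (i + 1) (by omega) δ₁ q'' K₁ pt₁ hδ₁ hG₁ hl
        have h1 := sections_kill d S (n * r * p ^ padicValNat p d) hd hS hS1 (pt''.P κ) c s hs h0
          r le_rfl (pt''.P κ) (pt_prime pt'') (pt_hom pt'') le_rfl
          (fun j hj => absurd j.2 (not_lt.2 hj))
        have h2 : n * r * p ^ padicValNat p d + r * p ^ padicValNat p d =
            (n + 1) * r * p ^ padicValNat p d := by ring
        rw [h2] at h1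
        exact kill_of_ext hext hG
          (fun q' pt' he => haux q' pt' (ext_gen he hG) (level_ext he hlev)) h1
      · rw [asFree_iff] at hAS
        push Not at hAS
        obtain ⟨α, hα⟩ := hAS
        obtain ⟨m, g, h, hg, hh, hne, hgh⟩ := hG α
        have h1 : asf p g h ∈ pt.P κ := by
          rw [pt_mem_iff pt (asf_mem_Sm hp1 hg hh)]
          simp only [asf, map_sub, map_mul, map_pow]
          rw [← hgh]
          have h2 : pt.ev κ h ^ p = pt.ev κ h * pt.ev κ h ^ (p - 1) := by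
            rw [← pow_succ']
            congr 1
            omega
          calc (α * pt.ev κ h) ^ p - α * pt.ev κ h * pt.ev κ h ^ (p - 1) - pt.ev κ h ^ p
              = (α ^ p - α - 1) * pt.ev κ h ^ p := by
                rw [mul_pow, mul_assoc α, ← h2]
                ring
            _ = 0 := by rw [hα, zero_mul]
        exact stable_step hirr _ (pt_prime pt) (pt_hom pt) m g h hg hh
          (fun hmem => hne ((pt_mem_iff pt hh).1 hmem)) h1 (haux q pt hG hlev)

theorem theoremA {p : ℕ} [Fact p.Prime] {κ : Type} [Field κ] [CharP κ p] (hκ : IsKap p p κ)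
    (N r d L : ℕ) (hd : 1 ≤ d) (f : Fin r → MvPolynomial (Fin (N + 1)) ℤ_[p])
    (hf : ∀ s, (f s).IsHomogeneous d)
    (hno : ∀ x : Fin (N + 1) → WittVector p κ, (∃ a, ¬ (p : WittVector p κ) ∣ x a) →
      ¬ ∀ s, (p : WittVector p κ) ^ L ∣ MvPolynomial.eval₂ (zpToWitt p κ) x (f s)) :
    N + 1 ≤ L * r * p ^ padicValNat p d := by
  have hp : p.Prime := Fact.out
  have hperf : PerfectField κ := hκ.perfectField hp
  have : ExpChar κ p := ExpChar.prime hp
  have : PerfectRing κ p := PerfectField.toPerfectRing p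
  have hS : N + 1 ≤ p ^ (N + 1) := (Nat.lt_pow_self hp.one_lt).le
  have hAS : ASFree p κ := asFree_kap hκ
  have hQ : Qf p κ N 0 ∉ (⊥ : Ideal (Sr κ N 0)) := by
    intro h
    rw [Ideal.mem_bot] at h
    have h1 := ev_Qf_ne_zero (κ := κ) hp.one_le hAS
      (⟨fun _ => 1, fun k => k.elim0, fun k => k.elim0, ⟨0, one_ne_zero⟩, fun k => k.elim0⟩ :
        Pt N 0 κ)
    rw [h, map_zero] at h1
    exact h1 rfl
  obtain ⟨K, _, _, pt, hG, hP⟩ := exists_pt hp.one_le Ideal.isPrime_bot homI_bot hQ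
  obtain ⟨δ, hδ⟩ := exists_trLe pt hG
  have h1 := theoremA_claim hκ N r d L (N + 1) hd hS (Nat.le_add_left 1 N) f hf hno L 0
    (Nat.zero_add L) δ 0 K pt hδ hG (level_zero f _)
  rw [hP] at h1
  exact le_of_kill_bot h1

end Pool.Agent.W_MP_b723a0_ag.P
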