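import Mathlib
import Pool.Agent.W_MP_b723a0_ag.Defs
import Pool.Agent.W_MP_b723a0_ag.Kap
import Pool.Agent.W_MP_b723a0_ag.ApproxZeros
import Pool.Agent.W_MP_b723a0_ag.P.Defs
import Pool.Agent.W_MP_b723a0_ag.P.TheoremA
import Pool.Agent.W_MP_b723a0_ag.P.Amplify
import Pool.Agent.W_MP_b723a0_ag.P.AmpArith

/-!
# Task A3: approximate zeros, the case `ℓ = p`

`exists_primitive`: for `n' = d p^a + 1`, `a = v_p(d)` and forms `f_1..f_r` in the variables
`Fin n' × Fin r`, for every `B` there is a primitive `x ∈ W(κ)^{n' × r}` with `p^B ∣ f_s(x)`. Proof: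
otherwise (take `c = B`) `amplify` gives forms `F` with
no primitive zeros modulo `p^{c_j+1}`, and `theoremA` with `N + 1 = n'^j r`, `L = c_j + 1`, degree
`d^j`, gives the hypothesis of `amp_arith`, so `n' ≤ d p^a`: contradiction.

`approx_zeros_p`: `card σ ≥ r (d p^a + 1)`; choose an injection `Fin n' × Fin r → σ` and set the
other coordinates to zero. Then pass from `κ` to a finite subfield `E` of `κ` with
`|E| = p^s`, `p ∤ s` containing the Witt components `0, ..., B` of all `x_a`
(`IsKap.exists_subfield` with `ℓ = p`): let `x'_a ∈ W(E)` have the same components `0, ..., B` and the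
others `0`; then
`x' ≡ x mod p^{B+1}` in `W(κ)`, and divisibility by `p^B` in `W(E)` and `W(κ)` is vanishing of the
first `B` components.
-/

namespace Pool.Agent.W_MP_b723a0_ag.P

theorem exists_primitive {p : ℕ} [Fact p.Prime] {κ : Type} [Field κ] [CharP κ p]
    (hκ : IsKap p p κ) (n' r d : ℕ) (hr : 1 ≤ r) (hd : 1 ≤ d)
    (hn : d * p ^ padicValNat p d < n') (f : Fin r → MvPolynomial (Fin n' × Fin r) ℤ_[p])
    (hf : ∀ s, (f s).IsHomogeneous d) (B : ℕ) :
    ∃ x : Fin n' × Fin r → WittVector p κ, (∃ a, ¬ (p : WittVector p κ) ∣ x a) ∧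
      ∀ s, (p : WittVector p κ) ^ B ∣ MvPolynomial.eval₂ (zpToWitt p κ) x (f s) := by
  by_contra hcon
  push Not at hcon
  have hp : p.Prime := Fact.out
  haveI : PerfectField κ := hκ.perfectField hp
  haveI : PerfectRing κ p := PerfectField.toPerfectRing p
  have hno : ∀ x : Fin n' × Fin r → WittVector p κ, (∃ a, ¬ (p : WittVector p κ) ∣ x a) →
      ¬ ∀ s, (p : WittVector p κ) ^ (B + 1) ∣ MvPolynomial.eval₂ (zpToWitt p κ) x (f s) := by
    intro x hx h
    obtain ⟨s, hs⟩ := hcon x hx
    exact hs ((pow_dvd_pow _ (Nat.le_succ B)).trans (h s))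
  have hn' : 0 < n' := lt_of_le_of_lt (Nat.zero_le _) hn
  refine absurd (amp_arith p n' r d B hr hd fun j hj => ?_) (not_le.2 hn)
  obtain ⟨F, hF1, hF2⟩ := amplify n' r d B hd f hf hno j hj
  have hpos : n' ^ j * r ≠ 0 := Nat.mul_ne_zero (pow_ne_zero _ hn'.ne') (by omega)
  obtain ⟨N, hN⟩ := Nat.exists_eq_succ_of_ne_zero hpos
  revert F
  rw [hN]
  intro F hF1 hF2
  exact theoremA hκ N r (d ^ j) _ (Nat.one_le_pow _ _ hd) F hF1 hF2

/-- Divisibility by `p^B` from the vanishing of the components. -/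
theorem pow_dvd_iff_coeff {p : ℕ} [Fact p.Prime] {k : Type} [Field k] [CharP k p]
    [PerfectRing k p] (B : ℕ) (w : WittVector p k) :
    (p : WittVector p k) ^ B ∣ w ↔ ∀ i < B, w.coeff i = 0 := by
  rw [← Ideal.mem_span_singleton, WittVector.mem_span_p_pow_iff_le_coeff_eq_zero]

/-- The first components of `f(x)` depend only on the first components of `x`. -/
theorem eval₂_coeff_congr {p : ℕ} [Fact p.Prime] {k : Type} [Field k] [CharP k p] {σ : Type}
    (B : ℕ) (x y : σ → WittVector p k) (h : ∀ a, ∀ i < B, (x a).coeff i = (y a).coeff i)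
    (f : MvPolynomial σ ℤ_[p]) (i : ℕ) (hi : i < B) :
    (MvPolynomial.eval₂ (zpToWitt p k) x f).coeff i =
      (MvPolynomial.eval₂ (zpToWitt p k) y f).coeff i := by
  have h1 : (fun a => WittVector.truncate B (x a)) = fun a => WittVector.truncate B (y a) := by
    funext a
    ext i
    rw [WittVector.coeff_truncate, WittVector.coeff_truncate]
    exact h a i i.2
  have h2 : WittVector.truncate B (MvPolynomial.eval₂ (zpToWitt p k) x f) =
      WittVector.truncate B (MvPolynomial.eval₂ (zpToWitt p k) y f) := by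
    rw [MvPolynomial.eval₂_comp_left, MvPolynomial.eval₂_comp_left]
    congr 1
  have h3 := congrArg (fun t => TruncatedWittVector.coeff ⟨i, hi⟩ t) h2
  simpa only [WittVector.coeff_truncate] using h3

theorem approx_zeros_p {p : ℕ} [Fact p.Prime] {κ : Type} [Field κ]
    [CharP κ p] (hκ : IsKap p p κ) (σ : Type) [Fintype σ] (r d : ℕ) (hr : 1 ≤ r) (hd : 1 ≤ d)
    (f : Fin r → MvPolynomial σ ℤ_[p]) (hf : ∀ j, (f j).IsHomogeneous d)
    (hcard : r * (d * p ^ padicValNat p d + 1) ≤ Fintype.card σ) (B : ℕ) :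
    ∃ (s : ℕ) (E : Subfield κ), ¬ p ∣ s ∧ Nat.card E = p ^ s ∧
      ∃ x : σ → WittVector p E, (∃ i, ¬ (p : WittVector p E) ∣ x i) ∧
        ∀ j, (p : WittVector p E) ^ B ∣ MvPolynomial.eval₂ (zpToWitt p E) x (f j) := by
  classical
  have hp : p.Prime := Fact.out
  haveI : PerfectField κ := hκ.perfectField hp
  haveI : PerfectRing κ p := PerfectField.toPerfectRing p
  set n' := d * p ^ padicValNat p d + 1 with hn'
  have hc : Fintype.card (Fin n' × Fin r) ≤ Fintype.card σ := by
    rw [Fintype.card_prod, Fintype.card_fin, Fintype.card_fin, mul_comm]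
    exact hcard
  obtain ⟨ι⟩ := Function.Embedding.nonempty_of_card_le hc
  set φ : σ → MvPolynomial (Fin n' × Fin r) ℤ_[p] := fun i =>
    if h : ∃ a, ι a = i then MvPolynomial.X h.choose else 0 with hφ
  have hφι : ∀ a, φ (ι a) = MvPolynomial.X a := by
    intro a
    have h : ∃ b, ι b = ι a := ⟨a, rfl⟩
    rw [hφ]
    simp only
    rw [dif_pos h, ι.injective h.choose_spec]
  have hφ1 : ∀ i, (φ i).IsHomogeneous 1 := by
    intro i
    rw [hφ]
    simp only
    split_ifs with h
    · exact MvPolynomial.isHomogeneous_X _ _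
    · exact MvPolynomial.isHomogeneous_zero _ _ _
  obtain ⟨x, ⟨a₀, ha₀⟩, hx⟩ := exists_primitive hκ n' r d hr hd (Nat.lt_succ_self _)
    (fun s => MvPolynomial.aeval φ (f s)) (fun s => by
      have := (hf s).aeval φ hφ1
      rwa [one_mul] at this) B
  set x' : σ → WittVector p κ := fun i => MvPolynomial.eval₂ (zpToWitt p κ) x (φ i) with hx'
  have hx'a : x' (ι a₀) = x a₀ := by
    rw [hx']
    simp only
    rw [hφι, MvPolynomial.eval₂_X]
  have hx'f : ∀ s, (p : WittVector p κ) ^ B ∣ MvPolynomial.eval₂ (zpToWitt p κ) x' (f s) := by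
    intro s
    have h1 := hx s
    have h2 : MvPolynomial.eval₂ (zpToWitt p κ) x (MvPolynomial.aeval φ (f s)) =
        MvPolynomial.eval₂ (zpToWitt p κ) x' (f s) := by
      rw [MvPolynomial.aeval_def]
      rw [← MvPolynomial.coe_eval₂Hom, MvPolynomial.eval₂_comp_left]
      congr 1
      ext c
      simp
    rw [← h2]
    exact h1
  clear_value x'
  obtain ⟨s, E, hs, hSE, hE⟩ := IsKap.exists_subfield hp hκ
    (Set.range fun q : σ × Fin (B + 1) => (x' q.1).coeff q.2) (Set.finite_range _)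
  have hfinE : Finite E := Nat.finite_of_card_ne_zero (by rw [hE]; exact pow_ne_zero _ hp.ne_zero)
  have hmem : ∀ i n, n < B + 1 → (x' i).coeff n ∈ E := fun i n h => hSE ⟨(i, ⟨n, h⟩), rfl⟩
  set y : σ → WittVector p E := fun i => WittVector.mk p fun n =>
    if h : n < B + 1 then ⟨(x' i).coeff n, hmem i n h⟩ else 0 with hy
  have hyc : ∀ i, ∀ n < B + 1, E.subtype ((y i).coeff n) = (x' i).coeff n := by
    intro i n hn
    rw [hy]
    simp only [WittVector.coeff_mk]
    rw [dif_pos hn]
    rfl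
  refine ⟨s, E, hs, hE, y, ⟨ι a₀, fun hdvd => ?_⟩, fun j => ?_⟩
  · -- primitivity
    apply ha₀
    rw [← hx'a]
    have h1 : (y (ι a₀)).coeff 0 = 0 := by
      have := (pow_dvd_iff_coeff (p := p) (k := E) 1 (y (ι a₀))).1 (by rwa [pow_one]) 0
        Nat.one_pos
      exact this
    have h2 : (x' (ι a₀)).coeff 0 = 0 := by
      rw [← hyc (ι a₀) 0 (Nat.succ_pos B), h1, map_zero]
    have h3 := (pow_dvd_iff_coeff (p := p) (k := κ) 1 (x' (ι a₀))).2 (by
      intro i hi
      have : i = 0 := by omega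
      rw [this, h2])
    rwa [pow_one] at h3
  · rw [pow_dvd_iff_coeff]
    intro i hi
    have h1 := (pow_dvd_iff_coeff B _).1 (hx'f j) i hi
    have h2 : (MvPolynomial.eval₂ (zpToWitt p κ) (fun a => WittVector.map E.subtype (y a))
        (f j)).coeff i = 0 := by
      rw [eval₂_coeff_congr B (fun a => WittVector.map E.subtype (y a)) x' ?_ (f j) i hi]
      · exact h1
      · intro a n hn
        rw [WittVector.map_coeff]
        exact hyc a n (by omega)
    have h3 : MvPolynomial.eval₂ (zpToWitt p κ) (fun a => WittVector.map E.subtype (y a)) (f j) =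
        WittVector.map E.subtype (MvPolynomial.eval₂ (zpToWitt p E) y (f j)) := by
      rw [MvPolynomial.eval₂_comp_left, map_comp_zpToWitt]
      rfl
    rw [h3, WittVector.map_coeff] at h2
    exact (map_eq_zero_iff E.subtype E.subtype.injective).mp h2

end Pool.Agent.W_MP_b723a0_ag.P
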