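import Mathlib
import Pool.Agent.W_MP_b723a0_ag.Defs
import Pool.Agent.W_MP_b723a0_ag.Kap
import Pool.Agent.W_MP_b723a0_ag.KapEx
import Pool.Agent.W_MP_b723a0_ag.Newton
import Pool.Agent.W_MP_b723a0_ag.Greenberg
import Pool.Agent.W_MP_b723a0_ag.SystemZp
import Pool.Agent.W_MP_b723a0_ag.P.ApproxP

/-!
# Task A4: exact zeros of systems, the case `ℓ = p`

The proof is the proof of `system_zero_zp` in `SystemZp.lean` (the lemmas `exists_normalised`,
`ne_zero_of_eval` are there) with `ℓ = p` and `approx_zeros` replaced by `approx_zeros_p`.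
-/

namespace Pool.Agent.W_MP_b723a0_ag.P

theorem system_zero_zp_p {p : ℕ} [Fact p.Prime] (σ : Type) [Fintype σ] (r d : ℕ) (hr : 1 ≤ r)
    (hd : 1 ≤ d) (f : Fin r → MvPolynomial σ ℤ_[p]) (hf : ∀ j, (f j).IsHomogeneous d)
    (hcard : r * (d * p ^ padicValNat p d + 1) ≤ Fintype.card σ) :
    ∃ (s : ℕ) (E : Type) (_ : Field E) (_ : CharP E p), ¬ p ∣ s ∧ Nat.card E = p ^ s ∧
      ∃ x : σ → WittVector p E, x ≠ 0 ∧
        ∀ j, MvPolynomial.eval₂ (zpToWitt p E) x (f j) = 0 := by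
  classical
  obtain ⟨κ, iκ, cκ, hκ⟩ := exists_isKap p p Fact.out
  let ι := {E : Subfield κ // ∃ s : ℕ, ¬ p ∣ s ∧ Nat.card E = p ^ s}
  have hfin : ∀ E : ι, Finite E.1 := by
    rintro ⟨E, s, -, hE⟩
    apply Nat.finite_of_card_ne_zero
    rw [hE]
    exact pow_ne_zero _ (Fact.out : p.Prime).ne_zero
  have hPV : ∀ E : ι, PVal p (WittVector p E.1) := by
    intro E
    have := hfin E
    have : PerfectRing E.1 p := inferInstance
    exact pVal_witt p E.1
  let e := Fintype.equivFin σ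
  let J : Fin (Fintype.card σ) → Ideal (MvPolynomial (Fin (Fintype.card σ)) ℤ_[p]) := fun i =>
    Ideal.span (insert (MvPolynomial.X i - 1) (Set.range fun j => MvPolynomial.rename e (f j)))
  have main : ∀ B : ℕ, ∃ i, ∃ E : ι, ∃ x : Fin (Fintype.card σ) → WittVector p E.1,
      ∀ q ∈ J i, (p : WittVector p E.1) ^ B ∣ MvPolynomial.eval₂ (zpToWitt p E.1) x q := by
    intro B
    obtain ⟨s, E, hs, hE, x, ⟨i, hi⟩, hx⟩ := approx_zeros_p hκ σ r d hr hd f hf hcard B
    have hu : IsUnit (x i) := (hPV ⟨E, s, hs, hE⟩).unit _ hi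
    exact ⟨e i, ⟨E, s, hs, hE⟩, exists_normalised (zpToWitt p E) d f hf e _ x i hu hx⟩
  have hi : ∃ i, ∀ B : ℕ, ∃ E : ι, ∃ x : Fin (Fintype.card σ) → WittVector p E.1,
      ∀ q ∈ J i, (p : WittVector p E.1) ^ B ∣ MvPolynomial.eval₂ (zpToWitt p E.1) x q := by
    by_contra hcon
    push Not at hcon
    choose Bf hBf using hcon
    obtain ⟨i, E, x, hx⟩ := main (Finset.univ.sup Bf)
    obtain ⟨q, hq, hq'⟩ := hBf i E x
    apply hq'
    exact (pow_dvd_pow _ (Finset.le_sup (Finset.mem_univ i))).trans (hx q hq)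
  obtain ⟨i, hi⟩ := hi
  obtain ⟨E, x, hx⟩ := greenberg p (Fintype.card σ) (fun E : ι => WittVector p E.1)
    (fun E => zpToWitt p E.1) hPV (J i) hi
  obtain ⟨E, s, hs, hE⟩ := E
  refine ⟨s, E, inferInstance, inferInstance, hs, hE, fun k => x (e k), ?_, ?_⟩
  · intro h0
    have h1 := hx (MvPolynomial.X i - 1) (Ideal.subset_span (Set.mem_insert _ _))
    apply ne_zero_of_eval _ _ _ h1
    have h2 := congrFun h0 (e.symm i)
    simpa only [Equiv.apply_symm_apply, Pi.zero_apply] using h2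
  · intro j
    have h1 := hx (MvPolynomial.rename e (f j))
      (Ideal.subset_span (Set.mem_insert_of_mem _ ⟨j, rfl⟩))
    rw [MvPolynomial.eval₂_rename] at h1
    exact h1

end Pool.Agent.W_MP_b723a0_ag.P
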