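import Mathlib
import Pool.Agent.W_MP_b723a0_ag.Defs
import Pool.Agent.W_MP_b723a0_ag.Main
import Pool.Agent.W_MP_b723a0_ag.P.SystemZpP

/-!
# Task A5: the theorem over `K`

The case `ℓ ≠ p` is `main` (in `Main.lean`) with `d ℓ^{v_ℓ(d)} ≤ d^2 ≤ n`; the case `ℓ = p` is
proved as `main` with `system_zero_zp_p` in place of `system_zero_zp`: the forms `G_k` over `ℤ_p`
(`k < r = [K : ℚ_p]`) are in the variables `Fin r × Fin (n+1)`, and
`r (d p^a + 1) ≤ r (n + 1)` because `p^a ≤ d` and `d^2 ≤ n`.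
-/

open scoped TensorProduct

namespace Pool.Agent.W_MP_b723a0_ag.P

/-- From zeros of systems over `ℤ_p` in unramified extensions to zeros of forms over `K`. -/
theorem final_of_system (p : ℕ) [Fact p.Prime] (K : Type) [Field K] [Algebra ℚ_[p] K]
    [FiniteDimensional ℚ_[p] K] (n d : ℕ) (f : MvPolynomial (Fin (n + 1)) K)
    (hom : f.IsHomogeneous d) (ℓ : ℕ)
    (hsys : ∀ G : Fin (Module.finrank ℚ_[p] K) →
        MvPolynomial (Fin (Module.finrank ℚ_[p] K) × Fin (n + 1)) ℤ_[p],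
      (∀ k, (G k).IsHomogeneous d) →
      ∃ (s : ℕ) (E : Type) (_ : Field E) (_ : CharP E p), ¬ ℓ ∣ s ∧ Nat.card E = p ^ s ∧
        ∃ x : Fin (Module.finrank ℚ_[p] K) × Fin (n + 1) → WittVector p E, x ≠ 0 ∧
          ∀ j, MvPolynomial.eval₂ (zpToWitt p E) x (G j) = 0) :
    ∃ (L : Type) (_ : Field L) (_ : Algebra K L),
        FiniteDimensional K L ∧ ¬ ℓ ∣ Module.finrank K L ∧
        ∃ x : Fin (n + 1) → L, x ≠ 0 ∧ MvPolynomial.aeval x f = 0 := by
  classical
  set r := Module.finrank ℚ_[p] K with hr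
  have hrpos : 0 < r := Module.finrank_pos
  set ω : Module.Basis (Fin r) ℚ_[p] K := Module.finBasis ℚ_[p] K with hω
  set σ := Fin r × Fin (n + 1) with hσ
  -- the expanded form over K
  set F : MvPolynomial σ K := MvPolynomial.aeval
    (fun i => ∑ j, MvPolynomial.C (ω j) * MvPolynomial.X (R := K) (j, i)) f with hF
  have hFhom : F.IsHomogeneous d := by
    have := hom.aeval (S := K) (τ := σ) (n := 1)
      (fun i => ∑ j, MvPolynomial.C (ω j) * MvPolynomial.X (R := K) (j, i)) (by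
        intro i
        apply MvPolynomial.IsHomogeneous.sum
        intro j _
        exact MvPolynomial.IsHomogeneous.C_mul (MvPolynomial.isHomogeneous_X _ _) _)
    rwa [one_mul] at this
  have hsum : ∀ I ∈ F.support, I.degree = d := by
    intro I hI
    by_contra hne'
    exact MvPolynomial.mem_support_iff.mp hI (hFhom.coeff_eq_zero hne')
  -- clear denominators
  obtain ⟨β, hβ⟩ := IsLocalization.exist_integer_multiples_of_finset (nonZeroDivisors ℤ_[p])
    ((Finset.univ ×ˢ F.support).image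
      (fun q : Fin r × (σ →₀ ℕ) => ω.repr (F.coeff q.2) q.1 : _ → ℚ_[p]))
  have hβ' : ∀ (k : Fin r) (I : σ →₀ ℕ), I ∈ F.support → ∃ c : ℤ_[p],
      algebraMap ℤ_[p] ℚ_[p] c = (β : ℤ_[p]) • (ω.repr (F.coeff I) k) := by
    intro k I hI
    exact hβ _ (Finset.mem_image.mpr ⟨(k, I), by simp [Finset.mem_product] at hI ⊢; exact hI, rfl⟩)
  choose! c hc using hβ'
  set G : Fin r → MvPolynomial σ ℤ_[p] := fun k =>
    ∑ I ∈ F.support, MvPolynomial.monomial I (c k I) with hG
  have hGhom : ∀ k, (G k).IsHomogeneous d := by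
    intro k
    apply MvPolynomial.IsHomogeneous.sum
    intro I hI
    exact MvPolynomial.isHomogeneous_monomial _ (hsum I hI)
  obtain ⟨s, E, _, _, hs, hE, x, hx0, hx⟩ := hsys G hGhom
  have hs0 : s ≠ 0 := by rintro rfl; simp at hs
  obtain ⟨M, _, _, _, _, ι, hι, hMs, hιa⟩ := exists_unramified p E s hs0 hE
  set z : σ → M := fun q => ι (x q) with hz
  have hz0 : ∃ q, z q ≠ 0 := by
    by_contra hcon
    push Not at hcon
    apply hx0
    funext q
    apply hι
    rw [Pi.zero_apply, map_zero]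
    exact hcon q
  have hGz : ∀ k, ∑ I ∈ F.support, algebraMap ℚ_[p] M (c k I : ℚ_[p]) * ∏ q, z q ^ I q = 0 := by
    intro k
    have h1 := congrArg ι (hx k)
    rw [map_zero, hG, MvPolynomial.eval₂_sum, map_sum] at h1
    rw [← h1]
    refine Finset.sum_congr rfl (fun I _ => ?_)
    rw [MvPolynomial.eval₂_monomial, map_mul, hιa, Finsupp.prod_fintype, map_prod]
    · simp only [map_pow, hz]
    · intro q; simp
  -- the point in K ⊗ M
  set Y : Fin (n + 1) → K ⊗[ℚ_[p]] M := fun i => ∑ j, ω j ⊗ₜ[ℚ_[p]] z (j, i) with hY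
  have hY0 : ∃ i, Y i ≠ 0 := by
    obtain ⟨⟨j₀, i₀⟩, hq⟩ := hz0
    refine ⟨i₀, fun hcon => hq ?_⟩
    have h1 := TensorProduct.sum_tmul_basis_left_eq_zero (R := ℚ_[p]) (N := M) ω
      (Finsupp.equivFunOnFinite.symm (fun j => z (j, i₀))) (by
        rw [Finsupp.sum_fintype]
        · simpa [hY] using hcon
        · intro j; simp)
    have := DFunLike.congr_fun h1 j₀
    simpa using this
  have hYf : MvPolynomial.aeval Y f = 0 := by
    have h1 : MvPolynomial.aeval Y f = MvPolynomial.aeval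
        (fun q => (1 : K) ⊗ₜ[ℚ_[p]] z q) F := by
      rw [hF, ← AlgHom.comp_apply, MvPolynomial.comp_aeval]
      congr 2
      funext i
      rw [hY, map_sum]
      refine Finset.sum_congr rfl (fun j _ => ?_)
      rw [map_mul, MvPolynomial.aeval_X, MvPolynomial.aeval_C,
        Algebra.TensorProduct.algebraMap_apply, Algebra.TensorProduct.tmul_mul_tmul]
      simp
    rw [h1]
    have h2 : MvPolynomial.aeval (fun q => (1 : K) ⊗ₜ[ℚ_[p]] z q) F =
        ∑ I ∈ F.support, (F.coeff I) ⊗ₜ[ℚ_[p]] (∏ q, z q ^ I q) := by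
      rw [MvPolynomial.aeval_def, MvPolynomial.eval₂_eq']
      refine Finset.sum_congr rfl (fun I _ => ?_)
      have h3 : (∏ q, ((1 : K) ⊗ₜ[ℚ_[p]] z q) ^ I q) = (1 : K) ⊗ₜ[ℚ_[p]] (∏ q, z q ^ I q) := by
        have := map_prod (Algebra.TensorProduct.includeRight (R := ℚ_[p]) (A := K) (B := M))
          (fun q => z q ^ I q) Finset.univ
        simp only [map_pow, Algebra.TensorProduct.includeRight_apply] at this
        exact this.symm
      rw [h3, Algebra.TensorProduct.algebraMap_apply, Algebra.TensorProduct.tmul_mul_tmul]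
      simp
    rw [h2]
    have hβ0 : algebraMap ℤ_[p] ℚ_[p] (β : ℤ_[p]) ≠ 0 := by
      have := nonZeroDivisors.ne_zero β.2
      intro hcon
      exact this ((IsFractionRing.injective ℤ_[p] ℚ_[p]) (by rw [hcon, map_zero]))
    have h4 : (algebraMap ℤ_[p] ℚ_[p] (β : ℤ_[p])) •
        (∑ I ∈ F.support, (F.coeff I) ⊗ₜ[ℚ_[p]] (∏ q, z q ^ I q)) = 0 := by
      rw [Finset.smul_sum]
      have h5 : ∀ I ∈ F.support, (algebraMap ℤ_[p] ℚ_[p] (β : ℤ_[p])) •
          ((F.coeff I) ⊗ₜ[ℚ_[p]] (∏ q, z q ^ I q)) =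
          ∑ k, ω k ⊗ₜ[ℚ_[p]] (algebraMap ℚ_[p] M (c k I : ℚ_[p]) * ∏ q, z q ^ I q) := by
        intro I hI
        conv_lhs => rw [← ω.sum_repr (F.coeff I)]
        rw [TensorProduct.sum_tmul, Finset.smul_sum]
        refine Finset.sum_congr rfl (fun k _ => ?_)
        rw [← Algebra.smul_def, TensorProduct.smul_tmul, ← TensorProduct.tmul_smul, smul_smul]
        congr 2
        have := hc k I hI
        rw [Algebra.smul_def] at this
        exact this.symm
      rw [Finset.sum_congr rfl h5, Finset.sum_comm]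
      apply Finset.sum_eq_zero
      intro k _
      rw [← TensorProduct.tmul_sum, hGz k, TensorProduct.tmul_zero]
    exact (smul_eq_zero.mp h4).resolve_left hβ0
  obtain ⟨i₀, hi₀⟩ := hY0
  obtain ⟨L, _, _, φ, hL1, hL2, hL3⟩ := exists_compositum ℚ_[p] K M (Y i₀) hi₀
  refine ⟨L, inferInstance, inferInstance, hL1, ?_, fun i => φ (Y i), ?_, ?_⟩
  · intro hdvd
    exact hs (hMs ▸ hdvd.trans hL2)
  · intro hcon
    exact hL3 (congrFun hcon i₀)
  · have : MvPolynomial.aeval (fun i => φ (Y i)) f = φ (MvPolynomial.aeval Y f) := by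
      rw [← AlgHom.comp_apply, MvPolynomial.comp_aeval]
    rw [this, hYf, map_zero]

theorem final (p : ℕ) [Fact p.Prime] (K : Type) [Field K] [Algebra (Padic p) K]
    [FiniteDimensional (Padic p) K]
    (n d : ℕ) (f : MvPolynomial (Fin (n + 1)) K)
    (hd : 1 ≤ d) (hn : d ^ 2 ≤ n) (hf0 : f ≠ 0) (hf : f.IsHomogeneous d) (ℓ : ℕ)
    (hℓ : ℓ.Prime) :
      ∃ (L : Type) (_ : Field L) (_ : Algebra K L),
        FiniteDimensional K L ∧ ¬ ℓ ∣ Module.finrank K L ∧
        ∃ x : Fin (n + 1) → L, x ≠ 0 ∧ MvPolynomial.aeval x f = 0 := by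
  have hle : ℓ ^ padicValNat ℓ d ≤ d := Nat.le_of_dvd hd pow_padicValNat_dvd
  have hmul : d * ℓ ^ padicValNat ℓ d ≤ n := by
    calc d * ℓ ^ padicValNat ℓ d ≤ d * d := Nat.mul_le_mul_left d hle
      _ = d ^ 2 := (sq d).symm
      _ ≤ n := hn
  by_cases hne : ℓ = p
  · subst hne
    refine final_of_system ℓ K n d f hf ℓ fun G hG => ?_
    refine system_zero_zp_p _ (Module.finrank ℚ_[ℓ] K) d Module.finrank_pos hd G hG ?_
    rw [Fintype.card_prod, Fintype.card_fin, Fintype.card_fin]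
    exact Nat.mul_le_mul_left _ (Nat.succ_le_succ hmul)
  · exact main p K n d f hd hf ℓ hℓ (Or.inl ⟨hne, hmul⟩)

end Pool.Agent.W_MP_b723a0_ag.P
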