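import Mathlib
import Pool.Agent.W_MP_b723a0_ag.ChoosePeriod
import Pool.Agent.W_MP_b723a0_ag.P.Defs
import Pool.Agent.W_MP_b723a0_ag.P.HilBasics

/-!
# Task E6: the Hilbert function of the zero ideal

For `q = 0`, `hil ⊥ m = C(m 0 + N, N)` (see `finrank_homogeneousSubmodule` in `Hilb.lean` for the
number of monomials), and `(fwd^[r] (hil ⊥)) m = C(m 0 + N, N - r)` for `r ≤ N` (Pascal). For
`m 0 = p^T A - r` with `p^T > N` we get `C(p^T A + N - r, N - r) ≡ C(N - r, N - r) = 1` mod `p`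
(Lucas; see also `choose_period` in `ChoosePeriod.lean`), for arbitrarily large `A`. So
`Kill p r ⊥` forces `r ≥ N + 1`.
-/

namespace Pool.Agent.W_MP_b723a0_ag.P

theorem kb_weight {N : ℕ} (d : Vr N 0 →₀ ℕ) (m : Fin (0 + 1) → ℕ) :
    Finsupp.weight (wt N 0) d = m ↔ d.degree = m 0 := by
  have h1 : Finsupp.weight (wt N 0) d 0 = d.degree := by
    rw [Finsupp.weight_apply, Finsupp.sum, Finset.sum_apply, Finsupp.degree_apply]
    refine Finset.sum_congr rfl fun x _ => ?_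
    have h2 : gidx x = 0 := Subsingleton.elim (α := Fin 1) _ _
    simp [wt, h2]
  constructor
  · intro h
    rw [← h1, h]
  · intro h
    funext k
    have hk : k = 0 := Subsingleton.elim (α := Fin 1) _ _
    subst hk
    rw [h1, h]

theorem kb_finrank (κ : Type) [Field κ] (N : ℕ) (m : Fin (0 + 1) → ℕ) :
    Module.finrank κ (Sm κ N 0 m) = (m 0 + N).choose N := by
  have h0 : Sm κ N 0 m = MvPolynomial.restrictSupport κ {d | Finsupp.weight (wt N 0) d = m} :=
    MvPolynomial.weightedHomogeneousSubmodule_eq_finsupp_supported _ _ _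
  rw [h0, Module.finrank_eq_nat_card_basis
    (MvPolynomial.basisRestrictSupport κ {d : Vr N 0 →₀ ℕ | Finsupp.weight (wt N 0) d = m})]
  have h2 : {d : Vr N 0 →₀ ℕ | Finsupp.weight (wt N 0) d = m} =
      ((Finset.univ : Finset (Vr N 0)).finsuppAntidiag (m 0) : Set (Vr N 0 →₀ ℕ)) := by
    ext d
    rw [Set.mem_ofPred_eq, kb_weight]
    simp [Finset.mem_finsuppAntidiag, Finsupp.degree_eq_sum]
  rw [h2, Nat.card_coe_set_eq, Set.ncard_coe_finset, Finset.card_finsuppAntidiag_nat_eq_choose,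
    Finset.card_univ]
  have h3 : Fintype.card (Vr N 0) = N + 1 := by
    simp [Vr]
  rw [h3, show N + 1 + m 0 - 1 = m 0 + N by omega]
  exact Nat.choose_symm_add

theorem kb_hil {κ : Type} [Field κ] {N : ℕ} (m : Fin (0 + 1) → ℕ) :
    hil (⊥ : Ideal (Sr κ N 0)) m = (m 0 + N).choose N := by
  unfold hil
  have h1 : Sm κ N 0 m ⊓ (⊥ : Ideal (Sr κ N 0)).restrictScalars κ = ⊥ := by
    rw [Submodule.restrictScalars_bot, inf_bot_eq]
  rw [h1, finrank_bot, kb_finrank]
  simp

theorem kb_fwd (p N : ℕ) (r : ℕ) : ∀ j : ℕ,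
    (fwd^[r] (fun m : Fin (0 + 1) → ℕ => (((m 0 + N).choose (j + r) : ℕ) : ZMod p))) =
      fun m => (((m 0 + N).choose j : ℕ) : ZMod p) := by
  induction r with
  | zero => intro j; rfl
  | succ r ih =>
    intro j
    rw [Function.iterate_succ_apply]
    have h1 : fwd (fun m : Fin (0 + 1) → ℕ => (((m 0 + N).choose (j + (r + 1)) : ℕ) : ZMod p)) =
        fun m => (((m 0 + N).choose (j + r) : ℕ) : ZMod p) := by
      funext m
      show (((((m + e0 0) 0 + N).choose (j + (r + 1)) : ℕ) : ZMod p)) -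
        (((m 0 + N).choose (j + (r + 1)) : ℕ) : ZMod p) = _
      have h2 : (m + e0 0) 0 + N = (m 0 + N) + 1 := by
        simp only [Pi.add_apply, e0, Pi.single_eq_same]
        omega
      rw [h2, show j + (r + 1) = (j + r) + 1 by omega, Nat.choose_succ_succ]
      push_cast
      ring
    rw [h1, ih j]

theorem le_of_kill_bot {p : ℕ} [Fact p.Prime] {κ : Type} [Field κ] {N r : ℕ}
    (h : Kill p r (⊥ : Ideal (Sr κ N 0))) : N + 1 ≤ r := by
  by_contra hr
  obtain ⟨B, hB⟩ := h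
  obtain ⟨n, hn⟩ : ∃ n, N = n + r := ⟨N - r, by omega⟩
  have hp : p.Prime := Fact.out
  have ht : n < p ^ n := Nat.lt_pow_self hp.one_lt
  have hk : B + N ≤ (B + N) * p ^ n := Nat.le_mul_of_pos_right _ (pow_pos hp.pos n)
  obtain ⟨a, ha⟩ : ∃ a, a + N = n + (B + N) * p ^ n := ⟨n + (B + N) * p ^ n - N, by omega⟩
  have h1 := hB (fun _ => a) (fun _ => by omega)
  have h2 : (fun m : Fin (0 + 1) → ℕ => ((hil (⊥ : Ideal (Sr κ N 0)) m : ℤ) : ZMod p)) =
      fun m => (((m 0 + N).choose (n + r) : ℕ) : ZMod p) := by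
    funext m
    rw [kb_hil, ← hn]
    push_cast
    rfl
  rw [h2, kb_fwd] at h1
  have h3 : (((a + N).choose n : ℕ) : ZMod p) = 0 := h1
  rw [ha, ZMod.natCast_eq_zero_iff] at h3
  have h4 := choose_add_mul_pow_modEq p n n hp ht n (B + N)
  rw [Nat.choose_self] at h4
  have h5 := h4.symm.trans ((Nat.modEq_zero_iff_dvd).2 h3)
  exact hp.one_lt.ne' (Nat.dvd_one.1 ((Nat.modEq_zero_iff_dvd).1 h5))

end Pool.Agent.W_MP_b723a0_ag.P
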