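import Mathlib
import Pool.Agent.W_MP_b723a0_ag.P.Defs
import Pool.Agent.W_MP_b723a0_ag.P.HilBasics
import Pool.Agent.W_MP_b723a0_ag.P.PtBasics
import Pool.Agent.W_MP_b723a0_ag.P.ArtinSchreier
import Pool.Agent.W_MP_b723a0_ag.P.HolLoc
import Pool.Agent.W_MP_b723a0_ag.P.RegBasics

/-!
# Task M3c: sections

Let `P ∈ K` be such that `P/z_l^d ∈ 𝔸_m` for all maximal ideals `m` of `𝔸 = hol p κ K` and all `l`
with `z_l ≠ 0` and `z_b/z_l ∈ 𝔸_m` for all `b`. We find an extension `pt'` of `pt` and forms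
`s` of degree `d • e0 + (e C) • degQ` with `ev s = P · ev(Q)^{e C}` (for finitely many `P` at once;
`e ≥ 1` is given, in the application `e = p^S`).

Proof. Step 1. Let `c0` with `d ≤ c0 p^N`, and `J : Fin (N+1) → ℕ` with `|J| + d = c0 p^N`. Then
`P z^J / nf(z)^{c0} ∈ 𝔸`: by `mem_of_forall_inLoc` check it in `V = 𝔸_m`; with `l` from
`exists_min_coord`, it is `(P/z_l^d) ∏ (z_b/z_l)^{J_b} ((nf(z/z_l))⁻¹)^{c0}` (`nf_scale`), and
`nf_inv` applies to `ζ = z/z_l`.
Step 2. By `exists_ext_reg` (finitely many `J` and `P`) there is an extension `pt'` at which all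
these elements are regular, by `reg_common` with a common exponent `c1`:
`P z^J / nf(z)^{c0} · ev(Q)^{c1} = ev a_J`, `a_J ∈ Sm (c1 • degQ)`. (`pt'.z = pt.z`: `ext_z`.)
Step 3. The form `nf(Z)^{c0} ∈ S` is homogeneous of degree `c0 p^N • e0 = (|J| + d) • e0`; each of
its monomials is divisible by a monomial `Z^J` with `|J| = c0 p^N - d`; so
`nf(Z)^{c0} = ∑_J λ_J Z^J`, `λ_J ∈ Sm (d • e0)`, a finite sum over such `J`. Hence
`P ev(Q)^{c1} = ∑_J ev(λ_J) · (P z^J/nf(z)^{c0}) · ev(Q)^{c1} = ev (∑_J λ_J a_J)` where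
`∑ λ_J a_J` is homogeneous of degree `d • e0 + c1 • degQ`.
Step 4. Multiply by a power of `Q` to replace `c1` by `e * c1` (`e ≥ 1`).
-/

namespace Pool.Agent.W_MP_b723a0_ag.P

theorem sr_nf_hom (p : ℕ) (hp : 1 ≤ p) {R σ : Type*} [CommRing R] (n : ℕ) :
    ∀ z : Fin (n + 1) → MvPolynomial σ R, (∀ j, (z j).IsHomogeneous 1) →
      (nf p n z).IsHomogeneous (p ^ n) := by
  induction n with
  | zero =>
    intro z hz
    simpa [nf] using hz 0
  | succ n ih =>
    intro z hz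
    have hu := ih (fun j => z j.castSucc) (fun j => hz _)
    have hv : (z (Fin.last (n + 1)) ^ p ^ n).IsHomogeneous (p ^ n) := by
      have := (hz (Fin.last (n + 1))).pow (p ^ n)
      simpa using this
    show (asf p (nf p n (fun j => z j.castSucc)) (z (Fin.last (n + 1)) ^ p ^ n)).IsHomogeneous _
    unfold asf
    have h1 := hu.pow p
    have h3 := hv.pow p
    have h2 := hu.mul (hv.pow (p - 1))
    have e2 : p ^ n + p ^ n * (p - 1) = p ^ (n + 1) := by
      obtain ⟨m, rfl⟩ : ∃ m, p = m + 1 := ⟨p - 1, by omega⟩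
      simp only [Nat.add_sub_cancel]
      ring
    rw [e2] at h2
    rw [← pow_succ] at h1 h3
    exact (h1.sub h2).sub h3

theorem sr_exists_le {σ : Type*} (d : ℕ) (μ : σ →₀ ℕ) (h : d ≤ μ.degree) :
    ∃ ρ : σ →₀ ℕ, ρ ≤ μ ∧ ρ.degree = d := by
  induction d with
  | zero => exact ⟨0, by simp, by simp⟩
  | succ d ih =>
    obtain ⟨ρ, hρ, hd⟩ := ih (by omega)
    have hne : ρ ≠ μ := by
      rintro rfl
      omega
    have : ∃ b, ρ b < μ b := by
      by_contra hcon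
      push Not at hcon
      exact hne (le_antisymm hρ (fun b => hcon b))
    obtain ⟨b, hb⟩ := this
    classical
    refine ⟨ρ + Finsupp.single b 1, ?_, ?_⟩
    · intro c
      by_cases hc : c = b
      · subst hc
        simpa using hb
      · have : (Finsupp.single b 1 : σ →₀ ℕ) c = 0 := by
          rw [Finsupp.single_apply, if_neg (fun h => hc h.symm)]
        simpa [this] using hρ c
    · rw [map_add, hd, Finsupp.degree_single]

theorem sr_prod_mem {κ : Type} [Field κ] {N q : ℕ} (ρ : Fin (N + 1) →₀ ℕ) :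
    (∏ b, (MvPolynomial.X (Sum.inl b) : Sr κ N q) ^ ρ b) ∈ Sm κ N q (ρ.degree • e0 q) := by
  have h := MvPolynomial.IsWeightedHomogeneous.prod (w := wt N q) Finset.univ
    (fun b => (MvPolynomial.X (Sum.inl b) : Sr κ N q) ^ ρ b) (fun b => ρ b • e0 q) (by
      intro b _
      have h1 := MvPolynomial.isWeightedHomogeneous_X κ (wt N q) (Sum.inl b : Vr N q)
      exact h1.pow (ρ b))
  rw [← Finset.sum_smul] at h
  have : ρ.degree = ∑ b, ρ b := by
    rw [Finsupp.degree_eq_sum]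
  rw [this]
  exact h

theorem sr_ev_prod {κ : Type} [Field κ] {K : Type} [Field K] [Algebra κ K] {N q : ℕ}
    (pt : Pt N q K) (ρ : Fin (N + 1) →₀ ℕ) :
    pt.ev κ (∏ b, (MvPolynomial.X (Sum.inl b) : Sr κ N q) ^ ρ b) = ∏ b, pt.z b ^ ρ b := by
  simp [Pt.ev, Pt.val]

theorem sr_mem_hol {p : ℕ} [Fact p.Prime] {κ : Type} [Field κ] {K : Type} [Field K]
    [Algebra κ K] {N q : ℕ} (hAS : ASFree p K) (pt : Pt N q K) (d : ℕ) (P : K)
    (hP : ∀ (m : Ideal (hol p κ K).toSubring), m.IsMaximal → ∀ l, pt.z l ≠ 0 →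
        (∀ b, InLoc (hol p κ K).toSubring m (pt.z b / pt.z l)) →
        InLoc (hol p κ K).toSubring m (P / pt.z l ^ d))
    (J : Fin (N + 1) →₀ ℕ) (hJ : J.degree + d = p ^ N * d) :
    P * (∏ b, pt.z b ^ J b) / (nf p N pt.z) ^ d ∈ (hol p κ K).toSubring := by
  have hp : 1 ≤ p := (Fact.out : p.Prime).one_le
  apply mem_of_forall_inLoc
  intro m hm
  obtain ⟨V, hV⟩ := exists_locRing _ (hol_locVal (κ := κ) hAS) m hm
  obtain ⟨l, hl, hlj⟩ := exists_min_coord (κ := κ) hAS m hm pt.z pt.hz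
  have h1 := hP m hm l hl hlj
  have h2 := nf_inv (κ := κ) hAS m hm N (fun j => pt.z j / pt.z l) hlj l (div_self hl)
  rw [← hV] at h1 h2 ⊢
  have hlj' : ∀ j, pt.z j / pt.z l ∈ V := fun j => (hV _).2 (hlj j)
  have h3 : (∏ b, (pt.z b / pt.z l) ^ J b) ∈ V :=
    Subring.prod_mem V.toSubring (fun b _ => Subring.pow_mem _ (hlj' b) _)
  have h4 : nf p N pt.z = pt.z l ^ p ^ N * nf p N (fun j => pt.z j / pt.z l) := by
    rw [← nf_scale p hp]
    congr 1
    funext j
    field_simp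
  have h5 : (∏ b, pt.z b ^ J b) = pt.z l ^ J.degree * ∏ b, (pt.z b / pt.z l) ^ J b := by
    have : J.degree = ∑ b, J b := by rw [Finsupp.degree_eq_sum]
    rw [this, ← Finset.prod_pow_eq_pow_sum, ← Finset.prod_mul_distrib]
    refine Finset.prod_congr rfl (fun b _ => ?_)
    rw [← mul_pow]
    congr 1
    field_simp
  have h6 : P * (∏ b, pt.z b ^ J b) / (nf p N pt.z) ^ d =
      P / pt.z l ^ d * (∏ b, (pt.z b / pt.z l) ^ J b) *
        ((nf p N (fun j => pt.z j / pt.z l))⁻¹) ^ d := by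
    rw [h4, h5, mul_pow, ← pow_mul, ← hJ, pow_add, inv_pow]
    have : pt.z l ^ J.degree ≠ 0 := pow_ne_zero _ hl
    have : pt.z l ^ d ≠ 0 := pow_ne_zero _ hl
    by_cases h0 : (nf p N (fun j => pt.z j / pt.z l)) ^ d = 0
    · rw [h0]; simp
    · field_simp
  rw [h6]
  exact V.mul_mem _ _ (V.mul_mem _ _ h1 h3) (Subring.pow_mem V.toSubring h2 d)

theorem exists_sections {p : ℕ} [Fact p.Prime] {κ : Type} [Field κ] {K : Type} [Field K]
    [Algebra κ K] {N q : ℕ} (hAS : ASFree p K) (pt : Pt N q K) (d e : ℕ) (he : 1 ≤ e)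
    {ι : Type} [Finite ι] (P : ι → K)
    (hP : ∀ s (m : Ideal (hol p κ K).toSubring), m.IsMaximal → ∀ l, pt.z l ≠ 0 →
        (∀ b, InLoc (hol p κ K).toSubring m (pt.z b / pt.z l)) →
        InLoc (hol p κ K).toSubring m (P s / pt.z l ^ d)) :
    ∃ (q' : ℕ) (pt' : Pt N q' K), Ext pt pt' ∧ ∃ (C : ℕ) (s : ι → Sr κ N q'),
      ∀ j, s j ∈ Sm κ N q' (d • e0 q' + (e * C) • degQ p N q') ∧
        pt'.ev κ (s j) = P j * pt'.ev κ (Qf p κ N q') ^ (e * C) := by
  classical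
  have hp : 1 ≤ p := (Fact.out : p.Prime).one_le
  -- the polynomial `nf(Z)^d`
  set G : MvPolynomial (Fin (N + 1)) κ := nf p N (fun j => MvPolynomial.X j) ^ d with hG
  have hGhom : G.IsHomogeneous (p ^ N * d) :=
    (sr_nf_hom p hp N _ (fun j => MvPolynomial.isHomogeneous_X κ j)).pow d
  have hdeg : ∀ μ ∈ G.support, μ.degree = p ^ N * d := by
    intro μ hμ
    have := hGhom (MvPolynomial.mem_support_iff.1 hμ)
    rw [Finsupp.degree_eq_weight_one (R := ℕ)]
    exact this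
  have hex : ∀ μ : {μ // μ ∈ G.support}, ∃ ρ : Fin (N + 1) →₀ ℕ, ρ ≤ μ.1 ∧ ρ.degree = d := by
    intro μ
    apply sr_exists_le
    rw [hdeg μ.1 μ.2]
    exact Nat.le_mul_of_pos_left d (pow_pos hp N)
  choose ρ hρ hρd using hex
  have hJ : ∀ μ : {μ // μ ∈ G.support}, (μ.1 - ρ μ).degree + d = p ^ N * d := by
    intro μ
    rw [← hdeg μ.1 μ.2]
    conv_lhs => rw [← hρd μ, ← map_add, tsub_add_cancel_of_le (hρ μ)]
  obtain ⟨q', pt', hext, hreg⟩ := exists_ext_reg (κ := κ) hAS pt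
    (ι := ι × {μ // μ ∈ G.support})
    (fun j => P j.1 * (∏ b, pt.z b ^ (j.2.1 - ρ j.2) b) / (nf p N pt.z) ^ d)
    (fun j => sr_mem_hol hAS pt d (P j.1) (hP j.1) _ (hJ j.2))
  obtain ⟨c1, a, ha⟩ := reg_common pt' _ hreg
  have hz : pt'.z = pt.z := ext_z hext
  have hnf : nf p N pt.z ≠ 0 := by
    intro h0
    have := nf_eq_zero hp hAS N pt.z h0
    obtain ⟨j, hj⟩ := pt.hz
    exact hj (by rw [this]; rfl)
  have hGz : ∑ μ ∈ G.support.attach, algebraMap κ K (G.coeff μ.1) * ∏ b, pt.z b ^ μ.1 b =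
      (nf p N pt.z) ^ d := by
    rw [Finset.sum_attach G.support
      (fun μ => algebraMap κ K (G.coeff μ) * ∏ b, pt.z b ^ μ b)]
    have h1 : MvPolynomial.aeval pt.z G = (nf p N pt.z) ^ d := by
      rw [hG, map_pow]
      congr 1
      have := map_nf p (MvPolynomial.aeval (R := κ) pt.z).toRingHom N
        (fun j => MvPolynomial.X j)
      simpa using this
    rw [← h1, MvPolynomial.aeval_def, MvPolynomial.eval₂_eq']
  refine ⟨q', pt', hext, c1, fun j => (∑ μ ∈ G.support.attach,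
    G.coeff μ.1 • ((∏ b, (MvPolynomial.X (Sum.inl b) : Sr κ N q') ^ ρ μ b) * a (j, μ))) *
      Qf p κ N q' ^ (e * c1 - c1), ?_⟩
  intro j
  have hle : c1 ≤ e * c1 := Nat.le_mul_of_pos_left c1 he
  constructor
  · have h1 : (∑ μ ∈ G.support.attach,
        G.coeff μ.1 • ((∏ b, (MvPolynomial.X (Sum.inl b) : Sr κ N q') ^ ρ μ b) * a (j, μ))) ∈
        Sm κ N q' (d • e0 q' + c1 • degQ p N q') := by
      refine Submodule.sum_mem _ (fun μ _ => Submodule.smul_mem _ _ ?_)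
      have h2 := MvPolynomial.IsWeightedHomogeneous.mul (sr_prod_mem (κ := κ) (q := q') (ρ μ))
        (ha (j, μ)).1
      rw [hρd μ] at h2
      exact h2
    have h3 := MvPolynomial.IsWeightedHomogeneous.mul h1
      (MvPolynomial.IsWeightedHomogeneous.pow (Qf_mem (κ := κ) (N := N) (q := q') p hp)
        (e * c1 - c1))
    have h4 : d • e0 q' + c1 • degQ p N q' + (e * c1 - c1) • degQ p N q' =
        d • e0 q' + (e * c1) • degQ p N q' := by
      rw [add_assoc, ← add_smul, Nat.add_sub_cancel' hle]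
    rw [h4] at h3
    exact h3
  · rw [map_mul, map_sum, map_pow]
    have h5 : ∀ μ ∈ G.support.attach, pt'.ev κ (G.coeff μ.1 •
        ((∏ b, (MvPolynomial.X (Sum.inl b) : Sr κ N q') ^ ρ μ b) * a (j, μ))) =
        (algebraMap κ K (G.coeff μ.1) * ∏ b, pt.z b ^ μ.1 b) *
          (P j / (nf p N pt.z) ^ d * pt'.ev κ (Qf p κ N q') ^ c1) := by
      intro μ _
      rw [map_smul, map_mul, sr_ev_prod, ← (ha (j, μ)).2, hz, Algebra.smul_def]
      have h6 : (∏ b, pt.z b ^ μ.1 b) =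
          (∏ b, pt.z b ^ ρ μ b) * ∏ b, pt.z b ^ (μ.1 - ρ μ) b := by
        rw [← Finset.prod_mul_distrib]
        refine Finset.prod_congr rfl (fun b _ => ?_)
        rw [← pow_add]
        congr 1
        have := hρ μ b
        simp only [Finsupp.coe_tsub, Pi.sub_apply]
        omega
      rw [h6]
      simp only []
      ring
    rw [Finset.sum_congr rfl h5, ← Finset.sum_mul, hGz]
    have h7 : (nf p N pt.z) ^ d ≠ 0 := pow_ne_zero _ hnf
    have h8 : pt'.ev κ (Qf p κ N q') ^ (e * c1) =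
        pt'.ev κ (Qf p κ N q') ^ c1 * pt'.ev κ (Qf p κ N q') ^ (e * c1 - c1) := by
      rw [← pow_add, Nat.add_sub_cancel' hle]
    rw [h8]
    field_simp

end Pool.Agent.W_MP_b723a0_ag.P
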